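import Pool.Agent.Lib.Skw.Pln

set_option autoImplicit false

/-!
# A totally skew torus in `ℝ^7` (MP_3c016c_gt)

`tor (α, β) = (e^{iα}, e^{iβ}, i e^{2iα} + (1+i) e^{2iβ} + 2 e^{i(α+β)}, 2 cos (α-β))`.
-/

open scoped ContDiff
open Real

namespace Pool.Agent.Lib.Skw

/-- The embedding. -/
noncomputable def tor (p : ℝ × ℝ) : EuclideanSpace ℝ (Fin 7) :=
  !₂[cos p.1, sin p.1, cos p.2, sin p.2,
    -sin (2 * p.1) + cos (2 * p.2) - sin (2 * p.2) + 2 * cos (p.1 + p.2),
    cos (2 * p.1) + sin (2 * p.2) + cos (2 * p.2) + 2 * sin (p.1 + p.2),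
    2 * cos (p.1 - p.2)]

/-! ### trigonometry -/

theorem tor_a (A s g h l : ℝ)
    (E0 : g * (-sin (A + s)) + h * (-sin (A - s)) + l * (cos (A + s) - cos (A - s)) = 0)
    (E1 : g * cos (A + s) + h * cos (A - s) + l * (sin (A + s) - sin (A - s)) = 0) :
    (g + h) * cos s + 2 * l * sin s = 0 ∧ (g - h) * sin s = 0 := by
  simp only [cos_add, sin_add, cos_sub, sin_sub] at E0 E1
  have hA := sin_sq_add_cos_sq A
  constructor
  · linear_combination cos A * E1 - sin A * E0 - ((g + h) * cos s + 2 * l * sin s) * hA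
  · linear_combination -cos A * E0 - sin A * E1 - ((g - h) * sin s) * hA

theorem tor_b (P ψ s t g0 g1 g2 g3 l : ℝ)
    (E4 : g0 * (-2 * cos (P + ψ + s + s) - 2 * sin (P + (s + t))) +
      g1 * (-2 * sin (P - ψ + t + t) - 2 * cos (P - ψ + t + t) - 2 * sin (P + (s + t))) +
      g2 * (-2 * cos (P + ψ - s - s) - 2 * sin (P - (s + t))) +
      g3 * (-2 * sin (P - ψ - t - t) - 2 * cos (P - ψ - t - t) - 2 * sin (P - (s + t))) +
      l * ((-sin (P + ψ + s + s) + cos (P - ψ + t + t) - sin (P - ψ + t + t) +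
        2 * cos (P + (s + t))) - (-sin (P + ψ - s - s) + cos (P - ψ - t - t) -
        sin (P - ψ - t - t) + 2 * cos (P - (s + t)))) = 0)
    (E5 : g0 * (-2 * sin (P + ψ + s + s) + 2 * cos (P + (s + t))) +
      g1 * (2 * cos (P - ψ + t + t) - 2 * sin (P - ψ + t + t) + 2 * cos (P + (s + t))) +
      g2 * (-2 * sin (P + ψ - s - s) + 2 * cos (P - (s + t))) +
      g3 * (2 * cos (P - ψ - t - t) - 2 * sin (P - ψ - t - t) + 2 * cos (P - (s + t))) +
      l * ((cos (P + ψ + s + s) + sin (P - ψ + t + t) + cos (P - ψ + t + t) +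
        2 * sin (P + (s + t))) - (cos (P + ψ - s - s) + sin (P - ψ - t - t) +
        cos (P - ψ - t - t) + 2 * sin (P - (s + t)))) = 0)
    (h1 : (g0 + g2) * cos s + 2 * l * sin s = 0) (h2 : (g0 - g2) * sin s = 0)
    (h3 : (g1 + g3) * cos t + 2 * l * sin t = 0) (h4 : (g1 - g3) * sin t = 0) :
    sin ψ * (g0 + g2) * sin s ^ 2 - (cos ψ + sin ψ) * (g1 + g3) * sin t ^ 2 -
      (g0 + g2 + (g1 + g3)) * (sin s * sin t) = 0 ∧
    cos ψ * (g0 + g2) * sin s ^ 2 + (cos ψ - sin ψ) * (g1 + g3) * sin t ^ 2 -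
      ((g0 - g2) * (cos s * sin t) + (g1 - g3) * (sin s * cos t)) = 0 := by
  simp only [cos_add, sin_add, cos_sub, sin_sub] at E4 E5
  have hP := sin_sq_add_cos_sq P
  generalize cos P = cP at *
  generalize sin P = sP at *
  generalize cos ψ = p at *
  generalize sin ψ = σ at *
  generalize cos s = C at *
  generalize sin s = S at *
  generalize cos t = D at *
  generalize sin t = T at *
  have Zr : -σ * ((g0 + g2) * (C ^ 2 - S ^ 2) + l * (2 * S * C)) - p * ((g0 - g2) * (2 * S * C)) +
      (p + σ) * ((g1 + g3) * (D ^ 2 - T ^ 2) + l * (2 * T * D)) -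
      (p - σ) * ((g1 - g3) * (2 * T * D)) +
      ((g0 + g2 + (g1 + g3)) * (C * D - S * T) + 2 * l * (S * D + C * T)) = 0 := by
    linear_combination (-sP / 2) * E4 + (cP / 2) * E5 -
      (-σ * ((g0 + g2) * (C ^ 2 - S ^ 2) + l * (2 * S * C)) - p * ((g0 - g2) * (2 * S * C)) +
      (p + σ) * ((g1 + g3) * (D ^ 2 - T ^ 2) + l * (2 * T * D)) -
      (p - σ) * ((g1 - g3) * (2 * T * D)) +
      ((g0 + g2 + (g1 + g3)) * (C * D - S * T) + 2 * l * (S * D + C * T))) * hP
  have Zi : p * ((g0 + g2) * (C ^ 2 - S ^ 2) + l * (2 * S * C)) - σ * ((g0 - g2) * (2 * S * C)) +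
      (p - σ) * ((g1 + g3) * (D ^ 2 - T ^ 2) + l * (2 * T * D)) +
      (p + σ) * ((g1 - g3) * (2 * T * D)) +
      (g0 - g2 + (g1 - g3)) * (S * D + C * T) = 0 := by
    linear_combination (-cP / 2) * E4 + (-sP / 2) * E5 -
      (p * ((g0 + g2) * (C ^ 2 - S ^ 2) + l * (2 * S * C)) - σ * ((g0 - g2) * (2 * S * C)) +
      (p - σ) * ((g1 + g3) * (D ^ 2 - T ^ 2) + l * (2 * T * D)) +
      (p + σ) * ((g1 - g3) * (2 * T * D)) +
      (g0 - g2 + (g1 - g3)) * (S * D + C * T)) * hP
  constructor
  · linear_combination Zr + σ * C * h1 + p * (2 * C) * h2 - (p + σ) * D * h3 +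
      (p - σ) * (2 * D) * h4 - D * h1 - C * h3
  · linear_combination -Zi + p * C * h1 - σ * (2 * C) * h2 + (p - σ) * D * h3 +
      (p + σ) * (2 * D) * h4 + D * h2 + C * h4

theorem tor_c (ψ s t g0 g1 g2 g3 l : ℝ)
    (E6 : g0 * (-2 * sin (ψ + (s - t))) + g1 * (2 * sin (ψ + (s - t))) +
      g2 * (-2 * sin (ψ - (s - t))) + g3 * (2 * sin (ψ - (s - t))) +
      l * (2 * cos (ψ + (s - t)) - 2 * cos (ψ - (s - t))) = 0)
    (h1 : (g0 + g2) * cos s + 2 * l * sin s = 0) (h2 : (g0 - g2) * sin s = 0)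
    (h3 : (g1 + g3) * cos t + 2 * l * sin t = 0) (h4 : (g1 - g3) * sin t = 0) :
    sin ψ * (g0 + g2 - (g1 + g3)) * (sin s * sin t) -
      cos ψ * ((g0 - g2) * (cos s * sin t) + (g1 - g3) * (sin s * cos t)) = 0 := by
  simp only [cos_add, sin_add, cos_sub, sin_sub] at E6
  linear_combination (-1 / 2) * E6 - sin ψ * cos t * h1 + sin ψ * cos s * h3 -
    cos ψ * cos t * h2 - cos ψ * cos s * h4

/-! ### algebra -/

theorem tor_alg {a b m n l p σ S C T D : ℝ} (hp : σ ^ 2 + p ^ 2 = 1) (hS : S ^ 2 + C ^ 2 = 1)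
    (hT : T ^ 2 + D ^ 2 = 1) (hne : ¬(S = 0 ∧ T = 0))
    (h1 : a * C + 2 * l * S = 0) (h2 : m * S = 0) (h3 : b * D + 2 * l * T = 0) (h4 : n * T = 0)
    (h5 : σ * a * S ^ 2 - (p + σ) * b * T ^ 2 - (a + b) * (S * T) = 0)
    (h6 : p * a * S ^ 2 + (p - σ) * b * T ^ 2 - (m * (C * T) + n * (S * D)) = 0)
    (h7 : σ * (a - b) * (S * T) - p * (m * (C * T) + n * (S * D)) = 0) :
    a = 0 ∧ b = 0 ∧ m = 0 ∧ n = 0 ∧ l = 0 := by
  by_cases hS0 : S = 0
  · have hT0 : T ≠ 0 := fun h => hne ⟨hS0, h⟩
    subst hS0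
    have hC : C ≠ 0 := by
      rintro rfl
      norm_num at hS
    have ha : a = 0 := by
      have : a * C = 0 := by linarith
      exact (mul_eq_zero.mp this).resolve_right hC
    have hn : n = 0 := (mul_eq_zero.mp h4).resolve_right hT0
    subst ha hn
    have h5' : (p + σ) * b = 0 := by
      have : (p + σ) * b * T ^ 2 = 0 := by linarith
      exact (mul_eq_zero.mp this).resolve_right (pow_ne_zero _ hT0)
    have h7' : p * (m * (C * T)) = 0 := by linarith
    have hb : b = 0 := by
      by_contra hb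
      have hps : p + σ = 0 := (mul_eq_zero.mp h5').resolve_right hb
      have hσ : σ = -p := by linarith
      subst hσ
      have hp0 : p ≠ 0 := by
        rintro rfl
        norm_num at hp
      have hk : m * (C * T) = 0 := (mul_eq_zero.mp h7').resolve_left hp0
      have : (2 * p) * b * T ^ 2 = 0 := by linarith
      rcases mul_eq_zero.mp this with h | h
      · rcases mul_eq_zero.mp h with h | h
        · apply hp0
          linarith
        · exact hb h
      · exact pow_ne_zero _ hT0 h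
    subst hb
    have hk : m * (C * T) = 0 := by linarith
    have hm : m = 0 := (mul_eq_zero.mp hk).resolve_right (mul_ne_zero hC hT0)
    have hl : l = 0 := by
      have : l * T = 0 := by linarith
      exact (mul_eq_zero.mp this).resolve_right hT0
    exact ⟨rfl, rfl, hm, rfl, hl⟩
  by_cases hT0 : T = 0
  · subst hT0
    have hD : D ≠ 0 := by
      rintro rfl
      norm_num at hT
    have hb : b = 0 := by
      have : b * D = 0 := by linarith
      exact (mul_eq_zero.mp this).resolve_right hD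
    have hm : m = 0 := (mul_eq_zero.mp h2).resolve_right hS0
    subst hb hm
    have h7' : p * (n * (S * D)) = 0 := by linarith
    have ha : a = 0 := by
      by_contra ha
      have hσ : σ = 0 := by
        have : σ * (a * S ^ 2) = 0 := by linarith
        exact (mul_eq_zero.mp this).resolve_right (mul_ne_zero ha (pow_ne_zero _ hS0))
      subst hσ
      have hp0 : p ≠ 0 := by
        rintro rfl
        norm_num at hp
      have hk : n * (S * D) = 0 := (mul_eq_zero.mp h7').resolve_left hp0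
      have : p * (a * S ^ 2) = 0 := by linarith
      rcases mul_eq_zero.mp this with h | h
      · exact hp0 h
      · exact mul_ne_zero ha (pow_ne_zero _ hS0) h
    subst ha
    have hk : n * (S * D) = 0 := by linarith
    have hn : n = 0 := (mul_eq_zero.mp hk).resolve_right (mul_ne_zero hS0 hD)
    have hl : l = 0 := by
      have : l * S = 0 := by linarith
      exact (mul_eq_zero.mp this).resolve_right hS0
    exact ⟨rfl, rfl, rfl, hn, hl⟩
  have hm : m = 0 := (mul_eq_zero.mp h2).resolve_right hS0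
  have hn : n = 0 := (mul_eq_zero.mp h4).resolve_right hT0
  subst hm hn
  have hST : S * T ≠ 0 := mul_ne_zero hS0 hT0
  have h8 : a * C * T = b * D * S := by linear_combination T * h1 - S * h3
  have key : a = 0 := by
    by_contra ha
    by_cases hσ : σ = 0
    · subst hσ
      have hp0 : p ≠ 0 := by
        rintro rfl
        norm_num at hp
      have hpp : p ^ 2 = 1 := by linarith
      have h9 : a * S ^ 2 + b * T ^ 2 = 0 := by
        have : p * (a * S ^ 2 + b * T ^ 2) = 0 := by linarith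
        exact (mul_eq_zero.mp this).resolve_left hp0
      have h10 : T ^ 2 - S ^ 2 - p * (S * T) = 0 := by
        have : (a * S) * (T ^ 2 - S ^ 2 - p * (S * T)) = 0 := by
          linear_combination (-T) * h5 - (p * T + S) * h9
        exact (mul_eq_zero.mp this).resolve_left (mul_ne_zero ha hS0)
      have h11 : C * T ^ 3 + S ^ 3 * D = 0 := by
        have : a * (C * T ^ 3 + S ^ 3 * D) = 0 := by linear_combination T ^ 2 * h8 + S * D * h9
        exact (mul_eq_zero.mp this).resolve_left ha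
      have hS2 : 0 < S ^ 2 := by positivity
      have hT2 : 0 < T ^ 2 := by positivity
      have hC2 : C ^ 2 = 1 - S ^ 2 := by linarith
      have hD2 : D ^ 2 = 1 - T ^ 2 := by linarith
      have hS1 : S ^ 2 ≤ 1 := by nlinarith [sq_nonneg C]
      have hT1 : T ^ 2 ≤ 1 := by nlinarith [sq_nonneg D]
      have h12 : (T ^ 2 - S ^ 2) ^ 2 = S ^ 2 * T ^ 2 := by
        have h13 : T ^ 2 - S ^ 2 = p * (S * T) := by linarith
        rw [h13, mul_pow, hpp]
        ring
      have h13 : C ^ 2 * (T ^ 2) ^ 3 = (S ^ 2) ^ 3 * D ^ 2 := by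
        have h14 : C * T ^ 3 = -(S ^ 3 * D) := by linarith
        calc C ^ 2 * (T ^ 2) ^ 3 = (C * T ^ 3) ^ 2 := by ring
          _ = (S ^ 2) ^ 3 * D ^ 2 := by
            rw [h14]
            ring
      rw [hC2, hD2] at h13
      generalize S ^ 2 = x at *
      generalize T ^ 2 = y at *
      have h14 : (y - x) * (y ^ 2 + x * y + x ^ 2 - x * y * (x + y)) = 0 := by
        linear_combination h13
      have hxy : y - x ≠ 0 := by
        intro h
        rw [h] at h12
        have := mul_pos hS2 hT2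
        nlinarith
      have h15 := (mul_eq_zero.mp h14).resolve_left hxy
      nlinarith [mul_pos hS2 hT2, mul_nonneg (sq_nonneg x) (sub_nonneg.mpr hT1),
        mul_nonneg (sq_nonneg y) (sub_nonneg.mpr hS1)]
    · have hab : a = b := by
        have : σ * (a - b) * (S * T) = 0 := by linarith
        rcases mul_eq_zero.mp this with h | h
        · rcases mul_eq_zero.mp h with h | h
          · exact absurd h hσ
          · linarith
        · exact absurd h hST
      subst hab
      have h9 : C * T = D * S := by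
        have : a * (C * T - D * S) = 0 := by linear_combination h8
        have := (mul_eq_zero.mp this).resolve_left ha
        linarith
      have h10 : S ^ 2 = T ^ 2 := by
        have h11 : C ^ 2 * T ^ 2 = D ^ 2 * S ^ 2 := by
          calc C ^ 2 * T ^ 2 = (C * T) ^ 2 := by ring
            _ = D ^ 2 * S ^ 2 := by
              rw [h9]
              ring
        have hC2 : C ^ 2 = 1 - S ^ 2 := by linarith
        have hD2 : D ^ 2 = 1 - T ^ 2 := by linarith
        rw [hC2, hD2] at h11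
        linarith
      have h12 : -p * S ^ 2 - 2 * (S * T) = 0 := by
        have : a * (-p * S ^ 2 - 2 * (S * T)) = 0 := by
          linear_combination h5 - a * (p + σ) * h10
        exact (mul_eq_zero.mp this).resolve_left ha
      have h13 : p * S + 2 * T = 0 := by
        have : S * (p * S + 2 * T) = 0 := by linear_combination -h12
        exact (mul_eq_zero.mp this).resolve_left hS0
      have h14 : p ^ 2 * S ^ 2 = 4 * S ^ 2 := by
        have : (p * S) ^ 2 = (2 * T) ^ 2 := by
          have h15 : p * S = -(2 * T) := by linarith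
          rw [h15]
          ring
        nlinarith
      have hSp : 0 < S ^ 2 := by positivity
      nlinarith [sq_nonneg σ]
  subst key
  have hb : b = 0 := by
    by_contra hb
    have hσ : σ = 0 := by
      have : σ * (b * (S * T)) = 0 := by linarith
      exact (mul_eq_zero.mp this).resolve_right (mul_ne_zero hb hST)
    subst hσ
    have hp0 : p = 0 := by
      have : p * (b * T ^ 2) = 0 := by linarith
      exact (mul_eq_zero.mp this).resolve_right (mul_ne_zero hb (pow_ne_zero _ hT0))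
    subst hp0
    norm_num at hp
  subst hb
  have hl : l = 0 := by
    have : l * S = 0 := by linarith
    exact (mul_eq_zero.mp this).resolve_right hS0
  exact ⟨rfl, rfl, rfl, rfl, hl⟩

/-! ### derivatives -/

theorem tor_smooth : ContDiff ℝ ∞ tor := by
  unfold tor
  refine (PiLp.contDiff_toLp (p := 2)).comp ?_
  refine contDiff_pi.mpr fun i => ?_
  fin_cases i <;> simp <;> fun_prop

theorem tor_curve (p v : ℝ × ℝ) (i : Fin 7) :
    HasDerivAt (fun t : ℝ => tor (p.1 + t * v.1, p.2 + t * v.2) i) (fderiv ℝ tor p v i) 0 := by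
  have h1 : DifferentiableAt ℝ tor p := (tor_smooth.contDiffAt).differentiableAt (by simp)
  have h2 : HasDerivAt (fun t : ℝ => ((p.1 + t * v.1, p.2 + t * v.2) : ℝ × ℝ)) v 0 := by
    have a1 : HasDerivAt (fun t : ℝ => p.1 + t * v.1) v.1 0 := by
      simpa using ((hasDerivAt_id (0 : ℝ)).mul_const v.1).const_add p.1
    have a2 : HasDerivAt (fun t : ℝ => p.2 + t * v.2) v.2 0 := by
      simpa using ((hasDerivAt_id (0 : ℝ)).mul_const v.2).const_add p.2
    exact a1.prodMk a2
  have h3 : HasFDerivAt tor (fderiv ℝ tor p) ((p.1 + (0 : ℝ) * v.1, p.2 + (0 : ℝ) * v.2) : ℝ × ℝ) := by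
    have e : ((p.1 + (0 : ℝ) * v.1, p.2 + (0 : ℝ) * v.2) : ℝ × ℝ) = p := by simp
    rw [e]
    exact h1.hasFDerivAt
  have h4 := h3.comp_hasDerivAt (0 : ℝ) h2
  exact (EuclideanSpace.proj (𝕜 := ℝ) i).hasFDerivAt.comp_hasDerivAt (0 : ℝ) h4

theorem tor_fderiv (p v : ℝ × ℝ) (i : Fin 7) : fderiv ℝ tor p v i =
    (![-sin p.1 * v.1, cos p.1 * v.1, -sin p.2 * v.2, cos p.2 * v.2,
      -(cos (2 * p.1) * (2 * v.1)) + -sin (2 * p.2) * (2 * v.2) - cos (2 * p.2) * (2 * v.2) +
        2 * (-sin (p.1 + p.2) * (v.1 + v.2)),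
      -sin (2 * p.1) * (2 * v.1) + cos (2 * p.2) * (2 * v.2) + -sin (2 * p.2) * (2 * v.2) +
        2 * (cos (p.1 + p.2) * (v.1 + v.2)),
      2 * (-sin (p.1 - p.2) * (v.1 - v.2))] : Fin 7 → ℝ) i := by
  have a1 : HasDerivAt (fun t : ℝ => p.1 + t * v.1) v.1 0 := by
    simpa using ((hasDerivAt_id (0 : ℝ)).mul_const v.1).const_add p.1
  have a2 : HasDerivAt (fun t : ℝ => p.2 + t * v.2) v.2 0 := by
    simpa using ((hasDerivAt_id (0 : ℝ)).mul_const v.2).const_add p.2
  refine (tor_curve p v i).unique ?_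
  fin_cases i
  · simpa [tor] using a1.cos
  · simpa [tor] using a1.sin
  · simpa [tor] using a2.cos
  · simpa [tor] using a2.sin
  · simpa [tor, Pi.add_def, Pi.sub_def, Pi.neg_def] using ((((a1.const_mul 2).sin.neg).add ((a2.const_mul 2).cos)).sub
      ((a2.const_mul 2).sin)).add (((a1.add a2).cos).const_mul 2)
  · simpa [tor, Pi.add_def, Pi.sub_def, Pi.neg_def] using ((((a1.const_mul 2).cos).add ((a2.const_mul 2).sin)).add
      ((a2.const_mul 2).cos)).add (((a1.add a2).sin).const_mul 2)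
  · simpa [tor] using ((a1.sub a2).cos).const_mul 2

/-! ### the result -/

theorem tor_per (m n : ℤ) (x y : ℝ) : tor (x + 2 * π * m, y + 2 * π * n) = tor (x, y) := by
  have c1 : ∀ (z : ℝ) (k : ℤ), cos (z + 2 * π * k) = cos z := fun z k => by
    rw [mul_comm (2 * π)]
    exact cos_add_int_mul_two_pi z k
  have s1 : ∀ (z : ℝ) (k : ℤ), sin (z + 2 * π * k) = sin z := fun z k => by
    rw [mul_comm (2 * π)]
    exact sin_add_int_mul_two_pi z k
  have e1 : 2 * (x + 2 * π * m) = 2 * x + 2 * π * ((2 * m : ℤ) : ℝ) := by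
    push_cast
    ring
  have e2 : 2 * (y + 2 * π * n) = 2 * y + 2 * π * ((2 * n : ℤ) : ℝ) := by
    push_cast
    ring
  have e3 : x + 2 * π * m + (y + 2 * π * n) = x + y + 2 * π * ((m + n : ℤ) : ℝ) := by
    push_cast
    ring
  have e4 : x + 2 * π * m - (y + 2 * π * n) = x - y + 2 * π * ((m - n : ℤ) : ℝ) := by
    push_cast
    ring
  simp only [tor]
  rw [e1, e2, e3, e4]
  simp only [c1, s1]

theorem tor_skew (p q : ℝ × ℝ) (hpq : ∀ g ∈ torusGroup, q ≠ g p) :
    LinearIndependent ℝ (five tor p q) := by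
  obtain ⟨x, y⟩ := p
  obtain ⟨x', y'⟩ := q
  obtain ⟨A, s, rfl, rfl⟩ : ∃ A s, x = A + s ∧ x' = A - s :=
    ⟨(x + x') / 2, (x - x') / 2, by ring, by ring⟩
  obtain ⟨B, t, rfl, rfl⟩ : ∃ B t, y = B + t ∧ y' = B - t :=
    ⟨(y + y') / 2, (y - y') / 2, by ring, by ring⟩
  rw [Fintype.linearIndependent_iff]
  intro g hg
  simp only [Fin.sum_univ_five, five, Matrix.cons_val] at hg
  have comp : ∀ i : Fin 7, g 0 * fderiv ℝ tor (A + s, B + t) (1, 0) i +
      g 1 * fderiv ℝ tor (A + s, B + t) (0, 1) i +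
      g 2 * fderiv ℝ tor (A - s, B - t) (1, 0) i + g 3 * fderiv ℝ tor (A - s, B - t) (0, 1) i +
      g 4 * (tor (A + s, B + t) i - tor (A - s, B - t) i) = 0 := by
    intro i
    have := congrArg (fun z : EuclideanSpace ℝ (Fin 7) => z i) hg
    simpa using this
  simp only [tor_fderiv] at comp
  have k0 := comp 0
  have k1 := comp 1
  have k2 := comp 2
  have k3 := comp 3
  have k4 := comp 4
  have k5 := comp 5
  have k6 := comp 6
  have e1 : 2 * (A + s) = A + B + (A - B) + s + s := by ring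
  have e2 : 2 * (B + t) = A + B - (A - B) + t + t := by ring
  have e3 : A + s + (B + t) = A + B + (s + t) := by ring
  have e4 : 2 * (A - s) = A + B + (A - B) - s - s := by ring
  have e5 : 2 * (B - t) = A + B - (A - B) - t - t := by ring
  have e6 : A - s + (B - t) = A + B - (s + t) := by ring
  have e7 : A + s - (B + t) = A - B + (s - t) := by ring
  have e8 : A - s - (B - t) = A - B - (s - t) := by ring
  simp only [tor, e1, e2, e3, e4, e5, e6, e7, e8, Matrix.cons_val] at k0 k1 k2 k3 k4 k5 k6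
  obtain ⟨h1, h2⟩ := tor_a A s (g 0) (g 2) (g 4) (by linear_combination k0)
    (by linear_combination k1)
  obtain ⟨h3, h4⟩ := tor_a B t (g 1) (g 3) (g 4) (by linear_combination k2)
    (by linear_combination k3)
  obtain ⟨h5, h6⟩ := tor_b (A + B) (A - B) s t (g 0) (g 1) (g 2) (g 3) (g 4)
    (by linear_combination k4) (by linear_combination k5) h1 h2 h3 h4
  have h7 := tor_c (A - B) s t (g 0) (g 1) (g 2) (g 3) (g 4)
    (by linear_combination k6) h1 h2 h3 h4
  have hne : ¬(sin s = 0 ∧ sin t = 0) := by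
    rintro ⟨hs, ht⟩
    obtain ⟨k, hk⟩ := sin_eq_zero_iff.mp hs
    obtain ⟨j, hj⟩ := sin_eq_zero_iff.mp ht
    refine hpq (fun z => (z.1 + 2 * π * ((-k : ℤ) : ℝ), z.2 + 2 * π * ((-j : ℤ) : ℝ)))
      ⟨-k, -j, fun _ _ => rfl⟩ ?_
    simp only [Prod.mk.injEq]
    constructor
    · push_cast
      linear_combination 2 * hk
    · push_cast
      linear_combination 2 * hj
  obtain ⟨ha, hb, hm, hn, hl⟩ := tor_alg (sin_sq_add_cos_sq (A - B)) (sin_sq_add_cos_sq s)
    (sin_sq_add_cos_sq t) hne h1 h2 h3 h4 (by linear_combination h5) (by linear_combination h6)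
    (by linear_combination h7)
  intro i
  fin_cases i
  · show g 0 = 0
    linarith
  · show g 1 = 0
    linarith
  · show g 2 = 0
    linarith
  · show g 3 = 0
    linarith
  · exact hl

theorem torusIn_seven : TorusIn 7 :=
  ⟨tor, tor_smooth, by
    rintro g ⟨m, n, hg⟩ ⟨x, y⟩
    rw [hg]
    exact tor_per m n x y, tor_skew⟩

end Pool.Agent.Lib.Skw
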