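import Pool.Agent.Lib.Skw.Cl

set_option autoImplicit false
set_option linter.unusedSimpArgs false
set_option linter.unusedTactic false

/-!
# Nine anticommuting real matrices of size sixteen

`T2 a X = a ⊗ X`. `g7`: the seven matrices of `Cl.lean`. `gb`: nine anticommuting matrices with square `1`. `comm_two`: a matrix
commuting with the first seven is a combination of `1` and `JJ`.
-/

open Matrix
open scoped Kronecker

namespace Pool.Agent.Lib.Skw

abbrev I16 : Type := Fin 2 × I8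

abbrev M16 : Type := Matrix I16 I16 ℝ

/-- Tensor product. -/
def T2 (a : M2) (X : M8) : M16 := a ⊗ₖ X

theorem T2_mul (a b : M2) (X Y : M8) : T2 a X * T2 b Y = T2 (a * b) (X * Y) := by
  unfold T2
  rw [← Matrix.mul_kronecker_mul]

theorem T2_one : T2 1 1 = 1 := by
  unfold T2
  rw [Matrix.one_kronecker_one]

theorem T2_apply (a : M2) (X : M8) (i j : I16) : T2 a X i j = a i.1 j.1 * X i.2 j.2 := rfl

theorem T2_neg1 (a : M2) (X : M8) : T2 (-a) X = -T2 a X := by
  ext i j
  simp [T2_apply]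

theorem T2_neg2 (a : M2) (X : M8) : T2 a (-X) = -T2 a X := by
  ext i j
  simp [T2_apply]

theorem ss_ee' : ss * ee = -(ee * ss) := by rw [ss_ee, ee_ss]

theorem tt_ee' : tt * ee = -(ee * tt) := by rw [tt_ee, ee_tt, neg_neg]

theorem tt_ss' : tt * ss = -(ss * tt) := by rw [tt_ss, ss_tt, neg_neg]

/-- The seven matrices. -/
def g7 : Fin 7 → M8 := Fin.snoc (α := fun _ => M8) ga om

theorem g7_cast (i : Fin 6) : g7 i.castSucc = ga i := by
  unfold g7
  rw [Fin.snoc_castSucc]

theorem g7_last : g7 (Fin.last 6) = om := by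
  unfold g7
  rw [Fin.snoc_last]

theorem g7_sq (i : Fin 7) : g7 i * g7 i = -1 := by
  refine Fin.lastCases ?_ (fun i => ?_) i
  · rw [g7_last, om_sq]
  · rw [g7_cast, ga_sq]

theorem g7_ac {i j : Fin 7} (h : i ≠ j) : g7 i * g7 j = -(g7 j * g7 i) := by
  revert h
  refine Fin.lastCases ?_ (fun i => ?_) i
  · refine Fin.lastCases ?_ (fun j => ?_) j
    · intro h
      exact absurd rfl h
    · intro _
      rw [g7_last, g7_cast, om_ac, neg_neg]
  · refine Fin.lastCases ?_ (fun j => ?_) j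
    · intro _
      rw [g7_last, g7_cast, om_ac]
    · intro h
      rw [g7_cast, g7_cast]
      exact ga_ac fun e => h (by rw [e])

/-- The nine matrices. -/
def gb : Fin 9 → M16 :=
  Fin.addCases (m := 7) (n := 2) (motive := fun _ => M16) (fun i => T2 ee (g7 i)) ![T2 ss 1, T2 tt 1]

theorem gb_left (i : Fin 7) : gb (Fin.castAdd 2 i) = T2 ee (g7 i) := by
  unfold gb
  rw [Fin.addCases_left]

theorem gb_right (i : Fin 2) : gb (Fin.natAdd 7 i) = (![T2 ss 1, T2 tt 1] : Fin 2 → M16) i := by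
  unfold gb
  rw [Fin.addCases_right]

theorem gb_sq (i : Fin 9) : gb i * gb i = 1 := by
  refine Fin.addCases (m := 7) (n := 2) (fun i => ?_) (fun i => ?_) i
  · rw [gb_left, T2_mul, ee_ee, g7_sq, T2_neg1, T2_neg2, neg_neg, T2_one]
  · rw [gb_right]
    fin_cases i
    · show T2 ss 1 * T2 ss 1 = 1
      rw [T2_mul, ss_ss, one_mul, T2_one]
    · show T2 tt 1 * T2 tt 1 = 1
      rw [T2_mul, tt_tt, one_mul, T2_one]

theorem gb_ac {i j : Fin 9} (h : i ≠ j) : gb i * gb j = -(gb j * gb i) := by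
  revert h
  refine Fin.addCases (m := 7) (n := 2) (fun i => ?_) (fun i => ?_) i
  · refine Fin.addCases (m := 7) (n := 2) (fun j => ?_) (fun j => ?_) j
    · intro h
      rw [gb_left, gb_left, T2_mul, T2_mul, g7_ac fun e => h (by rw [e]), T2_neg2]
    · intro _
      rw [gb_left, gb_right]
      fin_cases j
      · show T2 ee (g7 i) * T2 ss 1 = -(T2 ss 1 * T2 ee (g7 i))
        rw [T2_mul, T2_mul, ss_ee', T2_neg1, neg_neg, mul_one, one_mul]
      · show T2 ee (g7 i) * T2 tt 1 = -(T2 tt 1 * T2 ee (g7 i))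
        rw [T2_mul, T2_mul, tt_ee', T2_neg1, neg_neg, mul_one, one_mul]
  · refine Fin.addCases (m := 7) (n := 2) (fun j => ?_) (fun j => ?_) j
    · intro _
      rw [gb_left, gb_right]
      fin_cases i
      · show T2 ss 1 * T2 ee (g7 j) = -(T2 ee (g7 j) * T2 ss 1)
        rw [T2_mul, T2_mul, ss_ee', T2_neg1, mul_one, one_mul]
      · show T2 tt 1 * T2 ee (g7 j) = -(T2 ee (g7 j) * T2 tt 1)
        rw [T2_mul, T2_mul, tt_ee', T2_neg1, mul_one, one_mul]
    · intro h
      rw [gb_right, gb_right]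
      fin_cases i <;> fin_cases j
      · exact absurd rfl h
      · show T2 ss 1 * T2 tt 1 = -(T2 tt 1 * T2 ss 1)
        rw [T2_mul, T2_mul, tt_ss', T2_neg1, neg_neg]
      · show T2 tt 1 * T2 ss 1 = -(T2 ss 1 * T2 tt 1)
        rw [T2_mul, T2_mul, tt_ss', T2_neg1]
      · exact absurd rfl h

/-- The complex structure. -/
def JJ : M16 := T2 ee 1

theorem JJ_sq : JJ * JJ = -1 := by
  unfold JJ
  rw [T2_mul, ee_ee, one_mul, T2_neg1, T2_one]

theorem om_prod : om = ga 0 * ga 1 * (ga 2 * ga 3) * (ga 4 * ga 5) ∨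
    om = -(ga 0 * ga 1 * (ga 2 * ga 3) * (ga 4 * ga 5)) := by
  first
    | left
      simp [ga, om, T3_mul, ee_ee, ss_ss, tt_tt, ss_tt, tt_ss, ee_ss, ss_ee, ee_tt, tt_ee, T3_neg1,
        T3_neg2, T3_neg3]
      done
    | right
      simp [ga, om, T3_mul, ee_ee, ss_ss, tt_tt, ss_tt, tt_ss, ee_ss, ss_ee, ee_tt, tt_ee, T3_neg1,
        T3_neg2, T3_neg3]
      done

/-- a matrix of size eight commuting with all products of two is a scalar -/
theorem comm_even {M : M8} (h : ∀ i j : Fin 6, M * (ga i * ga j) = ga i * ga j * M)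
    (h' : ∀ i : Fin 6, M * (ga i * om) = ga i * om * M) :
    M = M (0, 0, 0) (0, 0, 0) • (1 : M8) := by
  have ho : M * om = om * M := by
    have h1 : M * (ga 0 * ga 1 * (ga 2 * ga 3) * (ga 4 * ga 5)) =
        ga 0 * ga 1 * (ga 2 * ga 3) * (ga 4 * ga 5) * M :=
      comm_mul (comm_mul (h 0 1) (h 2 3)) (h 4 5)
    rcases om_prod with e | e
    · rw [e]
      exact h1
    · rw [e, mul_neg, neg_mul, h1]
  refine comm_scalar (fun i => ?_) ho
  have e : ga i.castSucc = -(ga i.castSucc * om * om) := by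
    rw [mul_assoc, om_sq, mul_neg, mul_one, neg_neg]
  rw [e, mul_neg, neg_mul, comm_mul (h' _) ho]

/-- the blocks -/
def blk (X : M16) (a b : Fin 2) : M8 := Matrix.of fun i j => X (a, i) (b, j)

theorem blk_comm {X : M16} {Y : M8} (h : X * T2 1 Y = T2 1 Y * X) (a b : Fin 2) :
    blk X a b * Y = Y * blk X a b := by
  ext i j
  have h1 := congrFun (congrFun h (a, i)) (b, j)
  rw [Matrix.mul_apply, Matrix.mul_apply, Fintype.sum_prod_type, Fintype.sum_prod_type,
    Fin.sum_univ_two, Fin.sum_univ_two] at h1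
  rw [Matrix.mul_apply, Matrix.mul_apply]
  simp only [T2_apply] at h1
  fin_cases a <;> fin_cases b <;> simpa [blk, Matrix.one_apply] using h1

theorem comm_two {X : M16} (h : ∀ i : Fin 7, X * T2 ee (g7 i) = T2 ee (g7 i) * X) :
    X = X (0, (0, 0, 0)) (0, (0, 0, 0)) • (1 : M16) +
      X (0, (0, 0, 0)) (1, (0, 0, 0)) • JJ := by
  have h2 : ∀ i j : Fin 7, X * T2 1 (g7 i * g7 j) = T2 1 (g7 i * g7 j) * X := by
    intro i j
    have e : T2 1 (g7 i * g7 j) = -(T2 ee (g7 i) * T2 ee (g7 j)) := by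
      rw [T2_mul, ee_ee, T2_neg1, neg_neg]
    rw [e, mul_neg, neg_mul, ← mul_assoc, h i, mul_assoc, h j, mul_assoc]
  have h3 : ∀ a b : Fin 2, blk X a b = blk X a b (0, 0, 0) (0, 0, 0) • (1 : M8) := by
    intro a b
    refine comm_even (fun i j => ?_) (fun i => ?_)
    · have := blk_comm (h2 i.castSucc j.castSucc) a b
      rwa [g7_cast, g7_cast] at this
    · have := blk_comm (h2 i.castSucc (Fin.last 6)) a b
      rwa [g7_cast, g7_last] at this
  have h4 : ∀ (a b : Fin 2) (i j : I8), X (a, i) (b, j) =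
      X (a, (0, 0, 0)) (b, (0, 0, 0)) * (1 : M8) i j := by
    intro a b i j
    have := congrFun (congrFun (h3 a b) i) j
    simpa [blk, Matrix.smul_apply] using this
  set x : M2 := Matrix.of fun a b => X (a, (0, 0, 0)) (b, (0, 0, 0)) with hx
  have hX : X = T2 x 1 := by
    ext ⟨a, i⟩ ⟨b, j⟩
    rw [h4, T2_apply]
    rfl
  have h5 := h 0
  have e0 : g7 0 = T3 ee ss 1 := g7_cast 0
  rw [e0, hX, T2_mul, T2_mul, one_mul, mul_one] at h5
  have k1 := congrFun (congrFun h5 (0, (0, 0, 0))) (0, (1, 1, 0))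
  have k2 := congrFun (congrFun h5 (0, (0, 0, 0))) (1, (1, 1, 0))
  have eT : T3 ee ss 1 (0, 0, 0) (1, 1, 0) = 1 := by
    rw [T3_apply]
    simp [ee, ss]
  rw [T2_apply, T2_apply, eT, mul_one, mul_one, Matrix.mul_apply, Matrix.mul_apply,
    Fin.sum_univ_two, Fin.sum_univ_two] at k1 k2
  simp [ee] at k1 k2
  have ex : x = x 0 0 • (1 : M2) + x 0 1 • ee := by
    ext a b
    fin_cases a <;> fin_cases b <;> simp [ee] <;> linarith
  have e1 : X (0, (0, 0, 0)) (0, (0, 0, 0)) = x 0 0 := rfl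
  have e2 : X (0, (0, 0, 0)) (1, (0, 0, 0)) = x 0 1 := rfl
  rw [e1, e2, hX]
  conv_lhs => rw [ex]
  ext i j
  simp only [T2_apply, Matrix.add_apply, Matrix.smul_apply, JJ, smul_eq_mul]
  rw [← T2_one, T2_apply]
  ring

end Pool.Agent.Lib.Skw
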