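import Mathlib

set_option autoImplicit false

/-!
# Seven anticommuting real matrices of size eight

`T3 a b c = a ⊗ b ⊗ c` for real 2 x 2 matrices, `e² = -1`, `s² = t² = 1`, pairwise anticommuting. `ga 0 .. ga 5`, `om`: seven
anticommuting matrices with square `-1`. `Gam v = ∑ v i ga i`. `comm_scalar`: a matrix commuting with `ga 0 .. ga 4`, `om` is a scalar.
-/

open Matrix
open scoped Kronecker

namespace Pool.Agent.Lib.Skw

abbrev I8 : Type := Fin 2 × (Fin 2 × Fin 2)

abbrev M2 : Type := Matrix (Fin 2) (Fin 2) ℝ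

abbrev M8 : Type := Matrix I8 I8 ℝ

def ee : M2 := !![0, 1; -1, 0]
def ss : M2 := !![0, 1; 1, 0]
def tt : M2 := !![1, 0; 0, -1]

theorem ee_ee : ee * ee = -1 := by
  ext i j
  fin_cases i <;> fin_cases j <;> simp [ee, Matrix.mul_apply, Fin.sum_univ_two]

theorem ss_ss : ss * ss = 1 := by
  ext i j
  fin_cases i <;> fin_cases j <;> simp [ss, Matrix.mul_apply, Fin.sum_univ_two]

theorem tt_tt : tt * tt = 1 := by
  ext i j
  fin_cases i <;> fin_cases j <;> simp [tt, Matrix.mul_apply, Fin.sum_univ_two]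

theorem ss_tt : ss * tt = -ee := by
  ext i j
  fin_cases i <;> fin_cases j <;> simp [ss, tt, ee, Matrix.mul_apply, Fin.sum_univ_two]

theorem tt_ss : tt * ss = ee := by
  ext i j
  fin_cases i <;> fin_cases j <;> simp [ss, tt, ee, Matrix.mul_apply, Fin.sum_univ_two]

theorem ee_ss : ee * ss = tt := by
  ext i j
  fin_cases i <;> fin_cases j <;> simp [ss, tt, ee, Matrix.mul_apply, Fin.sum_univ_two]

theorem ss_ee : ss * ee = -tt := by
  ext i j
  fin_cases i <;> fin_cases j <;> simp [ss, tt, ee, Matrix.mul_apply, Fin.sum_univ_two]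

theorem ee_tt : ee * tt = -ss := by
  ext i j
  fin_cases i <;> fin_cases j <;> simp [ss, tt, ee, Matrix.mul_apply, Fin.sum_univ_two]

theorem tt_ee : tt * ee = ss := by
  ext i j
  fin_cases i <;> fin_cases j <;> simp [ss, tt, ee, Matrix.mul_apply, Fin.sum_univ_two]

/-- Triple tensor product. -/
def T3 (a b c : M2) : M8 := a ⊗ₖ (b ⊗ₖ c)

theorem T3_mul (a b c a' b' c' : M2) : T3 a b c * T3 a' b' c' = T3 (a * a') (b * b') (c * c') := by
  unfold T3
  rw [← Matrix.mul_kronecker_mul, ← Matrix.mul_kronecker_mul]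

theorem T3_one : T3 1 1 1 = 1 := by
  unfold T3
  rw [Matrix.one_kronecker_one, Matrix.one_kronecker_one]

theorem T3_apply (a b c : M2) (i j : I8) :
    T3 a b c i j = a i.1 j.1 * (b i.2.1 j.2.1 * c i.2.2 j.2.2) := rfl

theorem T3_neg1 (a b c : M2) : T3 (-a) b c = -T3 a b c := by
  ext i j
  simp [T3_apply]

theorem T3_neg2 (a b c : M2) : T3 a (-b) c = -T3 a b c := by
  ext i j
  simp [T3_apply]

theorem T3_neg3 (a b c : M2) : T3 a b (-c) = -T3 a b c := by
  ext i j
  simp [T3_apply]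

/-- The first six matrices. -/
def ga : Fin 6 → M8 :=
  ![T3 ee ss 1, T3 ee tt 1, T3 1 ee ss, T3 1 ee tt, T3 ss 1 ee, T3 ee ee ee]

/-- The seventh matrix. -/
def om : M8 := T3 tt 1 ee

theorem ga_sq (i : Fin 6) : ga i * ga i = -1 := by
  fin_cases i <;>
  simp [ga, T3_mul, ee_ee, ss_ss, tt_tt, T3_neg1, T3_neg2, T3_neg3, T3_one]

theorem om_sq : om * om = -1 := by
  simp [om, T3_mul, ee_ee, tt_tt, T3_neg3, T3_one]

theorem ga_ac {i j : Fin 6} (h : i ≠ j) : ga i * ga j = -(ga j * ga i) := by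
  fin_cases i <;> fin_cases j <;> first
    | exact absurd rfl h
    | simp [ga, T3_mul, ee_ee, ss_ss, tt_tt, ss_tt, tt_ss, ee_ss, ss_ee, ee_tt, tt_ee, T3_neg1,
        T3_neg2, T3_neg3]

theorem om_ac (i : Fin 6) : ga i * om = -(om * ga i) := by
  fin_cases i <;>
  simp [ga, om, T3_mul, ee_ee, ss_ss, tt_tt, ss_tt, tt_ss, ee_ss, ss_ee, ee_tt, tt_ee, T3_neg1,
        T3_neg2, T3_neg3]

/-! ### commutant -/

theorem comm_mul {M a b : M8} (ha : M * a = a * M) (hb : M * b = b * M) :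
    M * (a * b) = a * b * M := by
  rw [← mul_assoc, ha, mul_assoc, hb, mul_assoc]

theorem comm_neg {M a : M8} (ha : M * -a = -a * M) : M * a = a * M := by
  simpa using ha

/-- sign -/
def sg2 (a : Fin 2) : ℝ := ![1, -1] a

theorem sg2_ne {a b : Fin 2} (h : a ≠ b) : sg2 a ≠ sg2 b := by
  fin_cases a <;> fin_cases b <;> first
    | exact absurd rfl h
    | (simp [sg2]; try norm_num)

theorem mul_t1 (M : M8) (p : I8) (a b c : Fin 2) :
    (M * T3 tt 1 1) p (a, b, c) = sg2 a * M p (a, b, c) := by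
  fin_cases a <;> fin_cases b <;> fin_cases c <;>
  simp [Matrix.mul_apply, Fintype.sum_prod_type, Fin.sum_univ_two, T3_apply, tt, sg2]

theorem mul_t2 (M : M8) (p : I8) (a b c : Fin 2) :
    (M * T3 1 tt 1) p (a, b, c) = sg2 b * M p (a, b, c) := by
  fin_cases a <;> fin_cases b <;> fin_cases c <;>
  simp [Matrix.mul_apply, Fintype.sum_prod_type, Fin.sum_univ_two, T3_apply, tt, sg2]

theorem mul_t3 (M : M8) (p : I8) (a b c : Fin 2) :
    (M * T3 1 1 tt) p (a, b, c) = sg2 c * M p (a, b, c) := by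
  fin_cases a <;> fin_cases b <;> fin_cases c <;>
  simp [Matrix.mul_apply, Fintype.sum_prod_type, Fin.sum_univ_two, T3_apply, tt, sg2]

theorem t1_mul (M : M8) (q : I8) (a b c : Fin 2) :
    (T3 tt 1 1 * M) (a, b, c) q = sg2 a * M (a, b, c) q := by
  fin_cases a <;> fin_cases b <;> fin_cases c <;>
  simp [Matrix.mul_apply, Fintype.sum_prod_type, Fin.sum_univ_two, T3_apply, tt, sg2]

theorem t2_mul (M : M8) (q : I8) (a b c : Fin 2) :
    (T3 1 tt 1 * M) (a, b, c) q = sg2 b * M (a, b, c) q := by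
  fin_cases a <;> fin_cases b <;> fin_cases c <;>
  simp [Matrix.mul_apply, Fintype.sum_prod_type, Fin.sum_univ_two, T3_apply, tt, sg2]

theorem t3_mul (M : M8) (q : I8) (a b c : Fin 2) :
    (T3 1 1 tt * M) (a, b, c) q = sg2 c * M (a, b, c) q := by
  fin_cases a <;> fin_cases b <;> fin_cases c <;>
  simp [Matrix.mul_apply, Fintype.sum_prod_type, Fin.sum_univ_two, T3_apply, tt, sg2]

theorem mul_s1 (M : M8) (p : I8) (a b c : Fin 2) :
    (M * T3 ss 1 1) p (a, b, c) = M p (a + 1, b, c) := by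
  fin_cases a <;> fin_cases b <;> fin_cases c <;>
  simp [Matrix.mul_apply, Fintype.sum_prod_type, Fin.sum_univ_two, T3_apply, ss]

theorem mul_s2 (M : M8) (p : I8) (a b c : Fin 2) :
    (M * T3 1 ss 1) p (a, b, c) = M p (a, b + 1, c) := by
  fin_cases a <;> fin_cases b <;> fin_cases c <;>
  simp [Matrix.mul_apply, Fintype.sum_prod_type, Fin.sum_univ_two, T3_apply, ss]

theorem mul_s3 (M : M8) (p : I8) (a b c : Fin 2) :
    (M * T3 1 1 ss) p (a, b, c) = M p (a, b, c + 1) := by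
  fin_cases a <;> fin_cases b <;> fin_cases c <;>
  simp [Matrix.mul_apply, Fintype.sum_prod_type, Fin.sum_univ_two, T3_apply, ss]

theorem s1_mul (M : M8) (q : I8) (a b c : Fin 2) :
    (T3 ss 1 1 * M) (a, b, c) q = M (a + 1, b, c) q := by
  fin_cases a <;> fin_cases b <;> fin_cases c <;>
  simp [Matrix.mul_apply, Fintype.sum_prod_type, Fin.sum_univ_two, T3_apply, ss]

theorem s2_mul (M : M8) (q : I8) (a b c : Fin 2) :
    (T3 1 ss 1 * M) (a, b, c) q = M (a, b + 1, c) q := by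
  fin_cases a <;> fin_cases b <;> fin_cases c <;>
  simp [Matrix.mul_apply, Fintype.sum_prod_type, Fin.sum_univ_two, T3_apply, ss]

theorem s3_mul (M : M8) (q : I8) (a b c : Fin 2) :
    (T3 1 1 ss * M) (a, b, c) q = M (a, b, c + 1) q := by
  fin_cases a <;> fin_cases b <;> fin_cases c <;>
  simp [Matrix.mul_apply, Fintype.sum_prod_type, Fin.sum_univ_two, T3_apply, ss]

theorem comm_scalar {M : M8} (h : ∀ i : Fin 5, M * ga i.castSucc = ga i.castSucc * M)
    (ho : M * om = om * M) : M = M (0, 0, 0) (0, 0, 0) • (1 : M8) := by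
  have h0 : M * T3 ee ss 1 = T3 ee ss 1 * M := h 0
  have h1 : M * T3 ee tt 1 = T3 ee tt 1 * M := h 1
  have h2 : M * T3 1 ee ss = T3 1 ee ss * M := h 2
  have h3 : M * T3 1 ee tt = T3 1 ee tt * M := h 3
  have h4 : M * T3 ss 1 ee = T3 ss 1 ee * M := h 4
  have h6 : M * T3 tt 1 ee = T3 tt 1 ee * M := ho
  -- `1 ⊗ e ⊗ 1`, `1 ⊗ 1 ⊗ e`, `e ⊗ 1 ⊗ 1`
  have e2 : M * T3 1 ee 1 = T3 1 ee 1 * M := by
    have := comm_mul h0 h1
    simpa [T3_mul, ee_ee, ss_tt, T3_neg1, T3_neg2] using this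
  have e3 : M * T3 1 1 ee = T3 1 1 ee * M := by
    have := comm_mul h2 h3
    simpa [T3_mul, ee_ee, ss_tt, T3_neg2, T3_neg3] using this
  have e1 : M * T3 ee 1 1 = T3 ee 1 1 * M := by
    have := comm_mul h4 h6
    simpa [T3_mul, ee_ee, ss_tt, T3_neg1, T3_neg3] using this
  have s2 : M * T3 1 ss 1 = T3 1 ss 1 * M := by
    have := comm_mul e1 h0
    simpa [T3_mul, ee_ee, T3_neg1] using this
  have t2 : M * T3 1 tt 1 = T3 1 tt 1 * M := by
    have := comm_mul e1 h1
    simpa [T3_mul, ee_ee, T3_neg1] using this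
  have s3 : M * T3 1 1 ss = T3 1 1 ss * M := by
    have := comm_mul e2 h2
    simpa [T3_mul, ee_ee, T3_neg2] using this
  have t3 : M * T3 1 1 tt = T3 1 1 tt * M := by
    have := comm_mul e2 h3
    simpa [T3_mul, ee_ee, T3_neg2] using this
  have s1 : M * T3 ss 1 1 = T3 ss 1 1 * M := by
    have := comm_mul e3 h4
    simpa [T3_mul, ee_ee, T3_neg3] using this
  have t1 : M * T3 tt 1 1 = T3 tt 1 1 * M := by
    have := comm_mul e3 h6
    simpa [T3_mul, ee_ee, T3_neg3] using this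
  have d1 : ∀ (a b c a' b' c' : Fin 2), a ≠ a' → M (a, b, c) (a', b', c') = 0 := by
    intro a b c a' b' c' hne
    have h7 := congrFun (congrFun t1 (a, b, c)) (a', b', c')
    rw [mul_t1, t1_mul] at h7
    have h8 : (sg2 a - sg2 a') * M (a, b, c) (a', b', c') = 0 := by linarith
    exact (mul_eq_zero.1 h8).resolve_left (sub_ne_zero.2 (sg2_ne hne))
  have d2 : ∀ (a b c a' b' c' : Fin 2), b ≠ b' → M (a, b, c) (a', b', c') = 0 := by
    intro a b c a' b' c' hne
    have h7 := congrFun (congrFun t2 (a, b, c)) (a', b', c')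
    rw [mul_t2, t2_mul] at h7
    have h8 : (sg2 b - sg2 b') * M (a, b, c) (a', b', c') = 0 := by linarith
    exact (mul_eq_zero.1 h8).resolve_left (sub_ne_zero.2 (sg2_ne hne))
  have d3 : ∀ (a b c a' b' c' : Fin 2), c ≠ c' → M (a, b, c) (a', b', c') = 0 := by
    intro a b c a' b' c' hne
    have h7 := congrFun (congrFun t3 (a, b, c)) (a', b', c')
    rw [mul_t3, t3_mul] at h7
    have h8 : (sg2 c - sg2 c') * M (a, b, c) (a', b', c') = 0 := by linarith
    exact (mul_eq_zero.1 h8).resolve_left (sub_ne_zero.2 (sg2_ne hne))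
  have two : ∀ a : Fin 2, a + 1 + 1 = a := by decide
  have f1 : ∀ a b c : Fin 2, M (a + 1, b, c) (a + 1, b, c) = M (a, b, c) (a, b, c) := by
    intro a b c
    have h7 := congrFun (congrFun s1 (a, b, c)) (a + 1, b, c)
    rw [mul_s1, s1_mul, two] at h7
    exact h7.symm
  have f2 : ∀ a b c : Fin 2, M (a, b + 1, c) (a, b + 1, c) = M (a, b, c) (a, b, c) := by
    intro a b c
    have h7 := congrFun (congrFun s2 (a, b, c)) (a, b + 1, c)
    rw [mul_s2, s2_mul, two] at h7
    exact h7.symm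
  have f3 : ∀ a b c : Fin 2, M (a, b, c + 1) (a, b, c + 1) = M (a, b, c) (a, b, c) := by
    intro a b c
    have h7 := congrFun (congrFun s3 (a, b, c)) (a, b, c + 1)
    rw [mul_s3, s3_mul, two] at h7
    exact h7.symm
  have g1 : ∀ a b c : Fin 2, M (a, b, c) (a, b, c) = M (0, b, c) (0, b, c) := by
    intro a b c
    fin_cases a
    · rfl
    · exact f1 0 b c
  have g2 : ∀ b c : Fin 2, M (0, b, c) (0, b, c) = M (0, 0, c) (0, 0, c) := by
    intro b c
    fin_cases b
    · rfl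
    · exact f2 0 0 c
  have g3 : ∀ c : Fin 2, M (0, 0, c) (0, 0, c) = M (0, 0, 0) (0, 0, 0) := by
    intro c
    fin_cases c
    · rfl
    · exact f3 0 0 0
  ext p q
  obtain ⟨a, b, c⟩ := p
  obtain ⟨a', b', c'⟩ := q
  by_cases h1' : a = a'
  · by_cases h2' : b = b'
    · by_cases h3' : c = c'
      · subst h1' h2' h3'
        rw [g1, g2, g3]
        simp
      · rw [d3 _ _ _ _ _ _ h3']
        simp [h3']
    · rw [d2 _ _ _ _ _ _ h2']
      simp [h2']
  · rw [d1 _ _ _ _ _ _ h1']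
    simp [h1']

end Pool.Agent.Lib.Skw
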