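import Mathlib

set_option autoImplicit false

/-!
# Any number of circles have a totally skew embedding into `ℝ^4` (MP_3c016c_gt)

The curves `t ↦ (e^{it}, c e^{2it})`, `c > 0`.
-/

namespace Pool.Agent.Lib.Skw

/-- the curve `t ↦ (cos t, sin t, c cos 2t, c sin 2t)` -/
noncomputable def crc (c t : ℝ) : EuclideanSpace ℝ (Fin 4) :=
  !₂[Real.cos t, Real.sin t, c * Real.cos (2 * t), c * Real.sin (2 * t)]

/-- its velocity -/
noncomputable def crcv (c t : ℝ) : EuclideanSpace ℝ (Fin 4) :=
  !₂[-Real.sin t, Real.cos t, -(2 * c * Real.sin (2 * t)), 2 * c * Real.cos (2 * t)]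

theorem crc_contDiff (c : ℝ) : ContDiff ℝ ⊤ (crc c) := by
  rw [contDiff_euclidean]
  intro i
  fin_cases i <;> (simp only [crc]; simp; fun_prop)

theorem crc_deriv (c t : ℝ) : HasDerivAt (crc c) (crcv c t) t := by
  rw [hasDerivAt_iff_hasFDerivAt]
  refine HasStrictFDerivAt.hasFDerivAt ?_
  rw [hasStrictFDerivAt_euclidean]
  have h2 : HasStrictDerivAt (fun t : ℝ => 2 * t) 2 t := by
    simpa using (hasStrictDerivAt_id t).const_mul 2
  intro i
  fin_cases i
  · refine (Real.hasStrictDerivAt_cos t).hasStrictFDerivAt.congr_fderiv ?_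
    ext
    simp [crcv]
  · refine (Real.hasStrictDerivAt_sin t).hasStrictFDerivAt.congr_fderiv ?_
    ext
    simp [crcv]
  · refine ((((Real.hasStrictDerivAt_cos (2 * t)).comp t h2).const_mul c)).hasStrictFDerivAt.congr_fderiv ?_
    ext
    simp [crcv]
    ring
  · refine ((((Real.hasStrictDerivAt_sin (2 * t)).comp t h2).const_mul c)).hasStrictFDerivAt.congr_fderiv ?_
    ext
    simp [crcv]
    ring

theorem crc_periodic (c : ℝ) : Function.Periodic (crc c) (2 * Real.pi) := by
  intro t
  have e : 2 * (t + 2 * Real.pi) = 2 * t + 2 * Real.pi + 2 * Real.pi := by ring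
  ext i
  fin_cases i <;> simp [crc, e, Real.cos_add_two_pi, Real.sin_add_two_pi]

/-- the system of equations of two points -/
theorem crc_alg {c c' h a b l : ℝ} (hc : 0 < c) (hc' : 0 < c')
    (e1 : (a + b) * Real.cos h = 2 * l * Real.sin h) (e2 : (a - b) * Real.sin h = 0)
    (e3 : -2 * (a * c - b * c') * Real.sin (2 * h) = l * (c - c') * Real.cos (2 * h))
    (e4 : 2 * (a * c + b * c') * Real.cos (2 * h) = l * (c + c') * Real.sin (2 * h))
    (hne : c = c' → Real.sin h ≠ 0) : a = 0 ∧ b = 0 ∧ l = 0 := by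
  have hsc := Real.sin_sq_add_cos_sq h
  have hSC := Real.sin_sq_add_cos_sq (2 * h)
  by_cases hs : Real.sin h = 0
  · have hcc : c ≠ c' := fun e => hne e hs
    have hch : Real.cos h ^ 2 = 1 := by rw [hs] at hsc; linarith
    have hch0 : Real.cos h ≠ 0 := fun h0 => by rw [h0] at hch; norm_num at hch
    have hab : a + b = 0 := by
      rw [hs, mul_zero] at e1
      exact (mul_eq_zero.mp e1).resolve_right hch0
    have hS : Real.sin (2 * h) = 0 := by rw [Real.sin_two_mul, hs]; ring
    have hC : Real.cos (2 * h) = 1 := by rw [Real.cos_two_mul, hch]; ring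
    rw [hS, hC] at e3 e4
    have hl : l = 0 := by
      have : l * (c - c') = 0 := by linarith
      exact (mul_eq_zero.mp this).resolve_right (sub_ne_zero.mpr hcc)
    have hb : b = -a := by linarith
    have ha : a = 0 := by
      rw [hb] at e4
      have : a * (c - c') = 0 := by linarith
      exact (mul_eq_zero.mp this).resolve_right (sub_ne_zero.mpr hcc)
    exact ⟨ha, by rw [hb, ha, neg_zero], hl⟩
  · have hab : b = a := by
      have := (mul_eq_zero.mp e2).resolve_right hs
      linarith
    subst hab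
    have hcs : 0 < c + c' := by linarith
    have e5 : 2 * b * Real.cos (2 * h) = l * Real.sin (2 * h) := by
      have : (c + c') * (2 * b * Real.cos (2 * h) - l * Real.sin (2 * h)) = 0 := by
        linear_combination e4
      have := (mul_eq_zero.mp this).resolve_left hcs.ne'
      linarith
    have e6 : b * Real.cos h = l * Real.sin h := by linarith
    have e7 : b * Real.sin h ^ 2 = 0 := by
      rw [Real.cos_two_mul, Real.sin_two_mul] at e5
      have : b * (Real.cos h ^ 2 - 1) = 0 := by
        linear_combination (1 / 2) * e5 - Real.cos h * e6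
      have h3 : Real.cos h ^ 2 - 1 = -Real.sin h ^ 2 := by linarith
      rw [h3] at this
      linarith
    have hb : b = 0 := (mul_eq_zero.mp e7).resolve_right (pow_ne_zero 2 hs)
    have hl : l = 0 := by
      rw [hb, zero_mul] at e6
      exact (mul_eq_zero.mp e6.symm).resolve_right hs
    exact ⟨hb, hb, hl⟩

/-- two different points of the curves have skew tangent lines -/
theorem crc_skew {c c' s t a b l : ℝ} (hc : 0 < c) (hc' : 0 < c')
    (hne : c = c' → ∀ k : ℤ, s ≠ t + k * (2 * Real.pi))
    (he : a • crcv c s + b • crcv c' t = l • (crc c s - crc c' t)) : a = 0 ∧ b = 0 ∧ l = 0 := by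
  obtain ⟨m, h, rfl, rfl⟩ : ∃ m h, s = m + h ∧ t = m - h := ⟨(s + t) / 2, (s - t) / 2, by ring,
    by ring⟩
  have E : ∀ i : Fin 4, a * crcv c (m + h) i + b * crcv c' (m - h) i =
      l * (crc c (m + h) i - crc c' (m - h) i) := by
    intro i
    have := congrArg (fun z : EuclideanSpace ℝ (Fin 4) => z i) he
    simpa using this
  have E0 := E 0
  have E1 := E 1
  have E2 := E 2
  have E3 := E 3
  have d1 : 2 * (m + h) = 2 * m + 2 * h := by ring
  have d2 : 2 * (m - h) = 2 * m - 2 * h := by ring
  simp only [crc, crcv, Matrix.cons_val, d1, d2, Real.sin_add, Real.sin_sub, Real.cos_add,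
    Real.cos_sub] at E0 E1 E2 E3
  have hm := Real.sin_sq_add_cos_sq m
  have hM := Real.sin_sq_add_cos_sq (2 * m)
  refine crc_alg (h := h) hc hc' ?_ ?_ ?_ ?_ ?_
  · linear_combination -Real.sin m * E0 + Real.cos m * E1 -
      ((a + b) * Real.cos h - 2 * l * Real.sin h) * hm
  · linear_combination -Real.cos m * E0 - Real.sin m * E1 - (a - b) * Real.sin h * hm
  · linear_combination Real.cos (2 * m) * E2 + Real.sin (2 * m) * E3 +
      (2 * (a * c - b * c') * Real.sin (2 * h) + l * (c - c') * Real.cos (2 * h)) * hM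
  · linear_combination -Real.sin (2 * m) * E2 + Real.cos (2 * m) * E3 -
      (2 * (a * c + b * c') * Real.cos (2 * h) - l * (c + c') * Real.sin (2 * h)) * hM
  · intro hcc h0
    obtain ⟨k, hk⟩ := Real.sin_eq_zero_iff.mp h0
    apply hne hcc k
    rw [← hk]
    ring

/-- **Closed curves**: any number of circles in `ℝ^4`. -/
theorem circles (k : ℕ) : ∃ f : Fin k → ℝ → EuclideanSpace ℝ (Fin 4),
    (∀ i, ContDiff ℝ ⊤ (f i)) ∧ (∀ i, Function.Periodic (f i) (2 * Real.pi)) ∧
    ∀ i j s t, (i = j → ∀ m : ℤ, s ≠ t + m * (2 * Real.pi)) →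
      LinearIndependent ℝ ![deriv (f i) s, deriv (f j) t, f i s - f j t] := by
  refine ⟨fun i => crc ((i : ℕ) + 1), fun i => crc_contDiff _, fun i => crc_periodic _,
    fun i j s t hne => ?_⟩
  rw [Fintype.linearIndependent_iff]
  intro g hg
  simp only [Fin.sum_univ_three, Matrix.cons_val, (crc_deriv _ _).deriv] at hg
  obtain ⟨h1, h2, h3⟩ := crc_skew (a := g 0) (b := g 1) (l := -g 2)
    (by positivity : (0 : ℝ) < (i : ℕ) + 1) (by positivity : (0 : ℝ) < (j : ℕ) + 1)
    (fun e => hne (Fin.ext (by exact_mod_cast (add_right_cancel e)))) (by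
      rw [neg_smul, ← sub_eq_zero, sub_neg_eq_add]
      exact hg)
  intro x
  fin_cases x
  · exact h1
  · exact h2
  · exact neg_eq_zero.mp h3

end Pool.Agent.Lib.Skw
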