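import Mathlib

set_option autoImplicit false

/-!
# Doubles of domains in all dimensions: the algebra (MP_3c016c_gt)

`F` is the real or the complex field, `κ` a cubic function on `F`. For `z : Fin k → F` and a real
number `s` let `q z s` be the sequence with terms
`∑_{i+j=D} z_i z_j + s z_{D-k} + κ (z_{D-j})`.
-/

open scoped ContDiff
open Finset

namespace Pool.Agent.Lib.Skw

/-- A cubic function with its polarizations. -/
structure Cubic (F : Type) [NormedField F] [NormedAlgebra ℝ F] where
  κ : F → F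
  κ1 : F → F → F
  κ2 : F → F → F
  T : F → F → F → F
  smooth : ContDiff ℝ ∞ κ
  exp : ∀ (z v : F) (t : ℝ), κ (z + t • v) = κ z + t • κ1 z v + t ^ 2 • κ2 z v + t ^ 3 • κ v
  id : ∀ (c d m : F) (l : ℝ), κ1 (c + d) (m + l • d) + κ1 (c - d) (-m + l • d) -
    l • (κ (c + d) - κ (c - d)) = T c d m + (4 * l) • κ d
  T0 : ∀ c m, T c 0 m = 0
  T0' : ∀ c d, T c d 0 = 0
  κ0 : κ 0 = 0

section
variable {F : Type} [NormedField F] [NormedAlgebra ℝ F] {k : ℕ}

/-- extension by zero -/
def ex (z : Fin k → F) (i : ℕ) : F := if h : i < k then z ⟨i, h⟩ else 0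

/-- shift by `j` -/
def sh (j : ℕ) (z : Fin k → F) (D : ℕ) : F := if j ≤ D then ex z (D - j) else 0

theorem ex_add (z w : Fin k → F) (i : ℕ) : ex (z + w) i = ex z i + ex w i := by
  unfold ex
  split_ifs <;> simp

theorem ex_sub (z w : Fin k → F) (i : ℕ) : ex (z - w) i = ex z i - ex w i := by
  unfold ex
  split_ifs <;> simp

theorem ex_neg (z : Fin k → F) (i : ℕ) : ex (-z) i = -ex z i := by
  unfold ex
  split_ifs <;> simp

theorem ex_smul (t : ℝ) (z : Fin k → F) (i : ℕ) : ex (t • z) i = t • ex z i := by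
  unfold ex
  split_ifs <;> simp

theorem ex_zero (i : ℕ) : ex (0 : Fin k → F) i = 0 := by
  unfold ex
  split_ifs <;> simp

theorem sh_add (j : ℕ) (z w : Fin k → F) (D : ℕ) : sh j (z + w) D = sh j z D + sh j w D := by
  unfold sh
  split_ifs
  · exact ex_add _ _ _
  · simp

theorem sh_sub (j : ℕ) (z w : Fin k → F) (D : ℕ) : sh j (z - w) D = sh j z D - sh j w D := by
  unfold sh
  split_ifs
  · exact ex_sub _ _ _
  · simp

theorem sh_neg (j : ℕ) (z : Fin k → F) (D : ℕ) : sh j (-z) D = -sh j z D := by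
  unfold sh
  split_ifs
  · exact ex_neg _ _
  · simp

theorem sh_smul (j : ℕ) (t : ℝ) (z : Fin k → F) (D : ℕ) : sh j (t • z) D = t • sh j z D := by
  unfold sh
  split_ifs
  · exact ex_smul _ _ _
  · simp

theorem sh_zero (j D : ℕ) : sh j (0 : Fin k → F) D = 0 := by
  unfold sh
  split_ifs
  · exact ex_zero _
  · rfl

theorem ex_ne {z : Fin k → F} (h : z ≠ 0) : ∃ i, ex z i ≠ 0 := by
  obtain ⟨i, hi⟩ := Function.ne_iff.mp h
  refine ⟨i, ?_⟩
  unfold ex
  rw [dif_pos i.2]
  exact hi

theorem ex_lt {z : Fin k → F} {i : ℕ} (h : ex z i ≠ 0) : i < k := by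
  by_contra hi
  apply h
  unfold ex
  rw [dif_neg hi]

variable (C : Cubic F) (j : ℕ)

/-- the terms of the sequence -/
noncomputable def qc (D : ℕ) (z : Fin k → F) (s : ℝ) : F :=
  ∑ x ∈ antidiagonal D, ex z x.1 * ex z x.2 + (s • sh k z D + C.κ (sh j z D))

/-- the derivative -/
noncomputable def qd (D : ℕ) (z : Fin k → F) (s : ℝ) (v : Fin k → F) (t : ℝ) : F :=
  ∑ x ∈ antidiagonal D, (ex z x.1 * ex v x.2 + ex v x.1 * ex z x.2) +
    ((t • sh k z D + s • sh k v D) + C.κ1 (sh j z D) (sh j v D))

theorem qc_exp (D : ℕ) (z v : Fin k → F) (s t r : ℝ) :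
    qc C j D (z + r • v) (s + r * t) = qc C j D z s + r • qd C j D z s v t +
      r ^ 2 • (∑ x ∈ antidiagonal D, ex v x.1 * ex v x.2 + (t • sh k v D +
        C.κ2 (sh j z D) (sh j v D))) + r ^ 3 • C.κ (sh j v D) := by
  have h1 : ∑ x ∈ antidiagonal D, ex (z + r • v) x.1 * ex (z + r • v) x.2 =
      ∑ x ∈ antidiagonal D, ex z x.1 * ex z x.2 +
      r • ∑ x ∈ antidiagonal D, (ex z x.1 * ex v x.2 + ex v x.1 * ex z x.2) +
      r ^ 2 • ∑ x ∈ antidiagonal D, ex v x.1 * ex v x.2 := by
    rw [Finset.smul_sum, Finset.smul_sum, ← Finset.sum_add_distrib, ← Finset.sum_add_distrib]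
    refine Finset.sum_congr rfl fun x _ => ?_
    rw [ex_add, ex_add, ex_smul, ex_smul]
    simp only [Algebra.smul_def, map_pow]
    ring
  unfold qc qd
  rw [h1, sh_add, sh_smul, sh_add, sh_smul, C.exp]
  simp only [Algebra.smul_def, map_pow, map_add, map_mul]
  ring

theorem qc_id (D : ℕ) (c d m : Fin k → F) (r δ μ l : ℝ) :
    qd C j D (c + d) (r + δ) (m + l • d) (μ + l * δ) +
      qd C j D (c - d) (r - δ) (-m + l • d) (-μ + l * δ) -
      l • (qc C j D (c + d) (r + δ) - qc C j D (c - d) (r - δ)) =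
    (2 : ℝ) • ∑ x ∈ antidiagonal D, (ex d x.1 * ex m x.2 + ex m x.1 * ex d x.2) +
      ((2 * δ) • sh k m D + (2 * μ) • sh k d D +
        (C.T (sh j c D) (sh j d D) (sh j m D) + (4 * l) • C.κ (sh j d D))) := by
  have h1 : ∑ x ∈ antidiagonal D, (ex (c + d) x.1 * ex (m + l • d) x.2 +
        ex (m + l • d) x.1 * ex (c + d) x.2) +
      ∑ x ∈ antidiagonal D, (ex (c - d) x.1 * ex (-m + l • d) x.2 +
        ex (-m + l • d) x.1 * ex (c - d) x.2) -
      l • (∑ x ∈ antidiagonal D, ex (c + d) x.1 * ex (c + d) x.2 -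
        ∑ x ∈ antidiagonal D, ex (c - d) x.1 * ex (c - d) x.2) =
      (2 : ℝ) • ∑ x ∈ antidiagonal D, (ex d x.1 * ex m x.2 + ex m x.1 * ex d x.2) := by
    rw [← Finset.sum_sub_distrib, Finset.smul_sum, Finset.smul_sum, ← Finset.sum_add_distrib,
      ← Finset.sum_sub_distrib]
    refine Finset.sum_congr rfl fun x _ => ?_
    simp only [ex_add, ex_sub, ex_neg, ex_smul]
    simp only [Algebra.smul_def, map_ofNat]
    ring
  have h2 := C.id (sh j c D) (sh j d D) (sh j m D) l
  unfold qc qd
  simp only [sh_add, sh_sub, sh_neg, sh_smul]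
  generalize (∑ x ∈ antidiagonal D, (ex (c + d) x.1 * ex (m + l • d) x.2 +
        ex (m + l • d) x.1 * ex (c + d) x.2)) = S1 at *
  generalize (∑ x ∈ antidiagonal D, (ex (c - d) x.1 * ex (-m + l • d) x.2 +
        ex (-m + l • d) x.1 * ex (c - d) x.2)) = S2 at *
  generalize (∑ x ∈ antidiagonal D, ex (c + d) x.1 * ex (c + d) x.2) = S3 at *
  generalize (∑ x ∈ antidiagonal D, ex (c - d) x.1 * ex (c - d) x.2) = S4 at *
  generalize (∑ x ∈ antidiagonal D, (ex d x.1 * ex m x.2 + ex m x.1 * ex d x.2)) = S5 at *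
  simp only [Algebra.smul_def, map_add, map_mul, map_neg, map_sub, map_ofNat] at h1 h2 ⊢
  linear_combination h1 + h2

theorem cub_alg (hj : (j = k ∧ ∀ x : F, x ≠ 0 → ∀ μ l : ℝ, μ • x + (2 * l) • C.κ x = 0 →
      μ = 0 ∧ l = 0) ∨ (j = k + 1 ∧ ∀ x : F, x ≠ 0 → C.κ x ≠ 0))
    {c d m : Fin k → F} {r δ μ l : ℝ} (hd : d ≠ 0 ∨ δ ≠ 0)
    (E : ∀ D < k + j, qd C j D (c + d) (r + δ) (m + l • d) (μ + l * δ) +
      qd C j D (c - d) (r - δ) (-m + l • d) (-μ + l * δ) =
      l • (qc C j D (c + d) (r + δ) - qc C j D (c - d) (r - δ))) :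
    m = 0 ∧ (d ≠ 0 → μ = 0 ∧ l = 0) := by
  have hkj : k ≤ j := by
    rcases hj with h | h <;> omega
  have E' : ∀ D < k + j,
      (2 : ℝ) • ∑ x ∈ antidiagonal D, (ex d x.1 * ex m x.2 + ex m x.1 * ex d x.2) +
      ((2 * δ) • sh k m D + (2 * μ) • sh k d D +
        (C.T (sh j c D) (sh j d D) (sh j m D) + (4 * l) • C.κ (sh j d D))) = 0 := by
    intro D hD
    rw [← qc_id, E D hD, sub_self]
  by_cases hd0 : d = 0
  · subst hd0
    have hδ : δ ≠ 0 := hd.resolve_left fun h => h rfl
    refine ⟨?_, fun h => absurd rfl h⟩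
    by_contra hm
    obtain ⟨i, hi⟩ := ex_ne hm
    have hik := ex_lt hi
    have h1 := E' (k + i) (by omega)
    simp only [ex_zero, sh_zero, zero_mul, mul_zero, add_zero, Finset.sum_const_zero, smul_zero,
      C.T0, C.κ0, zero_add] at h1
    have h2 : sh k m (k + i) = ex m i := by
      unfold sh
      rw [if_pos (by omega), Nat.add_sub_cancel_left]
    rw [h2, smul_eq_zero] at h1
    rcases h1 with h1 | h1
    · exact mul_ne_zero two_ne_zero hδ h1
    · exact hi h1
  · classical
    have hexd := ex_ne hd0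
    set a := Nat.find hexd with ha
    have haa : ex d a ≠ 0 := Nat.find_spec hexd
    have hamin : ∀ i < a, ex d i = 0 := fun i hi => by
      have := Nat.find_min hexd hi
      simpa using this
    have hak := ex_lt haa
    have hm : m = 0 := by
      by_contra hm0
      have hexm := ex_ne hm0
      set b := Nat.find hexm with hb
      have hbb : ex m b ≠ 0 := Nat.find_spec hexm
      have hbmin : ∀ i < b, ex m i = 0 := fun i hi => by
        have := Nat.find_min hexm hi
        simpa using this
      have hbk := ex_lt hbb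
      have h1 := E' (a + b) (by omega)
      have s1 : ∀ i, k ≤ i → sh i d (a + b) = 0 := fun i hi => by
        unfold sh
        split_ifs
        · exact hamin _ (by omega)
        · rfl
      have s2 : ∀ i, k ≤ i → sh i m (a + b) = 0 := fun i hi => by
        unfold sh
        split_ifs
        · exact hbmin _ (by omega)
        · rfl
      rw [s1 k le_rfl, s1 j hkj, s2 k le_rfl, s2 j hkj, C.T0, C.κ0] at h1
      simp only [smul_zero, add_zero] at h1
      have h2 : ∑ x ∈ antidiagonal (a + b), (ex d x.1 * ex m x.2 + ex m x.1 * ex d x.2) =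
          (2 : ℝ) • (ex d a * ex m b) := by
        have t1 : ∑ x ∈ antidiagonal (a + b), ex d x.1 * ex m x.2 = ex d a * ex m b := by
          refine Finset.sum_eq_single (a, b) (fun x hx hne => ?_) (fun h => ?_)
          · have hs := mem_antidiagonal.mp hx
            by_cases h3 : x.1 < a
            · rw [hamin _ h3, zero_mul]
            · have h4 : x.2 < b := by
                by_contra h5
                exact hne (Prod.ext (by simp only; omega) (by simp only; omega))
              rw [hbmin _ h4, mul_zero]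
          · exact absurd (by simp) h
        have t2 : ∑ x ∈ antidiagonal (a + b), ex m x.1 * ex d x.2 = ex d a * ex m b := by
          refine (Finset.sum_eq_single (b, a) (fun x hx hne => ?_) (fun h => ?_)).trans
            (mul_comm _ _)
          · have hs := mem_antidiagonal.mp hx
            by_cases h3 : x.1 < b
            · rw [hbmin _ h3, zero_mul]
            · have h4 : x.2 < a := by
                by_contra h5
                exact hne (Prod.ext (by simp only; omega) (by simp only; omega))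
              rw [hamin _ h4, mul_zero]
          · exact absurd (by simp [add_comm]) h
        rw [Finset.sum_add_distrib, t1, t2, two_smul]
      rw [h2, smul_smul, smul_eq_zero] at h1
      rcases h1 with h1 | h1
      · norm_num at h1
      · exact mul_ne_zero haa hbb h1
    refine ⟨hm, fun _ => ?_⟩
    subst hm
    have E2 : ∀ D < k + j, (2 * μ) • sh k d D + (4 * l) • C.κ (sh j d D) = 0 := by
      intro D hD
      have h1 := E' D hD
      simp only [ex_zero, sh_zero, zero_mul, mul_zero, add_zero, Finset.sum_const_zero, smul_zero,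
        C.T0', zero_add] at h1
      exact h1
    have s3 : ∀ i, sh i d (i + a) = ex d a := fun i => by
      unfold sh
      rw [if_pos (by omega), Nat.add_sub_cancel_left]
    rcases hj with ⟨rfl, hκ⟩ | ⟨rfl, hκ⟩
    · have h1 := E2 (j + a) (by omega)
      rw [s3] at h1
      have h2 := hκ _ haa (2 * μ) (2 * l) (by
        have : (2 * (2 * l)) = 4 * l := by ring
        rw [this]
        exact h1)
      exact ⟨by linarith [h2.1], by linarith [h2.2]⟩
    · have h1 := E2 (k + a) (by omega)
      have h3 : sh (k + 1) d (k + a) = 0 := by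
        unfold sh
        split_ifs
        · exact hamin _ (by omega)
        · rfl
      rw [s3, h3, C.κ0, smul_zero, add_zero, smul_eq_zero] at h1
      have hμ : μ = 0 := by
        rcases h1 with h1 | h1
        · linarith
        · exact absurd h1 haa
      subst hμ
      have h4 := E2 (k + 1 + a) (by omega)
      rw [s3, mul_zero, zero_smul, zero_add, smul_eq_zero] at h4
      rcases h4 with h4 | h4
      · exact ⟨rfl, by linarith⟩
      · exact absurd h4 (hκ _ haa)

end

end Pool.Agent.Lib.Skw
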