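import Mathlib

set_option autoImplicit false

/-!
# Totally skew maps of spheres and projective spaces (MP_3c016c_gt)
-/

open scoped ContDiff

namespace Pool.Agent.Lib.Skw

/-- `F` is a totally skew embedding into `ℝ^N` of the quotient of `ℝ^(n+1) ∖ {0}` by the
multiplications with the numbers in `S`: for `S = {c | 0 < c}` of the sphere `S^n`, for
`S = {c | c ≠ 0}` of the projective space `RP^n`. -/
structure TSkew (n N : ℕ) (S : Set ℝ)
    (F : EuclideanSpace ℝ (Fin (n + 1)) → EuclideanSpace ℝ (Fin N)) : Prop where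
  smooth : ContDiffOn ℝ ∞ F {0}ᶜ
  hom : ∀ c ∈ S, ∀ x, x ≠ 0 → F (c • x) = F x
  imm : ∀ x, x ≠ 0 → ∀ v, fderiv ℝ F x v = 0 → ∃ c : ℝ, v = c • x
  skew : ∀ x, x ≠ 0 → ∀ y, y ≠ 0 → (∀ c ∈ S, y ≠ c • x) → ∀ v w, ∀ l : ℝ,
    fderiv ℝ F x v + fderiv ℝ F y w = l • (F x - F y) →
      fderiv ℝ F x v = 0 ∧ fderiv ℝ F y w = 0 ∧ l = 0

theorem TSkew.comp {n N M : ℕ} {S : Set ℝ}
    {F : EuclideanSpace ℝ (Fin (n + 1)) → EuclideanSpace ℝ (Fin N)} (h : TSkew n N S F)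
    (L : EuclideanSpace ℝ (Fin N) →L[ℝ] EuclideanSpace ℝ (Fin M)) (hL : Function.Injective L) :
    TSkew n M S (fun x => L (F x)) := by
  have hd : ∀ x, x ≠ 0 → ∀ v, fderiv ℝ (fun x => L (F x)) x v = L (fderiv ℝ F x v) := by
    intro x hx v
    have h1 : DifferentiableAt ℝ F x := ((h.smooth x hx).contDiffAt
      (isOpen_compl_singleton.mem_nhds hx)).differentiableAt (by simp)
    have h2 := (L.hasFDerivAt (x := F x)).comp x h1.hasFDerivAt
    have h3 : fderiv ℝ (fun x => L (F x)) x = L.comp (fderiv ℝ F x) := h2.fderiv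
    rw [h3]
    rfl
  refine ⟨L.contDiff.comp_contDiffOn h.smooth, fun c hc x hx => by rw [h.hom c hc x hx],
    fun x hx v hv => h.imm x hx v ?_, fun x hx y hy hxy v w l he => ?_⟩
  · rw [hd x hx] at hv
    exact hL (hv.trans (map_zero L).symm)
  · rw [hd x hx, hd y hy, ← map_add, ← map_sub, ← map_smul] at he
    obtain ⟨h1, h2, h3⟩ := h.skew x hx y hy hxy v w l (hL he)
    rw [hd x hx, hd y hy, h1, h2]
    exact ⟨map_zero L, map_zero L, h3⟩

theorem TSkew.pad {n N M : ℕ} {S : Set ℝ} (hNM : N ≤ M) (h : ∃ F, TSkew n N S F) :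
    ∃ F, TSkew n M S F := by
  obtain ⟨F, hF⟩ := h
  obtain ⟨L, hL⟩ : ∃ L : EuclideanSpace ℝ (Fin N) →ₗ[ℝ] EuclideanSpace ℝ (Fin M),
      Function.Injective L := by
    refine ⟨(WithLp.linearEquiv 2 ℝ (Fin M → ℝ)).symm.toLinearMap ∘ₗ
      Function.ExtendByZero.linearMap ℝ (Fin.castLE hNM) ∘ₗ
      (WithLp.linearEquiv 2 ℝ (Fin N → ℝ)).toLinearMap, ?_⟩
    intro f g hfg
    ext i
    have h0 := congrArg (fun z : EuclideanSpace ℝ (Fin M) => z (Fin.castLE hNM i)) hfg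
    simpa [Function.ExtendByZero.linearMap, (Fin.castLE_injective hNM).extend_apply] using h0
  exact ⟨_, hF.comp (LinearMap.toContinuousLinearMap L) hL⟩

end Pool.Agent.Lib.Skw
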