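import Pool.Agent.Lib.Skw.Crc
import Pool.Agent.Lib.Skw.Def

set_option autoImplicit false

/-!
# Closed curves (MP_3c016c_gt)

No closed curve in `ℝ^3` is totally skew (Ghomi and Tabachnikov); any number of circles has a totally
skew embedding into `ℝ^4`.
-/

open scoped ContDiff Topology
open Set Filter

namespace Pool.Agent.Lib.Skw

/-- `f` is a totally skew embedding of the disjoint union of `k` circles `ℝ / 2π` into `ℝ^N`. -/
structure TSCurves (k N : ℕ) (f : Fin k → ℝ → EuclideanSpace ℝ (Fin N)) : Prop where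
  smooth : ∀ i, ContDiff ℝ ∞ (f i)
  per : ∀ i, Function.Periodic (f i) (2 * Real.pi)
  skew : ∀ i j s t, (i = j → ∀ m : ℤ, s ≠ t + m * (2 * Real.pi)) →
    LinearIndependent ℝ ![deriv (f i) s, deriv (f j) t, f i s - f j t]

theorem TSCurves.comp {k N M : ℕ} {f : Fin k → ℝ → EuclideanSpace ℝ (Fin N)}
    (h : TSCurves k N f)
    (L : EuclideanSpace ℝ (Fin N) →L[ℝ] EuclideanSpace ℝ (Fin M)) (hL : Function.Injective L) :
    TSCurves k M (fun i t => L (f i t)) := by
  have hd : ∀ i t, deriv (fun t => L (f i t)) t = L (deriv (f i) t) := by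
    intro i t
    have h1 : HasDerivAt (f i) (deriv (f i) t) t :=
      (((h.smooth i).contDiffAt).differentiableAt (by simp)).hasDerivAt
    exact (L.hasFDerivAt.comp_hasDerivAt t h1).deriv
  refine ⟨fun i => L.contDiff.comp (h.smooth i), fun i t => by simp only [h.per i t],
    fun i j s t hne => ?_⟩
  have h1 := (h.skew i j s t hne).map' L.toLinearMap (LinearMap.ker_eq_bot.mpr hL)
  have h2 : ![deriv (fun t => L (f i t)) s, deriv (fun t => L (f j t)) t, L (f i s) - L (f j t)] =
      ⇑L.toLinearMap ∘ ![deriv (f i) s, deriv (f j) t, f i s - f j t] := by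
    funext x
    fin_cases x
    · exact hd i s
    · exact hd j t
    · exact (map_sub L _ _).symm
  rw [h2]
  exact h1

theorem exists_inj {N M : ℕ} (hNM : N ≤ M) :
    ∃ L : EuclideanSpace ℝ (Fin N) →L[ℝ] EuclideanSpace ℝ (Fin M), Function.Injective L := by
  obtain ⟨L, hL⟩ : ∃ L : EuclideanSpace ℝ (Fin N) →ₗ[ℝ] EuclideanSpace ℝ (Fin M),
      Function.Injective L := by
    refine ⟨(WithLp.linearEquiv 2 ℝ (Fin M → ℝ)).symm.toLinearMap ∘ₗ
      Function.ExtendByZero.linearMap ℝ (Fin.castLE hNM) ∘ₗ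
      (WithLp.linearEquiv 2 ℝ (Fin N → ℝ)).toLinearMap, ?_⟩
    intro f g hfg
    ext i
    have h0 := congrArg (fun z : EuclideanSpace ℝ (Fin M) => z (Fin.castLE hNM i)) hfg
    simpa [Function.ExtendByZero.linearMap, (Fin.castLE_injective hNM).extend_apply] using h0
  exact ⟨LinearMap.toContinuousLinearMap L, hL⟩

theorem TSCurves.pad {k N M : ℕ} (hNM : N ≤ M) (h : ∃ f, TSCurves k N f) :
    ∃ f, TSCurves k M f := by
  obtain ⟨f, hf⟩ := h
  obtain ⟨L, hL⟩ := exists_inj hNM
  exact ⟨_, hf.comp L hL⟩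

theorem curves_four (k : ℕ) : ∃ f, TSCurves k 4 f := by
  obtain ⟨f, h1, h2, h3⟩ := circles k
  exact ⟨f, fun i => (h1 i).of_le le_top, h2, h3⟩

/-- the limit of the quotient of two functions with double zeros -/
theorem double_zero {m p : ℝ → ℝ} {m' p' : ℝ → ℝ} {s m2 p2 : ℝ}
    (hm : ∀ t, HasDerivAt m (m' t) t) (hp : ∀ t, HasDerivAt p (p' t) t)
    (hm2 : HasDerivAt m' m2 s) (hp2 : HasDerivAt p' p2 s) (h0 : m s = 0) (h1 : p s = 0)
    (h2 : m' s = 0) (h3 : p' s = 0) (h4 : p2 ≠ 0) :
    Tendsto (fun t => m t / p t) (𝓝[≠] s) (𝓝 (m2 / p2)) := by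
  have hne : ∀ᶠ t in 𝓝[≠] s, p' t ≠ 0 := by
    have := hp2.eventually_ne (c := 0) h4
    exact this
  refine HasDerivAt.lhopital_zero_nhdsNE (Eventually.of_forall hm) (Eventually.of_forall hp) hne
    ?_ ?_ ?_
  · have := (hm s).continuousAt.tendsto
    rw [h0] at this
    exact this.mono_left nhdsWithin_le_nhds
  · have := (hp s).continuousAt.tendsto
    rw [h1] at this
    exact this.mono_left nhdsWithin_le_nhds
  · have a1 := hasDerivAt_iff_tendsto_slope.mp hm2
    have a2 := hasDerivAt_iff_tendsto_slope.mp hp2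
    refine (a1.div a2 h4).congr' ?_
    filter_upwards [self_mem_nhdsWithin] with t ht
    have ht' : t - s ≠ 0 := sub_ne_zero.mpr ht
    simp only [Pi.div_apply, slope_def_field, h2, h3, sub_zero]
    rw [div_div_div_cancel_right₀ ht']

theorem per_deriv {f : ℝ → EuclideanSpace ℝ (Fin 3)} {c : ℝ} (h : Function.Periodic f c) :
    Function.Periodic (deriv f) c := by
  intro t
  have h1 : (fun x => f (x + c)) = f := funext h
  have h2 := deriv_comp_add_const f c t
  rw [h1] at h2
  exact h2.symm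

theorem ip3 (x y : EuclideanSpace ℝ (Fin 3)) :
    inner ℝ x y = x 0 * y 0 + x 1 * y 1 + x 2 * y 2 := by
  rw [PiLp.inner_apply]
  simp [Fin.sum_univ_three, mul_comm]

/-- cross product -/
noncomputable def crs (a v : EuclideanSpace ℝ (Fin 3)) : EuclideanSpace ℝ (Fin 3) :=
  !₂[a 1 * v 2 - a 2 * v 1, a 2 * v 0 - a 0 * v 2, a 0 * v 1 - a 1 * v 0]

theorem crs_left (a v : EuclideanSpace ℝ (Fin 3)) : inner ℝ (crs a v) a = 0 := by
  rw [ip3]
  simp only [crs, Matrix.cons_val]
  ring

theorem crs_right (a v : EuclideanSpace ℝ (Fin 3)) : inner ℝ (crs a v) v = 0 := by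
  rw [ip3]
  simp only [crs, Matrix.cons_val]
  ring

theorem crs_self (a v : EuclideanSpace ℝ (Fin 3)) : inner ℝ (crs a v) (crs a v) =
    inner ℝ a a * inner ℝ v v - inner ℝ a v ^ 2 := by
  rw [ip3, ip3, ip3, ip3]
  simp only [crs, Matrix.cons_val]
  ring

/-- a vector orthogonal to `a` and `a × v` is a multiple of `v` -/
theorem crs_par {a v z : EuclideanSpace ℝ (Fin 3)} (ha : a ≠ 0) (hv : v ≠ 0)
    (hav : inner ℝ a v = 0) (h1 : inner ℝ a z = 0) (h2 : inner ℝ (crs a v) z = 0) :
    ∃ c : ℝ, z = c • v := by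
  have h3 : 0 < inner ℝ a a := real_inner_self_pos.mpr ha
  have h4 : 0 < inner ℝ v v := real_inner_self_pos.mpr hv
  have h5 : inner ℝ (crs a v) (crs a v) ≠ 0 := by
    rw [crs_self, hav]
    nlinarith [mul_pos h3 h4]
  refine ⟨inner ℝ a a * inner ℝ v z / inner ℝ (crs a v) (crs a v), ?_⟩
  have key : ∀ i, inner ℝ (crs a v) (crs a v) * z i = inner ℝ a a * inner ℝ v z * v i := by
    intro i
    have e0 : inner ℝ (crs a v) (crs a v) * z i = inner ℝ (crs a v) z * crs a v i +
        (inner ℝ v v * inner ℝ a z - inner ℝ a v * inner ℝ v z) * a i +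
        (inner ℝ a a * inner ℝ v z - inner ℝ a v * inner ℝ a z) * v i := by
      simp only [ip3]
      fin_cases i <;> (simp [crs]; ring)
    rw [e0, hav, h1, h2]
    ring
  ext i
  have := key i
  simp only [PiLp.smul_apply, smul_eq_mul]
  field_simp
  linarith

theorem no_curve_three {f : ℝ → EuclideanSpace ℝ (Fin 3)} (hf : ContDiff ℝ ∞ f)
    (hper : Function.Periodic f (2 * Real.pi))
    (hsk : ∀ s t, (∀ m : ℤ, s ≠ t + m * (2 * Real.pi)) →
      LinearIndependent ℝ ![deriv f s, deriv f t, f s - f t]) : False := by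
  have hpi := Real.pi_pos
  -- a point with maximal norm
  obtain ⟨s0, hs0⟩ : ∃ s0, ∀ t, ‖f t‖ ≤ ‖f s0‖ := by
    obtain ⟨s, _, hs⟩ := isCompact_Icc.exists_isMaxOn (nonempty_Icc.mpr (by positivity :
      (0 : ℝ) ≤ 2 * Real.pi)) (hf.continuous.norm.continuousOn)
    refine ⟨s, fun t => ?_⟩
    obtain ⟨u, hu, hu'⟩ := hper.exists_mem_Ico₀ (by positivity) t
    rw [hu']
    exact hs ⟨hu.1, hu.2.le⟩
  have hD : ∀ t, HasDerivAt f (deriv f t) t := fun t =>
    (hf.contDiffAt.differentiableAt (by simp)).hasDerivAt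
  have hf' : ContDiff ℝ ∞ (deriv f) := by
    have := (contDiff_infty_iff_deriv.mp hf).2
    exact this
  have hD2 : ∀ t, HasDerivAt (deriv f) (deriv (deriv f) t) t := fun t =>
    (hf'.contDiffAt.differentiableAt (by simp)).hasDerivAt
  set a := f s0 with ha
  set v := deriv f s0 with hv
  set w := deriv (deriv f) s0 with hw
  have hne : ∀ t ∈ Ioo s0 (s0 + 2 * Real.pi), ∀ m : ℤ, s0 ≠ t + m * (2 * Real.pi) := by
    intro t ht m hm
    have h1 : (0 : ℝ) < -(m : ℝ) := by
      by_contra h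
      have : -(m : ℝ) * (2 * Real.pi) ≤ 0 := mul_nonpos_of_nonpos_of_nonneg (not_lt.mp h)
        (by positivity)
      linarith [ht.1]
    have h2 : -(m : ℝ) < 1 := by
      by_contra h
      have : 1 * (2 * Real.pi) ≤ -(m : ℝ) * (2 * Real.pi) :=
        mul_le_mul_of_nonneg_right (not_lt.mp h) (by positivity)
      linarith [ht.2]
    have h3 : (0 : ℤ) < -m := by exact_mod_cast h1
    have h4 : -m < (1 : ℤ) := by exact_mod_cast h2
    omega
  have hmid : s0 + Real.pi ∈ Ioo s0 (s0 + 2 * Real.pi) := ⟨by linarith, by linarith⟩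
  have hv0 : v ≠ 0 := (hsk s0 _ (hne _ hmid)).ne_zero 0
  have ha0 : a ≠ 0 := by
    intro h0
    have h1 : f (s0 + Real.pi) = 0 := by
      have := hs0 (s0 + Real.pi)
      rw [h0, norm_zero] at this
      exact norm_le_zero_iff.mp this
    have h2 := (hsk s0 _ (hne _ hmid)).ne_zero 2
    apply h2
    show f s0 - f (s0 + Real.pi) = 0
    rw [← ha, h0, h1, sub_zero]
  -- the function p
  have hp : ∀ t, HasDerivAt (fun t => inner ℝ a (f t) - inner ℝ a a) (inner ℝ a (deriv f t)) t := by
    intro t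
    have := ((innerSL ℝ a).hasFDerivAt.comp_hasDerivAt t (hD t)).sub_const (inner ℝ a a)
    exact this
  have hple : ∀ t, inner ℝ a (f t) - inner ℝ a a ≤ 0 := by
    intro t
    have h1 := real_inner_le_norm a (f t)
    have h2 : ‖a‖ * ‖f t‖ ≤ ‖a‖ * ‖a‖ := mul_le_mul_of_nonneg_left (hs0 t) (norm_nonneg _)
    rw [real_inner_self_eq_norm_mul_norm]
    linarith
  have hcrit : ∀ t, inner ℝ a (f t) - inner ℝ a a = 0 → inner ℝ a (deriv f t) = 0 := by
    intro t ht
    have hmax : IsLocalMax (fun t => inner ℝ a (f t) - inner ℝ a a) t :=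
      Filter.Eventually.of_forall fun u => by
        show inner ℝ a (f u) - inner ℝ a a ≤ inner ℝ a (f t) - inner ℝ a a
        rw [ht]
        exact hple u
    exact hmax.hasDerivAt_eq_zero (hp t)
  have hav : inner ℝ a v = 0 := hcrit s0 (by rw [← ha, sub_self])
  -- second derivative
  have hp2 : inner ℝ a w < 0 := by
    by_contra hcon
    rw [not_lt] at hcon
    set φ : ℝ → ℝ := fun t => inner ℝ (f t) (f t) with hφ
    have h1 : ∀ t, HasDerivAt φ (2 * inner ℝ (f t) (deriv f t)) t := by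
      intro t
      refine ((hD t).inner ℝ (hD t)).congr_deriv ?_
      rw [real_inner_comm (f t) (deriv f t)]
      ring
    have h2 : deriv φ = fun t => 2 * inner ℝ (f t) (deriv f t) := funext fun t => (h1 t).deriv
    have h3 : HasDerivAt (deriv φ) (2 * (inner ℝ a w + inner ℝ v v)) s0 := by
      rw [h2]
      exact (((hD s0).inner ℝ (hD2 s0)).const_mul 2)
    have h4 : 0 < deriv (deriv φ) s0 := by
      rw [h3.deriv]
      have := real_inner_self_pos.mpr hv0
      linarith
    have h5 : deriv φ s0 = 0 := by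
      rw [h2]
      show 2 * inner ℝ a v = 0
      rw [hav, mul_zero]
    have h6 := isLocalMin_of_deriv_deriv_pos h4 h5 (h1 s0).continuousAt
    have h7 : φ =ᶠ[𝓝 s0] fun _ => φ s0 := by
      filter_upwards [h6] with t ht
      refine le_antisymm ?_ ht
      show inner ℝ (f t) (f t) ≤ inner ℝ (f s0) (f s0)
      rw [real_inner_self_eq_norm_mul_norm, real_inner_self_eq_norm_mul_norm]
      exact mul_self_le_mul_self (norm_nonneg _) (hs0 t)
    have h8 : deriv φ =ᶠ[𝓝 s0] fun _ => 0 := by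
      have := h7.deriv
      filter_upwards [this] with t ht
      rw [ht]
      simp
    have h9 := h8.deriv_eq
    rw [h9] at h4
    simp at h4
  -- the function m
  set c := crs a v with hc
  have hm : ∀ t, HasDerivAt (fun t => inner ℝ c (f t)) (inner ℝ c (deriv f t)) t := by
    intro t
    exact (innerSL ℝ c).hasFDerivAt.comp_hasDerivAt t (hD t)
  have hca : inner ℝ c a = 0 := crs_left a v
  have hcv : inner ℝ c v = 0 := crs_right a v
  have hrel : ∀ t ∈ Ioo s0 (s0 + 2 * Real.pi), ∀ x y : ℝ,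
      inner ℝ a (x • (f t - a) + y • deriv f t) = 0 →
      inner ℝ c (x • (f t - a) + y • deriv f t) = 0 → x = 0 ∧ y = 0 := by
    intro t ht x y e1 e2
    obtain ⟨k, hk⟩ := crs_par ha0 hv0 hav e1 e2
    have h1 := Fintype.linearIndependent_iff.mp (hsk s0 t (hne t ht)) ![-k, y, -x] (by
      simp only [Fin.sum_univ_three, Matrix.cons_val]
      have : (-k) • v + y • deriv f t + (-x) • (a - f t) =
          (x • (f t - a) + y • deriv f t) - k • v := by module
      rw [← ha, ← hv, this, hk, sub_self])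
    have h2 := h1 1
    have h3 := h1 2
    simp at h2 h3
    exact ⟨h3, h2⟩
  have hW : ∀ t ∈ Ioo s0 (s0 + 2 * Real.pi),
      inner ℝ c (deriv f t) * (inner ℝ a (f t) - inner ℝ a a) -
        inner ℝ c (f t) * inner ℝ a (deriv f t) ≠ 0 := by
    intro t ht h0
    obtain ⟨h1, h2⟩ := hrel t ht (inner ℝ a (deriv f t)) (-(inner ℝ a (f t) - inner ℝ a a)) (by
      rw [inner_add_right, inner_smul_right, inner_smul_right, inner_sub_right]
      ring) (by
      rw [inner_add_right, inner_smul_right, inner_smul_right, inner_sub_right, hca]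
      linarith)
    obtain ⟨h3, h4⟩ := hrel t ht (inner ℝ c (deriv f t)) (-inner ℝ c (f t)) (by
      rw [inner_add_right, inner_smul_right, inner_smul_right, inner_sub_right]
      linarith) (by
      rw [inner_add_right, inner_smul_right, inner_smul_right, inner_sub_right, hca]
      ring)
    have h5 := hrel t ht 1 0 (by
      rw [one_smul, zero_smul, add_zero, inner_sub_right]
      linarith) (by
      rw [one_smul, zero_smul, add_zero, inner_sub_right, hca]
      linarith)
    exact one_ne_zero h5.1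
  have hpne : ∀ t ∈ Ioo s0 (s0 + 2 * Real.pi), inner ℝ a (f t) - inner ℝ a a ≠ 0 := by
    intro t ht h0
    apply hW t ht
    rw [h0, hcrit t h0]
    ring
  have hper' := per_deriv hper
  have hD2' : HasDerivAt (deriv f) w (s0 + 2 * Real.pi) := by
    have h1 : HasDerivAt (fun t => deriv f (t - 2 * Real.pi)) w (s0 + 2 * Real.pi) := by
      refine HasDerivAt.comp_sub_const (s0 + 2 * Real.pi) (2 * Real.pi) ?_
      rw [add_sub_cancel_right]
      exact hD2 s0
    have h2 : (fun t => deriv f (t - 2 * Real.pi)) = deriv f :=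
      funext fun t => hper'.sub_eq t
    rwa [h2] at h1
  have lim1 : Tendsto (fun t => inner ℝ c (f t) / (inner ℝ a (f t) - inner ℝ a a)) (𝓝[≠] s0)
      (𝓝 (inner ℝ c w / inner ℝ a w)) := by
    refine double_zero hm hp ?_ ?_ hca (by rw [← ha, sub_self]) hcv hav hp2.ne
    · exact (innerSL ℝ c).hasFDerivAt.comp_hasDerivAt s0 (hD2 s0)
    · exact (innerSL ℝ a).hasFDerivAt.comp_hasDerivAt s0 (hD2 s0)
  have fe : f (s0 + 2 * Real.pi) = a := hper s0
  have fe' : deriv f (s0 + 2 * Real.pi) = v := hper' s0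
  have lim2 : Tendsto (fun t => inner ℝ c (f t) / (inner ℝ a (f t) - inner ℝ a a))
      (𝓝[≠] (s0 + 2 * Real.pi)) (𝓝 (inner ℝ c w / inner ℝ a w)) := by
    refine double_zero hm hp ?_ ?_ (by rw [fe]; exact hca) (by rw [fe, sub_self])
      (by rw [fe']; exact hcv) (by rw [fe']; exact hav) hp2.ne
    · exact (innerSL ℝ c).hasFDerivAt.comp_hasDerivAt _ hD2'
    · exact (innerSL ℝ a).hasFDerivAt.comp_hasDerivAt _ hD2'
  obtain ⟨t, ht, h0⟩ := exists_hasDerivAt_eq_zero' (by linarith : s0 < s0 + 2 * Real.pi)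
    (lim1.mono_left (nhdsWithin_mono _ fun x hx => (ne_of_gt hx)))
    (lim2.mono_left (nhdsWithin_mono _ fun x hx => (ne_of_lt hx)))
    (fun t ht => (hm t).div (hp t) (hpne t ht))
  have h1 := hpne t ht
  rw [div_eq_zero_iff] at h0
  rcases h0 with h0 | h0
  · exact hW t ht h0
  · exact h1 (pow_eq_zero_iff (by norm_num)|>.mp h0)

/-- **Closed curves.** If some nonempty union of circles has a totally skew embedding into `ℝ^N`,
then so does every union of circles. -/
theorem curves_all {j k N : ℕ} (hj : 1 ≤ j) (h : ∃ f, TSCurves j N f) : ∃ f, TSCurves k N f := by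
  have h4 : 4 ≤ N := by
    by_contra hN
    obtain ⟨f, hf⟩ := TSCurves.pad (M := 3) (by omega) h
    refine no_curve_three (hf.smooth ⟨0, hj⟩) (hf.per ⟨0, hj⟩) fun s t hst => ?_
    exact hf.skew ⟨0, hj⟩ ⟨0, hj⟩ s t fun _ => hst
  exact TSCurves.pad h4 (curves_four k)

end Pool.Agent.Lib.Skw
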