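import Pool.Agent.Lib.Skw.Dbn

set_option autoImplicit false

/-!
# Doubles of domains in all dimensions: the two cubic functions (MP_3c016c_gt)
-/

open scoped ContDiff
open Finset

namespace Pool.Agent.Lib.Skw

/-- `x ^ 3` on the real field -/
noncomputable def cubR : Cubic ℝ where
  κ := fun z => z ^ 3
  κ1 := fun z v => 3 * z ^ 2 * v
  κ2 := fun z v => 3 * z * v ^ 2
  T := fun c d m => 12 * (c * d * m)
  smooth := contDiff_id.pow 3
  exp := fun z v t => by
    simp only [smul_eq_mul]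
    ring
  id := fun c d m l => by
    simp only [smul_eq_mul]
    ring
  T0 := fun c m => by ring
  T0' := fun c d => by ring
  κ0 := by ring

/-- `i |z|^2 z` on the complex field -/
noncomputable def cubC : Cubic ℂ where
  κ := fun z => Complex.I * (((z.re ^ 2 + z.im ^ 2 : ℝ) : ℂ) * z)
  κ1 := fun z v => Complex.I * (((2 * (z.re * v.re + z.im * v.im) : ℝ) : ℂ) * z +
    ((z.re ^ 2 + z.im ^ 2 : ℝ) : ℂ) * v)
  κ2 := fun z v => Complex.I * (((v.re ^ 2 + v.im ^ 2 : ℝ) : ℂ) * z +
    ((2 * (z.re * v.re + z.im * v.im) : ℝ) : ℂ) * v)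
  T := fun c d m => Complex.I * (((4 * (c.re * d.re + c.im * d.im) : ℝ) : ℂ) * m +
    ((4 * (c.re * m.re + c.im * m.im) : ℝ) : ℂ) * d +
    ((4 * (d.re * m.re + d.im * m.im) : ℝ) : ℂ) * c)
  smooth := by
    have h1 : ContDiff ℝ ∞ fun z : ℂ => z.re := Complex.reCLM.contDiff
    have h2 : ContDiff ℝ ∞ fun z : ℂ => z.im := Complex.imCLM.contDiff
    have h3 : ContDiff ℝ ∞ fun z : ℂ => ((z.re ^ 2 + z.im ^ 2 : ℝ) : ℂ) :=
      Complex.ofRealCLM.contDiff.comp ((h1.pow 2).add (h2.pow 2))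
    exact contDiff_const.mul (h3.mul contDiff_id)
  exp := fun z v t => by
    apply Complex.ext <;>
    simp only [Complex.add_re, Complex.add_im, Complex.mul_re, Complex.mul_im, Complex.smul_re,
      Complex.smul_im, Complex.ofReal_re, Complex.ofReal_im, Complex.I_re, Complex.I_im,
      smul_eq_mul] <;>
    ring
  id := fun c d m l => by
    apply Complex.ext <;>
    simp only [Complex.add_re, Complex.add_im, Complex.mul_re, Complex.mul_im, Complex.smul_re,
      Complex.smul_im, Complex.ofReal_re, Complex.ofReal_im, Complex.I_re, Complex.I_im,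
      Complex.sub_re, Complex.sub_im, Complex.neg_re, Complex.neg_im, smul_eq_mul] <;>
    ring
  T0 := fun c m => by simp
  T0' := fun c d => by simp
  κ0 := by simp

theorem cubC_ne {x : ℂ} (hx : x ≠ 0) {μ l : ℝ} (h : μ • x + (2 * l) • cubC.κ x = 0) :
    μ = 0 ∧ l = 0 := by
  have h1 : x * ((μ : ℂ) + Complex.I * ((2 * l * (x.re ^ 2 + x.im ^ 2) : ℝ) : ℂ)) = 0 := by
    rw [← h]
    apply Complex.ext <;>
    simp only [cubC, Complex.add_re, Complex.add_im, Complex.mul_re, Complex.mul_im,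
      Complex.smul_re, Complex.smul_im, Complex.ofReal_re, Complex.ofReal_im, Complex.I_re,
      Complex.I_im, smul_eq_mul] <;>
    ring
  have h2 := (mul_eq_zero.mp h1).resolve_left hx
  have h3 := congrArg Complex.re h2
  have h4 := congrArg Complex.im h2
  simp only [Complex.add_re, Complex.add_im, Complex.ofReal_re, Complex.ofReal_im, Complex.mul_re,
    Complex.mul_im, Complex.I_re, Complex.I_im, Complex.zero_re, Complex.zero_im] at h3 h4
  have hpos : 0 < x.re ^ 2 + x.im ^ 2 := by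
    have := Complex.normSq_pos.mpr hx
    rw [Complex.normSq_apply] at this
    nlinarith
  refine ⟨by linarith, ?_⟩
  have h5 : l * (2 * (x.re ^ 2 + x.im ^ 2)) = 0 := by linarith
  exact (mul_eq_zero.mp h5).resolve_right (by positivity)

theorem exists_far {F : Type} [NormedField F] [NormedAlgebra ℝ F] [FiniteDimensional ℝ F]
    {k j n N : ℕ} (C : Cubic F)
    (hj : (j = k ∧ ∀ x : F, x ≠ 0 → ∀ μ l : ℝ, μ • x + (2 * l) • C.κ x = 0 → μ = 0 ∧ l = 0) ∨
      (j = k + 1 ∧ ∀ x : F, x ≠ 0 → C.κ x ≠ 0))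
    (hn : n = k * Module.finrank ℝ F)
    (hN : k * Module.finrank ℝ F + (1 + (k + j) * Module.finrank ℝ F) ≤ N) :
    ∃ f : EuclideanSpace ℝ (Fin n) × ℝ → EuclideanSpace ℝ (Fin N), Far f := by
  have h1 : Module.finrank ℝ (EuclideanSpace ℝ (Fin n)) = Module.finrank ℝ (Fin k → F) := by
    rw [finrank_euclideanSpace_fin, Module.finrank_pi_fintype]
    simp [hn]
  have h2 : Module.finrank ℝ ((Fin k → F) × ℝ × (Fin (k + j) → F)) =
      Module.finrank ℝ (EuclideanSpace ℝ
        (Fin (k * Module.finrank ℝ F + (1 + (k + j) * Module.finrank ℝ F)))) := by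
    rw [finrank_euclideanSpace_fin, Module.finrank_prod, Module.finrank_prod,
      Module.finrank_pi_fintype, Module.finrank_pi_fintype]
    simp
  obtain ⟨e⟩ := FiniteDimensional.nonempty_continuousLinearEquiv_of_finrank_eq h1
  obtain ⟨e'⟩ := FiniteDimensional.nonempty_continuousLinearEquiv_of_finrank_eq h2
  obtain ⟨L, hL⟩ := exists_inj hN
  have h3 := ((cph_far C j hj).comp_left (L.comp (e' : _ →L[ℝ] _))
    (hL.comp e'.injective)).comp_right e
  exact ⟨_, h3⟩

theorem far_all {n N : ℕ} (h : 3 * n + 2 ≤ N) :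
    ∃ f : EuclideanSpace ℝ (Fin n) × ℝ → EuclideanSpace ℝ (Fin N), Far f := by
  refine exists_far (k := n) (j := n + 1) cubR
    (Or.inr ⟨rfl, fun x hx => pow_ne_zero 3 hx⟩) ?_ ?_
  · simp
  · simp only [Module.finrank_self]
    omega

theorem far_even {n N : ℕ} (hn : Even n) (h : 3 * n + 1 ≤ N) :
    ∃ f : EuclideanSpace ℝ (Fin n) × ℝ → EuclideanSpace ℝ (Fin N), Far f := by
  obtain ⟨k, rfl⟩ := hn
  refine exists_far (k := k) (j := k) cubC
    (Or.inl ⟨rfl, fun x hx μ l => cubC_ne hx⟩) ?_ ?_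
  · rw [Complex.finrank_real_complex]
    omega
  · rw [Complex.finrank_real_complex]
    omega

end Pool.Agent.Lib.Skw
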