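import Mathlib

set_option autoImplicit false

/-!
# Totally skew maps of doubles of domains: definitions for the statements (MP_3c016c_gt)
-/

open scoped ContDiff

namespace Pool.Agent.Lib.Skw

/-- The Euclidean space `ℝ^n`. -/
abbrev Eu (n : ℕ) : Type := EuclideanSpace ℝ (Fin n)

/-- The space `ℝ^n × ℝ`. -/
abbrev Cyl (n : ℕ) : Type := Eu n × ℝ

/-- The map `f` is smooth. -/
def Smooth {n N : ℕ} (f : Cyl n → Eu N) : Prop := ContDiff ℝ ∞ f

/-- `dm f p v` is the derivative of the map `f` at `p` in the direction `v`. -/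
noncomputable def dm {n N : ℕ} (f : Cyl n → Eu N) (p v : Cyl n) : Eu N := fderiv ℝ f p v

/-- The double of the domain `ρ ≥ 0`: the hypersurface of the points `(z, s)` with `s^2 = ρ z`. -/
def Double {n : ℕ} (ρ : Eu n → ℝ) : Set (Cyl n) := {p | p.2 ^ 2 = ρ p.1}

/-- The vector `v = (u, t)` is tangent to the double at `p = (z, s)`: `2 s t` is the derivative of
`ρ` at `z` in the direction `u`. -/
def Tangent {n : ℕ} (ρ : Eu n → ℝ) (p v : Cyl n) : Prop := 2 * p.2 * v.2 = fderiv ℝ ρ p.1 v.1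

/-- The images under `f` of the tangent spaces of the double at `p` and at `q` are skew. -/
def SkewTangents {n N : ℕ} (ρ : Eu n → ℝ) (f : Cyl n → Eu N) (p q : Cyl n) : Prop :=
  ∀ v w, Tangent ρ p v → Tangent ρ q w → ∀ l : ℝ, dm f p v + dm f q w = l • (f p - f q) →
    v = 0 ∧ w = 0 ∧ l = 0

/-- `f` restricts to a totally skew embedding of the double of `ρ ≥ 0` into `ℝ^N`. -/
structure TSDouble {n : ℕ} (ρ : Eu n → ℝ) (N : ℕ) (f : Cyl n → Eu N) : Prop where
  smooth : Smooth f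
  imm : ∀ p ∈ Double ρ, ∀ v, Tangent ρ p v → dm f p v = 0 → v = 0
  skew : ∀ p ∈ Double ρ, ∀ q ∈ Double ρ, p ≠ q → SkewTangents ρ f p q

/-- The set `ρ ≥ 0` is a compact domain of `ℝ^n` with smooth boundary `ρ = 0`. -/
structure SmoothDomain {n : ℕ} (ρ : Eu n → ℝ) : Prop where
  smooth : ContDiff ℝ ∞ ρ
  regular : ∀ z, ρ z = 0 → fderiv ℝ ρ z ≠ 0
  compact : IsCompact {z | 0 ≤ ρ z}

/-- The double of `ρ ≥ 0` has a totally skew embedding into `ℝ^N`. -/
def DoubleIn {n : ℕ} (ρ : Eu n → ℝ) (N : ℕ) : Prop := ∃ f : Cyl n → Eu N, TSDouble ρ N f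

/-- The disc of radius `3 g + 1` around `0` without the open discs of radius `1` around the points
`(3 k, 0)`, `k < g`. -/
def HoledDisc (g : ℕ) : Set (Eu 2) :=
  {z | (z 0) ^ 2 + (z 1) ^ 2 ≤ (3 * (g : ℝ) + 1) ^ 2 ∧
    ∀ k : ℕ, k < g → 1 ≤ (z 0 - 3 * (k : ℝ)) ^ 2 + (z 1) ^ 2}

/-- `dp f p v` is the derivative of the map `f` of the plane at `p` in the direction `v`. -/
noncomputable def dp {N : ℕ} (f : ℝ × ℝ → Eu N) (p v : ℝ × ℝ) : Eu N := fderiv ℝ f p v

/-- `f` is a smooth map of the Möbius band `ℝ^2 / ((x, y) ∼ (x + π, -y))` into `ℝ^N`. -/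
def Band {N : ℕ} (f : ℝ × ℝ → Eu N) : Prop :=
  ContDiff ℝ ∞ f ∧ ∀ x y, f (x + Real.pi, -y) = f (x, y)

/-- Two disjoint Möbius bands can be immersed into `ℝ^N` so that all tangent planes of the first are
skew to all tangent planes of the second. -/
def MoebiusIn (N : ℕ) : Prop := ∃ f g : ℝ × ℝ → Eu N, Band f ∧ Band g ∧
  ∀ p q v w, ∀ l : ℝ, dp f p v + dp g q w = l • (f p - g q) → v = 0 ∧ w = 0 ∧ l = 0

end Pool.Agent.Lib.Skw
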