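import Pool.Agent.Lib.Skw.Cub
import Pool.Agent.Lib.Skw.Cur
import Pool.Agent.Lib.Skw.Hyp

set_option autoImplicit false

/-!
# Doubles of domains in all dimensions (MP_3c016c_gt)
-/

open scoped ContDiff
open Finset

namespace Pool.Agent.Lib.Skw

section
variable {V W X : Type} [NormedAddCommGroup V] [NormedSpace ℝ V] [NormedAddCommGroup W]
  [NormedSpace ℝ W] [NormedAddCommGroup X] [NormedSpace ℝ X]

/-- skew at points with different first components -/
structure Far (Φ : V × ℝ → W) : Prop where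
  smooth : ContDiff ℝ ∞ Φ
  imm : ∀ p v, fderiv ℝ Φ p v = 0 → v = 0
  far : ∀ p q : V × ℝ, p.1 ≠ q.1 → ∀ v w, ∀ l : ℝ,
    fderiv ℝ Φ p v + fderiv ℝ Φ q w = l • (Φ p - Φ q) → v = 0 ∧ w = 0 ∧ l = 0
  fib : ∀ p q : V × ℝ, p.1 = q.1 → p.2 ≠ q.2 → ∀ v w, ∀ l : ℝ,
    fderiv ℝ Φ p v + fderiv ℝ Φ q w = l • (Φ p - Φ q) →
      v.1 = 0 ∧ w.1 = 0 ∧ v.2 + w.2 = l * (p.2 - q.2)

theorem Far.comp_left {Φ : V × ℝ → W} (h : Far Φ) (L : W →L[ℝ] X)
    (hL : Function.Injective L) : Far fun p => L (Φ p) := by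
  have hd : ∀ p v, fderiv ℝ (fun p => L (Φ p)) p v = L (fderiv ℝ Φ p v) := by
    intro p v
    have h1 : DifferentiableAt ℝ Φ p := (h.smooth.contDiffAt).differentiableAt (by simp)
    have h2 := (L.hasFDerivAt (x := Φ p)).comp p h1.hasFDerivAt
    have h3 : fderiv ℝ (fun p => L (Φ p)) p = L.comp (fderiv ℝ Φ p) := h2.fderiv
    rw [h3]
    rfl
  refine ⟨L.contDiff.comp h.smooth, fun p v hv => h.imm p v ?_,
    fun p q hne v w l he => h.far p q hne v w l ?_,
    fun p q h1 h2 v w l he => h.fib p q h1 h2 v w l ?_⟩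
  · rw [hd] at hv
    exact hL (hv.trans (map_zero L).symm)
  · rw [hd, hd, ← map_add, ← map_sub, ← map_smul] at he
    exact hL he
  · rw [hd, hd, ← map_add, ← map_sub, ← map_smul] at he
    exact hL he

theorem Far.comp_right {Φ : V × ℝ → W} (h : Far Φ) (e : X ≃L[ℝ] V) :
    Far fun p : X × ℝ => Φ (e p.1, p.2) := by
  set A : X × ℝ →L[ℝ] V × ℝ := (e : X →L[ℝ] V).prodMap (ContinuousLinearMap.id ℝ ℝ) with hA
  have hAp : ∀ p : X × ℝ, A p = (e p.1, p.2) := fun p => rfl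
  have hd : ∀ p v, fderiv ℝ (fun p : X × ℝ => Φ (e p.1, p.2)) p v =
      fderiv ℝ Φ (e p.1, p.2) (e v.1, v.2) := by
    intro p v
    have h1 : DifferentiableAt ℝ Φ (A p) := (h.smooth.contDiffAt).differentiableAt (by simp)
    have h2 := h1.hasFDerivAt.comp p A.hasFDerivAt
    have h3 : fderiv ℝ (fun p : X × ℝ => Φ (e p.1, p.2)) p = (fderiv ℝ Φ (A p)).comp A :=
      h2.fderiv
    rw [h3]
    rfl
  have hz : ∀ v : X × ℝ, ((e v.1, v.2) : V × ℝ) = 0 → v = 0 := fun v hv => by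
    have h1 : e v.1 = 0 := congrArg Prod.fst hv
    have h2 : v.2 = 0 := congrArg Prod.snd hv
    exact Prod.ext (by simpa using h1) h2
  refine ⟨h.smooth.comp A.contDiff, fun p v hv => ?_, fun p q hne v w l he => ?_,
    fun p q h1 h2 v w l he => ?_⟩
  · rw [hd] at hv
    exact hz v (h.imm _ _ hv)
  · rw [hd, hd] at he
    obtain ⟨h1, h2, h3⟩ := h.far (e p.1, p.2) (e q.1, q.2)
      (fun h => hne (e.injective h)) _ _ l he
    exact ⟨hz v h1, hz w h2, h3⟩
  · rw [hd, hd] at he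
    obtain ⟨h3, h4, h5⟩ := h.fib (e p.1, p.2) (e q.1, q.2) (congrArg e h1) h2 _ _ l he
    exact ⟨by simpa using h3, by simpa using h4, h5⟩

end

theorem Far.double {n N : ℕ} {Φ : Cyl n → Eu N} (h : Far Φ) (ρ : Eu n → ℝ) :
    TSDouble ρ N Φ := by
  refine ⟨h.smooth, fun p _ v _ hv => h.imm p v hv, ?_⟩
  rintro ⟨z, s⟩ hp ⟨z', s'⟩ hq hne ⟨u, t⟩ ⟨u', t'⟩ hv hw l he
  have he' : fderiv ℝ Φ (z, s) (u, t) + fderiv ℝ Φ (z', s') (u', t') =
    l • (Φ (z, s) - Φ (z', s')) := he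
  have hp' : s ^ 2 = ρ z := hp
  have hq' : s' ^ 2 = ρ z' := hq
  have hv' : 2 * s * t = fderiv ℝ ρ z u := hv
  have hw' : 2 * s' * t' = fderiv ℝ ρ z' u' := hw
  by_cases hz : z = z'
  · subst hz
    have hs : s ≠ s' := fun h => hne (by rw [h])
    have h1 : s ^ 2 = s' ^ 2 := by rw [hp', hq']
    have hs0 : s ≠ 0 := by
      rintro rfl
      have : s' ^ 2 = 0 := by linarith
      have : s' = 0 := by simpa using this
      exact hs this.symm
    have hs0' : s' ≠ 0 := by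
      rintro rfl
      have : s ^ 2 = 0 := by linarith
      have : s = 0 := by simpa using this
      exact hs this
    obtain ⟨h2, h3, h4⟩ := h.fib (z, s) (z, s') rfl hs _ _ l he'
    simp only at h2 h3 h4
    subst h2 h3
    rw [map_zero] at hv' hw'
    have ht : t = 0 := (mul_eq_zero.mp hv').resolve_left (mul_ne_zero two_ne_zero hs0)
    have ht' : t' = 0 := (mul_eq_zero.mp hw').resolve_left (mul_ne_zero two_ne_zero hs0')
    subst ht ht'
    refine ⟨rfl, rfl, ?_⟩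
    have : l * (s - s') = 0 := by linarith
    exact (mul_eq_zero.mp this).resolve_right (sub_ne_zero.mpr hs)
  · exact h.far (z, s) (z', s') hz _ _ l he'

theorem DoubleIn.pad {n : ℕ} {ρ : Eu n → ℝ} {N M : ℕ} (hNM : N ≤ M) (h : DoubleIn ρ N) :
    DoubleIn ρ M := by
  obtain ⟨f, hf⟩ := h
  obtain ⟨L, hL⟩ := exists_inj hNM
  have hfs : ContDiff ℝ ∞ f := hf.smooth
  have hd : ∀ p v, dm (fun p => L (f p)) p v = L (dm f p v) := by
    intro p v
    have h1 : DifferentiableAt ℝ f p := (hfs.contDiffAt).differentiableAt (by simp)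
    have h2 := (L.hasFDerivAt (x := f p)).comp p h1.hasFDerivAt
    have h3 : fderiv ℝ (fun p => L (f p)) p = L.comp (fderiv ℝ f p) := h2.fderiv
    show fderiv ℝ (fun p => L (f p)) p v = L (fderiv ℝ f p v)
    rw [h3]
    rfl
  refine ⟨fun p => L (f p), L.contDiff.comp hfs, fun p hp v hv hfv => hf.imm p hp v hv ?_,
    fun p hp q hq hne v w hv hw l he => hf.skew p hp q hq hne v w hv hw l ?_⟩
  · rw [hd] at hfv
    exact hL (hfv.trans (map_zero L).symm)
  · rw [hd, hd, ← map_add, ← map_sub, ← map_smul] at he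
    exact hL he

section
variable {F : Type} [NormedField F] [NormedAlgebra ℝ F] {k : ℕ} (C : Cubic F) (j : ℕ)

/-- The map. -/
noncomputable def cph (k : ℕ) (p : (Fin k → F) × ℝ) : (Fin k → F) × ℝ × (Fin (k + j) → F) :=
  (p.1, p.2, fun D => qc C j (D : ℕ) p.1 p.2)

theorem ex_smooth (i : ℕ) : ContDiff ℝ ∞ fun z : Fin k → F => ex z i := by
  unfold ex
  split_ifs with h
  · exact contDiff_apply ℝ F _
  · exact contDiff_const

theorem sh_smooth (i D : ℕ) : ContDiff ℝ ∞ fun z : Fin k → F => sh i z D := by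
  unfold sh
  split_ifs
  · exact ex_smooth _
  · exact contDiff_const

theorem qc_smooth (D : ℕ) : ContDiff ℝ ∞ fun p : (Fin k → F) × ℝ => qc C j D p.1 p.2 := by
  unfold qc
  refine (ContDiff.sum fun x _ => ?_).add ((ContDiff.smul contDiff_snd ?_).add ?_)
  · exact ((ex_smooth _).comp contDiff_fst).mul ((ex_smooth _).comp contDiff_fst)
  · exact (sh_smooth k D).comp contDiff_fst
  · exact C.smooth.comp ((sh_smooth j D).comp contDiff_fst)

theorem cph_smooth : ContDiff ℝ ∞ (cph C j k) :=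
  contDiff_fst.prodMk (contDiff_snd.prodMk (contDiff_pi.mpr fun D => qc_smooth C j D))

theorem cub_deriv {G : Type} [NormedAddCommGroup G] [NormedSpace ℝ G] (a b c e : G) :
    HasDerivAt (fun t : ℝ => a + t • b + t ^ 2 • c + t ^ 3 • e) b 0 := by
  have h1 : HasDerivAt (fun t : ℝ => t • b) b 0 := by
    simpa using (hasDerivAt_id (0 : ℝ)).smul_const b
  have h2 : HasDerivAt (fun t : ℝ => t ^ 2 • c) (0 : G) 0 := by
    have := ((hasDerivAt_id (0 : ℝ)).pow 2).smul_const c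
    simpa using this
  have h3 : HasDerivAt (fun t : ℝ => t ^ 3 • e) (0 : G) 0 := by
    have := ((hasDerivAt_id (0 : ℝ)).pow 3).smul_const e
    simpa using this
  have h4 := (((hasDerivAt_const (0 : ℝ) a).add h1).add h2).add h3
  simpa [Pi.add_def] using h4

theorem cph_fderiv (p v : (Fin k → F) × ℝ) : fderiv ℝ (cph C j k) p v =
    (v.1, v.2, fun D : Fin (k + j) => qd C j (D : ℕ) p.1 p.2 v.1 v.2) := by
  have h1 : DifferentiableAt ℝ (cph C j k) p :=
    ((cph_smooth C j).contDiffAt).differentiableAt (by simp)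
  have h2 : HasDerivAt (fun t : ℝ => p + t • v) v 0 := by
    simpa using ((hasDerivAt_id (0 : ℝ)).smul_const v).const_add p
  have h3 : HasFDerivAt (cph C j k) (fderiv ℝ (cph C j k) p) (p + (0 : ℝ) • v) := by
    rw [zero_smul, add_zero]
    exact h1.hasFDerivAt
  have h4' := h3.comp_hasDerivAt (0 : ℝ) h2
  have h4 : HasDerivAt (fun t : ℝ => cph C j k (p + t • v)) (fderiv ℝ (cph C j k) p v) 0 := h4'
  refine h4.unique ?_
  have h5 : HasDerivAt (fun t : ℝ => (p + t • v).1) v.1 0 := by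
    have := ((hasDerivAt_id (0 : ℝ)).smul_const v.1).const_add p.1
    simpa using this
  have h6 : HasDerivAt (fun t : ℝ => (p + t • v).2) v.2 0 := by
    have := ((hasDerivAt_id (0 : ℝ)).smul_const v.2).const_add p.2
    simpa using this
  refine h5.prodMk (h6.prodMk (hasDerivAt_pi.mpr fun D => ?_))
  have h7 : (fun t : ℝ => qc C j (D : ℕ) (p + t • v).1 (p + t • v).2) = fun t : ℝ =>
      qc C j D p.1 p.2 + t • qd C j D p.1 p.2 v.1 v.2 +
      t ^ 2 • (∑ x ∈ antidiagonal (D : ℕ), ex v.1 x.1 * ex v.1 x.2 + (v.2 • sh k v.1 D +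
        C.κ2 (sh j p.1 D) (sh j v.1 D))) + t ^ 3 • C.κ (sh j v.1 D) := by
    funext t
    exact qc_exp C j D p.1 v.1 p.2 v.2 t
  rw [h7]
  exact cub_deriv _ _ _ _

theorem cph_far (hj : (j = k ∧ ∀ x : F, x ≠ 0 → ∀ μ l : ℝ, μ • x + (2 * l) • C.κ x = 0 →
    μ = 0 ∧ l = 0) ∨ (j = k + 1 ∧ ∀ x : F, x ≠ 0 → C.κ x ≠ 0)) : Far (cph C j k) := by
  have key : ∀ p q : (Fin k → F) × ℝ, p ≠ q → ∀ v w, ∀ l : ℝ,
      fderiv ℝ (cph (F := F) C j k) p v + fderiv ℝ (cph (F := F) C j k) q w =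
        l • (cph C j k p - cph C j k q) →
      v.1 = (l / 2) • (p.1 - q.1) ∧ w.1 = (l / 2) • (p.1 - q.1) ∧
      v.2 + w.2 = l * (p.2 - q.2) ∧ (p.1 ≠ q.1 → v.2 = w.2 ∧ l = 0) := by
    rintro ⟨z, s⟩ ⟨z', s'⟩ hne ⟨u, t⟩ ⟨u', t'⟩ l he
    rw [cph_fderiv, cph_fderiv] at he
    have e1 : u + u' = l • (z - z') := congrArg Prod.fst he
    have e2 : t + t' = l * (s - s') := congrArg (fun x => x.2.1) he
    have e3 : ∀ D < k + j, qd C j D z s u t + qd C j D z' s' u' t' =
        l • (qc C j D z s - qc C j D z' s') := fun D hD =>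
      congrFun (congrArg (fun x => x.2.2) he) ⟨D, hD⟩
    have a1 : ((1 / 2 : ℝ) • (z + z')) + (1 / 2 : ℝ) • (z - z') = z := by module
    have a2 : ((1 / 2 : ℝ) • (z + z')) - (1 / 2 : ℝ) • (z - z') = z' := by module
    have a3 : (s + s') / 2 + (s - s') / 2 = s := by ring
    have a4 : (s + s') / 2 - (s - s') / 2 = s' := by ring
    have a5 : (1 / 2 : ℝ) • (u - u') + l • ((1 / 2 : ℝ) • (z - z')) = u := by
      have : l • ((1 / 2 : ℝ) • (z - z')) = (1 / 2 : ℝ) • (u + u') := by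
        rw [e1]
        module
      rw [this]
      module
    have a6 : -((1 / 2 : ℝ) • (u - u')) + l • ((1 / 2 : ℝ) • (z - z')) = u' := by
      have : l • ((1 / 2 : ℝ) • (z - z')) = (1 / 2 : ℝ) • (u + u') := by
        rw [e1]
        module
      rw [this]
      module
    have a7 : (t - t') / 2 + l * ((s - s') / 2) = t := by linarith
    have a8 : -((t - t') / 2) + l * ((s - s') / 2) = t' := by linarith
    have hd : (1 / 2 : ℝ) • (z - z') ≠ 0 ∨ (s - s') / 2 ≠ 0 := by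
      by_contra hcon
      push_neg at hcon
      apply hne
      have b1 : z = z' := by
        have := (smul_eq_zero.mp hcon.1).resolve_left (by norm_num)
        exact sub_eq_zero.mp this
      have b2 : s = s' := by linarith [hcon.2]
      rw [b1, b2]
    obtain ⟨c1, c2⟩ := cub_alg C j hj (c := (1 / 2 : ℝ) • (z + z')) (r := (s + s') / 2)
      (m := (1 / 2 : ℝ) • (u - u')) (μ := (t - t') / 2) (l := l) hd (fun D hD => by
        rw [a1, a2, a3, a4, a5, a6, a7, a8]
        exact e3 D hD)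
    rw [c1, zero_add] at a5
    rw [c1, neg_zero, zero_add] at a6
    refine ⟨?_, ?_, e2, fun hz => ?_⟩
    · rw [← a5, smul_smul]
      congr 1
      ring
    · rw [← a6, smul_smul]
      congr 1
      ring
    · have hz' : (1 / 2 : ℝ) • (z - z') ≠ 0 := by
        intro h0
        exact hz (sub_eq_zero.mp ((smul_eq_zero.mp h0).resolve_left (by norm_num)))
      obtain ⟨d1, d2⟩ := c2 hz'
      exact ⟨by linarith, d2⟩
  refine ⟨cph_smooth C j, fun p v hv => ?_, fun p q hne v w l he => ?_,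
    fun p q h1 h2 v w l he => ?_⟩
  · rw [cph_fderiv] at hv
    have h1 : v.1 = 0 := congrArg Prod.fst hv
    have h2 : v.2 = 0 := congrArg (fun x => x.2.1) hv
    exact Prod.ext h1 h2
  · obtain ⟨a1, a2, a3, a4⟩ := key p q (fun h => hne (by rw [h])) v w l he
    obtain ⟨a5, rfl⟩ := a4 hne
    rw [zero_div, zero_smul] at a1 a2
    rw [zero_mul] at a3
    exact ⟨Prod.ext a1 (by show v.2 = 0; linarith), Prod.ext a2 (by show w.2 = 0; linarith), rfl⟩
  · obtain ⟨a1, a2, a3, -⟩ := key p q (fun h => h2 (by rw [h])) v w l he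
    rw [h1, sub_self, smul_zero] at a1 a2
    exact ⟨a1, a2, a3⟩

end

end Pool.Agent.Lib.Skw
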