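import Pool.Agent.Lib.Skw.Def

set_option autoImplicit false

/-!
# Totally skew embeddings of spheres from symmetric bilinear forms (MP_3c016c_gt)

`F(x) = (x, B_1(x, x), …, B_s(x, x))` on the ellipsoid `b(x, x) = 1`.
-/

open scoped ContDiff

namespace Pool.Agent.Lib.Skw

variable {n s : ℕ}

theorem gen_alg {b : LinearMap.BilinForm ℝ (EuclideanSpace ℝ (Fin (n + 1)))}
    {B : Fin s → LinearMap.BilinForm ℝ (EuclideanSpace ℝ (Fin (n + 1)))}
    (bs : ∀ x y, b x y = b y x) (bp : ∀ x, x ≠ 0 → 0 < b x x) (Bs : ∀ i x y, B i x y = B i y x)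
    (h : ∀ d e, b d e = 0 → (∀ i, B i d e = 0) → d = 0 ∨ e = 0)
    {X Y v w : EuclideanSpace ℝ (Fin (n + 1))} {l : ℝ} (hX : b X X = 1) (hY : b Y Y = 1)
    (hv : b X v = 0) (hw : b Y w = 0) (hXY : X ≠ Y) (h1 : v + w = l • (X - Y))
    (h2 : ∀ i, 2 * B i X v + 2 * B i Y w = l * (B i X X - B i Y Y)) : v = 0 ∧ w = 0 ∧ l = 0 := by
  have hD : X - Y ≠ 0 := sub_ne_zero.mpr hXY
  have a1 : b X w = l * (1 - b X Y) := by
    have := congrArg (fun z => b X z) h1
    simp only [map_add, map_smul, map_sub, smul_eq_mul, hX, hv, zero_add] at this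
    exact this
  have a2 : b Y v = l * (b X Y - 1) := by
    have := congrArg (fun z => b Y z) h1
    simp only [map_add, map_smul, map_sub, smul_eq_mul, hY, hw, add_zero] at this
    rw [bs Y X] at this
    exact this
  have hde : b (X - Y) (v - w) = 0 := by
    simp only [map_sub, LinearMap.sub_apply]
    rw [hv, hw, a1, a2]
    ring
  have hk : ∀ i, B i (X - Y) (v - w) = 0 := by
    intro i
    have b1 := h2 i
    have b2 : B i X v + B i X w = l * (B i X X - B i X Y) := by
      have := congrArg (fun z => B i X z) h1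
      simpa [map_add, map_smul, map_sub] using this
    have b3 : B i Y v + B i Y w = l * (B i Y X - B i Y Y) := by
      have := congrArg (fun z => B i Y z) h1
      simpa [map_add, map_smul, map_sub] using this
    rw [Bs i Y X] at b3
    simp only [map_sub, LinearMap.sub_apply]
    linear_combination b1 - b2 - b3
  have he : v - w = 0 := (h _ _ hde hk).resolve_left hD
  have hvw : v = w := sub_eq_zero.mp he
  have h3 : b (X - Y) v = 0 := by
    simp only [map_sub, LinearMap.sub_apply]
    rw [hv, hvw, hw, sub_zero]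
  have h4 : b v v = 0 := by
    have h5 : b (v + w) v = 0 := by
      rw [h1, map_smul, LinearMap.smul_apply, h3, smul_zero]
    rw [← hvw, map_add, LinearMap.add_apply] at h5
    linarith
  have h6 : v = 0 := by
    by_contra h0
    exact absurd h4 (bp v h0).ne'
  refine ⟨h6, hvw ▸ h6, ?_⟩
  rw [← hvw, h6, add_zero] at h1
  rcases smul_eq_zero.mp h1.symm with h | h
  · exact h
  · exact absurd h hD

/-- a bilinear form as a continuous bilinear form -/
noncomputable def cb (b : LinearMap.BilinForm ℝ (EuclideanSpace ℝ (Fin (n + 1)))) :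
    EuclideanSpace ℝ (Fin (n + 1)) →L[ℝ] EuclideanSpace ℝ (Fin (n + 1)) →L[ℝ] ℝ :=
  LinearMap.toContinuousLinearMap
    ((LinearMap.toContinuousLinearMap (𝕜 := ℝ) (E := EuclideanSpace ℝ (Fin (n + 1)))
      (F' := ℝ)).toLinearMap ∘ₗ b)

theorem cb_apply (b : LinearMap.BilinForm ℝ (EuclideanSpace ℝ (Fin (n + 1))))
    (x y : EuclideanSpace ℝ (Fin (n + 1))) : cb b x y = b x y := rfl

theorem quad_contDiff (b : LinearMap.BilinForm ℝ (EuclideanSpace ℝ (Fin (n + 1)))) :
    ContDiff ℝ ∞ fun x => b x x := by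
  have : (fun x => b x x) = fun x => cb b x x := rfl
  rw [this]
  exact (cb b).contDiff.clm_apply contDiff_id

theorem quad_deriv {b : LinearMap.BilinForm ℝ (EuclideanSpace ℝ (Fin (n + 1)))}
    (bs : ∀ x y, b x y = b y x) {E' : Type*} [NormedAddCommGroup E'] [NormedSpace ℝ E']
    {f : E' → EuclideanSpace ℝ (Fin (n + 1))} {f' : E' →L[ℝ] EuclideanSpace ℝ (Fin (n + 1))}
    {x : E'} (hf : HasFDerivAt f f' x) :
    HasFDerivAt (fun y => b (f y) (f y)) ((2 : ℝ) • (cb b (f x)).comp f') x := by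
  have h1 := ((cb b).hasFDerivAt.comp x hf).clm_apply hf
  refine h1.congr_fderiv ?_
  ext v
  simp only [add_apply, ContinuousLinearMap.comp_apply,
    ContinuousLinearMap.flip_apply, smul_apply, cb_apply, smul_eq_mul,
    Function.comp]
  rw [bs (f' v) (f x)]
  ring

/-- the map in the coordinates of the ellipsoid -/
noncomputable def gG (B : Fin s → LinearMap.BilinForm ℝ (EuclideanSpace ℝ (Fin (n + 1))))
    (x : EuclideanSpace ℝ (Fin (n + 1))) : EuclideanSpace ℝ (Fin (n + 1 + s)) :=
  WithLp.toLp 2 (Fin.addCases (fun i => x i) (fun j => B j x x))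

theorem gG_left (B : Fin s → LinearMap.BilinForm ℝ (EuclideanSpace ℝ (Fin (n + 1))))
    (x : EuclideanSpace ℝ (Fin (n + 1))) (i : Fin (n + 1)) :
    gG B x (Fin.castAdd s i) = x i := by
  simp [gG]

theorem gG_right (B : Fin s → LinearMap.BilinForm ℝ (EuclideanSpace ℝ (Fin (n + 1))))
    (x : EuclideanSpace ℝ (Fin (n + 1))) (j : Fin s) :
    gG B x (Fin.natAdd (n + 1) j) = B j x x := by
  simp [gG]

theorem gG_contDiff (B : Fin s → LinearMap.BilinForm ℝ (EuclideanSpace ℝ (Fin (n + 1)))) :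
    ContDiff ℝ ∞ (gG B) := by
  rw [contDiff_euclidean]
  intro i
  refine Fin.addCases (fun i => ?_) (fun j => ?_) i
  · have e : (fun x => gG B x (Fin.castAdd s i)) =
        fun x : EuclideanSpace ℝ (Fin (n + 1)) => x i := funext fun x => gG_left B x i
    rw [e]
    exact (EuclideanSpace.proj (𝕜 := ℝ) i).contDiff
  · have e : (fun x => gG B x (Fin.natAdd (n + 1) j)) =
        fun x : EuclideanSpace ℝ (Fin (n + 1)) => B j x x := funext fun x => gG_right B x j
    rw [e]
    exact quad_contDiff (B j)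

/-- radial projection onto the ellipsoid -/
noncomputable def en (b : LinearMap.BilinForm ℝ (EuclideanSpace ℝ (Fin (n + 1))))
    (x : EuclideanSpace ℝ (Fin (n + 1))) : EuclideanSpace ℝ (Fin (n + 1)) :=
  (√(b x x))⁻¹ • x

section

variable {b : LinearMap.BilinForm ℝ (EuclideanSpace ℝ (Fin (n + 1)))}
  (bs : ∀ x y, b x y = b y x) (bp : ∀ x, x ≠ 0 → 0 < b x x)
include bs bp

omit bs in
theorem en_norm {x : EuclideanSpace ℝ (Fin (n + 1))} (hx : x ≠ 0) : b (en b x) (en b x) = 1 := by
  have h1 := bp x hx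
  simp only [en, map_smul, LinearMap.smul_apply, smul_eq_mul]
  rw [← mul_assoc, ← mul_inv, Real.mul_self_sqrt h1.le, inv_mul_cancel₀ h1.ne']

omit bs in
theorem en_contDiffAt {x : EuclideanSpace ℝ (Fin (n + 1))} (hx : x ≠ 0) :
    ContDiffAt ℝ ∞ (en b) x := by
  have h1 := bp x hx
  have h2 : ContDiffAt ℝ ∞ (fun y : EuclideanSpace ℝ (Fin (n + 1)) => √(b y y)) x :=
    (quad_contDiff b).contDiffAt.sqrt h1.ne'
  exact (h2.inv (Real.sqrt_pos.mpr h1).ne').smul contDiffAt_id

theorem en_orth {x : EuclideanSpace ℝ (Fin (n + 1))} (hx : x ≠ 0)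
    (v : EuclideanSpace ℝ (Fin (n + 1))) : b (en b x) (fderiv ℝ (en b) x v) = 0 := by
  have h1 : HasFDerivAt (en b) (fderiv ℝ (en b) x) x :=
    ((en_contDiffAt bp hx).differentiableAt (by simp)).hasFDerivAt
  have h2 := quad_deriv bs h1
  have h3 : (fun y => b (en b y) (en b y)) =ᶠ[nhds x] fun _ => (1 : ℝ) := by
    filter_upwards [isOpen_compl_singleton.mem_nhds hx] with y hy
    exact en_norm bp hy
  have h4 := (h2.congr_of_eventuallyEq h3.symm).unique (hasFDerivAt_const (1 : ℝ) x)
  have h5 := DFunLike.congr_fun h4 v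
  simp only [smul_apply, ContinuousLinearMap.comp_apply, cb_apply,
    smul_eq_mul, zero_apply] at h5
  linarith

omit bs in
theorem en_ker {x : EuclideanSpace ℝ (Fin (n + 1))} (hx : x ≠ 0)
    {v : EuclideanSpace ℝ (Fin (n + 1))} (hv : fderiv ℝ (en b) x v = 0) : ∃ c : ℝ, v = c • x := by
  have h1 : HasFDerivAt (en b) (fderiv ℝ (en b) x) x :=
    ((en_contDiffAt bp hx).differentiableAt (by simp)).hasFDerivAt
  have h0 : ContDiffAt ℝ ∞ (fun y : EuclideanSpace ℝ (Fin (n + 1)) => √(b y y)) x :=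
    (quad_contDiff b).contDiffAt.sqrt (bp x hx).ne'
  have h2 : HasFDerivAt (fun y : EuclideanSpace ℝ (Fin (n + 1)) => √(b y y))
      (fderiv ℝ (fun y : EuclideanSpace ℝ (Fin (n + 1)) => √(b y y)) x) x :=
    (h0.differentiableAt (by simp)).hasFDerivAt
  have h3 := h2.smul h1
  have h4 : (fun y : EuclideanSpace ℝ (Fin (n + 1)) => √(b y y) • en b y) =ᶠ[nhds x]
      fun y => y := by
    filter_upwards [isOpen_compl_singleton.mem_nhds hx] with y hy
    rw [en, smul_smul, mul_inv_cancel₀ (Real.sqrt_pos.mpr (bp y hy)).ne', one_smul]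
  have h5 := (h3.congr_of_eventuallyEq h4.symm).unique (hasFDerivAt_id x)
  have h6 := DFunLike.congr_fun h5 v
  refine ⟨fderiv ℝ (fun y : EuclideanSpace ℝ (Fin (n + 1)) => √(b y y)) x v * (√(b x x))⁻¹, ?_⟩
  rw [mul_smul]
  simpa [hv, en] using h6.symm

end

/-- **General principle.** -/
theorem skew_of_forms (b : LinearMap.BilinForm ℝ (EuclideanSpace ℝ (Fin (n + 1))))
    (B : Fin s → LinearMap.BilinForm ℝ (EuclideanSpace ℝ (Fin (n + 1))))
    (bs : ∀ x y, b x y = b y x) (bp : ∀ x, x ≠ 0 → 0 < b x x) (Bs : ∀ i x y, B i x y = B i y x)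
    (h : ∀ d e, b d e = 0 → (∀ i, B i d e = 0) → d = 0 ∨ e = 0) :
    TSkew n (n + 1 + s) {c | 0 < c} fun x => gG B (en b x) := by
  have hc : ∀ x : EuclideanSpace ℝ (Fin (n + 1)), x ≠ 0 → ∀ v,
      (∀ i, fderiv ℝ (fun x => gG B (en b x)) x v (Fin.castAdd s i) =
        fderiv ℝ (en b) x v i) ∧
      ∀ j, fderiv ℝ (fun x => gG B (en b x)) x v (Fin.natAdd (n + 1) j) =
        2 * B j (en b x) (fderiv ℝ (en b) x v) := by
    intro x hx v
    have h1 : HasFDerivAt (en b) (fderiv ℝ (en b) x) x :=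
      ((en_contDiffAt bp hx).differentiableAt (by simp)).hasFDerivAt
    have h2 : HasFDerivAt (fun x => gG B (en b x))
        (fderiv ℝ (fun x => gG B (en b x)) x) x :=
      (((gG_contDiff B).contDiffAt.comp x (en_contDiffAt bp hx)).differentiableAt
        (by simp)).hasFDerivAt
    constructor
    · intro i
      have h3 := (EuclideanSpace.proj (𝕜 := ℝ) (Fin.castAdd s i)).hasFDerivAt.comp x h2
      have h4 := (EuclideanSpace.proj (𝕜 := ℝ) i).hasFDerivAt.comp x h1
      have e : (fun x => gG B (en b x) (Fin.castAdd s i)) = fun x => en b x i :=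
        funext fun x => gG_left B _ i
      have h5 := (HasFDerivAt.congr_of_eventuallyEq h3 (Filter.Eventually.of_forall fun y =>
        (gG_left B (en b y) i).symm)).unique h4
      exact DFunLike.congr_fun h5 v
    · intro j
      have h3 := (EuclideanSpace.proj (𝕜 := ℝ) (Fin.natAdd (n + 1) j)).hasFDerivAt.comp x h2
      have h4 := quad_deriv (Bs j) h1
      have h5 := (HasFDerivAt.congr_of_eventuallyEq h3 (Filter.Eventually.of_forall fun y =>
        (gG_right B (en b y) j).symm)).unique h4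
      exact DFunLike.congr_fun h5 v
  have hz : ∀ z : EuclideanSpace ℝ (Fin (n + 1)), (∀ i, z i = 0) → z = 0 := by
    intro z hz
    ext i
    exact hz i
  refine ⟨?_, ?_, ?_, ?_⟩
  · intro x hx
    exact ((gG_contDiff B).contDiffAt.comp x (en_contDiffAt bp hx)).contDiffWithinAt
  · intro c hc x _
    have hc' : (0 : ℝ) < c := hc
    have : en b (c • x) = en b x := by
      simp only [en, map_smul, LinearMap.smul_apply, smul_eq_mul, smul_smul]
      rw [← mul_assoc, Real.sqrt_mul (mul_self_nonneg c), Real.sqrt_mul_self hc'.le, mul_inv]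
      congr 1
      field_simp
    rw [this]
  · intro x hx v hv
    refine en_ker bp hx (hz _ fun i => ?_)
    rw [← (hc x hx v).1 i, hv]
    rfl
  · intro x hx y hy hxy v w l he
    have hne : en b x ≠ en b y := by
      intro h0
      have hqx := Real.sqrt_pos.mpr (bp x hx)
      have hqy := Real.sqrt_pos.mpr (bp y hy)
      apply hxy (√(b y y) * (√(b x x))⁻¹) (mul_pos hqy (inv_pos.mpr hqx))
      have : (√(b x x))⁻¹ • x = (√(b y y))⁻¹ • y := h0
      rw [mul_smul, this, smul_smul, mul_inv_cancel₀ hqy.ne', one_smul]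
    have hE : ∀ k, fderiv ℝ (fun x => gG B (en b x)) x v k +
        fderiv ℝ (fun x => gG B (en b x)) y w k = l * (gG B (en b x) k - gG B (en b y) k) := by
      intro k
      have := congrArg (fun z : EuclideanSpace ℝ (Fin (n + 1 + s)) => z k) he
      simpa using this
    obtain ⟨h1, h2, h3⟩ := gen_alg bs bp Bs h (en_norm bp hx) (en_norm bp hy)
      (en_orth bs bp hx v) (en_orth bs bp hy w) hne (l := l) (by
        ext i
        have := hE (Fin.castAdd s i)
        rw [(hc x hx v).1, (hc y hy w).1, gG_left, gG_left] at this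
        simpa using this) (by
        intro j
        have := hE (Fin.natAdd (n + 1) j)
        rw [(hc x hx v).2, (hc y hy w).2, gG_right, gG_right] at this
        exact this)
    have key : ∀ z, z ≠ 0 → ∀ u, fderiv ℝ (en b) z u = 0 →
        fderiv ℝ (fun x => gG B (en b x)) z u = 0 := by
      intro z hz' u hu
      ext k
      refine Fin.addCases (fun i => ?_) (fun j => ?_) k
      · rw [(hc z hz' u).1, hu]
        rfl
      · rw [(hc z hz' u).2, hu, map_zero, mul_zero]
        rfl
    exact ⟨key x hx v h1, key y hy w h2, h3⟩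

end Pool.Agent.Lib.Skw
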