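import Pool.Agent.Lib.Skw.Hyp

set_option autoImplicit false

/-!
# The disc with `g` holes (MP_3c016c_gt)
-/

open scoped ContDiff
open Set

namespace Pool.Agent.Lib.Skw

/-- the square of the distance to `(c, 0)` -/
noncomputable def sqd (c : ℝ) (z : Eu 2) : ℝ := (z 0 - c) ^ 2 + (z 1) ^ 2

theorem sqd_smooth (c : ℝ) : ContDiff ℝ ∞ (sqd c) := by
  unfold sqd
  have h0 : ContDiff ℝ ∞ fun z : Eu 2 => z 0 := (EuclideanSpace.proj (𝕜 := ℝ) (0 : Fin 2) : Eu 2 →L[ℝ] ℝ).contDiff
  have h1 : ContDiff ℝ ∞ fun z : Eu 2 => z 1 := (EuclideanSpace.proj (𝕜 := ℝ) (1 : Fin 2) : Eu 2 →L[ℝ] ℝ).contDiff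
  exact ((h0.sub contDiff_const).pow 2).add (h1.pow 2)

theorem sqd_fderiv (c : ℝ) (z : Eu 2) :
    fderiv ℝ (sqd c) z !₂[z 0 - c, z 1] = 2 * sqd c z := by
  have h1 : HasFDerivAt (sqd c) ((2 * (z 0 - c)) • EuclideanSpace.proj (𝕜 := ℝ) (0 : Fin 2) +
      (2 * z 1) • EuclideanSpace.proj (𝕜 := ℝ) (1 : Fin 2)) z := by
    have h2 : HasFDerivAt (fun z : Eu 2 => (z 0 - c) ^ 2)
        ((2 * (z 0 - c)) • EuclideanSpace.proj (𝕜 := ℝ) (0 : Fin 2)) z := by
      have := ((EuclideanSpace.proj (𝕜 := ℝ) (0 : Fin 2)).hasFDerivAt (x := z)).sub_const c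
      simpa using this.pow 2
    have h3 : HasFDerivAt (fun z : Eu 2 => (z 1) ^ 2)
        ((2 * z 1) • EuclideanSpace.proj (𝕜 := ℝ) (1 : Fin 2)) z := by
      have := (EuclideanSpace.proj (𝕜 := ℝ) (1 : Fin 2)).hasFDerivAt (x := z)
      simpa using this.pow 2
    exact h2.add h3
  rw [h1.fderiv]
  simp [sqd]
  ring

theorem mul_regular {F G : Eu 2 → ℝ} {z v : Eu 2} (hF : DifferentiableAt ℝ F z)
    (hG : DifferentiableAt ℝ G z) (h0 : F z = 0) (h1 : G z ≠ 0) (h2 : fderiv ℝ F z v ≠ 0) :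
    fderiv ℝ (fun z => F z * G z) z ≠ 0 := by
  intro h
  have h3 := (hF.hasFDerivAt.mul hG.hasFDerivAt).fderiv
  have h4 : fderiv ℝ (fun z => F z * G z) z = F z • fderiv ℝ G z + G z • fderiv ℝ F z := h3
  rw [h4, h0, zero_smul, zero_add] at h
  have h5 := congrArg (fun A : Eu 2 →L[ℝ] ℝ => A v) h
  simp only [ContinuousLinearMap.smul_apply, smul_eq_mul, ContinuousLinearMap.zero_apply] at h5
  exact mul_ne_zero h1 h2 h5

/-- the defining function of the disc with `g` holes -/
noncomputable def hol (g : ℕ) (z : Eu 2) : ℝ :=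
  ((3 * g + 1) ^ 2 - sqd 0 z) * ∏ k ∈ Finset.range g, (sqd (3 * k) z - 1)

theorem hol_smooth (g : ℕ) : ContDiff ℝ ∞ (hol g) := by
  unfold hol
  exact (contDiff_const.sub (sqd_smooth 0)).mul
    (contDiff_prod fun k _ => (sqd_smooth _).sub contDiff_const)

theorem hole_in {g k : ℕ} (hk : k < g) {z : Eu 2} (h : sqd (3 * k) z ≤ 1) :
    0 < ((3 * g + 1) ^ 2 - sqd 0 z : ℝ) := by
  have h1 : (k : ℝ) + 1 ≤ g := by exact_mod_cast hk
  have h0 : (0 : ℝ) ≤ k := Nat.cast_nonneg k
  simp only [sqd] at *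
  generalize z 0 = x at *
  generalize z 1 = y at *
  have h2 : x - 3 * k ≤ 1 := by nlinarith [sq_nonneg y, sq_nonneg (x - 3 * k - 1)]
  have h3 : (x - 0) ^ 2 + y ^ 2 ≤ (3 * k + 1) ^ 2 := by nlinarith
  have h4 : (3 * (k : ℝ) + 1) ^ 2 < (3 * g + 1) ^ 2 := by nlinarith
  linarith

theorem hole_out {j k : ℕ} (hjk : j ≠ k) {z : Eu 2} (h : sqd (3 * j) z ≤ 1) :
    0 < (sqd (3 * k) z - 1 : ℝ) := by
  have h1 : (1 : ℝ) ≤ |(j : ℝ) - k| := by
    have : (1 : ℤ) ≤ |(j : ℤ) - k| := Int.one_le_abs (by omega)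
    exact_mod_cast this
  simp only [sqd] at *
  generalize z 0 = x at *
  generalize z 1 = y at *
  have h2 : |x - 3 * j| ≤ 1 := by
    rw [abs_le]
    constructor <;> nlinarith [sq_nonneg y, sq_nonneg (x - 3 * j - 1), sq_nonneg (x - 3 * j + 1)]
  have h3 : (2 : ℝ) ≤ |x - 3 * k| := by
    have h4 : |3 * ((j : ℝ) - k)| ≤ |x - 3 * k| + |x - 3 * j| := by
      have h5 : 3 * ((j : ℝ) - k) = (x - 3 * k) - (x - 3 * j) := by ring
      rw [h5]
      exact abs_sub _ _
    rw [abs_mul, abs_of_pos (by norm_num : (0 : ℝ) < 3)] at h4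
    linarith
  have h4 : (4 : ℝ) ≤ (x - 3 * k) ^ 2 := by
    rw [← sq_abs]
    nlinarith
  nlinarith [sq_nonneg y]

theorem hol_set (g : ℕ) : {z : Eu 2 | 0 ≤ hol g z} = HoledDisc g := by
  ext z
  simp only [mem_setOf_eq, HoledDisc]
  constructor
  · intro h
    have hB : ∀ k : ℕ, k < g → 1 ≤ sqd (3 * (k : ℝ)) z := by
      intro k hk
      by_contra hlt
      have hlt' : sqd (3 * k) z < 1 := not_le.mp hlt
      have h1 := hole_in hk hlt'.le
      have h2 : 0 < ∏ j ∈ (Finset.range g).erase k, (sqd (3 * j) z - 1) :=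
        Finset.prod_pos fun j hj => hole_out (Finset.ne_of_mem_erase hj).symm hlt'.le
      have h3 : hol g z = ((3 * g + 1) ^ 2 - sqd 0 z) * ((sqd (3 * k) z - 1) *
          ∏ j ∈ (Finset.range g).erase k, (sqd (3 * j) z - 1)) := by
        have := Finset.mul_prod_erase (Finset.range g) (fun j : ℕ => sqd (3 * j) z - 1)
          (Finset.mem_range.mpr hk)
        rw [this]
        rfl
      rw [h3] at h
      nlinarith [mul_pos h1 h2, mul_pos (mul_pos h1 h2) (sub_pos.mpr hlt')]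
    refine ⟨?_, hB⟩
    by_contra hA
    have hA' : (3 * g + 1) ^ 2 - sqd 0 z < 0 := by
      simp only [sqd, sub_zero]
      linarith [not_le.mp hA]
    have h2 : 0 < ∏ j ∈ Finset.range g, (sqd (3 * j) z - 1) := Finset.prod_pos fun j hj => by
      by_contra hle
      have := hole_in (Finset.mem_range.mp hj) (z := z) (by linarith [not_lt.mp hle])
      linarith
    have h3 : hol g z < 0 := mul_neg_of_neg_of_pos hA' h2
    linarith
  · rintro ⟨h1, h2⟩
    refine mul_nonneg ?_ (Finset.prod_nonneg fun k hk => ?_)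
    · simp only [sqd, sub_zero]
      linarith
    · have := h2 k (Finset.mem_range.mp hk)
      simp only [sqd]
      linarith

theorem hol_domain (g : ℕ) : SmoothDomain (hol g) := by
  refine ⟨hol_smooth g, fun z hz => ?_, ?_⟩
  · rcases mul_eq_zero.mp hz with hA | hB
    · have hG : ∏ k ∈ Finset.range g, (sqd (3 * k) z - 1) ≠ 0 := by
        refine Finset.prod_ne_zero_iff.mpr fun k hk h0 => ?_
        have := hole_in (Finset.mem_range.mp hk) (z := z) (by linarith)
        linarith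
      refine mul_regular (v := !₂[z 0 - 0, z 1]) (F := fun z => (3 * g + 1) ^ 2 - sqd 0 z)
        (G := fun z => ∏ k ∈ Finset.range g, (sqd (3 * k) z - 1))
        (((contDiff_const.sub (sqd_smooth 0)).contDiffAt).differentiableAt (by simp))
        (((contDiff_prod fun k _ => (sqd_smooth _).sub contDiff_const).contDiffAt).differentiableAt
          (by simp)) hA hG ?_
      rw [fderiv_const_sub]
      simp only [ContinuousLinearMap.neg_apply]
      rw [sqd_fderiv]
      have h1 : sqd 0 z = (3 * g + 1) ^ 2 := by linarith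
      rw [h1]
      have : (0 : ℝ) ≤ g := Nat.cast_nonneg g
      have : (0 : ℝ) < 2 * (3 * g + 1) ^ 2 := by positivity
      linarith
    · obtain ⟨k, hk, h0⟩ := Finset.prod_eq_zero_iff.mp hB
      have hfac : hol g = fun z => (sqd (3 * k) z - 1) * (((3 * g + 1) ^ 2 - sqd 0 z) *
          ∏ j ∈ (Finset.range g).erase k, (sqd (3 * j) z - 1)) := by
        funext w
        have := Finset.mul_prod_erase (Finset.range g) (fun j : ℕ => sqd (3 * j) w - 1) hk
        rw [hol, ← this]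
        ring
      have h1 : sqd (3 * k) z ≤ 1 := by linarith
      rw [hfac]
      refine mul_regular (v := !₂[z 0 - 3 * k, z 1]) (F := fun z => sqd (3 * k) z - 1)
        (G := fun z => ((3 * g + 1) ^ 2 - sqd 0 z) *
          ∏ j ∈ (Finset.range g).erase k, (sqd (3 * j) z - 1))
        ((((sqd_smooth _).sub contDiff_const).contDiffAt).differentiableAt (by simp))
        ((((contDiff_const.sub (sqd_smooth 0)).mul
          (contDiff_prod fun k _ => (sqd_smooth _).sub contDiff_const)).contDiffAt).differentiableAt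
          (by simp)) h0 ?_ ?_
      · exact mul_ne_zero (hole_in (Finset.mem_range.mp hk) h1).ne'
          (Finset.prod_pos fun j hj => hole_out (Finset.ne_of_mem_erase hj).symm h1).ne'
      · rw [fderiv_sub_const, sqd_fderiv]
        have h2 : sqd (3 * k) z = 1 := by linarith
        rw [h2]
        norm_num
  · refine IsCompact.of_isClosed_subset (isCompact_closedBall (0 : Eu 2) (3 * g + 1))
      (isClosed_le continuous_const (hol_smooth g).continuous) ?_
    rw [hol_set]
    rintro z ⟨h1, -⟩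
    have hg : (0 : ℝ) ≤ g := Nat.cast_nonneg g
    rw [mem_closedBall_zero_iff, EuclideanSpace.norm_eq]
    refine Real.sqrt_le_iff.mpr ⟨by linarith, ?_⟩
    simpa [Fin.sum_univ_two] using h1

end Pool.Agent.Lib.Skw
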