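import Mathlib

set_option autoImplicit false

/-!
# Gram-Schmidt with parameters: continuity and signs (MP_3c016c_gt)
-/

open InnerProductSpace

namespace Pool.Agent.Lib.Skw

variable {X : Type*} [TopologicalSpace X] {E : Type*} [NormedAddCommGroup E]
  [InnerProductSpace ℝ E] {m : ℕ}

theorem gs_formula (f : Fin m → E) (n : Fin m) : gramSchmidt ℝ f n = f n -
    ∑ i ∈ Finset.Iio n, (inner ℝ (gramSchmidt ℝ f i) (f n) / ‖gramSchmidt ℝ f i‖ ^ 2) •
      gramSchmidt ℝ f i := by
  have h := gramSchmidt_def'' ℝ f n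
  have h2 : ∀ i, (RCLike.ofReal ‖gramSchmidt ℝ f i‖ : ℝ) = ‖gramSchmidt ℝ f i‖ := fun i => rfl
  simp only [h2] at h
  exact eq_sub_of_add_eq h.symm

theorem gs_cont {C : X → Fin m → E} (hC : Continuous C)
    (hli : ∀ x, LinearIndependent ℝ (C x)) (n : Fin m) :
    Continuous fun x => gramSchmidt ℝ (C x) n := by
  induction n using WellFoundedLT.induction with
  | ind n ih =>
    have e : (fun x => gramSchmidt ℝ (C x) n) = fun x => C x n -
        ∑ i ∈ Finset.Iio n, (inner ℝ (gramSchmidt ℝ (C x) i) (C x n) /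
          ‖gramSchmidt ℝ (C x) i‖ ^ 2) • gramSchmidt ℝ (C x) i :=
      funext fun x => gs_formula (C x) n
    rw [e]
    refine ((continuous_apply n).comp hC).sub (continuous_finsetSum _ fun i hi => ?_)
    have h1 := ih i (Finset.mem_Iio.mp hi)
    refine Continuous.smul (Continuous.div (Continuous.inner h1 ((continuous_apply n).comp hC))
      (h1.norm.pow 2) fun x => ?_) h1
    exact pow_ne_zero _ (norm_ne_zero_iff.mpr (gramSchmidt_ne_zero i (hli x)))

theorem gsn_cont {C : X → Fin m → E} (hC : Continuous C)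
    (hli : ∀ x, LinearIndependent ℝ (C x)) :
    Continuous fun x => gramSchmidtNormed ℝ (C x) := by
  refine continuous_pi fun n => ?_
  have h1 := gs_cont hC hli n
  refine Continuous.smul (Continuous.inv₀ h1.norm fun x => ?_) h1
  exact norm_ne_zero_iff.mpr (gramSchmidt_ne_zero n (hli x))

theorem gs_sign {f : Fin m → E} {s : Fin m → ℝ} (hs : ∀ i, s i ^ 2 = 1) (n : Fin m) :
    gramSchmidt ℝ (fun i => s i • f i) n = s n • gramSchmidt ℝ f n := by
  induction n using WellFoundedLT.induction with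
  | ind n ih =>
    rw [gs_formula, gs_formula f n, smul_sub, Finset.smul_sum]
    congr 1
    refine Finset.sum_congr rfl fun i hi => ?_
    rw [ih i (Finset.mem_Iio.mp hi), inner_smul_left, inner_smul_right, norm_smul, mul_pow,
      Real.norm_eq_abs, sq_abs, hs i, one_mul, smul_smul, smul_smul]
    congr 1
    simp only [conj_trivial]
    have := hs i
    calc s i * (s n * inner ℝ (gramSchmidt ℝ f i) (f n)) / ‖gramSchmidt ℝ f i‖ ^ 2 * s i
        = s i ^ 2 * (s n * (inner ℝ (gramSchmidt ℝ f i) (f n) / ‖gramSchmidt ℝ f i‖ ^ 2)) := by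
          ring
      _ = s n * (inner ℝ (gramSchmidt ℝ f i) (f n) / ‖gramSchmidt ℝ f i‖ ^ 2) := by
          rw [this, one_mul]

theorem gsn_sign {f : Fin m → E} {s : Fin m → ℝ} (hs : ∀ i, s i ^ 2 = 1) :
    gramSchmidtNormed ℝ (fun i => s i • f i) = fun i => s i • gramSchmidtNormed ℝ f i := by
  funext n
  simp only [gramSchmidtNormed]
  rw [gs_sign hs, norm_smul, smul_comm (s n), smul_smul, smul_smul]
  have h : ‖s n‖ = 1 := by
    rw [Real.norm_eq_abs, ← sq_eq_sq₀ (abs_nonneg _) zero_le_one, sq_abs, hs n, one_pow]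
  rw [h, one_mul]

end Pool.Agent.Lib.Skw
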