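import Pool.Agent.Lib.Skw.Hyp

set_option autoImplicit false

/-!
# Totally skew maps of three-manifolds: definitions for the statements (MP_3c016c_gt)
-/

open scoped ContDiff

namespace Pool.Agent.Lib.Skw

/-- The space `ℝ^2 × ℝ^2`. -/
abbrev E4 : Type := Eu 2 × Eu 2

/-- The hypersurface of the points `(z, s)` of `ℝ^2 × ℝ^2` with `|s|^2 = ρ z`: the boundary of a
(rounded) product of the plane domain `ρ ≥ 0` and the disc. -/
def Spun (ρ : Eu 2 → ℝ) : Set E4 := {p | ‖p.2‖ ^ 2 = ρ p.1}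

/-- The vector `v = (u, t)` is tangent to the hypersurface at `p = (z, s)`: `2 ⟨s, t⟩` is the
derivative of `ρ` at `z` in the direction `u`. -/
def Tangent4 (ρ : Eu 2 → ℝ) (p v : E4) : Prop := 2 * inner ℝ p.2 v.2 = fderiv ℝ ρ p.1 v.1

/-- `d4 f p v` is the derivative of the map `f` at `p` in the direction `v`. -/
noncomputable def d4 {N : ℕ} (f : E4 → Eu N) (p v : E4) : Eu N := fderiv ℝ f p v

/-- The images under `f` of the tangent spaces of the hypersurface at `p` and at `q` are skew. -/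
def Skew4 {N : ℕ} (ρ : Eu 2 → ℝ) (f : E4 → Eu N) (p q : E4) : Prop :=
  ∀ v w, Tangent4 ρ p v → Tangent4 ρ q w → ∀ l : ℝ, d4 f p v + d4 f q w = l • (f p - f q) →
    v = 0 ∧ w = 0 ∧ l = 0

/-- `f` restricts to a totally skew embedding of the hypersurface into `ℝ^N`. -/
structure TSSpun (ρ : Eu 2 → ℝ) (N : ℕ) (f : E4 → Eu N) : Prop where
  smooth : ContDiff ℝ ∞ f
  imm : ∀ p ∈ Spun ρ, ∀ v, Tangent4 ρ p v → d4 f p v = 0 → v = 0
  skew : ∀ p ∈ Spun ρ, ∀ q ∈ Spun ρ, p ≠ q → Skew4 ρ f p q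

/-- The hypersurface has a totally skew embedding into `ℝ^N`. -/
def SpunIn (ρ : Eu 2 → ℝ) (N : ℕ) : Prop := ∃ f : E4 → Eu N, TSSpun ρ N f

/-- The space `ℝ × (ℝ × ℝ)`. -/
abbrev R3 : Type := ℝ × (ℝ × ℝ)

/-- The two points of `ℝ^3` are the same point of the open solid Klein bottle
`ℝ^3 / ((x, y, z) ∼ (x + π, -y, z))`. -/
def SamePoint (p q : R3) : Prop :=
  ∃ k : ℤ, q = (p.1 + k * Real.pi, ((-1 : ℝ) ^ k * p.2.1, p.2.2))

/-- `d3 f p v` is the derivative of the map `f` at `p` in the direction `v`. -/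
noncomputable def d3 {N : ℕ} (f : R3 → Eu N) (p v : R3) : Eu N := fderiv ℝ f p v

/-- The open solid Klein bottle `ℝ^3 / ((x, y, z) ∼ (x + π, -y, z))` has an injective totally skew
immersion into `ℝ^N`. -/
def SolidKleinIn (N : ℕ) : Prop := ∃ f : R3 → Eu N, ContDiff ℝ ∞ f ∧
  (∀ x y z, f (x + Real.pi, (-y, z)) = f (x, (y, z))) ∧
  ∀ p q, ¬ SamePoint p q → ∀ v w, ∀ l : ℝ, d3 f p v + d3 f q w = l • (f p - f q) →
    v = 0 ∧ w = 0 ∧ l = 0

end Pool.Agent.Lib.Skw
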