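import Pool.Agent.Lib.Skw.Hyp

set_option autoImplicit false

/-!
# Totally skew maps of the hypersurfaces `|s|^2 = ρ z` of `ℝ^m × ℝ^k`: definitions for the
statements (MP_3c016c_gt)
-/

open scoped ContDiff

namespace Pool.Agent.Lib.Skw

/-- The space `ℝ^m × ℝ^k`. -/
abbrev EE (m k : ℕ) : Type := Eu m × Eu k

/-- The hypersurface of the points `(z, s)` of `ℝ^m × ℝ^k` with `|s|^2 = ρ z`: the boundary of a
(rounded) product of the domain `ρ ≥ 0` and the disc of dimension `k`. -/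
def Round {m k : ℕ} (ρ : Eu m → ℝ) : Set (EE m k) := {p | ‖p.2‖ ^ 2 = ρ p.1}

/-- The vector `v = (u, t)` is tangent to the hypersurface at `p = (z, s)`: `2 ⟨s, t⟩` is the
derivative of `ρ` at `z` in the direction `u`. -/
def TangentR {m k : ℕ} (ρ : Eu m → ℝ) (p v : EE m k) : Prop :=
  2 * inner ℝ p.2 v.2 = fderiv ℝ ρ p.1 v.1

/-- `dr f p v` is the derivative of the map `f` at `p` in the direction `v`. -/
noncomputable def dr {m k N : ℕ} (f : EE m k → Eu N) (p v : EE m k) : Eu N := fderiv ℝ f p v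

/-- The images under `f` of the tangent spaces of the hypersurface at `p` and at `q` are skew. -/
def SkewR {m k N : ℕ} (ρ : Eu m → ℝ) (f : EE m k → Eu N) (p q : EE m k) : Prop :=
  ∀ v w, TangentR ρ p v → TangentR ρ q w → ∀ l : ℝ, dr f p v + dr f q w = l • (f p - f q) →
    v = 0 ∧ w = 0 ∧ l = 0

/-- `f` restricts to a totally skew embedding of the hypersurface into `ℝ^N`. -/
structure TSRound {m k : ℕ} (ρ : Eu m → ℝ) (N : ℕ) (f : EE m k → Eu N) : Prop where
  smooth : ContDiff ℝ ∞ f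
  imm : ∀ p ∈ Round ρ, ∀ v, TangentR ρ p v → dr f p v = 0 → v = 0
  skew : ∀ p ∈ Round ρ, ∀ q ∈ Round ρ, p ≠ q → SkewR ρ f p q

end Pool.Agent.Lib.Skw
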