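import Mathlib

set_option autoImplicit false

/-!
# No scalar square roots

Continuous logarithms on compact star-shaped sets, and the sign contradiction for a pair of
nonvanishing functions on a rectangle and on the disc.
-/

namespace Pool.Agent.Lib.Skw

open Set

/-- A continuous logarithm on a compact set star-shaped about `0`. -/
theorem exists_log {f : ℝ × ℝ → ℂ} {K : Set (ℝ × ℝ)} (hK : IsCompact K)
    (h0 : (0 : ℝ × ℝ) ∈ K) (hst : ∀ x ∈ K, ∀ c : ℝ, 0 ≤ c → c ≤ 1 → c • x ∈ K)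
    (hf : ContinuousOn f K) (hne : ∀ x ∈ K, f x ≠ 0) :
    ∃ L : ℝ × ℝ → ℂ, ContinuousOn L K ∧ ∀ x ∈ K, Complex.exp (L x) = f x := by
  classical
  -- lower bound of the absolute value
  obtain ⟨x₀, hx₀, hmin⟩ := hK.exists_isMinOn ⟨0, h0⟩ hf.norm
  set m : ℝ := ‖f x₀‖ with hm
  have hmpos : 0 < m := norm_pos_iff.mpr (hne x₀ hx₀)
  have hlow : ∀ x ∈ K, m ≤ ‖f x‖ := fun x hx => hmin hx
  -- uniform continuity
  have huc := hK.uniformContinuousOn_of_continuous hf
  rw [Metric.uniformContinuousOn_iff] at huc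
  obtain ⟨δ, hδ, hδ'⟩ := huc m hmpos
  -- boundedness
  obtain ⟨R, hR⟩ := hK.isBounded.exists_norm_le
  obtain ⟨N, hN⟩ := exists_nat_gt (|R| / δ)
  have hNpos : (0 : ℝ) < N := lt_of_le_of_lt (by positivity) hN
  have hRN : |R| / N < δ := by
    rw [div_lt_iff₀ hNpos]
    rw [div_lt_iff₀ hδ] at hN
    linarith [mul_comm (N : ℝ) δ]
  have hmem : ∀ x ∈ K, ∀ j : ℕ, j ≤ N → ((j : ℝ) / N) • x ∈ K := by
    intro x hx j hj
    apply hst x hx _ (by positivity)
    rw [div_le_one hNpos]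
    exact_mod_cast hj
  have hslit : ∀ x ∈ K, ∀ j < N,
      f ((((j + 1 : ℕ) : ℝ) / N) • x) / f ((((j : ℕ) : ℝ) / N) • x) ∈ Complex.slitPlane := by
    intro x hx j hj
    have h1 := hmem x hx j hj.le
    have h2 := hmem x hx (j + 1) hj
    have hd : dist ((((j + 1 : ℕ) : ℝ) / N) • x) (((j : ℝ) / N) • x) < δ := by
      rw [dist_eq_norm, ← sub_smul, norm_smul]
      have : (((j + 1 : ℕ) : ℝ) / N - (j : ℝ) / N) = 1 / N := by
        push_cast; ring
      rw [this, Real.norm_of_nonneg (by positivity)]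
      calc 1 / (N : ℝ) * ‖x‖ ≤ 1 / (N : ℝ) * |R| := by
            apply mul_le_mul_of_nonneg_left _ (by positivity)
            exact (hR x hx).trans (le_abs_self R)
        _ = |R| / N := by ring
        _ < δ := hRN
    have hlt := hδ' _ h2 _ h1 hd
    rw [dist_eq_norm] at hlt
    have hne1 := hne _ h1
    have hq : ‖f ((((j + 1 : ℕ) : ℝ) / N) • x) / f ((((j : ℕ) : ℝ) / N) • x) - 1‖ < 1 := by
      rw [div_sub_one hne1, norm_div, div_lt_one (norm_pos_iff.mpr hne1)]
      exact hlt.trans_le (hlow _ h1)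
    rw [Complex.mem_slitPlane_iff]
    left
    have := (Complex.abs_re_le_norm
      (f ((((j + 1 : ℕ) : ℝ) / N) • x) / f ((((j : ℕ) : ℝ) / N) • x) - 1)).trans_lt hq
    rw [Complex.sub_re, Complex.one_re, abs_lt] at this
    linarith [this.1]
  refine ⟨fun x => Complex.log (f 0) + ∑ j ∈ Finset.range N,
    Complex.log (f ((((j + 1 : ℕ) : ℝ) / N) • x) / f ((((j : ℕ) : ℝ) / N) • x)), ?_, ?_⟩
  · apply continuousOn_const.add
    apply continuousOn_finsetSum
    intro j hj
    have hj' := Finset.mem_range.mp hj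
    apply ContinuousOn.clog
    · apply ContinuousOn.div
      · apply hf.comp (continuous_const_smul _).continuousOn
        intro x hx
        exact hmem x hx (j + 1) hj'
      · apply hf.comp (continuous_const_smul _).continuousOn
        intro x hx
        exact hmem x hx j hj'.le
      · intro x hx
        exact hne _ (hmem x hx j hj'.le)
    · intro x hx
      exact hslit x hx j hj'
  · intro x hx
    show Complex.exp (Complex.log (f 0) + ∑ j ∈ Finset.range N,
      Complex.log (f ((((j + 1 : ℕ) : ℝ) / N) • x) / f ((((j : ℕ) : ℝ) / N) • x))) = f x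
    rw [Complex.exp_add, Complex.exp_log (hne 0 h0), Complex.exp_sum]
    have hprod : ∀ n ≤ N, f 0 * ∏ j ∈ Finset.range n, Complex.exp
        (Complex.log (f ((((j + 1 : ℕ) : ℝ) / N) • x) / f ((((j : ℕ) : ℝ) / N) • x)))
        = f ((((n : ℕ) : ℝ) / N) • x) := by
      intro n
      induction n with
      | zero =>
        intro _
        simp
      | succ n ih =>
        intro hn
        rw [Finset.prod_range_succ, ← mul_assoc, ih (by omega)]
        have h1 := hne _ (hmem x hx n (by omega))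
        have h2 := hne _ (hmem x hx (n + 1) hn)
        rw [Complex.exp_log (div_ne_zero h2 h1)]
        field_simp
    rw [hprod N le_rfl]
    rw [div_self hNpos.ne', one_smul]

/-- A continuous function on a preconnected set with values in `2 π i ℤ` is constant. -/
theorem const_of_exp_one {X : Type*} [TopologicalSpace X] {S : Set X} (hS : IsPreconnected S)
    {s : X → ℂ} (hs : ContinuousOn s S) (h : ∀ x ∈ S, Complex.exp (s x) = 1) :
    ∀ x ∈ S, ∀ y ∈ S, s x = s y := by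
  have key : ∀ x ∈ S, ∃ n : ℤ, s x = n * (2 * Real.pi * Complex.I) := fun x hx =>
    Complex.exp_eq_one_iff.mp (h x hx)
  have him : ∀ x ∈ S, ∃ n : ℤ, (s x).im = 2 * Real.pi * n ∧ (s x).re = 0 := by
    intro x hx
    obtain ⟨n, hn⟩ := key x hx
    refine ⟨n, ?_, ?_⟩
    · rw [hn]; simp [mul_comm]
    · rw [hn]; simp
  have hcont : ContinuousOn (fun x => (s x).im) S := Complex.continuous_im.comp_continuousOn hs
  have hle : ∀ x ∈ S, ∀ y ∈ S, ¬ (s x).im < (s y).im := by
    intro x hx y hy hlt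
    obtain ⟨a, ha, -⟩ := him x hx
    obtain ⟨b, hb, -⟩ := him y hy
    have hab : a < b := by
      rw [ha, hb] at hlt
      have h2 : (a : ℝ) < b := by
        nlinarith [Real.pi_pos]
      exact_mod_cast h2
    have hab' : (a : ℝ) + 1 ≤ b := by exact_mod_cast hab
    have hmem : (s x).im + Real.pi ∈ Icc ((s x).im) ((s y).im) := by
      constructor
      · linarith [Real.pi_pos]
      · rw [ha, hb]; nlinarith [Real.pi_pos]
    obtain ⟨z, hz, hz'⟩ := hS.intermediate_value hx hy hcont hmem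
    obtain ⟨c, hc, -⟩ := him z hz
    have h3 : 2 * Real.pi * (c : ℝ) = 2 * Real.pi * a + Real.pi := by
      have : (s z).im = (s x).im + Real.pi := hz'
      rw [← hc, ← ha, this]
    have h4 : (2 : ℝ) * c = 2 * a + 1 := by
      have := Real.pi_pos
      have h5 : Real.pi * (2 * (c : ℝ)) = Real.pi * (2 * a + 1) := by linarith
      exact mul_left_cancel₀ this.ne' h5
    have h6 : (2 : ℤ) * c = 2 * a + 1 := by exact_mod_cast h4
    omega
  intro x hx y hy
  obtain ⟨a, ha, ha'⟩ := him x hx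
  obtain ⟨b, hb, hb'⟩ := him y hy
  apply Complex.ext
  · rw [ha', hb']
  · exact le_antisymm (not_lt.mp (hle y hy x hx)) (not_lt.mp (hle x hx y hy))

theorem no_scalar {A : ℝ → ℝ → ℂ} {B : ℝ × ℝ → ℂ}
    (hA : ContinuousOn (fun p : ℝ × ℝ => A p.1 p.2)
      (Icc 0 Real.pi ×ˢ Icc 0 (2 * Real.pi)))
    (hA0 : ∀ u ∈ Icc (0 : ℝ) Real.pi, ∀ t ∈ Icc (0 : ℝ) (2 * Real.pi), A u t ≠ 0)
    (hB : ContinuousOn B {w | w.1 ^ 2 + w.2 ^ 2 ≤ 1})
    (hB0 : ∀ w : ℝ × ℝ, w.1 ^ 2 + w.2 ^ 2 ≤ 1 → B w ≠ 0)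
    (h1 : ∀ u ∈ Icc (0 : ℝ) Real.pi, ∀ t ∈ Icc (0 : ℝ) Real.pi,
      A u t * A u (t + Real.pi) = 1)
    (h2 : ∀ t ∈ Icc (0 : ℝ) (2 * Real.pi),
      B (Real.cos t, Real.sin t) * A Real.pi (2 * Real.pi - t)
        = -(A 0 t * B (-Real.cos t, -Real.sin t))) : False := by
  have hpi := Real.pi_pos
  -- logarithm of `A`
  obtain ⟨lam, hlam, hlam'⟩ := exists_log (f := fun p : ℝ × ℝ => A p.1 p.2)
    (K := Icc 0 Real.pi ×ˢ Icc 0 (2 * Real.pi))
    (isCompact_Icc.prod isCompact_Icc)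
    (by
      constructor
      · exact ⟨le_rfl, hpi.le⟩
      · exact ⟨le_rfl, by positivity⟩)
    (by
      rintro ⟨x, y⟩ ⟨⟨hx0, hx1⟩, ⟨hy0, hy1⟩⟩ c hc0 hc1
      simp only at hx0 hx1 hy0 hy1
      refine ⟨⟨?_, ?_⟩, ⟨?_, ?_⟩⟩
      · simp only [Prod.smul_mk, smul_eq_mul]; positivity
      · simp only [Prod.smul_mk, smul_eq_mul]
        calc c * x ≤ 1 * x := mul_le_mul_of_nonneg_right hc1 hx0
          _ ≤ Real.pi := by linarith
      · simp only [Prod.smul_mk, smul_eq_mul]; positivity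
      · simp only [Prod.smul_mk, smul_eq_mul]
        calc c * y ≤ 1 * y := mul_le_mul_of_nonneg_right hc1 hy0
          _ ≤ 2 * Real.pi := by linarith)
    hA (by rintro ⟨u, t⟩ ⟨hu, ht⟩; exact hA0 u hu t ht)
  -- logarithm of `B`
  have hdisc : IsCompact {w : ℝ × ℝ | w.1 ^ 2 + w.2 ^ 2 ≤ 1} := by
    apply Metric.isCompact_of_isClosed_isBounded
    · exact isClosed_le (by fun_prop) continuous_const
    · rw [isBounded_iff_forall_norm_le]
      refine ⟨1, ?_⟩
      rintro ⟨x, y⟩ h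
      simp only [mem_ofPred_eq] at h
      rw [Prod.norm_def]
      apply max_le
      · show |x| ≤ 1
        rw [← sq_le_one_iff_abs_le_one]; nlinarith [sq_nonneg y]
      · show |y| ≤ 1
        rw [← sq_le_one_iff_abs_le_one]; nlinarith [sq_nonneg x]
  obtain ⟨mu, hmu, hmu'⟩ := exists_log (f := B) (K := {w : ℝ × ℝ | w.1 ^ 2 + w.2 ^ 2 ≤ 1})
    hdisc (by simp)
    (by
      rintro ⟨x, y⟩ h c hc0 hc1
      simp only [mem_ofPred_eq, Prod.smul_mk, smul_eq_mul] at h ⊢
      have hc2 : c ^ 2 ≤ 1 := by nlinarith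
      have : (c * x) ^ 2 + (c * y) ^ 2 = c ^ 2 * (x ^ 2 + y ^ 2) := by ring
      rw [this]
      calc c ^ 2 * (x ^ 2 + y ^ 2) ≤ 1 * (x ^ 2 + y ^ 2) :=
            mul_le_mul_of_nonneg_right hc2 (by positivity)
        _ ≤ 1 := by linarith)
    hB (by intro w hw; exact hB0 w hw)
  -- the first constant
  have hs : ∀ x ∈ (Icc 0 Real.pi ×ˢ Icc 0 Real.pi : Set (ℝ × ℝ)),
      ∀ y ∈ (Icc 0 Real.pi ×ˢ Icc 0 Real.pi : Set (ℝ × ℝ)),
      lam x + lam (x.1, x.2 + Real.pi) = lam y + lam (y.1, y.2 + Real.pi) := by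
    apply const_of_exp_one (s := fun x : ℝ × ℝ => lam x + lam (x.1, x.2 + Real.pi))
    · exact (isPreconnected_Icc).prod isPreconnected_Icc
    · apply ContinuousOn.add
      · apply hlam.mono
        rintro ⟨u, t⟩ ⟨hu, ht⟩
        exact ⟨hu, ht.1, ht.2.trans (by linarith)⟩
      · apply hlam.comp (f := fun x : ℝ × ℝ => (x.1, x.2 + Real.pi))
          (by fun_prop)
        rintro ⟨u, t⟩ ⟨hu, ht⟩
        have h0 := ht.1
        have h1 := ht.2
        simp only at h0 h1
        exact ⟨hu, by simp only; linarith, by simp only; linarith⟩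
    · rintro ⟨u, t⟩ ⟨hu, ht⟩
      have h0 := ht.1
      have h1' := ht.2
      simp only at h0 h1' hu
      rw [Complex.exp_add, hlam' (u, t) ⟨hu, h0, by simp only; linarith⟩,
        hlam' (u, t + Real.pi) ⟨hu, by simp only; linarith, by simp only; linarith⟩]
      exact h1 u hu t ⟨h0, h1'⟩
  -- the second constant
  set D : ℝ → ℂ := fun t => mu (Real.cos t, Real.sin t) + lam (Real.pi, 2 * Real.pi - t)
    - lam (0, t) - mu (-Real.cos t, -Real.sin t) - Real.pi * Complex.I with hDdef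
  have hDexp : ∀ t ∈ Icc (0 : ℝ) (2 * Real.pi), Complex.exp (D t) = 1 := by
    intro t ht
    have e1 : Complex.exp (mu (Real.cos t, Real.sin t)) = B (Real.cos t, Real.sin t) :=
      hmu' _ (by simp only [mem_ofPred_eq]; nlinarith [Real.sin_sq_add_cos_sq t])
    have e2 : Complex.exp (mu (-Real.cos t, -Real.sin t)) = B (-Real.cos t, -Real.sin t) :=
      hmu' _ (by simp only [mem_ofPred_eq]; nlinarith [Real.sin_sq_add_cos_sq t])
    have e3 : Complex.exp (lam (Real.pi, 2 * Real.pi - t)) = A Real.pi (2 * Real.pi - t) :=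
      hlam' (Real.pi, 2 * Real.pi - t)
        ⟨⟨hpi.le, le_rfl⟩, by simp only; linarith [ht.2], by simp only; linarith [ht.1]⟩
    have e4 : Complex.exp (lam (0, t)) = A 0 t :=
      hlam' (0, t) ⟨⟨le_rfl, hpi.le⟩, ht.1, ht.2⟩
    have n2 : B (-Real.cos t, -Real.sin t) ≠ 0 :=
      hB0 _ (by simp only; nlinarith [Real.sin_sq_add_cos_sq t])
    have n4 : A 0 t ≠ 0 := hA0 0 ⟨le_rfl, hpi.le⟩ t ht
    simp only [hDdef]
    rw [Complex.exp_sub, Complex.exp_sub, Complex.exp_sub, Complex.exp_add, e1, e2, e3, e4,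
      Complex.exp_pi_mul_I, h2 t ht]
    field_simp
  have hDcont : ContinuousOn D (Icc (0 : ℝ) (2 * Real.pi)) := by
    have c1 : ContinuousOn (fun t : ℝ => mu (Real.cos t, Real.sin t))
        (Icc (0 : ℝ) (2 * Real.pi)) := by
      apply hmu.comp (f := fun t : ℝ => (Real.cos t, Real.sin t)) (by fun_prop)
      intro t _
      simp only [mem_ofPred_eq]; nlinarith [Real.sin_sq_add_cos_sq t]
    have c2 : ContinuousOn (fun t : ℝ => mu (-Real.cos t, -Real.sin t))
        (Icc (0 : ℝ) (2 * Real.pi)) := by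
      apply hmu.comp (f := fun t : ℝ => (-Real.cos t, -Real.sin t)) (by fun_prop)
      intro t _
      simp only [mem_ofPred_eq]; nlinarith [Real.sin_sq_add_cos_sq t]
    have c3 : ContinuousOn (fun t : ℝ => lam (Real.pi, 2 * Real.pi - t))
        (Icc (0 : ℝ) (2 * Real.pi)) := by
      apply hlam.comp (f := fun t : ℝ => (Real.pi, 2 * Real.pi - t)) (by fun_prop)
      intro t ht
      exact ⟨⟨hpi.le, le_rfl⟩, by simp only; linarith [ht.2], by simp only; linarith [ht.1]⟩
    have c4 : ContinuousOn (fun t : ℝ => lam (0, t)) (Icc (0 : ℝ) (2 * Real.pi)) := by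
      apply hlam.comp (f := fun t : ℝ => ((0 : ℝ), t)) (by fun_prop)
      intro t ht
      exact ⟨⟨le_rfl, hpi.le⟩, ht.1, ht.2⟩
    exact (((c1.add c3).sub c4).sub c2).sub continuousOn_const
  have m0 : (0 : ℝ) ∈ Icc (0 : ℝ) (2 * Real.pi) := ⟨le_rfl, by positivity⟩
  have mpi : Real.pi ∈ Icc (0 : ℝ) (2 * Real.pi) := ⟨hpi.le, by linarith⟩
  have hDD : D 0 = D Real.pi :=
    const_of_exp_one isPreconnected_Icc hDcont hDexp 0 m0 Real.pi mpi
  obtain ⟨n, hn⟩ := Complex.exp_eq_one_iff.mp (hDexp 0 m0)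
  have hsum : D 0 + D Real.pi = -(2 * Real.pi * Complex.I) := by
    have q := hs (Real.pi, Real.pi) ⟨⟨hpi.le, le_rfl⟩, ⟨hpi.le, le_rfl⟩⟩ (0, 0)
      ⟨⟨le_rfl, hpi.le⟩, ⟨le_rfl, hpi.le⟩⟩
    simp only [zero_add] at q
    have e1 : 2 * Real.pi - 0 = Real.pi + Real.pi := by ring
    have e2 : 2 * Real.pi - Real.pi = Real.pi := by ring
    simp only [hDdef, Real.cos_zero, Real.sin_zero, Real.cos_pi, Real.sin_pi, neg_zero, neg_neg,
      e1, e2]
    linear_combination q
  have hfin : (2 * (n : ℂ) + 1) * (2 * Real.pi * Complex.I) = 0 := by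
    rw [← hDD, hn] at hsum
    linear_combination hsum
  have hne : (2 * (Real.pi : ℂ) * Complex.I) ≠ 0 := by
    simp [hpi.ne']
  have h5 : (2 * (n : ℂ) + 1) = 0 := (mul_eq_zero.mp hfin).resolve_right hne
  have h6 : (2 * n + 1 : ℤ) = 0 := by exact_mod_cast h5
  omega

end Pool.Agent.Lib.Skw
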