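import Pool.Agent.Lib.Skw.Sgn

set_option autoImplicit false

/-!
# The obstruction

`obs_proj`, `obs_klein`: two kinds of continuous families of orthonormal five-frames of `ℝ⁶` over a rectangle do not exist (a
Stiefel-Whitney class of degree two, in elementary form: lift the frames to invertible matrices, compare the lifts on the sides).
-/

open Matrix Set

namespace Pool.Agent.Lib.Skw

abbrev V (n : ℕ) : Type := EuclideanSpace ℝ (Fin n)

/-- Clifford multiplication. -/
noncomputable def Gam (v : V 6) : M8 := ∑ i, v i • ga i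

theorem Gam_cont : Continuous Gam := by
  unfold Gam
  fun_prop

theorem Gam_smul (c : ℝ) (v : V 6) : Gam (c • v) = c • Gam v := by
  unfold Gam
  rw [Finset.smul_sum]
  refine Finset.sum_congr rfl fun i _ => ?_
  rw [smul_smul]
  rfl

theorem ga_anti (i j : Fin 6) : ga i * ga j + ga j * ga i = if i = j then (-2 : ℝ) • (1 : M8) else 0 := by
  by_cases h : i = j
  · subst h
    rw [if_pos rfl, ga_sq]
    module
  · rw [if_neg h, ga_ac h, neg_add_cancel]

theorem Gam_mul (v w : V 6) :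
    Gam v * Gam w + Gam w * Gam v = (-2 * inner ℝ v w) • (1 : M8) := by
  have e1 : Gam v * Gam w = ∑ i, ∑ j, (v i * w j) • (ga i * ga j) := by
    unfold Gam
    rw [Finset.sum_mul]
    refine Finset.sum_congr rfl fun i _ => ?_
    rw [Finset.mul_sum]
    refine Finset.sum_congr rfl fun j _ => ?_
    rw [smul_mul_smul_comm]
  have e2 : Gam w * Gam v = ∑ i, ∑ j, (v i * w j) • (ga j * ga i) := by
    unfold Gam
    rw [Finset.sum_mul, Finset.sum_comm]
    rw [Finset.sum_comm]
    simp only [Finset.mul_sum]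
    rw [Finset.sum_comm]
    refine Finset.sum_congr rfl fun i _ => Finset.sum_congr rfl fun j _ => ?_
    rw [smul_mul_smul_comm, mul_comm (w j)]
  rw [e1, e2, ← Finset.sum_add_distrib]
  have e3 : ∀ i, ∑ j, (v i * w j) • (ga i * ga j) + ∑ j, (v i * w j) • (ga j * ga i) =
      (v i * w i * (-2)) • (1 : M8) := by
    intro i
    rw [← Finset.sum_add_distrib]
    have : ∀ j, (v i * w j) • (ga i * ga j) + (v i * w j) • (ga j * ga i) =
        if i = j then (v i * w i * (-2)) • (1 : M8) else 0 := by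
      intro j
      rw [← smul_add, ga_anti]
      by_cases h : i = j
      · subst h
        rw [if_pos rfl, if_pos rfl, smul_smul]
      · rw [if_neg h, if_neg h, smul_zero]
    simp only [this]
    rw [Finset.sum_ite_eq Finset.univ i, if_pos (Finset.mem_univ i)]
  simp only [e3]
  rw [← Finset.sum_smul]
  congr 1
  have e4 : inner ℝ v w = ∑ i, v i * w i := by
    rw [PiLp.inner_apply]
    refine Finset.sum_congr rfl fun i _ => ?_
    simp [mul_comm]
  rw [e4, Finset.mul_sum]
  refine Finset.sum_congr rfl fun i _ => ?_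
  ring

theorem om_Gam (v : V 6) : Gam v * om = -(om * Gam v) := by
  unfold Gam
  rw [Finset.sum_mul, Finset.mul_sum, ← Finset.sum_neg_distrib]
  refine Finset.sum_congr rfl fun i _ => ?_
  rw [smul_mul_assoc, om_ac, mul_smul_comm, smul_neg]

/-- The family of a five-frame. -/
noncomputable def fam (u : Fin 5 → V 6) : Fin 6 → M8 :=
  ![Gam (u 0), Gam (u 1), Gam (u 2), Gam (u 3), Gam (u 4), om]

theorem fam_isCl {u : Fin 5 → V 6} (h : Orthonormal ℝ u) : IsCl (fam u) := by
  have hs : ∀ i, Gam (u i) * Gam (u i) = -1 := by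
    intro i
    have h1 := Gam_mul (u i) (u i)
    rw [real_inner_self_eq_norm_sq, h.1 i] at h1
    have h2 : (2 : ℝ) • (Gam (u i) * Gam (u i)) = (2 : ℝ) • (-1 : M8) := by
      rw [two_smul, h1]
      module
    exact smul_right_injective M8 (two_ne_zero' ℝ) h2
  have ha : ∀ i j, i ≠ j → Gam (u i) * Gam (u j) = -(Gam (u j) * Gam (u i)) := by
    intro i j hij
    have h1 := Gam_mul (u i) (u j)
    rw [h.2 hij, mul_zero, zero_smul] at h1
    exact eq_neg_of_add_eq_zero_left h1
  have ho : ∀ i, om * Gam (u i) = -(Gam (u i) * om) := by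
    intro i
    rw [om_Gam, neg_neg]
  constructor
  · intro i
    fin_cases i
    · exact hs 0
    · exact hs 1
    · exact hs 2
    · exact hs 3
    · exact hs 4
    · exact om_sq
  · intro i j hij
    fin_cases i <;> fin_cases j <;> first
      | exact absurd rfl hij
      | exact ha _ _ (by decide)
      | exact om_Gam _
      | exact ho _

theorem fam_cont {X : Type*} [TopologicalSpace X] {U : X → Fin 5 → V 6} (h : Continuous U) :
    Continuous fun x => fam (U x) := by
  refine continuous_pi fun j => ?_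
  have hi : ∀ i, Continuous fun x => Gam (U x i) := fun i =>
    Gam_cont.comp ((continuous_apply i).comp h)
  fin_cases j
  · exact hi 0
  · exact hi 1
  · exact hi 2
  · exact hi 3
  · exact hi 4
  · exact continuous_const

/-- The standard frame. -/
noncomputable def std (i : Fin 5) : V 6 := EuclideanSpace.single i.castSucc 1

theorem Gam_single (i : Fin 6) : Gam (EuclideanSpace.single i 1) = ga i := by
  unfold Gam
  rw [Finset.sum_eq_single i]
  · simp
  · intro j _ hj
    simp [hj]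
  · intro h
    exact absurd (Finset.mem_univ i) h

theorem Gam_std (i : Fin 5) : Gam (std i) = ga i.castSucc := Gam_single _

theorem fam_std_comm {M : M8} (h : ∀ j, M * fam std j = fam std j * M) :
    M = M (0, 0, 0) (0, 0, 0) • (1 : M8) := by
  refine comm_scalar (fun i => ?_) (h 5)
  rw [← Gam_std]
  fin_cases i
  · exact h 0
  · exact h 1
  · exact h 2
  · exact h 3
  · exact h 4

/-- two lifts differ by a scalar -/
theorem lk_unique {G : Fin 6 → M8} {a b : M8} (ha : Lk (fam std) G a) (hb : Lk (fam std) G b)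
    (hd : a.det ≠ 0) : b = ((a.adjugate * b) (0, 0, 0) (0, 0, 0) / a.det) • a := by
  have h1 : ∀ j, (a⁻¹ * b) * fam std j = fam std j * (a⁻¹ * b) := by
    intro j
    have hu : IsUnit a.det := hd.isUnit
    have h2 : a⁻¹ * G j = fam std j * a⁻¹ := by
      have h3 := ha j
      calc a⁻¹ * G j = a⁻¹ * (G j * a) * a⁻¹ := by
            rw [mul_assoc, mul_assoc, Matrix.mul_nonsing_inv _ hu, mul_one]
        _ = a⁻¹ * (a * fam std j) * a⁻¹ := by rw [h3]
        _ = fam std j * a⁻¹ := by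
            rw [← mul_assoc, Matrix.nonsing_inv_mul _ hu, one_mul]
    rw [mul_assoc, ← hb j, ← mul_assoc, h2, mul_assoc]
  have h2 := fam_std_comm h1
  have hu : IsUnit a.det := hd.isUnit
  have h3 : b = a * (a⁻¹ * b) := by
    rw [← mul_assoc, Matrix.mul_nonsing_inv _ hu, one_mul]
  have h4 : (a⁻¹ * b) (0, 0, 0) (0, 0, 0) = (a.adjugate * b) (0, 0, 0) (0, 0, 0) / a.det := by
    rw [Matrix.inv_def, smul_mul_assoc, Matrix.smul_apply, Ring.inverse_eq_inv', smul_eq_mul]
    field_simp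
  rw [h4] at h2
  conv_lhs => rw [h3, h2]
  rw [mul_smul_comm, mul_one]

theorem sign_const {c : ℝ → ℝ} {p q : ℝ} (hpq : p ≤ q) (hc : ContinuousOn c (Icc p q))
    (h0 : ∀ t ∈ Icc p q, c t ≠ 0) : 0 < c p * c q := by
  rcases lt_or_gt_of_ne (h0 p ⟨le_rfl, hpq⟩) with h1 | h1 <;>
  rcases lt_or_gt_of_ne (h0 q ⟨hpq, le_rfl⟩) with h2 | h2
  · exact mul_pos_of_neg_of_neg h1 h2
  · exfalso
    obtain ⟨t, ht, h3⟩ := intermediate_value_Icc hpq hc ⟨h1.le, h2.le⟩
    exact h0 t ht h3
  · exfalso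
    obtain ⟨t, ht, h3⟩ := intermediate_value_Icc' hpq hc ⟨h2.le, h1.le⟩
    exact h0 t ht h3
  · exact mul_pos h1 h2

/-- comparison of two lifts along an interval -/
theorem ratio {G : ℝ → Fin 6 → M8} {a b : ℝ → M8} {p q : ℝ} (hpq : p ≤ q) (hac : Continuous a)
    (hbc : Continuous b) (ha : ∀ t ∈ Icc p q, Lk (fam std) (G t) (a t))
    (hb : ∀ t ∈ Icc p q, Lk (fam std) (G t) (b t)) (hda : ∀ t ∈ Icc p q, (a t).det ≠ 0)
    (hdb : ∀ t ∈ Icc p q, (b t).det ≠ 0) :
    ∃ c c' : ℝ, 0 < c * c' ∧ b p = c • a p ∧ b q = c' • a q := by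
  set c : ℝ → ℝ := fun t => ((a t).adjugate * b t) (0, 0, 0) (0, 0, 0) / (a t).det with hcd
  have h1 : ∀ t ∈ Icc p q, b t = c t • a t := fun t ht => lk_unique (ha t ht) (hb t ht) (hda t ht)
  have h2 : ContinuousOn c (Icc p q) := by
    refine ContinuousOn.div ?_ hac.matrix_det.continuousOn hda
    exact (((hac.matrix_adjugate.mul hbc).matrix_elem (0, 0, 0) (0, 0, 0))).continuousOn
  have h3 : ∀ t ∈ Icc p q, c t ≠ 0 := by
    intro t ht h4
    have h5 := h1 t ht
    rw [h4, zero_smul] at h5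
    apply hdb t ht
    rw [h5]
    exact Matrix.det_zero
  exact ⟨c p, c q, sign_const hpq h2 h3, h1 p ⟨le_rfl, hpq⟩, h1 q ⟨hpq, le_rfl⟩⟩

/-- change of signs of a frame -/
theorem fam_sgn {u : Fin 5 → V 6} (s : Fin 5 → ℝ) : fam (fun i => s i • u i) =
    fun j => (![s 0, s 1, s 2, s 3, s 4, 1] : Fin 6 → ℝ) j • fam u j := by
  funext j
  fin_cases j
  · exact Gam_smul _ _
  · exact Gam_smul _ _
  · exact Gam_smul _ _
  · exact Gam_smul _ _
  · exact Gam_smul _ _
  · exact (one_smul ℝ om).symm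

theorem Lk.sgn {G : Fin 6 → M8} {s : Fin 6 → ℝ} {E a : M8} (ha : Lk (fam std) G a)
    (hE : Sgn (fam std) s E) : Lk (fam std) (fun j => s j • G j) (a * E) := by
  intro j
  calc s j • G j * (a * E) = s j • (G j * a * E) := by
        rw [smul_mul_assoc, mul_assoc]
    _ = a * (s j • (fam std j * E)) := by
        rw [ha j, mul_smul_comm, mul_assoc]
    _ = a * E * fam std j := by
        rw [hE j, mul_assoc]

theorem std_orthonormal : Orthonormal ℝ std := by
  constructor
  · intro i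
    simp [std]
  · intro i j hij
    have h : i.castSucc ≠ j.castSucc := fun h => hij (Fin.castSucc_injective 5 h)
    simp [std, EuclideanSpace.inner_single_left, h]

/-- an orthonormal frame is carried to the standard one -/
theorem exists_iso {u : Fin 5 → V 6} (h : Orthonormal ℝ u) :
    ∃ T : V 6 ≃ₗᵢ[ℝ] V 6, ∀ i, T (u i) = std i := by
  set w : Fin 6 → V 6 := fun j => if hj : (j : ℕ) < 5 then u ⟨j, hj⟩ else 0 with hw
  have hr : Orthonormal ℝ (({j : Fin 6 | (j : ℕ) < 5} : Set (Fin 6)).domRestrict w) := by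
    have e : ({j : Fin 6 | (j : ℕ) < 5} : Set (Fin 6)).domRestrict w =
        u ∘ fun j : ({j : Fin 6 | (j : ℕ) < 5} : Set (Fin 6)) =>
          (⟨((j : Fin 6) : ℕ), j.property⟩ : Fin 5) := by
      funext j
      show w j = u ⟨((j : Fin 6) : ℕ), j.property⟩
      rw [hw]
      exact dif_pos j.property
    rw [e]
    refine h.comp _ fun j k hjk => ?_
    have : ((j : Fin 6) : ℕ) = ((k : Fin 6) : ℕ) := congrArg (fun a : Fin 5 => (a : ℕ)) hjk
    exact Subtype.ext (Fin.ext this)
  obtain ⟨b, hb⟩ := hr.exists_orthonormalBasis_extension_of_card_eq (by simp)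
  refine ⟨b.repr, fun i => ?_⟩
  have h1 := hb i.castSucc (by
    show ((i.castSucc : Fin 6) : ℕ) < 5
    simp)
  have h2 : w i.castSucc = u i := by
    rw [hw]
    have : ((i.castSucc : Fin 6) : ℕ) < 5 := by simp
    simp only [this, dif_pos]
    rfl
  rw [h2] at h1
  rw [← h1, b.repr_self]
  rfl

/-- **First obstruction.** -/
theorem obs_proj {U : R2 → Fin 5 → V 6} (hc : Continuous U) (hU : ∀ x, Orthonormal ℝ (U x))
    (h0 : ∀ τ ∈ Icc (0 : ℝ) 1, U (τ, 0) = U 0)
    (h1 : ∀ τ ∈ Icc (0 : ℝ) 1, U (τ, 2 * Real.pi) = U 0)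
    (hy : ∀ t ∈ Icc (0 : ℝ) Real.pi, U (0, t + Real.pi) =
      fun i => (![-1, 1, -1, -1, 1] : Fin 5 → ℝ) i • U (0, t) i)
    (hz : ∀ t ∈ Icc (0 : ℝ) Real.pi, U (1, t + Real.pi) =
      fun i => (![1, -1, 1, -1, 1] : Fin 5 → ℝ) i • U (1, t) i) : False := by
  obtain ⟨T, hT⟩ := exists_iso (hU 0)
  have hpi := Real.pi_pos
  set W : R2 → Fin 5 → V 6 := fun x i => T (U x i) with hWd
  have hWc : Continuous W := continuous_pi fun i =>
    T.continuous.comp ((continuous_apply i).comp hc)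
  have hWo : ∀ x, Orthonormal ℝ (W x) := fun x => (hU x).comp_linearIsometryEquiv T
  have hW0 : W 0 = std := funext hT
  set H : R2 → Fin 6 → M8 := fun x => fam (W x) with hHd
  have hH0 : H 0 = fam std := by rw [hHd, ← hW0]
  set K : Set R2 := Icc (0 : ℝ) 1 ×ˢ Icc (0 : ℝ) (2 * Real.pi) with hKd
  obtain ⟨a, hac, had, hal, hap⟩ := lift_exists (H := H) (fam_cont hWc) (fun x => fam_isCl (hWo x))
    (K := K) (isCompact_Icc.prod isCompact_Icc) (by
      rintro ⟨p, q⟩ ⟨hp, hq⟩ c hc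
      refine ⟨⟨mul_nonneg hc.1 hp.1, ?_⟩, ⟨mul_nonneg hc.1 hq.1, ?_⟩⟩
      · show c * p ≤ 1
        nlinarith [hc.1, hc.2, hp.1, hp.2]
      · show c * q ≤ 2 * Real.pi
        nlinarith [hc.1, hc.2, hq.1, hq.2])
  rw [hH0] at hal
  -- the values on the bottom
  have hbot : ∀ τ ∈ Icc (0 : ℝ) 1, ∃ c : ℝ, 0 < c ∧ a (τ, 0) = c • (1 : M8) := by
    intro τ hτ
    refine hap _ fun c hc => ?_
    have e : c • ((τ, 0) : R2) = (c * τ, 0) := by
      ext <;> simp
    rw [e, hHd]
    have h2 := h0 (c * τ) ⟨mul_nonneg hc.1 hτ.1, by nlinarith [hc.1, hc.2, hτ.1, hτ.2]⟩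
    simp only [hWd, h2]
  -- one edge
  have edge : ∀ τ ∈ Icc (0 : ℝ) 1, ∀ (s : Fin 5 → ℝ) (E : M8) (ε : ℝ),
      (∀ t ∈ Icc (0 : ℝ) Real.pi, U (τ, t + Real.pi) = fun i => s i • U (τ, t) i) →
      Sgn (fam std) ![s 0, s 1, s 2, s 3, s 4, 1] E → E * E = ε • (1 : M8) → ε ≠ 0 →
      ∃ c : ℝ, 0 < c ∧ a (τ, 2 * Real.pi) = (c * ε) • (1 : M8) := by
    intro τ hτ s E ε hs hE hEE hε
    have hEd : E.det ≠ 0 := by
      intro h2
      have h3 := congrArg Matrix.det hEE
      rw [Matrix.det_mul, h2, mul_zero, Matrix.det_smul, Matrix.det_one, mul_one] at h3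
      exact pow_ne_zero _ hε h3.symm
    obtain ⟨c0, hc0, hc0'⟩ := hbot τ hτ
    have hin : ∀ t ∈ Icc (0 : ℝ) Real.pi, (τ, t) ∈ K ∧ (τ, t + Real.pi) ∈ K := fun t ht =>
      ⟨⟨hτ, ⟨ht.1, by linarith [ht.2]⟩⟩, ⟨hτ, ⟨by linarith [ht.1], by linarith [ht.2]⟩⟩⟩
    obtain ⟨c, c', hcc, hp, hq⟩ := ratio (G := fun t => H (τ, t + Real.pi))
      (a := fun t => a (τ, t) * E) (b := fun t => a (τ, t + Real.pi)) hpi.le
      ((hac.comp (by fun_prop)).mul continuous_const) (hac.comp (by fun_prop))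
      (fun t ht => by
        have h2 := (hal (τ, t)).sgn hE
        have h3 : H (τ, t + Real.pi) = fun j =>
            (![s 0, s 1, s 2, s 3, s 4, 1] : Fin 6 → ℝ) j • H (τ, t) j := by
          rw [hHd]
          simp only []
          rw [← fam_sgn]
          congr 1
          funext i
          rw [hWd]
          simp only [hs t ht, map_smul]
        rw [h3]
        exact h2)
      (fun t _ => hal _)
      (fun t ht => by
        rw [Matrix.det_mul]
        exact mul_ne_zero (had _ (hin t ht).1) hEd)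
      (fun t ht => had _ (hin t ht).2)
    refine ⟨c' * (c * c0), by
      have : 0 < (c * c') * c0 := mul_pos hcc hc0
      nlinarith, ?_⟩
    simp only [zero_add] at hp
    have e2 : (2 : ℝ) * Real.pi = Real.pi + Real.pi := by ring
    have e3 : c' • c • (c0 • (1 : M8) * E * E) = (c' * (c * c0) * ε) • (1 : M8) := by
      rw [mul_assoc, hEE, smul_mul_assoc, one_mul, smul_smul, smul_smul, smul_smul]
      congr 1
      ring
    rw [e2, hq, hp, hc0']
    simpa only [smul_mul_assoc] using e3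
  have hIs := fam_isCl std_orthonormal
  obtain ⟨c1, hc1, e1⟩ := edge 0 ⟨le_rfl, zero_le_one⟩ ![-1, 1, -1, -1, 1] _ 1 hy (sgn_y hIs)
    (by rw [sq_y hIs, one_smul]) one_ne_zero
  obtain ⟨c2, hc2, e2⟩ := edge 1 ⟨zero_le_one, le_rfl⟩ ![1, -1, 1, -1, 1] _ (-1) hz (sgn_z hIs)
    (by rw [sq_z hIs, neg_one_smul]) (by norm_num)
  -- the top is scalar
  set d : ℝ → ℝ := fun τ => a (τ, 2 * Real.pi) (0, 0, 0) (0, 0, 0) with hdd
  have hdc : Continuous d := (hac.comp (by fun_prop : Continuous fun τ : ℝ =>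
    ((τ, 2 * Real.pi) : R2))).matrix_elem _ _
  have htop : ∀ τ ∈ Icc (0 : ℝ) 1, a (τ, 2 * Real.pi) = d τ • (1 : M8) := by
    intro τ hτ
    refine fam_std_comm fun j => ?_
    have h2 := hal (τ, 2 * Real.pi) j
    have h3 : H (τ, 2 * Real.pi) = fam std := by
      rw [← hH0, hHd]
      simp only [hWd, h1 τ hτ]
    rw [h3] at h2
    exact h2.symm
  have hd0 : ∀ τ ∈ Icc (0 : ℝ) 1, d τ ≠ 0 := by
    intro τ hτ h2
    apply had (τ, 2 * Real.pi) ⟨hτ, ⟨by positivity, le_rfl⟩⟩
    rw [htop τ hτ, h2, zero_smul]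
    exact Matrix.det_zero
  have hs := sign_const zero_le_one hdc.continuousOn hd0
  have f1 : d 0 = c1 := by
    show a (0, 2 * Real.pi) (0, 0, 0) (0, 0, 0) = c1
    rw [e1]
    simp
  have f2 : d 1 = -c2 := by
    show a (1, 2 * Real.pi) (0, 0, 0) (0, 0, 0) = -c2
    rw [e2]
    simp
  rw [f1, f2] at hs
  nlinarith [mul_pos hc1 hc2]

end Pool.Agent.Lib.Skw
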