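import Pool.Agent.Lib.Skw.L16
import Pool.Agent.Lib.Skw.Lg3
import Pool.Agent.Lib.Skw.Obs

set_option autoImplicit false
set_option linter.unusedSimpArgs false

/-!
# The obstruction in dimension three

`obs3`: a continuous family of orthonormal seven-frames of `ℝ⁹` over an interval times a disc (a hemisphere) with two sign symmetries
does not exist (a Stiefel-Whitney class of degree three of the complement, in elementary form).
-/

open Matrix Set

namespace Pool.Agent.Lib.Skw.O3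

/-- Clifford multiplication. -/
noncomputable def Gam (v : V 9) : M16 := ∑ i, v i • gb i

theorem Gam_cont : Continuous Gam := by
  unfold Gam
  fun_prop

theorem Gam_smul (c : ℝ) (v : V 9) : Gam (c • v) = c • Gam v := by
  unfold Gam
  rw [Finset.smul_sum]
  refine Finset.sum_congr rfl fun i _ => ?_
  rw [smul_smul]
  rfl

theorem gb_anti (i j : Fin 9) :
    gb i * gb j + gb j * gb i = if i = j then (2 : ℝ) • (1 : M16) else 0 := by
  by_cases h : i = j
  · subst h
    rw [if_pos rfl, gb_sq]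
    module
  · rw [if_neg h, gb_ac h, neg_add_cancel]

theorem Gam_mul (v w : V 9) :
    Gam v * Gam w + Gam w * Gam v = (2 * inner ℝ v w) • (1 : M16) := by
  have e1 : Gam v * Gam w = ∑ i, ∑ j, (v i * w j) • (gb i * gb j) := by
    unfold Gam
    rw [Finset.sum_mul]
    refine Finset.sum_congr rfl fun i _ => ?_
    rw [Finset.mul_sum]
    refine Finset.sum_congr rfl fun j _ => ?_
    rw [smul_mul_smul_comm]
  have e2 : Gam w * Gam v = ∑ i, ∑ j, (v i * w j) • (gb j * gb i) := by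
    unfold Gam
    rw [Finset.sum_mul, Finset.sum_comm]
    rw [Finset.sum_comm]
    simp only [Finset.mul_sum]
    rw [Finset.sum_comm]
    refine Finset.sum_congr rfl fun i _ => Finset.sum_congr rfl fun j _ => ?_
    rw [smul_mul_smul_comm, mul_comm (w j)]
  rw [e1, e2, ← Finset.sum_add_distrib]
  have e3 : ∀ i, ∑ j, (v i * w j) • (gb i * gb j) + ∑ j, (v i * w j) • (gb j * gb i) =
      (v i * w i * 2) • (1 : M16) := by
    intro i
    rw [← Finset.sum_add_distrib]
    have : ∀ j, (v i * w j) • (gb i * gb j) + (v i * w j) • (gb j * gb i) =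
        if i = j then (v i * w i * 2) • (1 : M16) else 0 := by
      intro j
      rw [← smul_add, gb_anti]
      by_cases h : i = j
      · subst h
        rw [if_pos rfl, if_pos rfl, smul_smul]
      · rw [if_neg h, if_neg h, smul_zero]
    simp only [this]
    rw [Finset.sum_ite_eq Finset.univ i, if_pos (Finset.mem_univ i)]
  simp only [e3]
  rw [← Finset.sum_smul]
  congr 1
  have e4 : inner ℝ v w = ∑ i, v i * w i := by
    rw [PiLp.inner_apply]
    refine Finset.sum_congr rfl fun i _ => ?_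
    simp [mul_comm]
  rw [e4, Finset.mul_sum]
  refine Finset.sum_congr rfl fun i _ => ?_
  ring

/-- The family of a frame. -/
noncomputable def fam (u : Fin 7 → V 9) : Fin 7 → M16 := fun i => Gam (u i)

theorem fam_isCl {u : Fin 7 → V 9} (h : Orthonormal ℝ u) : IsCl (fam u) := by
  constructor
  · intro i
    have h1 := Gam_mul (u i) (u i)
    rw [real_inner_self_eq_norm_sq, h.1 i] at h1
    have h2 : (2 : ℝ) • (Gam (u i) * Gam (u i)) = (2 : ℝ) • (1 : M16) := by
      rw [two_smul, h1]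
      module
    exact smul_right_injective M16 (two_ne_zero' ℝ) h2
  · intro i j hij
    have h1 := Gam_mul (u i) (u j)
    rw [h.2 hij, mul_zero, zero_smul] at h1
    exact eq_neg_of_add_eq_zero_left h1

theorem fam_cont {X : Type*} [TopologicalSpace X] {U : X → Fin 7 → V 9} (h : Continuous U) :
    Continuous fun x => fam (U x) :=
  continuous_pi fun i => Gam_cont.comp ((continuous_apply i).comp h)

theorem fam_sgn (s : Fin 7 → ℝ) (u : Fin 7 → V 9) :
    fam (fun i => s i • u i) = fun j => s j • fam u j := by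
  funext j
  exact Gam_smul _ _

/-- The standard frame. -/
noncomputable def std (i : Fin 7) : V 9 := EuclideanSpace.single (Fin.castAdd 2 i) 1

theorem Gam_single (i : Fin 9) : Gam (EuclideanSpace.single i 1) = gb i := by
  unfold Gam
  rw [Finset.sum_eq_single i]
  · simp
  · intro j _ hj
    simp [hj]
  · intro h
    exact absurd (Finset.mem_univ i) h

theorem fam_std (i : Fin 7) : fam std i = T2 ee (g7 i) := (Gam_single _).trans (gb_left i)

theorem std_orthonormal : Orthonormal ℝ std := by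
  constructor
  · intro i
    simp [std]
  · intro i j hij
    have h : Fin.castAdd 2 i ≠ Fin.castAdd 2 j := fun h => hij (Fin.castAdd_injective 7 2 h)
    simp [std, EuclideanSpace.inner_single_left, h]

/-- an orthonormal frame is carried to the standard one -/
theorem exists_iso {u : Fin 7 → V 9} (h : Orthonormal ℝ u) :
    ∃ T : V 9 ≃ₗᵢ[ℝ] V 9, ∀ i, T (u i) = std i := by
  set w : Fin 9 → V 9 := fun j => if hj : (j : ℕ) < 7 then u ⟨j, hj⟩ else 0 with hw
  have hr : Orthonormal ℝ (({j : Fin 9 | (j : ℕ) < 7} : Set (Fin 9)).domRestrict w) := by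
    have e : ({j : Fin 9 | (j : ℕ) < 7} : Set (Fin 9)).domRestrict w =
        u ∘ fun j : ({j : Fin 9 | (j : ℕ) < 7} : Set (Fin 9)) =>
          (⟨((j : Fin 9) : ℕ), j.property⟩ : Fin 7) := by
      funext j
      show w j = u ⟨((j : Fin 9) : ℕ), j.property⟩
      rw [hw]
      exact dif_pos j.property
    rw [e]
    refine h.comp _ fun j k hjk => ?_
    have : ((j : Fin 9) : ℕ) = ((k : Fin 9) : ℕ) := congrArg (fun a : Fin 7 => (a : ℕ)) hjk
    exact Subtype.ext (Fin.ext this)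
  obtain ⟨b, hb⟩ := hr.exists_orthonormalBasis_extension_of_card_eq (by simp)
  refine ⟨b.repr, fun i => ?_⟩
  have h1 := hb (Fin.castAdd 2 i) (by
    show ((Fin.castAdd 2 i : Fin 9) : ℕ) < 7
    simp)
  have h2 : w (Fin.castAdd 2 i) = u i := by
    rw [hw]
    have : ((Fin.castAdd 2 i : Fin 9) : ℕ) < 7 := by simp
    simp only [this, dif_pos]
    rfl
  rw [h2] at h1
  rw [← h1, b.repr_self]
  rfl

/-! ### the commutant of the standard family -/

/-- The complex number of a matrix of the commutant. -/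
noncomputable def chi (X : M16) : ℂ :=
  ⟨X (0, (0, 0, 0)) (0, (0, 0, 0)), X (0, (0, 0, 0)) (1, (0, 0, 0))⟩

/-- `X` commutes with the standard family -/
def Cm (X : M16) : Prop := ∀ j, fam std j * X = X * fam std j

theorem Cm.eq {X : M16} (h : Cm X) : X = (chi X).re • (1 : M16) + (chi X).im • JJ :=
  comm_two fun i => by
    rw [← fam_std]
    exact (h i).symm

theorem chi_comb (p q : ℝ) : chi (p • (1 : M16) + q • JJ) = ⟨p, q⟩ := by
  unfold chi JJ
  simp [T2_apply, ee, Matrix.one_apply]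

theorem Cm.mul {X Y : M16} (h : Cm X) (h' : Cm Y) : Cm (X * Y) := fun j => by
  rw [← mul_assoc, h j, mul_assoc, h' j, mul_assoc]

theorem Cm.comm {X Y : M16} (h : Cm X) (h' : Cm Y) : X * Y = Y * X := by
  rw [h.eq, h'.eq]
  simp only [add_mul, mul_add, smul_mul_assoc, mul_smul_comm, mul_one, one_mul, smul_smul]
  module

theorem chi_one : chi 1 = 1 := by
  have := chi_comb 1 0
  simp only [one_smul, zero_smul, add_zero] at this
  rw [this]
  rfl

theorem Cm.chi_mul {X Y : M16} (h : Cm X) (h' : Cm Y) : chi (X * Y) = chi X * chi Y := by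
  have e : X * Y = ((chi X).re * (chi Y).re - (chi X).im * (chi Y).im) • (1 : M16) +
      ((chi X).re * (chi Y).im + (chi X).im * (chi Y).re) • JJ := by
    conv_lhs => rw [h.eq, h'.eq]
    simp only [add_mul, mul_add, smul_mul_assoc, mul_smul_comm, mul_one, one_mul, smul_smul, JJ_sq]
    module
  rw [e, chi_comb]
  apply Complex.ext
  · simp
  · simp

theorem chi_neg (X : M16) : chi (-X) = -chi X := by
  apply Complex.ext <;> simp [chi]

theorem chi_cont {X : Type*} [TopologicalSpace X] {f : X → M16} {s : Set X}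
    (h : ContinuousOn f s) : ContinuousOn (fun x => chi (f x)) s := by
  have h1 : ∀ i j : I16, ContinuousOn (fun x => f x i j) s := fun i j =>
    (continuous_apply_apply i j).comp_continuousOn h
  have e : (fun x => chi (f x)) = fun x =>
      ((f x (0, (0, 0, 0)) (0, (0, 0, 0)) : ℝ) : ℂ) +
        ((f x (0, (0, 0, 0)) (1, (0, 0, 0)) : ℝ) : ℂ) * Complex.I := by
    funext x
    apply Complex.ext <;> simp [chi]
  rw [e]
  exact (Complex.continuous_ofReal.comp_continuousOn (h1 _ _)).add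
    ((Complex.continuous_ofReal.comp_continuousOn (h1 _ _)).mul continuousOn_const)

/-- the commutant commutes with products -/
theorem Cm.Ea {X : M16} (h : Cm X) : X * Ea (fam std) = Ea (fam std) * X := by
  unfold O3.Ea
  have c : ∀ i, X * fam std i = fam std i * X := fun i => (h i).symm
  calc X * (fam std 3 * fam std 4 * (fam std 5 * fam std 6)) =
        (X * fam std 3) * fam std 4 * (fam std 5 * fam std 6) := by noncomm_ring
    _ = fam std 3 * (X * fam std 4) * (fam std 5 * fam std 6) := by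
        rw [c]
        noncomm_ring
    _ = fam std 3 * fam std 4 * ((X * fam std 5) * fam std 6) := by
        rw [c]
        noncomm_ring
    _ = fam std 3 * fam std 4 * (fam std 5 * (X * fam std 6)) := by
        rw [c]
        noncomm_ring
    _ = fam std 3 * fam std 4 * (fam std 5 * fam std 6) * X := by
        rw [c]
        noncomm_ring

theorem Cm.Eb {X : M16} (h : Cm X) : X * Eb (fam std) = Eb (fam std) * X := by
  unfold O3.Eb
  have c : ∀ i, X * fam std i = fam std i * X := fun i => (h i).symm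
  rw [← mul_assoc, c, mul_assoc, c, mul_assoc]

/-- two lifts differ by a member of the commutant -/
theorem Lk.quot {G : Fin 7 → M16} {a b : M16} (ha : Lk (fam std) G a) (hb : Lk (fam std) G b)
    (hd : a.det ≠ 0) : Cm (a⁻¹ * b) ∧ b = a * (a⁻¹ * b) := by
  have hu : IsUnit a.det := hd.isUnit
  constructor
  · intro j
    have h2 : a⁻¹ * G j = fam std j * a⁻¹ := by
      have h3 := ha j
      calc a⁻¹ * G j = a⁻¹ * (G j * a) * a⁻¹ := by
            rw [mul_assoc, mul_assoc, Matrix.mul_nonsing_inv _ hu, mul_one]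
        _ = a⁻¹ * (a * fam std j) * a⁻¹ := by rw [h3]
        _ = fam std j * a⁻¹ := by
            rw [← mul_assoc, Matrix.nonsing_inv_mul _ hu, one_mul]
    rw [mul_assoc, ← hb j, ← mul_assoc, ← mul_assoc, h2]
  · rw [← mul_assoc, Matrix.mul_nonsing_inv _ hu, one_mul]

theorem det_ne_of_mul {a b : M16} (h : (a * b).det ≠ 0) : b.det ≠ 0 := by
  rw [Matrix.det_mul] at h
  exact right_ne_zero_of_mul h

theorem Cm.ne {X : M16} (h : Cm X) (hd : X.det ≠ 0) : chi X ≠ 0 := by
  intro h0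
  apply hd
  rw [h.eq, h0]
  simp

theorem cancel {a X Y : M16} (hd : a.det ≠ 0) (h : a * X = a * Y) : X = Y := by
  have hu : IsUnit a.det := hd.isUnit
  have h1 : a⁻¹ * (a * X) = a⁻¹ * (a * Y) := by rw [h]
  rwa [← mul_assoc, ← mul_assoc, Matrix.nonsing_inv_mul _ hu, one_mul, one_mul] at h1

theorem inv_cont {X : Type*} [TopologicalSpace X] {f g : X → M16} {s : Set X}
    (hf : Continuous f) (hg : Continuous g) (h0 : ∀ x ∈ s, (f x).det ≠ 0) :
    ContinuousOn (fun x => (f x)⁻¹ * g x) s := by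
  have e : (fun x => (f x)⁻¹ * g x) = fun x => ((f x).det)⁻¹ • ((f x).adjugate * g x) := by
    funext x
    rw [Matrix.inv_def, Ring.inverse_eq_inv', smul_mul_assoc]
  rw [e]
  exact (hf.matrix_det.continuousOn.inv₀ h0).smul (hf.matrix_adjugate.mul hg).continuousOn

theorem disc_compact : IsCompact {w : ℝ × ℝ | w.1 ^ 2 + w.2 ^ 2 ≤ 1} := by
  refine (isCompact_Icc.prod isCompact_Icc).of_isClosed_subset
    (s := Icc (-1 : ℝ) 1 ×ˢ Icc (-1 : ℝ) 1) (isClosed_le (by fun_prop) continuous_const) ?_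
  rintro ⟨x, y⟩ h
  have h' : x ^ 2 + y ^ 2 ≤ 1 := h
  exact ⟨⟨by nlinarith [sq_nonneg y], by nlinarith [sq_nonneg y]⟩,
    ⟨by nlinarith [sq_nonneg x], by nlinarith [sq_nonneg x]⟩⟩

end Pool.Agent.Lib.Skw.O3

namespace Pool.Agent.Lib.Skw

open O3 in
/-- **The obstruction.** -/
theorem obs3 {U : ℝ × (ℝ × ℝ) → Fin 7 → V 9} (hc : Continuous U) (hU : ∀ x, Orthonormal ℝ (U x))
    (ha : ∀ u ∈ Icc (0 : ℝ) Real.pi, ∀ w : ℝ × ℝ, w.1 ^ 2 + w.2 ^ 2 = 1 →
      U (u, (-w.1, -w.2)) = fun i => (![1, 1, 1, -1, -1, -1, -1] : Fin 7 → ℝ) i • U (u, w) i)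
    (hb : ∀ w : ℝ × ℝ, w.1 ^ 2 + w.2 ^ 2 ≤ 1 →
      U (Real.pi, (w.1, -w.2)) = fun i => (![1, -1, 1, 1, -1, 1, 1] : Fin 7 → ℝ) i • U (0, w) i) :
    False := by
  have hpi := Real.pi_pos
  obtain ⟨T, hT⟩ := O3.exists_iso (hU 0)
  set W : R3 → Fin 7 → V 9 := fun x i => T (U x i) with hWd
  have hWc : Continuous W := continuous_pi fun i =>
    T.continuous.comp ((continuous_apply i).comp hc)
  have hWo : ∀ x, Orthonormal ℝ (W x) := fun x => (hU x).comp_linearIsometryEquiv T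
  have hW0 : W 0 = O3.std := funext hT
  set H : R3 → Fin 7 → M16 := fun x => O3.fam (W x) with hHd
  have hH0 : H 0 = O3.fam O3.std := by rw [hHd, ← hW0]
  obtain ⟨a, hac, had, hal⟩ := O3.lift_exists (H := H) (O3.fam_cont hWc)
    (fun x => O3.fam_isCl (hWo x))
    (K := Icc (0 : ℝ) Real.pi ×ˢ {w : ℝ × ℝ | w.1 ^ 2 + w.2 ^ 2 ≤ 1})
    (isCompact_Icc.prod disc_compact) (by
      rintro ⟨p, q, r⟩ ⟨hp, hq⟩ c hc
      have hq' : q ^ 2 + r ^ 2 ≤ 1 := hq
      refine ⟨⟨mul_nonneg hc.1 hp.1, ?_⟩, ?_⟩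
      · show c * p ≤ Real.pi
        nlinarith [hc.1, hc.2, hp.1, hp.2]
      · show (c * q) ^ 2 + (c * r) ^ 2 ≤ 1
        have e : (c * q) ^ 2 + (c * r) ^ 2 = c ^ 2 * (q ^ 2 + r ^ 2) := by ring
        rw [e]
        have h1 : c ^ 2 ≤ 1 := by nlinarith [hc.1, hc.2]
        nlinarith [sq_nonneg c, sq_nonneg q, sq_nonneg r])
  rw [hH0] at hal
  have hIs := O3.fam_isCl O3.std_orthonormal
  set EA : M16 := O3.Ea (O3.fam O3.std) with hEA
  set EB : M16 := O3.Eb (O3.fam O3.std) with hEB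
  have hEAd : EA.det ≠ 0 := by
    intro h
    have h3 := congrArg Matrix.det (O3.Ea_sq hIs)
    rw [Matrix.det_mul, ← hEA, h, mul_zero, Matrix.det_one] at h3
    exact zero_ne_one h3
  have hEBd : EB.det ≠ 0 := by
    intro h
    have h3 := congrArg Matrix.det (O3.Eb_sq hIs)
    rw [Matrix.det_mul, ← hEB, h, mul_zero, Matrix.det_neg, Matrix.det_one, mul_one] at h3
    exact pow_ne_zero _ (by norm_num) h3.symm
  -- the quotients
  set ca : ℝ → ℝ × ℝ → M16 := fun u w => (a (u, w) * EA)⁻¹ * a (u, (-w.1, -w.2)) with hca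
  set cb : ℝ × ℝ → M16 := fun w => (a (0, w) * EB)⁻¹ * a (Real.pi, (w.1, -w.2)) with hcb
  have h0pi : (0 : ℝ) ∈ Icc (0 : ℝ) Real.pi := ⟨le_rfl, hpi.le⟩
  have hpp : Real.pi ∈ Icc (0 : ℝ) Real.pi := ⟨hpi.le, le_rfl⟩
  have hdA : ∀ u ∈ Icc (0 : ℝ) Real.pi, ∀ w : ℝ × ℝ, w.1 ^ 2 + w.2 ^ 2 ≤ 1 →
      (a (u, w) * EA).det ≠ 0 := by
    intro u hu w hw
    rw [Matrix.det_mul]
    exact mul_ne_zero (had _ ⟨hu, hw⟩) hEAd
  have hdB : ∀ w : ℝ × ℝ, w.1 ^ 2 + w.2 ^ 2 ≤ 1 → (a (0, w) * EB).det ≠ 0 := by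
    intro w hw
    rw [Matrix.det_mul]
    exact mul_ne_zero (had _ ⟨h0pi, hw⟩) hEBd
  have hqa : ∀ u ∈ Icc (0 : ℝ) Real.pi, ∀ w : ℝ × ℝ, w.1 ^ 2 + w.2 ^ 2 = 1 →
      Cm (ca u w) ∧ a (u, (-w.1, -w.2)) = a (u, w) * EA * ca u w := by
    intro u hu w hw
    have h2 := (hal (u, w)).sgn (O3.sgn_Ea hIs)
    have h3 : H (u, (-w.1, -w.2)) = fun j =>
        (![1, 1, 1, -1, -1, -1, -1] : Fin 7 → ℝ) j • H (u, w) j := by
      rw [hHd]
      simp only []
      rw [← O3.fam_sgn]
      congr 1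
      funext i
      rw [hWd]
      simp only [ha u hu w hw, map_smul]
    rw [← h3] at h2
    exact O3.Lk.quot h2 (hal _) (hdA u hu w hw.le)
  have hqb : ∀ w : ℝ × ℝ, w.1 ^ 2 + w.2 ^ 2 ≤ 1 →
      Cm (cb w) ∧ a (Real.pi, (w.1, -w.2)) = a (0, w) * EB * cb w := by
    intro w hw
    have h2 := (hal (0, w)).sgn (O3.sgn_Eb hIs)
    have h3 : H (Real.pi, (w.1, -w.2)) = fun j =>
        (![1, -1, 1, 1, -1, 1, 1] : Fin 7 → ℝ) j • H (0, w) j := by
      rw [hHd]
      simp only []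
      rw [← O3.fam_sgn]
      congr 1
      funext i
      rw [hWd]
      simp only [hb w hw, map_smul]
    rw [← h3] at h2
    exact O3.Lk.quot h2 (hal _) (hdB w hw)
  have hna : ∀ u ∈ Icc (0 : ℝ) Real.pi, ∀ w : ℝ × ℝ, w.1 ^ 2 + w.2 ^ 2 = 1 →
      chi (ca u w) ≠ 0 := by
    intro u hu w hw
    refine (hqa u hu w hw).1.ne (O3.det_ne_of_mul (a := a (u, w) * EA) ?_)
    rw [← (hqa u hu w hw).2]
    refine had _ ⟨hu, ?_⟩
    show (-w.1) ^ 2 + (-w.2) ^ 2 ≤ 1
    rw [neg_sq, neg_sq]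
    exact hw.le
  have hnb : ∀ w : ℝ × ℝ, w.1 ^ 2 + w.2 ^ 2 ≤ 1 → chi (cb w) ≠ 0 := by
    intro w hw
    refine (hqb w hw).1.ne (O3.det_ne_of_mul (a := a (0, w) * EB) ?_)
    rw [← (hqb w hw).2]
    refine had _ ⟨hpp, ?_⟩
    show w.1 ^ 2 + (-w.2) ^ 2 ≤ 1
    rw [neg_sq]
    exact hw
  have r1 : ∀ u ∈ Icc (0 : ℝ) Real.pi, ∀ x y : ℝ, x ^ 2 + y ^ 2 = 1 →
      ca u (x, y) * ca u (-x, -y) = 1 := by
    intro u hu x y h
    have h' : (-x) ^ 2 + (-y) ^ 2 = 1 := by rw [neg_sq, neg_sq, h]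
    obtain ⟨c1, e1⟩ := hqa u hu (x, y) h
    obtain ⟨c2, e2⟩ := hqa u hu (-x, -y) h'
    simp only [neg_neg] at e1 e2
    rw [e1] at e2
    refine O3.cancel (had (u, (x, y)) ⟨hu, h.le⟩) ?_
    rw [mul_one]
    calc a (u, (x, y)) * (ca u (x, y) * ca u (-x, -y)) =
          a (u, (x, y)) * (EA * EA) * (ca u (x, y) * ca u (-x, -y)) := by
          rw [hEA, O3.Ea_sq hIs, mul_one]
      _ = a (u, (x, y)) * EA * (EA * ca u (x, y)) * ca u (-x, -y) := by noncomm_ring
      _ = a (u, (x, y)) * EA * (ca u (x, y) * EA) * ca u (-x, -y) := by rw [hEA, c1.Ea]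
      _ = a (u, (x, y)) * EA * ca u (x, y) * EA * ca u (-x, -y) := by noncomm_ring
      _ = a (u, (x, y)) := e2.symm
  have r2 : ∀ x y : ℝ, x ^ 2 + y ^ 2 = 1 →
      cb (x, y) * ca Real.pi (x, -y) = -(ca 0 (x, y) * cb (-x, -y)) := by
    intro x y h
    have h' : (-x) ^ 2 + (-y) ^ 2 = 1 := by rw [neg_sq, neg_sq, h]
    have h'' : x ^ 2 + (-y) ^ 2 = 1 := by rw [neg_sq, h]
    obtain ⟨c1, e1⟩ := hqb (x, y) h.le
    obtain ⟨c2, e2⟩ := hqa Real.pi hpp (x, -y) h''
    obtain ⟨c3, e3⟩ := hqa 0 h0pi (x, y) h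
    obtain ⟨c4, e4⟩ := hqb (-x, -y) h'.le
    simp only [neg_neg] at e1 e2 e3 e4
    rw [e1] at e2
    rw [e3] at e4
    have hd : (a (0, (x, y)) * (EB * EA)).det ≠ 0 := by
      rw [Matrix.det_mul, Matrix.det_mul]
      exact mul_ne_zero (had _ ⟨h0pi, h.le⟩) (mul_ne_zero hEBd hEAd)
    refine O3.cancel hd ?_
    have hanti : EA * EB = -(EB * EA) := O3.Ea_Eb hIs
    calc a (0, (x, y)) * (EB * EA) * (cb (x, y) * ca Real.pi (x, -y)) =
          a (0, (x, y)) * EB * (EA * cb (x, y)) * ca Real.pi (x, -y) := by noncomm_ring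
      _ = a (0, (x, y)) * EB * (cb (x, y) * EA) * ca Real.pi (x, -y) := by rw [hEA, c1.Ea]
      _ = a (0, (x, y)) * EB * cb (x, y) * EA * ca Real.pi (x, -y) := by noncomm_ring
      _ = a (0, (x, y)) * EA * ca 0 (x, y) * EB * cb (-x, -y) := by rw [← e2, e4]
      _ = a (0, (x, y)) * EA * (ca 0 (x, y) * EB) * cb (-x, -y) := by noncomm_ring
      _ = a (0, (x, y)) * EA * (EB * ca 0 (x, y)) * cb (-x, -y) := by rw [hEB, c3.Eb]
      _ = a (0, (x, y)) * (EA * EB) * (ca 0 (x, y) * cb (-x, -y)) := by noncomm_ring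
      _ = a (0, (x, y)) * (EB * EA) * -(ca 0 (x, y) * cb (-x, -y)) := by
          rw [hanti]
          noncomm_ring
  have hcs : ∀ t : ℝ, (Real.cos t) ^ 2 + (Real.sin t) ^ 2 = 1 := fun t => Real.cos_sq_add_sin_sq t
  have hcs' : ∀ t : ℝ, (-Real.cos t) ^ 2 + (-Real.sin t) ^ 2 = 1 := fun t => by
    rw [neg_sq, neg_sq, hcs]
  refine no_scalar (A := fun u t => chi (ca u (Real.cos t, Real.sin t)))
    (B := fun w => chi (cb w)) ?_ ?_ ?_ ?_ ?_ ?_
  · refine chi_cont (f := fun p : ℝ × ℝ => ca p.1 (Real.cos p.2, Real.sin p.2)) ?_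
    rw [hca]
    refine O3.inv_cont (f := fun p : ℝ × ℝ => a (p.1, (Real.cos p.2, Real.sin p.2)) * EA)
      (g := fun p : ℝ × ℝ => a (p.1, (-Real.cos p.2, -Real.sin p.2)))
      ((hac.comp (by fun_prop)).mul continuous_const) (hac.comp (by fun_prop)) ?_
    rintro ⟨u, t⟩ ⟨hu, _⟩
    exact hdA u hu _ (hcs t).le
  · intro u hu t _
    exact hna u hu _ (hcs t)
  · refine chi_cont (f := cb) ?_
    rw [hcb]
    refine O3.inv_cont (f := fun w : ℝ × ℝ => a (0, w) * EB)
      (g := fun w : ℝ × ℝ => a (Real.pi, (w.1, -w.2)))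
      ((hac.comp (by fun_prop)).mul continuous_const) (hac.comp (by fun_prop)) ?_
    intro w hw
    exact hdB w hw
  · intro w hw
    exact hnb w hw
  · intro u hu t _
    show chi (ca u (Real.cos t, Real.sin t)) *
      chi (ca u (Real.cos (t + Real.pi), Real.sin (t + Real.pi))) = 1
    rw [Real.cos_add_pi, Real.sin_add_pi, ← (hqa u hu _ (hcs t)).1.chi_mul
      (hqa u hu _ (hcs' t)).1, r1 u hu _ _ (hcs t), chi_one]
  · intro t _
    show chi (cb (Real.cos t, Real.sin t)) *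
      chi (ca Real.pi (Real.cos (2 * Real.pi - t), Real.sin (2 * Real.pi - t))) =
      -(chi (ca 0 (Real.cos t, Real.sin t)) * chi (cb (-Real.cos t, -Real.sin t)))
    have e1 : Real.cos (2 * Real.pi - t) = Real.cos t := Real.cos_two_pi_sub t
    have e2 : Real.sin (2 * Real.pi - t) = -Real.sin t := Real.sin_two_pi_sub t
    have h3 : (Real.cos t) ^ 2 + (-Real.sin t) ^ 2 = 1 := by rw [neg_sq, hcs]
    rw [e1, e2, ← (hqb _ (hcs t).le).1.chi_mul (hqa Real.pi hpp _ h3).1, r2 _ _ (hcs t), chi_neg,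
      (hqa 0 h0pi _ (hcs t)).1.chi_mul (hqb _ (hcs' t).le).1]

end Pool.Agent.Lib.Skw
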