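import Pool.Agent.Lib.Skw.Cur
import Pool.Agent.Lib.Skw.Gs
import Pool.Agent.Lib.Skw.Ob3
import Pool.Agent.Lib.Skw.Hy3

set_option autoImplicit false

/-!
# The solid Klein bottle is not totally skew in `ℝ^9` (MP_3c016c_gt)
-/

open scoped ContDiff
open Set

namespace Pool.Agent.Lib.Skw

theorem SolidKleinIn.pad {N M : ℕ} (hNM : N ≤ M) (h : SolidKleinIn N) : SolidKleinIn M := by
  obtain ⟨f, hf, hg, h⟩ := h
  obtain ⟨L, hL⟩ := exists_inj hNM
  have hd : ∀ p v, d3 (fun p => L (f p)) p v = L (d3 f p v) := by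
    intro p v
    have h1 : DifferentiableAt ℝ f p := (hf.contDiffAt).differentiableAt (by simp)
    have h2 := (L.hasFDerivAt (x := f p)).comp p h1.hasFDerivAt
    have h3 : fderiv ℝ (fun p => L (f p)) p = L.comp (fderiv ℝ f p) := h2.fderiv
    show fderiv ℝ (fun p => L (f p)) p v = L (fderiv ℝ f p v)
    rw [h3]
    rfl
  refine ⟨fun p => L (f p), L.contDiff.comp hf, fun x y z => congrArg L (hg x y z),
    fun p q hpq v w l he => ?_⟩
  rw [hd, hd, ← map_add, ← map_sub, ← map_smul] at he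
  exact h p q hpq v w l (hL he)

/-- the glide reflection -/
noncomputable def gl (p : R3) : R3 := (p.1 + Real.pi, (-p.2.1, p.2.2))

/-- its linear part -/
noncomputable def gll : R3 →L[ℝ] R3 :=
  (ContinuousLinearMap.fst ℝ ℝ (ℝ × ℝ)).prod
    ((-((ContinuousLinearMap.fst ℝ ℝ ℝ).comp (ContinuousLinearMap.snd ℝ ℝ (ℝ × ℝ)))).prod
      ((ContinuousLinearMap.snd ℝ ℝ ℝ).comp (ContinuousLinearMap.snd ℝ ℝ (ℝ × ℝ))))

theorem gll_apply (v : R3) : gll v = (v.1, (-v.2.1, v.2.2)) := rfl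

theorem gl_eq : gl = fun p => gll p + ((Real.pi, (0, 0)) : R3) := by
  funext p
  rw [gll_apply]
  simp [gl]

theorem gl_deriv {N : ℕ} {f : R3 → Eu N} (hf : ContDiff ℝ ∞ f)
    (h : ∀ x y z, f (x + Real.pi, (-y, z)) = f (x, (y, z))) (p v : R3) :
    fderiv ℝ f (gl p) (gll v) = fderiv ℝ f p v := by
  have h3 : HasFDerivAt gl gll p := by
    rw [gl_eq]
    exact gll.hasFDerivAt.add_const _
  have h4 : DifferentiableAt ℝ f (gl p) := (hf.contDiffAt).differentiableAt (by simp)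
  have h5 : HasFDerivAt (fun p : R3 => f (gl p)) ((fderiv ℝ f (gl p)).comp gll) p :=
    h4.hasFDerivAt.comp p h3
  have h6 : (fun p : R3 => f (gl p)) = f := funext fun p => h p.1 p.2.1 p.2.2
  rw [h6] at h5
  rw [h5.fderiv]
  rfl

/-! ### the direction -/

noncomputable def tz (w : ℝ × ℝ) : ℝ := max 0 (1 - w.1 ^ 2 - w.2 ^ 2)

noncomputable def nz (w : ℝ × ℝ) : ℝ := Real.sqrt (w.1 ^ 2 + w.2 ^ 2 + tz w)

theorem tz_ge (w : ℝ × ℝ) : 1 ≤ w.1 ^ 2 + w.2 ^ 2 + tz w := by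
  have := le_max_right 0 (1 - w.1 ^ 2 - w.2 ^ 2)
  unfold tz
  linarith

theorem nz_pos (w : ℝ × ℝ) : 0 < nz w := Real.sqrt_pos.2 (by linarith [tz_ge w])

/-- the direction -/
noncomputable def dz (w : ℝ × ℝ) : R3 := (w.1 / nz w, (w.2 / nz w, Real.sqrt (tz w) / nz w))

theorem dz_norm (w : ℝ × ℝ) : (dz w).1 ^ 2 + (dz w).2.1 ^ 2 + (dz w).2.2 ^ 2 = 1 := by
  have h := (nz_pos w).ne'
  have h1 : nz w ^ 2 = w.1 ^ 2 + w.2 ^ 2 + tz w := Real.sq_sqrt (by linarith [tz_ge w])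
  have h2 : Real.sqrt (tz w) ^ 2 = tz w := Real.sq_sqrt (le_max_left _ _)
  show (w.1 / nz w) ^ 2 + (w.2 / nz w) ^ 2 + (Real.sqrt (tz w) / nz w) ^ 2 = 1
  rw [div_pow, div_pow, div_pow, h2, ← add_div, ← add_div, ← h1]
  exact div_self (pow_ne_zero 2 h)

theorem tz_cont : Continuous tz := by
  unfold tz
  fun_prop

theorem nz_cont : Continuous nz := by
  unfold nz
  exact Real.continuous_sqrt.comp (by
    have := tz_cont
    fun_prop)

theorem dz_cont : Continuous dz := by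
  have h1 := nz_cont
  have h2 := Real.continuous_sqrt.comp tz_cont
  have h3 : ∀ w, nz w ≠ 0 := fun w => (nz_pos w).ne'
  unfold dz
  exact (continuous_fst.div h1 h3).prodMk ((continuous_snd.div h1 h3).prodMk (h2.div h1 h3))

theorem dz_neg {w : ℝ × ℝ} (h : w.1 ^ 2 + w.2 ^ 2 = 1) : dz (-w.1, -w.2) = -dz w := by
  have h1 : tz w = 0 := by
    unfold tz
    rw [max_eq_left (by linarith)]
  have h2 : tz (-w.1, -w.2) = 0 := by
    unfold tz
    simp only [neg_sq]
    rw [max_eq_left (by linarith)]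
  have h3 : nz (-w.1, -w.2) = nz w := by
    unfold nz
    rw [h1, h2]
    simp only [neg_sq]
  unfold dz
  rw [h3, h1, h2]
  ext <;> simp [neg_div]

theorem dz_refl (w : ℝ × ℝ) : dz (w.1, -w.2) = ((dz w).1, (-(dz w).2.1, (dz w).2.2)) := by
  have h2 : tz (w.1, -w.2) = tz w := by
    unfold tz
    simp only [neg_sq]
  have h3 : nz (w.1, -w.2) = nz w := by
    unfold nz
    rw [h2]
    simp only [neg_sq]
  unfold dz
  rw [h3, h2]
  ext <;> simp [neg_div]

/-- the two points -/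
noncomputable def pz (x : R3) : R3 := ((x.1, (0, 0)) : R3) + dz x.2

noncomputable def qz (x : R3) : R3 := ((x.1, (0, 0)) : R3) - dz x.2

theorem not_same (x : R3) : ¬ SamePoint (pz x) (qz x) := by
  rintro ⟨k, hk⟩
  have hn := dz_norm x.2
  set d := dz x.2 with hd
  have h1 := congrArg (fun r : R3 => r.1) hk
  have h2 := congrArg (fun r : R3 => r.2.1) hk
  have h3 := congrArg (fun r : R3 => r.2.2) hk
  simp only [pz, qz, ← hd, Prod.fst_sub, Prod.fst_add, Prod.snd_sub, Prod.snd_add, zero_sub,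
    zero_add] at h1 h2 h3
  have hk0 : k = 0 := by
    have h4 : (k : ℝ) * Real.pi = -(2 * d.1) := by linarith
    have h5 : d.1 ^ 2 ≤ 1 := by nlinarith [sq_nonneg d.2.1, sq_nonneg d.2.2]
    have h6 : |(k : ℝ)| * Real.pi ≤ 2 := by
      have h7 : |(k : ℝ) * Real.pi| ≤ 2 := by
        rw [h4, abs_neg, abs_mul, abs_two]
        have := abs_le_one_iff_mul_self_le_one.2 (by nlinarith : d.1 * d.1 ≤ 1)
        linarith
      rwa [abs_mul, abs_of_pos Real.pi_pos] at h7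
    by_contra hk0
    have h8 : (1 : ℝ) ≤ |(k : ℝ)| := by
      have := Int.one_le_abs hk0
      exact_mod_cast this
    nlinarith [Real.pi_gt_three]
  subst hk0
  simp only [Int.cast_zero, zero_mul, add_zero, zpow_zero, one_mul] at h1 h2
  have a1 : d.1 = 0 := by linarith
  have a2 : d.2.1 = 0 := by linarith
  have a3 : d.2.2 = 0 := by linarith
  rw [a1, a2, a3] at hn
  norm_num at hn

theorem pz_cont : Continuous pz := by
  unfold pz
  exact (by fun_prop : Continuous fun x : R3 => ((x.1, (0, 0)) : R3)).add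
    (dz_cont.comp continuous_snd)

theorem qz_cont : Continuous qz := by
  unfold qz
  exact (by fun_prop : Continuous fun x : R3 => ((x.1, (0, 0)) : R3)).sub
    (dz_cont.comp continuous_snd)

def b0 : R3 := (1, (0, 0))
def b1 : R3 := (0, (1, 0))
def b2 : R3 := (0, (0, 1))

/-- the seven vectors -/
noncomputable def col7 {N : ℕ} (f : R3 → Eu N) (p q : R3) : Fin 7 → Eu N :=
  ![fderiv ℝ f p b0 + fderiv ℝ f q b0, fderiv ℝ f p b1 + fderiv ℝ f q b1,
    fderiv ℝ f p b2 + fderiv ℝ f q b2, fderiv ℝ f p b0 - fderiv ℝ f q b0,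
    fderiv ℝ f p b1 - fderiv ℝ f q b1, fderiv ℝ f p b2 - fderiv ℝ f q b2, f p - f q]

theorem col7_swap {N : ℕ} (f : R3 → Eu N) (p q : R3) : col7 f q p =
    fun i => (![1, 1, 1, -1, -1, -1, -1] : Fin 7 → ℝ) i • col7 f p q i := by
  funext i
  fin_cases i
  · show fderiv ℝ f q b0 + fderiv ℝ f p b0 = (1 : ℝ) • (fderiv ℝ f p b0 + fderiv ℝ f q b0)
    rw [one_smul, add_comm]
  · show fderiv ℝ f q b1 + fderiv ℝ f p b1 = (1 : ℝ) • (fderiv ℝ f p b1 + fderiv ℝ f q b1)
    rw [one_smul, add_comm]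
  · show fderiv ℝ f q b2 + fderiv ℝ f p b2 = (1 : ℝ) • (fderiv ℝ f p b2 + fderiv ℝ f q b2)
    rw [one_smul, add_comm]
  · show fderiv ℝ f q b0 - fderiv ℝ f p b0 = (-1 : ℝ) • (fderiv ℝ f p b0 - fderiv ℝ f q b0)
    rw [neg_one_smul, neg_sub]
  · show fderiv ℝ f q b1 - fderiv ℝ f p b1 = (-1 : ℝ) • (fderiv ℝ f p b1 - fderiv ℝ f q b1)
    rw [neg_one_smul, neg_sub]
  · show fderiv ℝ f q b2 - fderiv ℝ f p b2 = (-1 : ℝ) • (fderiv ℝ f p b2 - fderiv ℝ f q b2)
    rw [neg_one_smul, neg_sub]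
  · show f q - f p = (-1 : ℝ) • (f p - f q)
    rw [neg_one_smul, neg_sub]

theorem col7_gl {N : ℕ} {f : R3 → Eu N} (hf : ContDiff ℝ ∞ f)
    (h : ∀ x y z, f (x + Real.pi, (-y, z)) = f (x, (y, z))) (p q : R3) :
    col7 f (gl p) (gl q) =
      fun i => (![1, -1, 1, 1, -1, 1, 1] : Fin 7 → ℝ) i • col7 f p q i := by
  have e0 : ∀ r : R3, fderiv ℝ f (gl r) b0 = fderiv ℝ f r b0 := by
    intro r
    have h1 := gl_deriv hf h r b0
    have h2 : gll b0 = b0 := by
      rw [gll_apply]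
      simp [b0]
    rwa [h2] at h1
  have e1 : ∀ r : R3, fderiv ℝ f (gl r) b1 = -fderiv ℝ f r b1 := by
    intro r
    have h1 := gl_deriv hf h r b1
    have h2 : gll b1 = -b1 := by
      rw [gll_apply]
      simp [b1]
    rw [h2, map_neg] at h1
    rw [← h1, neg_neg]
  have e2 : ∀ r : R3, fderiv ℝ f (gl r) b2 = fderiv ℝ f r b2 := by
    intro r
    have h1 := gl_deriv hf h r b2
    have h2 : gll b2 = b2 := by
      rw [gll_apply]
      simp [b2]
    rwa [h2] at h1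
  have e3 : ∀ r : R3, f (gl r) = f r := fun r => h r.1 r.2.1 r.2.2
  funext i
  fin_cases i
  · show fderiv ℝ f (gl p) b0 + fderiv ℝ f (gl q) b0 = (1 : ℝ) • (fderiv ℝ f p b0 + fderiv ℝ f q b0)
    rw [one_smul, e0, e0]
  · show fderiv ℝ f (gl p) b1 + fderiv ℝ f (gl q) b1 = (-1 : ℝ) • (fderiv ℝ f p b1 + fderiv ℝ f q b1)
    rw [e1, e1, neg_one_smul, neg_add]
  · show fderiv ℝ f (gl p) b2 + fderiv ℝ f (gl q) b2 = (1 : ℝ) • (fderiv ℝ f p b2 + fderiv ℝ f q b2)
    rw [one_smul, e2, e2]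
  · show fderiv ℝ f (gl p) b0 - fderiv ℝ f (gl q) b0 = (1 : ℝ) • (fderiv ℝ f p b0 - fderiv ℝ f q b0)
    rw [one_smul, e0, e0]
  · show fderiv ℝ f (gl p) b1 - fderiv ℝ f (gl q) b1 = (-1 : ℝ) • (fderiv ℝ f p b1 - fderiv ℝ f q b1)
    rw [e1, e1, neg_one_smul, neg_sub, neg_sub_neg]
  · show fderiv ℝ f (gl p) b2 - fderiv ℝ f (gl q) b2 = (1 : ℝ) • (fderiv ℝ f p b2 - fderiv ℝ f q b2)
    rw [one_smul, e2, e2]
  · show f (gl p) - f (gl q) = (1 : ℝ) • (f p - f q)
    rw [one_smul, e3, e3]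

theorem col7_li {N : ℕ} {f : R3 → Eu N} {p q : R3}
    (h : ∀ v w, ∀ l : ℝ, d3 f p v + d3 f q w = l • (f p - f q) → v = 0 ∧ w = 0 ∧ l = 0) :
    LinearIndependent ℝ (col7 f p q) := by
  rw [Fintype.linearIndependent_iff]
  intro c hc
  simp only [Fin.sum_univ_seven, col7, Matrix.cons_val] at hc
  obtain ⟨h1, h2, h3⟩ := h ((c 0 + c 3) • b0 + (c 1 + c 4) • b1 + (c 2 + c 5) • b2)
    ((c 0 - c 3) • b0 + (c 1 - c 4) • b1 + (c 2 - c 5) • b2) (-c 6) (by
      show fderiv ℝ f p _ + fderiv ℝ f q _ = _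
      rw [map_add, map_add, map_add, map_add, map_smul, map_smul, map_smul, map_smul, map_smul,
        map_smul, neg_smul, ← sub_eq_zero, sub_neg_eq_add, ← hc]
      module)
  simp only [b0, b1, b2, Prod.smul_mk, smul_eq_mul, mul_zero, mul_one, Prod.mk_add_mk, zero_add,
    add_zero, Prod.mk_eq_zero] at h1 h2
  obtain ⟨x1, x2, x3⟩ := h1
  obtain ⟨y1, y2, y3⟩ := h2
  intro i
  fin_cases i
  · show c 0 = 0
    linarith
  · show c 1 = 0
    linarith
  · show c 2 = 0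
    linarith
  · show c 3 = 0
    linarith
  · show c 4 = 0
    linarith
  · show c 5 = 0
    linarith
  · exact neg_eq_zero.mp h3

theorem no_solid_nine : ¬ SolidKleinIn 9 := by
  rintro ⟨f, hf, hg, h⟩
  have hli : ∀ x : R3, LinearIndependent ℝ (col7 f (pz x) (qz x)) := fun x =>
    col7_li (h _ _ (not_same x))
  have hdf : Continuous (fderiv ℝ f) := hf.continuous_fderiv (by simp)
  have hc : Continuous fun x : R3 => col7 f (pz x) (qz x) := by
    refine continuous_pi fun i => ?_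
    have hp : ∀ b : R3, Continuous fun x : R3 => fderiv ℝ f (pz x) b := fun b =>
      (hdf.comp pz_cont).clm_apply continuous_const
    have hq : ∀ b : R3, Continuous fun x : R3 => fderiv ℝ f (qz x) b := fun b =>
      (hdf.comp qz_cont).clm_apply continuous_const
    fin_cases i
    · exact (hp b0).add (hq b0)
    · exact (hp b1).add (hq b1)
    · exact (hp b2).add (hq b2)
    · exact (hp b0).sub (hq b0)
    · exact (hp b1).sub (hq b1)
    · exact (hp b2).sub (hq b2)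
    · exact (hf.continuous.comp pz_cont).sub (hf.continuous.comp qz_cont)
  have hs1 : ∀ i, (![1, 1, 1, -1, -1, -1, -1] : Fin 7 → ℝ) i ^ 2 = 1 := by
    intro i
    fin_cases i <;> norm_num
  have hs2 : ∀ i, (![1, -1, 1, 1, -1, 1, 1] : Fin 7 → ℝ) i ^ 2 = 1 := by
    intro i
    fin_cases i <;> norm_num
  refine obs3 (U := fun x => InnerProductSpace.gramSchmidtNormed ℝ (col7 f (pz x) (qz x)))
    (gsn_cont hc hli) (fun x => InnerProductSpace.gramSchmidtNormed_orthonormal (hli x)) ?_ ?_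
  · intro u _ w hw
    have e1 : pz (u, (-w.1, -w.2)) = qz (u, w) := by
      unfold pz qz
      rw [dz_neg hw, sub_eq_add_neg]
    have e2 : qz (u, (-w.1, -w.2)) = pz (u, w) := by
      unfold pz qz
      rw [dz_neg hw, sub_neg_eq_add]
    show InnerProductSpace.gramSchmidtNormed ℝ (col7 f (pz (u, (-w.1, -w.2)))
      (qz (u, (-w.1, -w.2)))) = _
    rw [e1, e2, col7_swap, gsn_sign hs1]
  · intro w _
    have e1 : pz (Real.pi, (w.1, -w.2)) = gl (pz (0, w)) := by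
      unfold pz gl
      rw [dz_refl]
      ext <;> simp <;> ring
    have e2 : qz (Real.pi, (w.1, -w.2)) = gl (qz (0, w)) := by
      unfold qz gl
      rw [dz_refl]
      ext <;> simp <;> ring
    show InnerProductSpace.gramSchmidtNormed ℝ (col7 f (pz (Real.pi, (w.1, -w.2)))
      (qz (Real.pi, (w.1, -w.2)))) = _
    rw [e1, e2, col7_gl hf hg, gsn_sign hs2]

theorem solidKleinIn_ten {N : ℕ} (h : SolidKleinIn N) : 10 ≤ N := by
  by_contra hN
  exact no_solid_nine (SolidKleinIn.pad (M := 9) (by omega) h)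

end Pool.Agent.Lib.Skw
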