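import Pool.Agent.Lib.Skw.Obs

set_option autoImplicit false

/-!
# The second obstruction (Klein bottle)
-/

open Matrix Set

namespace Pool.Agent.Lib.Skw

/-- **Second obstruction.** -/
theorem obs_klein {U : R2 → Fin 5 → V 6} (hc : Continuous U) (hU : ∀ x, Orthonormal ℝ (U x))
    {L : ℝ} (hL : 0 ≤ L)
    (h1 : ∀ t ∈ Icc (0 : ℝ) L, U (L, t) =
      fun i => (![-1, 1, 1, 1, 1] : Fin 5 → ℝ) i • U (0, t) i)
    (h2 : ∀ s ∈ Icc (0 : ℝ) L, U (s, L) =
      fun i => (![1, 1, -1, 1, 1] : Fin 5 → ℝ) i • U (s, 0) i) : False := by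
  obtain ⟨T, hT⟩ := exists_iso (hU 0)
  set W : R2 → Fin 5 → V 6 := fun x i => T (U x i) with hWd
  have hWc : Continuous W := continuous_pi fun i =>
    T.continuous.comp ((continuous_apply i).comp hc)
  have hWo : ∀ x, Orthonormal ℝ (W x) := fun x => (hU x).comp_linearIsometryEquiv T
  have hW0 : W 0 = std := funext hT
  set H : R2 → Fin 6 → M8 := fun x => fam (W x) with hHd
  have hH0 : H 0 = fam std := by rw [hHd, ← hW0]
  set K : Set R2 := Icc (0 : ℝ) L ×ˢ Icc (0 : ℝ) L with hKd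
  obtain ⟨a, hac, had, hal, -⟩ := lift_exists (H := H) (fam_cont hWc) (fun x => fam_isCl (hWo x))
    (K := K) (isCompact_Icc.prod isCompact_Icc) (by
      rintro ⟨p, q⟩ ⟨hp, hq⟩ c hc
      refine ⟨⟨mul_nonneg hc.1 hp.1, ?_⟩, ⟨mul_nonneg hc.1 hq.1, ?_⟩⟩
      · show c * p ≤ L
        nlinarith [hc.1, hc.2, hp.1, hp.2]
      · show c * q ≤ L
        nlinarith [hc.1, hc.2, hq.1, hq.2])
  rw [hH0] at hal
  have hIs := fam_isCl std_orthonormal
  set A : M8 := fam std 1 * (fam std 2 * (fam std 3 * (fam std 4 * fam std 5))) with hAd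
  set B : M8 := fam std 0 * (fam std 1 * (fam std 3 * (fam std 4 * fam std 5))) with hBd
  have hA : Sgn (fam std) ![-1, 1, 1, 1, 1, 1] A := sgn_a hIs
  have hB : Sgn (fam std) ![1, 1, -1, 1, 1, 1] B := sgn_b hIs
  have hAB : A * B = -(B * A) := anti_ab hIs
  have hfd : ∀ j, (fam std j).det ≠ 0 := by
    intro j h0
    have h3 := congrArg Matrix.det (hIs.sq j)
    rw [Matrix.det_mul, h0, mul_zero, Matrix.det_neg, Matrix.det_one, mul_one] at h3
    exact pow_ne_zero _ (by norm_num) h3.symm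
  have hAdet : A.det ≠ 0 := by
    rw [hAd]
    simp only [Matrix.det_mul]
    exact mul_ne_zero (hfd _) (mul_ne_zero (hfd _) (mul_ne_zero (hfd _)
      (mul_ne_zero (hfd _) (hfd _))))
  have hBdet : B.det ≠ 0 := by
    rw [hBd]
    simp only [Matrix.det_mul]
    exact mul_ne_zero (hfd _) (mul_ne_zero (hfd _) (mul_ne_zero (hfd _)
      (mul_ne_zero (hfd _) (hfd _))))
  clear_value A B
  -- the two pairs of opposite sides
  obtain ⟨k1, k1', hk1, e1, e1'⟩ := ratio (G := fun t => H (L, t))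
    (a := fun t => a (0, t) * A) (b := fun t => a (L, t)) hL
    ((hac.comp (by fun_prop)).mul continuous_const) (hac.comp (by fun_prop))
    (fun t ht => by
      have h3 : H (L, t) = fun j =>
          (![-1, 1, 1, 1, 1, 1] : Fin 6 → ℝ) j • H (0, t) j := by
        rw [hHd]
        simp only []
        have h4 := fam_sgn (u := W (0, t)) ![-1, 1, 1, 1, 1]
        have h5 : W (L, t) = fun i => (![-1, 1, 1, 1, 1] : Fin 5 → ℝ) i • W (0, t) i := by
          funext i
          rw [hWd]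
          simp only [h1 t ht, map_smul]
        rw [h5]
        exact h4
      rw [h3]
      exact (hal (0, t)).sgn hA)
    (fun t _ => hal _)
    (fun t ht => by
      rw [Matrix.det_mul]
      exact mul_ne_zero (had _ ⟨⟨le_rfl, hL⟩, ht⟩) hAdet)
    (fun t ht => had _ ⟨⟨hL, le_rfl⟩, ht⟩)
  obtain ⟨k2, k2', hk2, e2, e2'⟩ := ratio (G := fun s => H (s, L))
    (a := fun s => a (s, 0) * B) (b := fun s => a (s, L)) hL
    ((hac.comp (by fun_prop)).mul continuous_const) (hac.comp (by fun_prop))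
    (fun s hs => by
      have h3 : H (s, L) = fun j =>
          (![1, 1, -1, 1, 1, 1] : Fin 6 → ℝ) j • H (s, 0) j := by
        rw [hHd]
        simp only []
        have h4 := fam_sgn (u := W (s, 0)) ![1, 1, -1, 1, 1]
        have h5 : W (s, L) = fun i => (![1, 1, -1, 1, 1] : Fin 5 → ℝ) i • W (s, 0) i := by
          funext i
          rw [hWd]
          simp only [h2 s hs, map_smul]
        rw [h5]
        exact h4
      rw [h3]
      exact (hal (s, 0)).sgn hB)
    (fun s _ => hal _)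
    (fun s hs => by
      rw [Matrix.det_mul]
      exact mul_ne_zero (had _ ⟨hs, ⟨le_rfl, hL⟩⟩) hBdet)
    (fun s hs => had _ ⟨hs, ⟨hL, le_rfl⟩⟩)
  have hm : (k1' * k2) • (a (0, 0) * B * A) = -((k2' * k1) • (a (0, 0) * B * A)) := by
    have f1 : a (L, L) = (k1' * k2) • (a (0, 0) * B * A) := by
      rw [e1', e2, smul_mul_assoc, smul_smul]
    have f2 : a (L, L) = -((k2' * k1) • (a (0, 0) * B * A)) := by
      rw [e2', e1, smul_mul_assoc, smul_smul, mul_assoc (a (0, 0)) A B, hAB, mul_neg, smul_neg,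
        mul_assoc]
    rw [← f1, ← f2]
  have hne : a (0, 0) * B * A ≠ 0 := by
    intro h0
    have h3 := congrArg Matrix.det h0
    rw [Matrix.det_mul, Matrix.det_mul, Matrix.det_zero] at h3
    exact mul_ne_zero (mul_ne_zero (had _ ⟨⟨le_rfl, hL⟩, ⟨le_rfl, hL⟩⟩) hBdet) hAdet h3
  rw [← neg_smul] at hm
  have hk : k1' * k2 = -(k2' * k1) := smul_left_injective ℝ hne hm
  have h3 : (k1 * k1') * (k2 * k2') = -(k2' * k1) ^ 2 := by
    calc (k1 * k1') * (k2 * k2') = (k1' * k2) * (k2' * k1) := by ring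
      _ = -(k2' * k1) ^ 2 := by
        rw [hk]
        ring
  have h4 := mul_pos hk1 hk2
  rw [h3] at h4
  linarith [sq_nonneg (k2' * k1)]

end Pool.Agent.Lib.Skw
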