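import Pool.Agent.Lib.Skw.Pln
import Pool.Agent.Lib.Skw.Gs
import Pool.Agent.Lib.Skw.Ok

set_option autoImplicit false

/-!
# The Klein bottle has no totally skew embedding into `ℝ^6` (MP_3c016c_gt)
-/

open scoped ContDiff
open Set

namespace Pool.Agent.Lib.Skw

/-- the glide reflection -/
noncomputable def gld (p : ℝ × ℝ) : ℝ × ℝ := (p.1 + Real.pi, -p.2)

theorem gld_mem : gld ∈ kleinGroup := ⟨1, 0, fun x y => by simp [gld]⟩

/-- the glide reflection followed by a translation -/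
noncomputable def gld' (p : ℝ × ℝ) : ℝ × ℝ := (p.1 + Real.pi, -p.2 + 2 * Real.pi)

theorem gld'_mem : gld' ∈ kleinGroup := ⟨1, 1, fun x y => by simp [gld']⟩

/-- the linear part -/
noncomputable def refl2 : ℝ × ℝ →L[ℝ] ℝ × ℝ :=
  (ContinuousLinearMap.fst ℝ ℝ ℝ).prod (-(ContinuousLinearMap.snd ℝ ℝ ℝ))

theorem gld_deriv (p : ℝ × ℝ) : HasFDerivAt gld refl2 p := by
  have h1 : HasFDerivAt (fun p : ℝ × ℝ => p.1 + Real.pi) (ContinuousLinearMap.fst ℝ ℝ ℝ) p :=
    hasFDerivAt_fst.add_const _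
  have h2 : HasFDerivAt (fun p : ℝ × ℝ => -p.2) (-(ContinuousLinearMap.snd ℝ ℝ ℝ)) p :=
    hasFDerivAt_snd.neg
  exact h1.prodMk h2

theorem gld'_deriv (p : ℝ × ℝ) : HasFDerivAt gld' refl2 p := by
  have h1 : HasFDerivAt (fun p : ℝ × ℝ => p.1 + Real.pi) (ContinuousLinearMap.fst ℝ ℝ ℝ) p :=
    hasFDerivAt_fst.add_const _
  have h2 : HasFDerivAt (fun p : ℝ × ℝ => -p.2 + 2 * Real.pi)
      (-(ContinuousLinearMap.snd ℝ ℝ ℝ)) p := (hasFDerivAt_snd.neg).add_const _
  exact h1.prodMk h2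

theorem deriv_inv {G : Set (ℝ × ℝ → ℝ × ℝ)} {N : ℕ} {f : ℝ × ℝ → EuclideanSpace ℝ (Fin N)}
    (h : TSPlane G N f) {g : ℝ × ℝ → ℝ × ℝ} (hg : g ∈ G) {A : ℝ × ℝ →L[ℝ] ℝ × ℝ} {p : ℝ × ℝ}
    (hA : HasFDerivAt g A p) (v : ℝ × ℝ) : fderiv ℝ f (g p) (A v) = fderiv ℝ f p v := by
  have h1 : DifferentiableAt ℝ f (g p) := (h.smooth.contDiffAt).differentiableAt (by simp)
  have h2 : HasFDerivAt (fun p => f (g p)) ((fderiv ℝ f (g p)).comp A) p :=
    h1.hasFDerivAt.comp p hA
  have h3 : (fun p => f (g p)) = f := funext fun p => h.inv g hg p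
  rw [h3] at h2
  rw [h2.fderiv]
  rfl

/-- the five vectors, in another order -/
noncomputable def colk {N : ℕ} (f : ℝ × ℝ → V N) (p q : ℝ × ℝ) : Fin 5 → V N :=
  ![fderiv ℝ f p (0, 1), fderiv ℝ f p (1, 0), fderiv ℝ f q (0, 1), fderiv ℝ f q (1, 0),
    f p - f q]

theorem colk_eq {N : ℕ} (f : ℝ × ℝ → V N) (p q : ℝ × ℝ) :
    colk f p q = five f p q ∘ ![1, 0, 3, 2, 4] := by
  funext i
  fin_cases i <;> rfl

theorem colk_cont {G : Set (ℝ × ℝ → ℝ × ℝ)} {N : ℕ} {f : ℝ × ℝ → V N} (h : TSPlane G N f)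
    {P Q : R2 → ℝ × ℝ} (hP : Continuous P) (hQ : Continuous Q) :
    Continuous fun x => colk f (P x) (Q x) := by
  have hf : Continuous f := h.smooth.continuous
  have hd : Continuous (fderiv ℝ f) := h.smooth.continuous_fderiv (by simp)
  refine continuous_pi fun i => ?_
  fin_cases i
  · exact (hd.comp hP).clm_apply continuous_const
  · exact (hd.comp hP).clm_apply continuous_const
  · exact (hd.comp hQ).clm_apply continuous_const
  · exact (hd.comp hQ).clm_apply continuous_const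
  · exact (hf.comp hP).sub (hf.comp hQ)

theorem no_klein_six {f : ℝ × ℝ → V 6} (h : TSPlane kleinGroup 6 f) : False := by
  have hpi := Real.pi_pos
  have hli : ∀ x : R2, LinearIndependent ℝ (colk f (x.1, 0) (x.2, Real.pi)) := fun x => by
    rw [colk_eq]
    refine (h.skew (x.1, 0) (x.2, Real.pi) ?_).comp _ (by decide)
    rintro g ⟨m, n, hg⟩ he
    rw [hg] at he
    have h1 := congrArg Prod.snd he
    simp only [mul_zero, zero_add] at h1
    have h2 : (1 : ℝ) = 2 * n := by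
      have : Real.pi * 1 = Real.pi * (2 * n) := by linarith
      exact mul_left_cancel₀ hpi.ne' this
    have h3 : (1 : ℤ) = 2 * n := by exact_mod_cast h2
    omega
  have hc : Continuous fun x : R2 => colk f (x.1, 0) (x.2, Real.pi) :=
    colk_cont h (by fun_prop) (by fun_prop)
  have hs1 : ∀ i, (![-1, 1, 1, 1, 1] : Fin 5 → ℝ) i ^ 2 = 1 := by
    intro i
    fin_cases i <;> norm_num
  have hs2 : ∀ i, (![1, 1, -1, 1, 1] : Fin 5 → ℝ) i ^ 2 = 1 := by
    intro i
    fin_cases i <;> norm_num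
  have ev : ∀ (A B : ℝ × ℝ → V 6) , A = B → A = B := fun _ _ h => h
  have gA : refl2 (0, 1) = -(0, 1) := by simp [refl2]
  have gB : refl2 (1, 0) = (1, 0) := by simp [refl2]
  refine obs_klein (U := fun x => InnerProductSpace.gramSchmidtNormed ℝ
    (colk f (x.1, 0) (x.2, Real.pi))) (gsn_cont hc hli)
    (fun x => InnerProductSpace.gramSchmidtNormed_orthonormal (hli x)) hpi.le ?_ ?_
  · intro t _
    have e0 : gld (0, 0) = (Real.pi, 0) := by simp [gld]
    have d1 := deriv_inv h gld_mem (gld_deriv (0, 0)) (0, 1)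
    have d2 := deriv_inv h gld_mem (gld_deriv (0, 0)) (1, 0)
    have d3 := h.inv gld gld_mem (0, 0)
    rw [e0] at d1 d2 d3
    rw [gA, map_neg] at d1
    rw [gB] at d2
    have e1 : colk f (Real.pi, 0) (t, Real.pi) =
        fun i => (![-1, 1, 1, 1, 1] : Fin 5 → ℝ) i • colk f (0, 0) (t, Real.pi) i := by
      funext i
      fin_cases i
      · show fderiv ℝ f (Real.pi, 0) (0, 1) = (-1 : ℝ) • fderiv ℝ f (0, 0) (0, 1)
        rw [← d1, neg_one_smul, neg_neg]
      · show fderiv ℝ f (Real.pi, 0) (1, 0) = (1 : ℝ) • fderiv ℝ f (0, 0) (1, 0)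
        rw [← d2, one_smul]
      · exact (one_smul ℝ _).symm
      · exact (one_smul ℝ _).symm
      · show f (Real.pi, 0) - f (t, Real.pi) = (1 : ℝ) • (f (0, 0) - f (t, Real.pi))
        rw [d3, one_smul]
    show InnerProductSpace.gramSchmidtNormed ℝ (colk f (Real.pi, 0) (t, Real.pi)) = _
    rw [e1, gsn_sign hs1]
  · intro s _
    have e0 : gld' (0, Real.pi) = (Real.pi, Real.pi) := by
      simp only [gld', Prod.mk.injEq]
      constructor <;> ring
    have d1 := deriv_inv h gld'_mem (gld'_deriv (0, Real.pi)) (0, 1)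
    have d2 := deriv_inv h gld'_mem (gld'_deriv (0, Real.pi)) (1, 0)
    have d3 := h.inv gld' gld'_mem (0, Real.pi)
    rw [e0] at d1 d2 d3
    rw [gA, map_neg] at d1
    rw [gB] at d2
    have e1 : colk f (s, 0) (Real.pi, Real.pi) =
        fun i => (![1, 1, -1, 1, 1] : Fin 5 → ℝ) i • colk f (s, 0) (0, Real.pi) i := by
      funext i
      fin_cases i
      · exact (one_smul ℝ _).symm
      · exact (one_smul ℝ _).symm
      · show fderiv ℝ f (Real.pi, Real.pi) (0, 1) = (-1 : ℝ) • fderiv ℝ f (0, Real.pi) (0, 1)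
        rw [← d1, neg_one_smul, neg_neg]
      · show fderiv ℝ f (Real.pi, Real.pi) (1, 0) = (1 : ℝ) • fderiv ℝ f (0, Real.pi) (1, 0)
        rw [← d2, one_smul]
      · show f (s, 0) - f (Real.pi, Real.pi) = (1 : ℝ) • (f (s, 0) - f (0, Real.pi))
        rw [d3, one_smul]
    show InnerProductSpace.gramSchmidtNormed ℝ (colk f (s, 0) (Real.pi, Real.pi)) = _
    rw [e1, gsn_sign hs2]

theorem kleinIn_seven {N : ℕ} (h : KleinIn N) : 7 ≤ N := by
  by_contra hN
  obtain ⟨f, hf⟩ := KleinIn.pad (M := 6) (by omega) h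
  exact no_klein_six hf

end Pool.Agent.Lib.Skw
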