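import Pool.Agent.Lib.Skw.C16

set_option autoImplicit false

/-!
# Lifting families of seven anticommuting matrices of size sixteen

As `Lft.lean`, for seven matrices of size sixteen with square `1` and three parameters.
-/

open Matrix Set

namespace Pool.Agent.Lib.Skw.O3

/-- Seven pairwise anticommuting matrices with square `1`. -/
structure IsCl (G : Fin 7 → M16) : Prop where
  sq : ∀ i, G i * G i = 1
  ac : ∀ i j, i ≠ j → G i * G j = -(G j * G i)

/-- `a` carries `G` to `G'`. -/
def Lk (G G' : Fin 7 → M16) (a : M16) : Prop := ∀ j, G' j * a = a * G j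

theorem Lk.one (G : Fin 7 → M16) : Lk G G 1 := fun j => by rw [mul_one, one_mul]

theorem Lk.mul {G G' G'' : Fin 7 → M16} {a b : M16} (h : Lk G G' a) (h' : Lk G' G'' b) :
    Lk G G'' (b * a) := fun j => by
  rw [← mul_assoc, h' j, mul_assoc, h j, mul_assoc]

def stp (g' g x : M16) : M16 := x + g' * x * g

theorem stp_self {g' g x : M16} (h' : g' * g' = 1) (h : g * g = 1) :
    g' * stp g' g x = stp g' g x * g := by
  unfold stp
  calc g' * (x + g' * x * g) = g' * x + g' * g' * x * g := by noncomm_ring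
    _ = g' * x + x * g := by
        rw [h', one_mul]
    _ = x * g + g' * x * (g * g) := by
        rw [h, mul_one, add_comm]
    _ = (x + g' * x * g) * g := by noncomm_ring

theorem stp_other {g' g k' k x : M16} (ac' : k' * g' = -(g' * k')) (ac : k * g = -(g * k))
    (hx : k' * x = x * k) : k' * stp g' g x = stp g' g x * k := by
  unfold stp
  calc k' * (x + g' * x * g) = k' * x + k' * g' * x * g := by noncomm_ring
    _ = k' * x - g' * (k' * x) * g := by
        rw [ac']
        noncomm_ring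
    _ = x * k - g' * x * (k * g) := by
        rw [hx]
        noncomm_ring
    _ = (x + g' * x * g) * k := by
        rw [ac]
        noncomm_ring

/-- The linking polynomial for a list of indices. -/
def lkL (G G' : Fin 7 → M16) : List (Fin 7) → M16
  | [] => 1
  | i :: l => stp (G' i) (G i) (lkL G G' l)

theorem lkL_link {G G' : Fin 7 → M16} (h : IsCl G) (h' : IsCl G') (l : List (Fin 7)) :
    ∀ j ∈ l, G' j * lkL G G' l = lkL G G' l * G j := by
  induction l with
  | nil =>
    intro j hj
    simp at hj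
  | cons i l ih =>
    intro j hj
    by_cases e : j = i
    · subst e
      exact stp_self (h'.sq j) (h.sq j)
    · exact stp_other (h'.ac j i e) (h.ac j i e) (ih j (List.mem_of_ne_of_mem e hj))

theorem lkL_self {G : Fin 7 → M16} (h : IsCl G) (l : List (Fin 7)) :
    lkL G G l = (2 : ℝ) ^ l.length • (1 : M16) := by
  induction l with
  | nil => simp [lkL]
  | cons i l ih =>
    have e : lkL G G (i :: l) = lkL G G l + G i * lkL G G l * G i := rfl
    rw [e, ih, mul_smul_comm, smul_mul_assoc, mul_one, h.sq i, List.length_cons, pow_succ,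
      mul_two, add_smul]

theorem lkL_cont {X : Type*} [TopologicalSpace X] {G G' : X → Fin 7 → M16} (h : Continuous G)
    (h' : Continuous G') (l : List (Fin 7)) : Continuous fun x => lkL (G x) (G' x) l := by
  induction l with
  | nil => exact continuous_const
  | cons i l ih =>
    have e : (fun x => lkL (G x) (G' x) (i :: l)) =
        fun x => lkL (G x) (G' x) l + G' x i * lkL (G x) (G' x) l * G x i := rfl
    rw [e]
    exact ih.add ((((continuous_apply i).comp h').mul ih).mul ((continuous_apply i).comp h))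

def lk (G G' : Fin 7 → M16) : M16 := lkL G G' [0, 1, 2, 3, 4, 5, 6]

theorem lk_link {G G' : Fin 7 → M16} (h : IsCl G) (h' : IsCl G') : Lk G G' (lk G G') := fun j =>
  lkL_link h h' _ j (by fin_cases j <;> simp)

theorem lk_self {G : Fin 7 → M16} (h : IsCl G) : lk G G = (128 : ℝ) • (1 : M16) := by
  unfold lk
  rw [lkL_self h]
  norm_num

theorem lk_cont {X : Type*} [TopologicalSpace X] {G G' : X → Fin 7 → M16} (h : Continuous G)
    (h' : Continuous G') : Continuous fun x => lk (G x) (G' x) := lkL_cont h h' _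

/-! ### products along rays -/

abbrev R3 : Type := ℝ × (ℝ × ℝ)

noncomputable def rayp (H : R3 → Fin 7 → M16) (N : ℕ) : ℕ → R3 → M16
  | 0, _ => 1
  | m + 1, x => lk (H (((m : ℝ) / N) • x)) (H ((((m + 1 : ℕ) : ℝ) / N) • x)) * rayp H N m x

theorem rayp_cont {H : R3 → Fin 7 → M16} (h : Continuous H) (N m : ℕ) :
    Continuous (rayp H N m) := by
  induction m with
  | zero => exact continuous_const
  | succ m ih =>
    have e : rayp H N (m + 1) = fun x =>
      lk (H (((m : ℝ) / N) • x)) (H ((((m + 1 : ℕ) : ℝ) / N) • x)) * rayp H N m x := rfl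
    rw [e]
    exact (lk_cont (h.comp (continuous_const_smul _)) (h.comp (continuous_const_smul _))).mul ih

theorem rayp_link {H : R3 → Fin 7 → M16} (h : ∀ x, IsCl (H x)) (N m : ℕ) (x : R3) :
    Lk (H 0) (H (((m : ℝ) / N) • x)) (rayp H N m x) := by
  induction m with
  | zero =>
    have e : (((0 : ℕ) : ℝ) / N) • x = 0 := by simp
    rw [e]
    exact Lk.one _
  | succ m ih => exact ih.mul (lk_link (h _) (h _))

theorem lift_exists {H : R3 → Fin 7 → M16} (hc : Continuous H) (hcl : ∀ x, IsCl (H x))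
    {K : Set R3} (hK : IsCompact K) (hs : ∀ x ∈ K, ∀ c ∈ Icc (0 : ℝ) 1, c • x ∈ K) :
    ∃ a : R3 → M16, Continuous a ∧ (∀ x ∈ K, (a x).det ≠ 0) ∧ ∀ x, Lk (H 0) (H x) (a x) := by
  have hS : Continuous fun p : R3 × R3 => (lk (H p.1) (H p.2)).det :=
    (lk_cont (hc.comp continuous_fst) (hc.comp continuous_snd)).matrix_det
  have hS1 : ∀ x, (lk (H x) (H x)).det = 128 ^ 16 := by
    intro x
    rw [lk_self (hcl x), Matrix.det_smul, Matrix.det_one]
    simp
  have huc := (hK.prod hK).uniformContinuousOn_of_continuous hS.continuousOn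
  rw [Metric.uniformContinuousOn_iff] at huc
  obtain ⟨δ, hδ, hu⟩ := huc 1 one_pos
  obtain ⟨R, hR⟩ := hK.isBounded.exists_norm_le
  obtain ⟨N, hN⟩ := exists_nat_gt (max (R / δ) 1)
  have hN1 : (1 : ℝ) < N := (le_max_right _ _).trans_lt hN
  have hN0 : (0 : ℝ) < N := by linarith
  have hNR : R / N < δ := by
    rw [div_lt_iff₀ hN0]
    have := (le_max_left (R / δ) 1).trans_lt hN
    rw [div_lt_iff₀ hδ] at this
    linarith
  have hdet : ∀ x ∈ K, ∀ m : ℕ, m ≤ N → (rayp H N m x).det ≠ 0 := by
    intro x hx m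
    induction m with
    | zero =>
      intro _
      simp [rayp]
    | succ m ih =>
      intro hm
      have e : rayp H N (m + 1) x =
        lk (H (((m : ℝ) / N) • x)) (H ((((m + 1 : ℕ) : ℝ) / N) • x)) * rayp H N m x := rfl
      rw [e, Matrix.det_mul]
      refine mul_ne_zero ?_ (ih (Nat.le_of_succ_le hm))
      have h1 : ((m : ℝ) / N) ∈ Icc (0 : ℝ) 1 := ⟨by positivity, by
        rw [div_le_one hN0]
        exact_mod_cast (Nat.le_of_succ_le hm)⟩
      have h2 : (((m + 1 : ℕ) : ℝ) / N) ∈ Icc (0 : ℝ) 1 := ⟨by positivity, by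
        rw [div_le_one hN0]
        exact_mod_cast hm⟩
      have h3 := hu ((((m : ℝ) / N) • x), ((((m + 1 : ℕ) : ℝ) / N) • x))
        ⟨hs x hx _ h1, hs x hx _ h2⟩ ((((m : ℝ) / N) • x), (((m : ℝ) / N) • x))
        ⟨hs x hx _ h1, hs x hx _ h1⟩ (by
          rw [Prod.dist_eq]
          simp only [dist_self]
          rw [max_eq_right dist_nonneg, dist_eq_norm, ← sub_smul, norm_smul]
          have e2 : (((m + 1 : ℕ) : ℝ) / N) - ((m : ℝ) / N) = 1 / N := by
            push_cast
            ring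
          rw [e2, Real.norm_eq_abs, abs_of_pos (by positivity)]
          have h4 := hR x hx
          calc 1 / (N : ℝ) * ‖x‖ = ‖x‖ / N := by ring
            _ ≤ R / N := by gcongr
            _ < δ := hNR)
      simp only [hS1, Real.dist_eq] at h3
      intro h5
      rw [h5] at h3
      rw [zero_sub, abs_neg, abs_of_pos (by norm_num)] at h3
      norm_num at h3
  refine ⟨rayp H N N, rayp_cont hc N N, fun x hx => hdet x hx N le_rfl, fun x => ?_⟩
  have h1 := rayp_link hcl N N x
  rw [div_self hN0.ne', one_smul] at h1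
  exact h1

/-! ### signs -/

/-- `E` implements the signs `σ`. -/
def Sgn (G : Fin 7 → M16) (σ : Fin 7 → ℝ) (E : M16) : Prop := ∀ j, σ j • (G j * E) = E * G j

theorem Lk.sgn {G0 G : Fin 7 → M16} {s : Fin 7 → ℝ} {E a : M16} (ha : Lk G0 G a)
    (hE : Sgn G0 s E) : Lk G0 (fun j => s j • G j) (a * E) := by
  intro j
  calc s j • G j * (a * E) = s j • (G j * a * E) := by
        rw [smul_mul_assoc, mul_assoc]
    _ = a * (s j • (G0 j * E)) := by
        rw [ha j, mul_smul_comm, mul_assoc]
    _ = a * E * G0 j := by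
        rw [hE j, mul_assoc]

/-- the product of two -/
theorem pair_comm {G : Fin 7 → M16} (h : IsCl G) {i j k : Fin 7} (h1 : k ≠ i) (h2 : k ≠ j) :
    G k * (G i * G j) = G i * G j * G k := by
  rw [← mul_assoc, h.ac k i h1, neg_mul, mul_assoc, h.ac k j h2, mul_neg, neg_neg, mul_assoc]

theorem pair_left {G : Fin 7 → M16} (h : IsCl G) {i j : Fin 7} (h1 : i ≠ j) :
    G i * (G i * G j) = -(G i * G j * G i) := by
  rw [mul_assoc (G i) (G j) (G i), h.ac j i h1.symm, mul_neg, neg_neg]

theorem pair_right {G : Fin 7 → M16} (h : IsCl G) {i j : Fin 7} (h1 : i ≠ j) :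
    G j * (G i * G j) = -(G i * G j * G j) := by
  rw [← mul_assoc, h.ac j i h1.symm, neg_mul, mul_assoc]

theorem pair_sq {G : Fin 7 → M16} (h : IsCl G) {i j : Fin 7} (h1 : i ≠ j) :
    G i * G j * (G i * G j) = -1 := by
  calc G i * G j * (G i * G j) = G i * (G j * G i) * G j := by noncomm_ring
    _ = -(G i * G i * (G j * G j)) := by
        rw [h.ac j i h1.symm]
        noncomm_ring
    _ = -1 := by rw [h.sq, h.sq, one_mul]

/-- the product for the first symmetry -/
def Ea (G : Fin 7 → M16) : M16 := G 3 * G 4 * (G 5 * G 6)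

/-- the product for the second symmetry -/
def Eb (G : Fin 7 → M16) : M16 := G 1 * G 4

theorem sgn_Ea {G : Fin 7 → M16} (h : IsCl G) : Sgn G ![1, 1, 1, -1, -1, -1, -1] (Ea G) := by
  intro j
  unfold Ea
  have c : ∀ k : Fin 7, k ≠ 3 → k ≠ 4 → k ≠ 5 → k ≠ 6 →
      G k * (G 3 * G 4 * (G 5 * G 6)) = G 3 * G 4 * (G 5 * G 6) * G k := by
    intro k h3 h4 h5 h6
    rw [← mul_assoc, pair_comm h h3 h4, mul_assoc, pair_comm h h5 h6, ← mul_assoc]
  have d : ∀ k : Fin 7, k ≠ 5 → k ≠ 6 → G k * (G 3 * G 4) = -(G 3 * G 4 * G k) →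
      G k * (G 3 * G 4 * (G 5 * G 6)) = -(G 3 * G 4 * (G 5 * G 6) * G k) := by
    intro k h5 h6 h3
    rw [← mul_assoc, h3, neg_mul, mul_assoc, pair_comm h h5 h6, ← mul_assoc]
  have e : ∀ k : Fin 7, k ≠ 3 → k ≠ 4 → G k * (G 5 * G 6) = -(G 5 * G 6 * G k) →
      G k * (G 3 * G 4 * (G 5 * G 6)) = -(G 3 * G 4 * (G 5 * G 6) * G k) := by
    intro k h3 h4 h5
    rw [← mul_assoc, pair_comm h h3 h4, mul_assoc, h5, mul_neg, ← mul_assoc]
  fin_cases j
  · show (1 : ℝ) • _ = _
    rw [one_smul]
    exact c 0 (by decide) (by decide) (by decide) (by decide)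
  · show (1 : ℝ) • _ = _
    rw [one_smul]
    exact c 1 (by decide) (by decide) (by decide) (by decide)
  · show (1 : ℝ) • _ = _
    rw [one_smul]
    exact c 2 (by decide) (by decide) (by decide) (by decide)
  · show (-1 : ℝ) • _ = _
    rw [neg_smul, one_smul, neg_eq_iff_eq_neg]
    exact d 3 (by decide) (by decide) (pair_left h (by decide))
  · show (-1 : ℝ) • _ = _
    rw [neg_smul, one_smul, neg_eq_iff_eq_neg]
    exact d 4 (by decide) (by decide) (pair_right h (by decide))
  · show (-1 : ℝ) • _ = _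
    rw [neg_smul, one_smul, neg_eq_iff_eq_neg]
    exact e 5 (by decide) (by decide) (pair_left h (by decide))
  · show (-1 : ℝ) • _ = _
    rw [neg_smul, one_smul, neg_eq_iff_eq_neg]
    exact e 6 (by decide) (by decide) (pair_right h (by decide))

theorem sgn_Eb {G : Fin 7 → M16} (h : IsCl G) : Sgn G ![1, -1, 1, 1, -1, 1, 1] (Eb G) := by
  intro j
  unfold Eb
  fin_cases j
  · show (1 : ℝ) • _ = _
    rw [one_smul]
    exact pair_comm h (by decide) (by decide)
  · show (-1 : ℝ) • _ = _
    rw [neg_smul, one_smul, neg_eq_iff_eq_neg]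
    exact pair_left h (by decide)
  · show (1 : ℝ) • _ = _
    rw [one_smul]
    exact pair_comm h (by decide) (by decide)
  · show (1 : ℝ) • _ = _
    rw [one_smul]
    exact pair_comm h (by decide) (by decide)
  · show (-1 : ℝ) • _ = _
    rw [neg_smul, one_smul, neg_eq_iff_eq_neg]
    exact pair_right h (by decide)
  · show (1 : ℝ) • _ = _
    rw [one_smul]
    exact pair_comm h (by decide) (by decide)
  · show (1 : ℝ) • _ = _
    rw [one_smul]
    exact pair_comm h (by decide) (by decide)

/-- disjoint pairs commute -/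
theorem pair_pair {G : Fin 7 → M16} (h : IsCl G) {i j k l : Fin 7} (h1 : k ≠ i) (h2 : k ≠ j)
    (h3 : l ≠ i) (h4 : l ≠ j) : G k * G l * (G i * G j) = G i * G j * (G k * G l) := by
  rw [mul_assoc, pair_comm h h3 h4, ← mul_assoc, pair_comm h h1 h2, mul_assoc]

theorem Ea_sq {G : Fin 7 → M16} (h : IsCl G) : Ea G * Ea G = 1 := by
  unfold Ea
  calc G 3 * G 4 * (G 5 * G 6) * (G 3 * G 4 * (G 5 * G 6)) =
        G 3 * G 4 * ((G 5 * G 6) * (G 3 * G 4)) * (G 5 * G 6) := by noncomm_ring
    _ = (G 3 * G 4 * (G 3 * G 4)) * (G 5 * G 6 * (G 5 * G 6)) := by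
        rw [pair_pair h (by decide) (by decide) (by decide) (by decide)]
        noncomm_ring
    _ = 1 := by
        rw [pair_sq h (by decide), pair_sq h (by decide), neg_one_mul, neg_neg]

theorem Eb_sq {G : Fin 7 → M16} (h : IsCl G) : Eb G * Eb G = -1 := pair_sq h (by decide)

theorem Ea_Eb {G : Fin 7 → M16} (h : IsCl G) : Ea G * Eb G = -(Eb G * Ea G) := by
  have ha := sgn_Ea h
  have h1 : G 1 * Ea G = Ea G * G 1 := by
    have := ha 1
    have e : (![1, 1, 1, -1, -1, -1, -1] : Fin 7 → ℝ) 1 = 1 := rfl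
    rwa [e, one_smul] at this
  have h4 : Ea G * G 4 = -(G 4 * Ea G) := by
    have := ha 4
    have e : (![1, 1, 1, -1, -1, -1, -1] : Fin 7 → ℝ) 4 = -1 := rfl
    rw [e, neg_smul, one_smul] at this
    exact this.symm
  unfold Eb
  rw [← mul_assoc, ← h1, mul_assoc, h4, mul_neg, mul_assoc]

end Pool.Agent.Lib.Skw.O3
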