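import Pool.Agent.Lib.Skw.Cl

set_option autoImplicit false

/-!
# Lifting families of anticommuting matrices

`IsCl G`: six pairwise anticommuting matrices with square `-1`. `Lk G G' a`: `G' j a = a G j` for all `j`. `lk G G'`: a polynomial in `G`, `G'`
with `Lk G G' (lk G G')` and `lk G G = 64`. `lift_exists`: a continuous family `H` on a compact star-shaped set of the plane has a continuous
invertible `a` with `Lk (H 0) (H x) (a x)`.
-/

open Matrix Set

namespace Pool.Agent.Lib.Skw

/-- Six pairwise anticommuting matrices with square `-1`. -/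
structure IsCl (G : Fin 6 → M8) : Prop where
  sq : ∀ i, G i * G i = -1
  ac : ∀ i j, i ≠ j → G i * G j = -(G j * G i)

/-- `a` carries `G` to `G'`. -/
def Lk (G G' : Fin 6 → M8) (a : M8) : Prop := ∀ j, G' j * a = a * G j

theorem Lk.one (G : Fin 6 → M8) : Lk G G 1 := fun j => by rw [mul_one, one_mul]

theorem Lk.mul {G G' G'' : Fin 6 → M8} {a b : M8} (h : Lk G G' a) (h' : Lk G' G'' b) :
    Lk G G'' (b * a) := fun j => by
  rw [← mul_assoc, h' j, mul_assoc, h j, mul_assoc]

def stp (g' g x : M8) : M8 := x - g' * x * g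

theorem stp_self {g' g x : M8} (h' : g' * g' = -1) (h : g * g = -1) :
    g' * stp g' g x = stp g' g x * g := by
  unfold stp
  calc g' * (x - g' * x * g) = g' * x - g' * g' * x * g := by noncomm_ring
    _ = g' * x + x * g := by
        rw [h']
        noncomm_ring
    _ = x * g - g' * x * (g * g) := by
        rw [h]
        noncomm_ring
    _ = (x - g' * x * g) * g := by noncomm_ring

theorem stp_other {g' g k' k x : M8} (ac' : k' * g' = -(g' * k')) (ac : k * g = -(g * k))
    (hx : k' * x = x * k) : k' * stp g' g x = stp g' g x * k := by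
  unfold stp
  calc k' * (x - g' * x * g) = k' * x - k' * g' * x * g := by noncomm_ring
    _ = k' * x + g' * (k' * x) * g := by
        rw [ac']
        noncomm_ring
    _ = x * k + g' * x * (k * g) := by
        rw [hx]
        noncomm_ring
    _ = (x - g' * x * g) * k := by
        rw [ac]
        noncomm_ring

/-- The linking polynomial for a list of indices. -/
def lkL (G G' : Fin 6 → M8) : List (Fin 6) → M8
  | [] => 1
  | i :: l => stp (G' i) (G i) (lkL G G' l)

theorem lkL_link {G G' : Fin 6 → M8} (h : IsCl G) (h' : IsCl G') (l : List (Fin 6)) :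
    ∀ j ∈ l, G' j * lkL G G' l = lkL G G' l * G j := by
  induction l with
  | nil =>
    intro j hj
    simp at hj
  | cons i l ih =>
    intro j hj
    by_cases e : j = i
    · subst e
      exact stp_self (h'.sq j) (h.sq j)
    · exact stp_other (h'.ac j i e) (h.ac j i e) (ih j (List.mem_of_ne_of_mem e hj))

theorem lkL_self {G : Fin 6 → M8} (h : IsCl G) (l : List (Fin 6)) :
    lkL G G l = (2 : ℝ) ^ l.length • (1 : M8) := by
  induction l with
  | nil => simp [lkL]
  | cons i l ih =>
    have e : lkL G G (i :: l) = lkL G G l - G i * lkL G G l * G i := rfl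
    rw [e, ih, mul_smul_comm, smul_mul_assoc, mul_one, h.sq i, List.length_cons, pow_succ,
      smul_neg, sub_neg_eq_add, mul_two, add_smul]

theorem lkL_cont {X : Type*} [TopologicalSpace X] {G G' : X → Fin 6 → M8} (h : Continuous G)
    (h' : Continuous G') (l : List (Fin 6)) : Continuous fun x => lkL (G x) (G' x) l := by
  induction l with
  | nil => exact continuous_const
  | cons i l ih =>
    have e : (fun x => lkL (G x) (G' x) (i :: l)) =
        fun x => lkL (G x) (G' x) l - G' x i * lkL (G x) (G' x) l * G x i := rfl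
    rw [e]
    exact ih.sub ((((continuous_apply i).comp h').mul ih).mul ((continuous_apply i).comp h))

def lk (G G' : Fin 6 → M8) : M8 := lkL G G' [0, 1, 2, 3, 4, 5]

theorem lk_link {G G' : Fin 6 → M8} (h : IsCl G) (h' : IsCl G') : Lk G G' (lk G G') := fun j =>
  lkL_link h h' _ j (by fin_cases j <;> simp)

theorem lk_self {G : Fin 6 → M8} (h : IsCl G) : lk G G = (64 : ℝ) • (1 : M8) := by
  unfold lk
  rw [lkL_self h]
  norm_num

theorem lk_cont {X : Type*} [TopologicalSpace X] {G G' : X → Fin 6 → M8} (h : Continuous G)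
    (h' : Continuous G') : Continuous fun x => lk (G x) (G' x) := lkL_cont h h' _

/-! ### products along rays -/

abbrev R2 : Type := ℝ × ℝ

noncomputable def rayp (H : R2 → Fin 6 → M8) (N : ℕ) : ℕ → R2 → M8
  | 0, _ => 1
  | m + 1, x => lk (H (((m : ℝ) / N) • x)) (H ((((m + 1 : ℕ) : ℝ) / N) • x)) * rayp H N m x

theorem rayp_cont {H : R2 → Fin 6 → M8} (h : Continuous H) (N m : ℕ) :
    Continuous (rayp H N m) := by
  induction m with
  | zero => exact continuous_const
  | succ m ih =>
    have e : rayp H N (m + 1) = fun x =>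
      lk (H (((m : ℝ) / N) • x)) (H ((((m + 1 : ℕ) : ℝ) / N) • x)) * rayp H N m x := rfl
    rw [e]
    exact (lk_cont (h.comp (continuous_const_smul _)) (h.comp (continuous_const_smul _))).mul ih

theorem rayp_link {H : R2 → Fin 6 → M8} (h : ∀ x, IsCl (H x)) (N m : ℕ) (x : R2) :
    Lk (H 0) (H (((m : ℝ) / N) • x)) (rayp H N m x) := by
  induction m with
  | zero =>
    have e : (((0 : ℕ) : ℝ) / N) • x = 0 := by simp
    rw [e]
    exact Lk.one _
  | succ m ih => exact ih.mul (lk_link (h _) (h _))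

theorem rayp_const {H : R2 → Fin 6 → M8} (h : ∀ x, IsCl (H x)) {N : ℕ} {m : ℕ} (hm : m ≤ N)
    {x : R2} (hx : ∀ c ∈ Icc (0 : ℝ) 1, H (c • x) = H 0) :
    rayp H N m x = (64 : ℝ) ^ m • (1 : M8) := by
  induction m with
  | zero => simp [rayp]
  | succ m ih =>
    have hN : (0 : ℝ) < N := by
      have : 0 < N := by omega
      exact_mod_cast this
    have e : rayp H N (m + 1) x =
      lk (H (((m : ℝ) / N) • x)) (H ((((m + 1 : ℕ) : ℝ) / N) • x)) * rayp H N m x := rfl
    have h1 : ((m : ℝ) / N) ∈ Icc (0 : ℝ) 1 := ⟨by positivity, by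
      rw [div_le_one hN]
      exact_mod_cast (Nat.le_of_succ_le hm)⟩
    have h2 : (((m + 1 : ℕ) : ℝ) / N) ∈ Icc (0 : ℝ) 1 := ⟨by positivity, by
      rw [div_le_one hN]
      exact_mod_cast hm⟩
    rw [e, ih (Nat.le_of_succ_le hm), hx _ h1, hx _ h2, lk_self (h 0), smul_mul_smul_comm, mul_one,
      pow_succ, mul_comm]

theorem lift_exists {H : R2 → Fin 6 → M8} (hc : Continuous H) (hcl : ∀ x, IsCl (H x)) {K : Set R2}
    (hK : IsCompact K) (hs : ∀ x ∈ K, ∀ c ∈ Icc (0 : ℝ) 1, c • x ∈ K) :
    ∃ a : R2 → M8, Continuous a ∧ (∀ x ∈ K, (a x).det ≠ 0) ∧ (∀ x, Lk (H 0) (H x) (a x)) ∧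
      ∀ x, (∀ c ∈ Icc (0 : ℝ) 1, H (c • x) = H 0) → ∃ c : ℝ, 0 < c ∧ a x = c • (1 : M8) := by
  have hS : Continuous fun p : R2 × R2 => (lk (H p.1) (H p.2)).det :=
    (lk_cont (hc.comp continuous_fst) (hc.comp continuous_snd)).matrix_det
  have hS1 : ∀ x, (lk (H x) (H x)).det = 64 ^ 8 := by
    intro x
    rw [lk_self (hcl x), Matrix.det_smul, Matrix.det_one]
    simp
  have huc := (hK.prod hK).uniformContinuousOn_of_continuous hS.continuousOn
  rw [Metric.uniformContinuousOn_iff] at huc
  obtain ⟨δ, hδ, hu⟩ := huc 1 one_pos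
  obtain ⟨R, hR⟩ := hK.isBounded.exists_norm_le
  obtain ⟨N, hN⟩ := exists_nat_gt (max (R / δ) 1)
  have hN1 : (1 : ℝ) < N := (le_max_right _ _).trans_lt hN
  have hN0 : (0 : ℝ) < N := by linarith
  have hNR : R / N < δ := by
    rw [div_lt_iff₀ hN0]
    have := (le_max_left (R / δ) 1).trans_lt hN
    rw [div_lt_iff₀ hδ] at this
    linarith
  have hdet : ∀ x ∈ K, ∀ m : ℕ, m ≤ N → (rayp H N m x).det ≠ 0 := by
    intro x hx m
    induction m with
    | zero =>
      intro _
      simp [rayp]
    | succ m ih =>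
      intro hm
      have e : rayp H N (m + 1) x =
        lk (H (((m : ℝ) / N) • x)) (H ((((m + 1 : ℕ) : ℝ) / N) • x)) * rayp H N m x := rfl
      rw [e, Matrix.det_mul]
      refine mul_ne_zero ?_ (ih (Nat.le_of_succ_le hm))
      have h1 : ((m : ℝ) / N) ∈ Icc (0 : ℝ) 1 := ⟨by positivity, by
        rw [div_le_one hN0]
        exact_mod_cast (Nat.le_of_succ_le hm)⟩
      have h2 : (((m + 1 : ℕ) : ℝ) / N) ∈ Icc (0 : ℝ) 1 := ⟨by positivity, by
        rw [div_le_one hN0]
        exact_mod_cast hm⟩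
      have h3 := hu ((((m : ℝ) / N) • x), ((((m + 1 : ℕ) : ℝ) / N) • x))
        ⟨hs x hx _ h1, hs x hx _ h2⟩ ((((m : ℝ) / N) • x), (((m : ℝ) / N) • x))
        ⟨hs x hx _ h1, hs x hx _ h1⟩ (by
          rw [Prod.dist_eq]
          simp only [dist_self]
          rw [max_eq_right dist_nonneg, dist_eq_norm, ← sub_smul, norm_smul]
          have e2 : (((m + 1 : ℕ) : ℝ) / N) - ((m : ℝ) / N) = 1 / N := by
            push_cast
            ring
          rw [e2, Real.norm_eq_abs, abs_of_pos (by positivity)]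
          have h4 := hR x hx
          calc 1 / (N : ℝ) * ‖x‖ = ‖x‖ / N := by ring
            _ ≤ R / N := by gcongr
            _ < δ := hNR)
      simp only [hS1, Real.dist_eq] at h3
      intro h5
      rw [h5] at h3
      rw [zero_sub, abs_neg, abs_of_pos (by norm_num)] at h3
      norm_num at h3
  refine ⟨rayp H N N, rayp_cont hc N N, fun x hx => hdet x hx N le_rfl, fun x => ?_, fun x hx => ?_⟩
  · have h1 := rayp_link hcl N N x
    rw [div_self hN0.ne', one_smul] at h1
    exact h1
  · exact ⟨64 ^ N, by positivity, rayp_const hcl le_rfl hx⟩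

end Pool.Agent.Lib.Skw
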