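import Pool.Agent.Lib.Skw.Cur
import Pool.Agent.Lib.Skw.Gs
import Pool.Agent.Lib.Skw.Ok
import Pool.Agent.Lib.Skw.Hyp

set_option autoImplicit false

/-!
# Two Möbius bands in `ℝ^6` are not skew to each other (MP_3c016c_gt)
-/

open scoped ContDiff
open Set

namespace Pool.Agent.Lib.Skw

theorem MoebiusIn.pad {N M : ℕ} (hNM : N ≤ M) (h : MoebiusIn N) : MoebiusIn M := by
  obtain ⟨f, g, hf, hg, h⟩ := h
  obtain ⟨L, hL⟩ := exists_inj hNM
  have hd : ∀ u : ℝ × ℝ → Eu N, ContDiff ℝ ∞ u → ∀ p v,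
      dp (fun p => L (u p)) p v = L (dp u p v) := by
    intro u hu p v
    have h1 : DifferentiableAt ℝ u p := (hu.contDiffAt).differentiableAt (by simp)
    have h2 := (L.hasFDerivAt (x := u p)).comp p h1.hasFDerivAt
    have h3 : fderiv ℝ (fun p => L (u p)) p = L.comp (fderiv ℝ u p) := h2.fderiv
    show fderiv ℝ (fun p => L (u p)) p v = L (fderiv ℝ u p v)
    rw [h3]
    rfl
  refine ⟨fun p => L (f p), fun p => L (g p),
    ⟨L.contDiff.comp hf.1, fun x y => congrArg L (hf.2 x y)⟩,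
    ⟨L.contDiff.comp hg.1, fun x y => congrArg L (hg.2 x y)⟩, fun p q v w l he => ?_⟩
  rw [hd f hf.1, hd g hg.1, ← map_add, ← map_sub, ← map_smul] at he
  exact h p q v w l (hL he)

/-- the linear part of the glide reflection -/
noncomputable def refl3 : ℝ × ℝ →L[ℝ] ℝ × ℝ :=
  (ContinuousLinearMap.fst ℝ ℝ ℝ).prod (-(ContinuousLinearMap.snd ℝ ℝ ℝ))

theorem glide_deriv {N : ℕ} {f : ℝ × ℝ → EuclideanSpace ℝ (Fin N)} (hf : ContDiff ℝ ∞ f)
    (h : ∀ x y, f (x + Real.pi, -y) = f (x, y)) (p v : ℝ × ℝ) :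
    fderiv ℝ f (p.1 + Real.pi, -p.2) (refl3 v) = fderiv ℝ f p v := by
  have h1 : HasFDerivAt (fun p : ℝ × ℝ => p.1 + Real.pi) (ContinuousLinearMap.fst ℝ ℝ ℝ) p :=
    hasFDerivAt_fst.add_const _
  have h2 : HasFDerivAt (fun p : ℝ × ℝ => -p.2) (-(ContinuousLinearMap.snd ℝ ℝ ℝ)) p :=
    hasFDerivAt_snd.neg
  have h3 : HasFDerivAt (fun p : ℝ × ℝ => ((p.1 + Real.pi, -p.2) : ℝ × ℝ)) refl3 p :=
    h1.prodMk h2
  have h4 : DifferentiableAt ℝ f ((fun p : ℝ × ℝ => ((p.1 + Real.pi, -p.2) : ℝ × ℝ)) p) :=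
    (hf.contDiffAt).differentiableAt (by simp)
  have h5 : HasFDerivAt (fun p : ℝ × ℝ => f (p.1 + Real.pi, -p.2))
      ((fderiv ℝ f (p.1 + Real.pi, -p.2)).comp refl3) p := h4.hasFDerivAt.comp p h3
  have h6 : (fun p : ℝ × ℝ => f (p.1 + Real.pi, -p.2)) = f := funext fun p => h p.1 p.2
  rw [h6] at h5
  rw [h5.fderiv]
  rfl

/-- the five vectors, in another order -/
noncomputable def colm {N : ℕ} (f g : ℝ × ℝ → V N) (p q : ℝ × ℝ) : Fin 5 → V N :=
  ![fderiv ℝ f p (0, 1), fderiv ℝ f p (1, 0), fderiv ℝ g q (0, 1), fderiv ℝ g q (1, 0),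
    f p - g q]

theorem no_moebius_six {f g : ℝ × ℝ → V 6} (hf : Band f) (hg : Band g)
    (h : ∀ p q v w, ∀ l : ℝ, dp f p v + dp g q w = l • (f p - g q) →
      v = 0 ∧ w = 0 ∧ l = 0) : False := by
  have hpi := Real.pi_pos
  have hli : ∀ x : R2, LinearIndependent ℝ (colm f g (x.1, 0) (x.2, 0)) := fun x => by
    rw [Fintype.linearIndependent_iff]
    intro c hc
    simp only [Fin.sum_univ_five, colm, Matrix.cons_val] at hc
    obtain ⟨h1, h2, h3⟩ := h (x.1, 0) (x.2, 0) (c 0 • (0, 1) + c 1 • (1, 0))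
      (c 2 • (0, 1) + c 3 • (1, 0)) (-c 4) (by
        show fderiv ℝ f (x.1, 0) _ + fderiv ℝ g (x.2, 0) _ = _
        rw [map_add, map_add, map_smul, map_smul, map_smul, map_smul, neg_smul,
          ← sub_eq_zero, sub_neg_eq_add, ← hc]
        abel)
    simp only [Prod.smul_mk, smul_eq_mul, mul_zero, mul_one, Prod.mk_add_mk, zero_add, add_zero,
      Prod.mk_eq_zero] at h1 h2
    intro i
    fin_cases i
    · exact h1.2
    · exact h1.1
    · exact h2.2
    · exact h2.1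
    · exact neg_eq_zero.mp h3
  have hc : Continuous fun x : R2 => colm f g (x.1, 0) (x.2, 0) := by
    have hdf : Continuous (fderiv ℝ f) := hf.1.continuous_fderiv (by simp)
    have hdg : Continuous (fderiv ℝ g) := hg.1.continuous_fderiv (by simp)
    have hP : Continuous fun x : R2 => ((x.1, 0) : ℝ × ℝ) := by fun_prop
    have hQ : Continuous fun x : R2 => ((x.2, 0) : ℝ × ℝ) := by fun_prop
    refine continuous_pi fun i => ?_
    fin_cases i
    · exact (hdf.comp hP).clm_apply continuous_const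
    · exact (hdf.comp hP).clm_apply continuous_const
    · exact (hdg.comp hQ).clm_apply continuous_const
    · exact (hdg.comp hQ).clm_apply continuous_const
    · exact (hf.1.continuous.comp hP).sub (hg.1.continuous.comp hQ)
  have hs1 : ∀ i, (![-1, 1, 1, 1, 1] : Fin 5 → ℝ) i ^ 2 = 1 := by
    intro i
    fin_cases i <;> norm_num
  have hs2 : ∀ i, (![1, 1, -1, 1, 1] : Fin 5 → ℝ) i ^ 2 = 1 := by
    intro i
    fin_cases i <;> norm_num
  have gA : refl3 (0, 1) = -(0, 1) := by simp [refl3]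
  have gB : refl3 (1, 0) = (1, 0) := by simp [refl3]
  have e0 : ((((0, 0) : ℝ × ℝ).1 + Real.pi, -((0, 0) : ℝ × ℝ).2) : ℝ × ℝ) = (Real.pi, 0) := by
    simp
  refine obs_klein (U := fun x => InnerProductSpace.gramSchmidtNormed ℝ
    (colm f g (x.1, 0) (x.2, 0))) (gsn_cont hc hli)
    (fun x => InnerProductSpace.gramSchmidtNormed_orthonormal (hli x)) hpi.le ?_ ?_
  · intro t _
    have d1 := glide_deriv hf.1 hf.2 (0, 0) (0, 1)
    have d2 := glide_deriv hf.1 hf.2 (0, 0) (1, 0)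
    have d3 : f (Real.pi, 0) = f (0, 0) := by
      have := hf.2 0 0
      rwa [zero_add, neg_zero] at this
    rw [e0] at d1 d2
    rw [gA, map_neg] at d1
    rw [gB] at d2
    have e1 : colm f g (Real.pi, 0) (t, 0) =
        fun i => (![-1, 1, 1, 1, 1] : Fin 5 → ℝ) i • colm f g (0, 0) (t, 0) i := by
      funext i
      fin_cases i
      · show fderiv ℝ f (Real.pi, 0) (0, 1) = (-1 : ℝ) • fderiv ℝ f (0, 0) (0, 1)
        rw [← d1, neg_one_smul, neg_neg]
      · show fderiv ℝ f (Real.pi, 0) (1, 0) = (1 : ℝ) • fderiv ℝ f (0, 0) (1, 0)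
        rw [← d2, one_smul]
      · exact (one_smul ℝ _).symm
      · exact (one_smul ℝ _).symm
      · show f (Real.pi, 0) - g (t, 0) = (1 : ℝ) • (f (0, 0) - g (t, 0))
        rw [d3, one_smul]
    show InnerProductSpace.gramSchmidtNormed ℝ (colm f g (Real.pi, 0) (t, 0)) = _
    rw [e1, gsn_sign hs1]
  · intro s _
    have d1 := glide_deriv hg.1 hg.2 (0, 0) (0, 1)
    have d2 := glide_deriv hg.1 hg.2 (0, 0) (1, 0)
    have d3 : g (Real.pi, 0) = g (0, 0) := by
      have := hg.2 0 0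
      rwa [zero_add, neg_zero] at this
    rw [e0] at d1 d2
    rw [gA, map_neg] at d1
    rw [gB] at d2
    have e1 : colm f g (s, 0) (Real.pi, 0) =
        fun i => (![1, 1, -1, 1, 1] : Fin 5 → ℝ) i • colm f g (s, 0) (0, 0) i := by
      funext i
      fin_cases i
      · exact (one_smul ℝ _).symm
      · exact (one_smul ℝ _).symm
      · show fderiv ℝ g (Real.pi, 0) (0, 1) = (-1 : ℝ) • fderiv ℝ g (0, 0) (0, 1)
        rw [← d1, neg_one_smul, neg_neg]
      · show fderiv ℝ g (Real.pi, 0) (1, 0) = (1 : ℝ) • fderiv ℝ g (0, 0) (1, 0)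
        rw [← d2, one_smul]
      · show f (s, 0) - g (Real.pi, 0) = (1 : ℝ) • (f (s, 0) - g (0, 0))
        rw [d3, one_smul]
    show InnerProductSpace.gramSchmidtNormed ℝ (colm f g (s, 0) (Real.pi, 0)) = _
    rw [e1, gsn_sign hs2]

theorem moebiusIn_seven {N : ℕ} (h : MoebiusIn N) : 7 ≤ N := by
  by_contra hN
  obtain ⟨f, g, hf, hg, h⟩ := MoebiusIn.pad (M := 6) (by omega) h
  exact no_moebius_six hf hg h

end Pool.Agent.Lib.Skw
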