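import Pool.Agent.Lib.Skw.Gen

set_option autoImplicit false

/-!
# The sphere `S^n`, `n ≥ 3` odd, has a totally skew embedding into `ℝ^(3n)` (MP_3c016c_gt)

`n = 2k + 1`, `ℝ^(n+1) = ℂ^(k+1)`, a vector is a complex polynomial `p` of degree at most `k`.
The forms are the real and imaginary parts of `p(t)^2` at `2k` real nodes `t`, and one Hermitian form.
-/

open Polynomial

namespace Pool.Agent.Lib.Skw

/-- the nodes `-1, 1, 2, 3, …` -/
noncomputable def nd (i : ℕ) : ℝ := if i = 0 then -1 else i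

theorem nd_inj : Function.Injective nd := by
  intro i j h
  unfold nd at h
  split_ifs at h with h1 h2 h2
  · rw [h1, h2]
  · exfalso
    have : (0 : ℝ) ≤ (j : ℝ) := Nat.cast_nonneg j
    linarith
  · exfalso
    have : (0 : ℝ) ≤ (i : ℝ) := Nat.cast_nonneg i
    linarith
  · exact_mod_cast h

theorem prod_nd {m : ℕ} (hm : 1 ≤ m) : ∏ i ∈ Finset.range (2 * m), (-nd i) < 0 := by
  induction m, hm using Nat.le_induction with
  | base =>
    rw [Finset.prod_range_succ, Finset.prod_range_succ, Finset.prod_range_zero]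
    norm_num [nd]
  | succ m hm ih =>
    rw [show 2 * (m + 1) = 2 * m + 1 + 1 by ring, Finset.prod_range_succ, Finset.prod_range_succ]
    have h1 : 0 < nd (2 * m) := by
      have : 2 * m ≠ 0 := by omega
      unfold nd
      rw [if_neg this]
      positivity
    have h2 : 0 < nd (2 * m + 1) := by
      unfold nd
      rw [if_neg (by omega)]
      positivity
    have h3 : 0 < -nd (2 * m) * -nd (2 * m + 1) := by nlinarith
    rw [mul_assoc]
    exact mul_neg_of_neg_of_pos ih h3

theorem card_le {k : ℕ} {p : ℂ[X]} (hp : p.natDegree ≤ k) (h0 : p ≠ 0) {A : Finset ℕ}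
    (h : ∀ i ∈ A, p.eval ((nd i : ℝ) : ℂ) = 0) : A.card ≤ k := by
  by_contra hlt
  rw [not_le] at hlt
  apply h0
  have hinj : Set.InjOn (fun i => ((nd i : ℝ) : ℂ)) A := fun i _ j _ hij =>
    nd_inj (Complex.ofReal_injective hij)
  refine Polynomial.eq_zero_of_natDegree_lt_card_of_eval_eq_zero' p
    (A.image fun i => ((nd i : ℝ) : ℂ)) ?_ ?_
  · intro z hz
    obtain ⟨i, hi, rfl⟩ := Finset.mem_image.mp hz
    exact h i hi
  · rw [Finset.card_image_of_injOn hinj]
    omega

theorem split_poly {k : ℕ} (hk : 1 ≤ k) {p : ℂ[X]} (hp : p.natDegree ≤ k) {A : Finset ℕ}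
    (hA : A.card = k) (h : ∀ i ∈ A, p.eval ((nd i : ℝ) : ℂ) = 0) :
    p = C (p.coeff k) * ∏ i ∈ A, (X - C ((nd i : ℝ) : ℂ)) := by
  set P : ℂ[X] := ∏ i ∈ A, (X - C ((nd i : ℝ) : ℂ)) with hP
  have hmon : P.Monic := monic_prod_of_monic _ _ fun i _ => monic_X_sub_C _
  have hdeg : P.natDegree = k := by
    rw [hP, natDegree_prod_of_monic _ _ fun i _ => monic_X_sub_C _]
    simp [hA]
  rw [← sub_eq_zero]
  set r := p - C (p.coeff k) * P with hr
  by_contra hr0
  have hck : r.coeff k = 0 := by
    rw [hr, coeff_sub, coeff_C_mul]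
    have : P.coeff k = 1 := by
      have := hmon.coeff_natDegree
      rwa [hdeg] at this
    rw [this, mul_one, sub_self]
  have hrd : r.natDegree ≤ k := by
    refine le_trans (natDegree_sub_le _ _) (max_le hp ?_)
    exact le_trans (natDegree_C_mul_le _ _) hdeg.le
  have hrk : r.natDegree ≤ k - 1 := by
    rcases Nat.lt_or_ge r.natDegree k with h1 | h1
    · omega
    · exfalso
      have h2 : r.natDegree = k := le_antisymm hrd h1
      have h3 : r.leadingCoeff = 0 := by
        rw [Polynomial.leadingCoeff, h2, hck]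
      exact hr0 (leadingCoeff_eq_zero.mp h3)
  have := card_le hrk hr0 (A := A) (fun i hi => by
    rw [hr, eval_sub, h i hi, eval_mul, hP, eval_prod]
    rw [Finset.prod_eq_zero hi (by simp)]
    simp)
  omega

section forms

variable {k : ℕ}

/-- the coordinates of a vector as a complex polynomial -/
noncomputable def pol (x : EuclideanSpace ℝ (Fin (2 * k + 1 + 1))) : ℂ[X] :=
  ∑ j : Fin (k + 1), C ((x ⟨j, by omega⟩ : ℂ) + (x ⟨j + k + 1, by omega⟩ : ℂ) * Complex.I) *
    X ^ (j : ℕ)

theorem pol_natDegree (x : EuclideanSpace ℝ (Fin (2 * k + 1 + 1))) : (pol x).natDegree ≤ k := by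
  refine natDegree_sum_le_of_forall_le _ _ fun j _ => ?_
  exact le_trans (natDegree_C_mul_X_pow_le _ _) (by have := j.2; omega)

theorem pol_coeff (x : EuclideanSpace ℝ (Fin (2 * k + 1 + 1))) (j : Fin (k + 1)) :
    (pol x).coeff j = (x ⟨j, by omega⟩ : ℂ) + (x ⟨j + k + 1, by omega⟩ : ℂ) * Complex.I := by
  rw [pol, finsetSum_coeff]
  rw [Finset.sum_eq_single j]
  · rw [coeff_C_mul, coeff_X_pow, if_pos rfl, mul_one]
  · intro i _ hij
    rw [coeff_C_mul, coeff_X_pow, if_neg (fun h => hij (Fin.ext h.symm)), mul_zero]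
  · intro h
    exact absurd (Finset.mem_univ j) h

/-- real part of the value -/
noncomputable def vr (k : ℕ) (t : ℝ) : EuclideanSpace ℝ (Fin (2 * k + 1 + 1)) →ₗ[ℝ] ℝ :=
  ∑ j : Fin (k + 1), (t ^ (j : ℕ)) •
    (EuclideanSpace.proj (𝕜 := ℝ) (⟨j, by omega⟩ : Fin (2 * k + 1 + 1))).toLinearMap

/-- imaginary part of the value -/
noncomputable def vi (k : ℕ) (t : ℝ) : EuclideanSpace ℝ (Fin (2 * k + 1 + 1)) →ₗ[ℝ] ℝ :=
  ∑ j : Fin (k + 1), (t ^ (j : ℕ)) •
    (EuclideanSpace.proj (𝕜 := ℝ) (⟨j + k + 1, by omega⟩ : Fin (2 * k + 1 + 1))).toLinearMap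

theorem pol_eval (x : EuclideanSpace ℝ (Fin (2 * k + 1 + 1))) (t : ℝ) :
    (pol x).eval (t : ℂ) = (vr k t x : ℂ) + (vi k t x : ℂ) * Complex.I := by
  rw [pol, eval_finsetSum, vr, vi]
  simp only [LinearMap.sum_apply, LinearMap.smul_apply, smul_eq_mul, Complex.ofReal_sum,
    Complex.ofReal_mul, Complex.ofReal_pow, eval_mul, eval_C, eval_pow, eval_X, Finset.sum_mul]
  rw [← Finset.sum_add_distrib]
  refine Finset.sum_congr rfl fun j _ => ?_
  show _ = (t : ℂ) ^ (j : ℕ) * (x _ : ℂ) + (t : ℂ) ^ (j : ℕ) * (x _ : ℂ) * Complex.I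
  ring

/-- the coordinate function -/
noncomputable def cf (k i : ℕ) (h : i < 2 * k + 1 + 1) :
    EuclideanSpace ℝ (Fin (2 * k + 1 + 1)) →ₗ[ℝ] ℝ :=
  (EuclideanSpace.proj (𝕜 := ℝ) (⟨i, h⟩ : Fin (2 * k + 1 + 1))).toLinearMap

/-- product of two linear forms -/
noncomputable def lm (f g : EuclideanSpace ℝ (Fin (2 * k + 1 + 1)) →ₗ[ℝ] ℝ) :
    LinearMap.BilinForm ℝ (EuclideanSpace ℝ (Fin (2 * k + 1 + 1))) :=
  LinearMap.BilinForm.linMulLin f g

/-- the definite form -/
noncomputable def bf (k : ℕ) : LinearMap.BilinForm ℝ (EuclideanSpace ℝ (Fin (2 * k + 1 + 1))) :=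
  (∑ i ∈ Finset.range (2 * k), (lm (vr k (nd i)) (vr k (nd i)) + lm (vi k (nd i)) (vi k (nd i)))) +
    (lm (cf k k (by omega)) (cf k k (by omega)) +
      lm (cf k (2 * k + 1) (by omega)) (cf k (2 * k + 1) (by omega)))

/-- the other forms -/
noncomputable def Bf (k : ℕ) (i : Fin (4 * k + 1)) :
    LinearMap.BilinForm ℝ (EuclideanSpace ℝ (Fin (2 * k + 1 + 1))) :=
  if (i : ℕ) < 2 * k then
    lm (vr k (nd i)) (vr k (nd i)) - lm (vi k (nd i)) (vi k (nd i))
  else if (i : ℕ) < 4 * k then
    lm (vr k (nd (i - 2 * k))) (vi k (nd (i - 2 * k))) +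
      lm (vi k (nd (i - 2 * k))) (vr k (nd (i - 2 * k)))
  else
    (lm (cf k (2 * k + 1) (by omega)) (cf k 0 (by omega)) +
      lm (cf k 0 (by omega)) (cf k (2 * k + 1) (by omega))) -
    (lm (cf k k (by omega)) (cf k (k + 1) (by omega)) +
      lm (cf k (k + 1) (by omega)) (cf k k (by omega)))

theorem lm_apply (f g : EuclideanSpace ℝ (Fin (2 * k + 1 + 1)) →ₗ[ℝ] ℝ)
    (x y : EuclideanSpace ℝ (Fin (2 * k + 1 + 1))) : lm f g x y = f x * g y := rfl

theorem Bf_symm (i : Fin (4 * k + 1)) (x y : EuclideanSpace ℝ (Fin (2 * k + 1 + 1))) :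
    Bf k i x y = Bf k i y x := by
  unfold Bf
  split_ifs <;> simp only [LinearMap.add_apply, LinearMap.sub_apply, lm_apply] <;> ring

theorem bf_apply (x y : EuclideanSpace ℝ (Fin (2 * k + 1 + 1))) : bf k x y =
    (∑ i ∈ Finset.range (2 * k), (vr k (nd i) x * vr k (nd i) y + vi k (nd i) x * vi k (nd i) y)) +
      (x ⟨k, by omega⟩ * y ⟨k, by omega⟩ + x ⟨2 * k + 1, by omega⟩ * y ⟨2 * k + 1, by omega⟩) := by
  simp only [bf, LinearMap.add_apply, LinearMap.sum_apply, lm_apply]
  rfl

theorem bf_symm (x y : EuclideanSpace ℝ (Fin (2 * k + 1 + 1))) : bf k x y = bf k y x := by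
  rw [bf_apply, bf_apply]
  congr 1
  · exact Finset.sum_congr rfl fun i _ => by ring
  · ring

theorem pol_eq_zero {x : EuclideanSpace ℝ (Fin (2 * k + 1 + 1))} (h : pol x = 0) : x = 0 := by
  ext i
  rcases Nat.lt_or_ge (i : ℕ) (k + 1) with hi | hi
  · have := pol_coeff x ⟨i, hi⟩
    rw [h, coeff_zero] at this
    have := congrArg Complex.re this
    simp at this
    exact this.symm
  · have h2 : (i : ℕ) - (k + 1) < k + 1 := by have := i.2; omega
    have := pol_coeff x ⟨i - (k + 1), h2⟩
    rw [h, coeff_zero] at this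
    have := congrArg Complex.im this
    simp at this
    have e : (⟨(i : ℕ) - (k + 1) + k + 1, by omega⟩ : Fin (2 * k + 1 + 1)) = i := by
      ext
      simp only []
      omega
    rw [e] at this
    exact this.symm

theorem bf_pos (hk : 1 ≤ k) {x : EuclideanSpace ℝ (Fin (2 * k + 1 + 1))} (hx : x ≠ 0) :
    0 < bf k x x := by
  rw [bf_apply]
  have h1 : ∀ i ∈ Finset.range (2 * k), 0 ≤ vr k (nd i) x * vr k (nd i) x +
      vi k (nd i) x * vi k (nd i) x :=
    fun i _ => add_nonneg (mul_self_nonneg _) (mul_self_nonneg _)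
  have h2 : 0 ≤ ∑ i ∈ Finset.range (2 * k), (vr k (nd i) x * vr k (nd i) x +
      vi k (nd i) x * vi k (nd i) x) := Finset.sum_nonneg h1
  have h3 : 0 ≤ x ⟨k, by omega⟩ * x ⟨k, by omega⟩ +
      x ⟨2 * k + 1, by omega⟩ * x ⟨2 * k + 1, by omega⟩ :=
    add_nonneg (mul_self_nonneg _) (mul_self_nonneg _)
  rcases (add_nonneg h2 h3).lt_or_eq with h | h
  · exact h
  · exfalso
    have h4 : ∑ i ∈ Finset.range (2 * k), (vr k (nd i) x * vr k (nd i) x +
      vi k (nd i) x * vi k (nd i) x) = 0 := by linarith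
    have h5 := (Finset.sum_eq_zero_iff_of_nonneg h1).mp h4
    have h6 : x ⟨k, by omega⟩ * x ⟨k, by omega⟩ +
      x ⟨2 * k + 1, by omega⟩ * x ⟨2 * k + 1, by omega⟩ = 0 := by linarith
    have hp : pol x ≠ 0 := fun h => hx (pol_eq_zero h)
    have h7 : (pol x).natDegree ≤ k - 1 := by
      rcases Nat.lt_or_ge (pol x).natDegree k with h8 | h8
      · omega
      · exfalso
        have h9 : (pol x).natDegree = k := le_antisymm (pol_natDegree x) h8
        have h10 : (pol x).leadingCoeff = 0 := by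
          rw [Polynomial.leadingCoeff, h9]
          have := pol_coeff x ⟨k, by omega⟩
          simp only [] at this
          rw [this]
          have e1 : x ⟨k, by omega⟩ = 0 := by nlinarith
          have e2 : x ⟨k + k + 1, by omega⟩ = 0 := by
            have e3 : (⟨k + k + 1, by omega⟩ : Fin (2 * k + 1 + 1)) = ⟨2 * k + 1, by omega⟩ := by
              ext
              simp only []
              omega
            rw [e3]
            nlinarith
          rw [e1, e2]
          simp
        exact hp (leadingCoeff_eq_zero.mp h10)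
    have h11 := card_le h7 hp (A := Finset.range (2 * k)) (fun i hi => by
      rw [pol_eval]
      have := h5 i hi
      have e1 : vr k (nd i) x = 0 := by nlinarith
      have e2 : vi k (nd i) x = 0 := by nlinarith
      rw [e1, e2]
      simp)
    rw [Finset.card_range] at h11
    omega

theorem forms_ne (hk : 1 ≤ k) {d e : EuclideanSpace ℝ (Fin (2 * k + 1 + 1))}
    (h0 : bf k d e = 0) (h : ∀ i, Bf k i d e = 0) : d = 0 ∨ e = 0 := by
  by_contra hde
  rw [not_or] at hde
  obtain ⟨hd, he⟩ := hde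
  have hp : pol d ≠ 0 := fun h => hd (pol_eq_zero h)
  have hq : pol e ≠ 0 := fun h => he (pol_eq_zero h)
  -- the product of the values at a node
  have hprod : ∀ i < 2 * k, (pol d).eval ((nd i : ℝ) : ℂ) * (pol e).eval ((nd i : ℝ) : ℂ) = 0 := by
    intro i hi
    have a1 := h ⟨i, by omega⟩
    have a2 := h ⟨i + 2 * k, by omega⟩
    simp only [Bf, if_pos hi, LinearMap.sub_apply, lm_apply] at a1
    rw [Bf, if_neg (by simp), if_pos (by simp only []; omega)] at a2
    simp only [LinearMap.add_apply, lm_apply, Nat.add_sub_cancel] at a2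
    rw [pol_eval, pol_eval]
    apply Complex.ext
    · simp only [Complex.mul_re, Complex.add_re, Complex.add_im, Complex.ofReal_re,
        Complex.ofReal_im, Complex.I_re, Complex.I_im, Complex.mul_im, Complex.zero_re]
      linarith
    · simp only [Complex.mul_re, Complex.add_re, Complex.add_im, Complex.ofReal_re,
        Complex.ofReal_im, Complex.I_re, Complex.I_im, Complex.mul_im, Complex.zero_im]
      linarith
  classical
  set A := (Finset.range (2 * k)).filter fun i => (pol d).eval ((nd i : ℝ) : ℂ) = 0 with hA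
  set A' := (Finset.range (2 * k)).filter fun i => ¬ (pol d).eval ((nd i : ℝ) : ℂ) = 0 with hA'
  have hAc : A.card ≤ k := card_le (pol_natDegree d) hp fun i hi => (Finset.mem_filter.mp hi).2
  have hz : ∀ i ∈ A', (pol e).eval ((nd i : ℝ) : ℂ) = 0 := fun i hi => by
    obtain ⟨h1, h2⟩ := Finset.mem_filter.mp hi
    exact (mul_eq_zero.mp (hprod i (Finset.mem_range.mp h1))).resolve_left h2
  have hAc' : A'.card ≤ k := card_le (pol_natDegree e) hq hz
  have hsum : A.card + A'.card = 2 * k := by
    have := Finset.card_filter_add_card_filter_not (s := Finset.range (2 * k))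
      (fun i => (pol d).eval ((nd i : ℝ) : ℂ) = 0)
    rwa [Finset.card_range] at this
  have c1 : A.card = k := by omega
  have c2 : A'.card = k := by omega
  have s1 := split_poly hk (pol_natDegree d) c1 fun i hi => (Finset.mem_filter.mp hi).2
  have s2 := split_poly hk (pol_natDegree e) c2 hz
  set α : ℝ := ∏ i ∈ A, (-nd i) with hα
  set β : ℝ := ∏ i ∈ A', (-nd i) with hβ
  have hαβ : α * β < 0 := by
    have h1 : α * β = ∏ i ∈ Finset.range (2 * k), (-nd i) :=
      Finset.prod_filter_mul_prod_filter_not _ _ _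
    rw [h1]
    exact prod_nd hk
  set μ := (pol d).coeff k with hμ
  set ν := (pol e).coeff k with hν
  have hμ0 : μ ≠ 0 := by
    intro h1
    rw [h1, C_0, zero_mul] at s1
    exact hp s1
  have hν0 : ν ≠ 0 := by
    intro h1
    rw [h1, C_0, zero_mul] at s2
    exact hq s2
  have z1 : (pol d).coeff 0 = μ * (α : ℂ) := by
    rw [coeff_zero_eq_eval_zero, s1, eval_mul, eval_C, eval_prod, hα, Complex.ofReal_prod]
    congr 1
    exact Finset.prod_congr rfl fun i _ => by simp
  have z2 : (pol e).coeff 0 = ν * (β : ℂ) := by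
    rw [coeff_zero_eq_eval_zero, s2, eval_mul, eval_C, eval_prod, hβ, Complex.ofReal_prod]
    congr 1
    exact Finset.prod_congr rfl fun i _ => by simp
  -- coordinates
  have e9 : (⟨k + k + 1, by omega⟩ : Fin (2 * k + 1 + 1)) = ⟨2 * k + 1, by omega⟩ :=
    Fin.ext (by simp only []; omega)
  have k1 : μ = (d ⟨k, by omega⟩ : ℂ) + (d ⟨2 * k + 1, by omega⟩ : ℂ) * Complex.I := by
    have := pol_coeff d ⟨k, by omega⟩
    simp only [] at this
    rw [hμ, this, e9]
  have k2 : ν = (e ⟨k, by omega⟩ : ℂ) + (e ⟨2 * k + 1, by omega⟩ : ℂ) * Complex.I := by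
    have := pol_coeff e ⟨k, by omega⟩
    simp only [] at this
    rw [hν, this, e9]
  have k3 : μ * (α : ℂ) = (d ⟨0, by omega⟩ : ℂ) + (d ⟨k + 1, by omega⟩ : ℂ) * Complex.I := by
    have := pol_coeff d ⟨0, by omega⟩
    simp only [Nat.zero_add] at this
    rw [← z1, this]
  have k4 : ν * (β : ℂ) = (e ⟨0, by omega⟩ : ℂ) + (e ⟨k + 1, by omega⟩ : ℂ) * Complex.I := by
    have := pol_coeff e ⟨0, by omega⟩
    simp only [Nat.zero_add] at this
    rw [← z2, this]
  -- the definite form
  have f1 : μ.re * ν.re + μ.im * ν.im = 0 := by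
    rw [bf_apply, Finset.sum_eq_zero, zero_add] at h0
    · rw [k1, k2]
      simpa using h0
    · intro i hi
      have h1 := hprod i (Finset.mem_range.mp hi)
      rcases mul_eq_zero.mp h1 with h2 | h2
      · rw [pol_eval] at h2
        have e1 := congrArg Complex.re h2
        have e2 := congrArg Complex.im h2
        simp at e1 e2
        rw [e1, e2]
        ring
      · rw [pol_eval] at h2
        have e1 := congrArg Complex.re h2
        have e2 := congrArg Complex.im h2
        simp at e1 e2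
        rw [e1, e2]
        ring
  -- the Hermitian form
  have f2 : (α - β) * (μ.re * ν.im - μ.im * ν.re) = 0 := by
    have h1 := h ⟨4 * k, by omega⟩
    rw [Bf, if_neg (by simp only []; omega), if_neg (by simp)] at h1
    simp only [LinearMap.add_apply, LinearMap.sub_apply, lm_apply] at h1
    have r1 : cf k (2 * k + 1) (by omega) d = μ.im := by
      rw [k1]
      simp [cf]
    have r2 : cf k 0 (by omega) e = ν.re * β := by
      have := congrArg Complex.re k4
      simp at this
      rw [this]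
      simp [cf]
    have r3 : cf k 0 (by omega) d = μ.re * α := by
      have := congrArg Complex.re k3
      simp at this
      rw [this]
      simp [cf]
    have r4 : cf k (2 * k + 1) (by omega) e = ν.im := by
      rw [k2]
      simp [cf]
    have r5 : cf k k (by omega) d = μ.re := by
      rw [k1]
      simp [cf]
    have r6 : cf k (k + 1) (by omega) e = ν.im * β := by
      have := congrArg Complex.im k4
      simp at this
      rw [this]
      simp [cf]
    have r7 : cf k (k + 1) (by omega) d = μ.im * α := by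
      have := congrArg Complex.im k3
      simp at this
      rw [this]
      simp [cf]
    have r8 : cf k k (by omega) e = ν.re := by
      rw [k2]
      simp [cf]
    rw [r1, r2, r3, r4, r5, r6, r7, r8] at h1
    linear_combination h1
  have hne : α - β ≠ 0 := by
    intro h1
    have : α = β := by linarith
    rw [this] at hαβ
    nlinarith [mul_self_nonneg β]
  have f3 := (mul_eq_zero.mp f2).resolve_left hne
  have f4 : (μ.re ^ 2 + μ.im ^ 2) * (ν.re ^ 2 + ν.im ^ 2) = 0 := by
    linear_combination (μ.re * ν.re + μ.im * ν.im) * f1 + (μ.re * ν.im - μ.im * ν.re) * f3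
  rcases mul_eq_zero.mp f4 with h1 | h1
  · exact hμ0 (Complex.ext (by simp; nlinarith [sq_nonneg μ.re, sq_nonneg μ.im])
      (by simp; nlinarith [sq_nonneg μ.re, sq_nonneg μ.im]))
  · exact hν0 (Complex.ext (by simp; nlinarith [sq_nonneg ν.re, sq_nonneg ν.im])
      (by simp; nlinarith [sq_nonneg ν.re, sq_nonneg ν.im]))

end forms

/-- **The odd spheres.** -/
theorem sphere_odd {n : ℕ} (hn : Odd n) (h3 : 3 ≤ n) : ∃ F, TSkew n (3 * n) {c | 0 < c} F := by
  obtain ⟨k, rfl⟩ := hn
  have hk : 1 ≤ k := by omega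
  refine TSkew.pad (N := 2 * k + 1 + 1 + (4 * k + 1)) (by omega) ⟨_, skew_of_forms (bf k) (Bf k)
    bf_symm (fun x hx => bf_pos hk hx) Bf_symm fun d e h0 h => forms_ne hk h0 h⟩

end Pool.Agent.Lib.Skw
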