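import Pool.Agent.Lib.Skw.Cur

set_option autoImplicit false

/-!
# Totally skew maps of quotients of the plane: definitions for the statement (MP_3c016c_gt)
-/

open scoped ContDiff

namespace Pool.Agent.Lib.Skw

/-- The partial derivatives of `f` at `p` and at `q` and the difference `f p - f q`. -/
noncomputable def five {N : ℕ} (f : ℝ × ℝ → EuclideanSpace ℝ (Fin N)) (p q : ℝ × ℝ) :
    Fin 5 → EuclideanSpace ℝ (Fin N) :=
  ![fderiv ℝ f p (1, 0), fderiv ℝ f p (0, 1), fderiv ℝ f q (1, 0), fderiv ℝ f q (0, 1),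
    f p - f q]

/-- `f` is a totally skew embedding into `ℝ^N` of the quotient of the plane by the group `G`: it is
smooth and invariant, and at points `p`, `q` of different orbits the five vectors are linearly
independent. -/
structure TSPlane (G : Set (ℝ × ℝ → ℝ × ℝ)) (N : ℕ)
    (f : ℝ × ℝ → EuclideanSpace ℝ (Fin N)) : Prop where
  smooth : ContDiff ℝ ∞ f
  inv : ∀ g ∈ G, ∀ p, f (g p) = f p
  skew : ∀ p q, (∀ g ∈ G, q ≠ g p) → LinearIndependent ℝ (five f p q)

/-- The translations `(x, y) ↦ (x + 2πm, y + 2πn)`; the quotient is the torus. -/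
def torusGroup : Set (ℝ × ℝ → ℝ × ℝ) :=
  {g | ∃ m n : ℤ, ∀ x y : ℝ, g (x, y) = (x + 2 * Real.pi * m, y + 2 * Real.pi * n)}

/-- The maps `(x, y) ↦ (x + πm, (-1)^m y + 2πn)`; the quotient is the Klein bottle. -/
def kleinGroup : Set (ℝ × ℝ → ℝ × ℝ) :=
  {g | ∃ m n : ℤ, ∀ x y : ℝ, g (x, y) = (x + Real.pi * m, (-1) ^ m * y + 2 * Real.pi * n)}

/-- The torus has a totally skew embedding into `ℝ^N`. -/
def TorusIn (N : ℕ) : Prop := ∃ f : ℝ × ℝ → EuclideanSpace ℝ (Fin N), TSPlane torusGroup N f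

/-- The Klein bottle has a totally skew embedding into `ℝ^N`. -/
def KleinIn (N : ℕ) : Prop := ∃ f : ℝ × ℝ → EuclideanSpace ℝ (Fin N), TSPlane kleinGroup N f

theorem TSPlane.comp {G : Set (ℝ × ℝ → ℝ × ℝ)} {N M : ℕ}
    {f : ℝ × ℝ → EuclideanSpace ℝ (Fin N)} (h : TSPlane G N f)
    (L : EuclideanSpace ℝ (Fin N) →L[ℝ] EuclideanSpace ℝ (Fin M)) (hL : Function.Injective L) :
    TSPlane G M (fun p => L (f p)) := by
  have hd : ∀ p v, fderiv ℝ (fun p => L (f p)) p v = L (fderiv ℝ f p v) := by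
    intro p v
    have h1 : DifferentiableAt ℝ f p := (h.smooth.contDiffAt).differentiableAt (by simp)
    have h2 := (L.hasFDerivAt (x := f p)).comp p h1.hasFDerivAt
    have h3 : fderiv ℝ (fun p => L (f p)) p = L.comp (fderiv ℝ f p) := h2.fderiv
    rw [h3]
    rfl
  refine ⟨L.contDiff.comp h.smooth, fun g hg p => by rw [h.inv g hg p], fun p q hne => ?_⟩
  have h1 := (h.skew p q hne).map' L.toLinearMap (LinearMap.ker_eq_bot.mpr hL)
  have h2 : five (fun p => L (f p)) p q = ⇑L.toLinearMap ∘ five f p q := by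
    funext x
    fin_cases x
    · exact hd p _
    · exact hd p _
    · exact hd q _
    · exact hd q _
    · exact (map_sub L _ _).symm
  rw [h2]
  exact h1

theorem TSPlane.pad {G : Set (ℝ × ℝ → ℝ × ℝ)} {N M : ℕ} (hNM : N ≤ M)
    (h : ∃ f, TSPlane G N f) : ∃ f, TSPlane G M f := by
  obtain ⟨f, hf⟩ := h
  obtain ⟨L, hL⟩ := exists_inj hNM
  exact ⟨_, hf.comp L hL⟩

theorem TorusIn.pad {N M : ℕ} (hNM : N ≤ M) (h : TorusIn N) : TorusIn M := TSPlane.pad hNM h

theorem KleinIn.pad {N M : ℕ} (hNM : N ≤ M) (h : KleinIn N) : KleinIn M := TSPlane.pad hNM h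

end Pool.Agent.Lib.Skw
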