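import Pool.Agent.Lib.Skw.Def
import Pool.Agent.Lib.Skw.Gs
import Pool.Agent.Lib.Skw.Obs

set_option autoImplicit false

/-!
# The projective plane has no totally skew embedding into `ℝ^6` (MP_3c016c_gt)
-/

open scoped ContDiff
open Set

namespace Pool.Agent.Lib.Skw

/-- the derivative at the opposite point -/
theorem fderiv_neg_pt {N : ℕ} {F : V 3 → V N} (h : TSkew 2 N {c | c ≠ 0} F) {x : V 3}
    (hx : x ≠ 0) (v : V 3) : fderiv ℝ F (-x) v = -fderiv ℝ F x v := by
  have h1 : DifferentiableAt ℝ F (-x) := ((h.smooth (-x) (neg_ne_zero.mpr hx)).contDiffAt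
    (isOpen_compl_singleton.mem_nhds (neg_ne_zero.mpr hx))).differentiableAt (by simp)
  have h2 : HasFDerivAt (fun y : V 3 => F (-y))
      ((fderiv ℝ F (-x)).comp (-ContinuousLinearMap.id ℝ (V 3))) x :=
    h1.hasFDerivAt.comp x (hasFDerivAt_id x).neg
  have h3 : (fun y : V 3 => F (-y)) =ᶠ[nhds x] F := by
    filter_upwards [isOpen_compl_singleton.mem_nhds hx] with y hy
    have := h.hom (-1) (by norm_num) y hy
    rwa [neg_one_smul] at this
  have h4 : HasFDerivAt F ((fderiv ℝ F (-x)).comp (-ContinuousLinearMap.id ℝ (V 3))) x :=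
    h2.congr_of_eventuallyEq h3.symm
  rw [h4.fderiv]
  simp

/-- the five vectors of a pair of points -/
noncomputable def col {N : ℕ} (F : V 3 → V N) (x y z : V 3) : Fin 5 → V N :=
  ![fderiv ℝ F x y, fderiv ℝ F x z, fderiv ℝ F y x, fderiv ℝ F y z, F x - F y]

theorem col_indep {N : ℕ} {F : V 3 → V N} (h : TSkew 2 N {c | c ≠ 0} F) {x y z : V 3}
    (hxx : inner ℝ x x = 1) (hyy : inner ℝ y y = 1) (hzz : inner ℝ z z = 1)
    (hxy : inner ℝ x y = 0) (hxz : inner ℝ x z = 0) (hyz : inner ℝ y z = 0) :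
    LinearIndependent ℝ (col F x y z) := by
  have hx : x ≠ 0 := by
    rintro rfl
    simp at hxx
  have hy : y ≠ 0 := by
    rintro rfl
    simp at hyy
  rw [Fintype.linearIndependent_iff]
  intro g hg
  simp only [Fin.sum_univ_five, col, Matrix.cons_val] at hg
  obtain ⟨h1, h2, h3⟩ := h.skew x hx y hy (by
    rintro c _ rfl
    rw [inner_smul_right, hxx, mul_one] at hxy
    rw [hxy, zero_smul] at hy
    exact hy rfl) (g 0 • y + g 1 • z) (g 2 • x + g 3 • z) (-g 4) (by
    rw [map_add, map_add, map_smul, map_smul, map_smul, map_smul, neg_smul,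
      ← sub_eq_zero, sub_neg_eq_add, ← hg]
    abel)
  obtain ⟨c, hc⟩ := h.imm x hx _ h1
  obtain ⟨d, hd⟩ := h.imm y hy _ h2
  have a0 : g 0 = 0 := by
    have := congrArg (fun w => inner ℝ y w) hc
    simp only [inner_add_right, inner_smul_right, hyy, hyz] at this
    simpa [real_inner_comm x y, hxy] using this
  have a1 : g 1 = 0 := by
    have := congrArg (fun w => inner ℝ z w) hc
    simp only [inner_add_right, inner_smul_right, hzz] at this
    rw [real_inner_comm y z, real_inner_comm x z, hyz, hxz] at this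
    simpa using this
  have a2 : g 2 = 0 := by
    have := congrArg (fun w => inner ℝ x w) hd
    simp only [inner_add_right, inner_smul_right, hxx, hxy, hxz] at this
    simpa using this
  have a3 : g 3 = 0 := by
    have := congrArg (fun w => inner ℝ z w) hd
    simp only [inner_add_right, inner_smul_right, hzz] at this
    rw [real_inner_comm y z, real_inner_comm x z, hyz, hxz] at this
    simpa using this
  intro i
  fin_cases i
  · exact a0
  · exact a1
  · exact a2
  · exact a3
  · exact neg_eq_zero.mp h3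

/-- the rotation of `e1` about the axis `(0, cos, sin)` -/
noncomputable def fx (p : R2) : V 3 := !₂[Real.cos p.2, Real.sin (Real.pi / 2 * p.1) * Real.sin p.2,
  -(Real.cos (Real.pi / 2 * p.1) * Real.sin p.2)]

/-- the rotation of `e2` -/
noncomputable def fy (p : R2) : V 3 := !₂[-(Real.sin (Real.pi / 2 * p.1) * Real.sin p.2),
  Real.cos p.2 + (1 - Real.cos p.2) * Real.cos (Real.pi / 2 * p.1) ^ 2,
  (1 - Real.cos p.2) * (Real.cos (Real.pi / 2 * p.1) * Real.sin (Real.pi / 2 * p.1))]

/-- the rotation of `e3` -/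
noncomputable def fz (p : R2) : V 3 := !₂[Real.cos (Real.pi / 2 * p.1) * Real.sin p.2,
  (1 - Real.cos p.2) * (Real.cos (Real.pi / 2 * p.1) * Real.sin (Real.pi / 2 * p.1)),
  Real.cos p.2 + (1 - Real.cos p.2) * Real.sin (Real.pi / 2 * p.1) ^ 2]

theorem inner3 (x y : V 3) : inner ℝ x y = x 0 * y 0 + x 1 * y 1 + x 2 * y 2 := by
  rw [PiLp.inner_apply]
  simp [Fin.sum_univ_three, mul_comm]

theorem f_inner (p : R2) : inner ℝ (fx p) (fx p) = 1 ∧ inner ℝ (fy p) (fy p) = 1 ∧
    inner ℝ (fz p) (fz p) = 1 ∧ inner ℝ (fx p) (fy p) = 0 ∧ inner ℝ (fx p) (fz p) = 0 ∧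
    inner ℝ (fy p) (fz p) = 0 := by
  have h1 := Real.sin_sq_add_cos_sq p.2
  have h2 := Real.sin_sq_add_cos_sq (Real.pi / 2 * p.1)
  simp only [inner3, fx, fy, fz, Matrix.cons_val]
  set s := Real.sin p.2
  set c := Real.cos p.2
  set b := Real.sin (Real.pi / 2 * p.1)
  set a := Real.cos (Real.pi / 2 * p.1)
  have hb : b ^ 2 = 1 - a ^ 2 := by linarith
  have hs : s ^ 2 = 1 - c ^ 2 := by linarith
  refine ⟨?_, ?_, ?_, ?_, ?_, ?_⟩
  · linear_combination (a ^ 2 + b ^ 2) * hs + (1 - c ^ 2) * hb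
  · linear_combination b ^ 2 * hs + (1 - c ^ 2 + (1 - c) ^ 2 * a ^ 2) * hb
  · linear_combination a ^ 2 * hs + ((1 - c) ^ 2 * a ^ 2 + 2 * c * (1 - c) +
      (1 - c) ^ 2 * (b ^ 2 + 1 - a ^ 2)) * hb
  · ring
  · ring
  · linear_combination (-a * b) * hs + (1 - c) ^ 2 * a * b * hb

theorem f_cont : Continuous fx ∧ Continuous fy ∧ Continuous fz := by
  refine ⟨?_, ?_, ?_⟩
  · exact (PiLp.continuous_toLp 2 _).comp (continuous_pi fun i => by fin_cases i <;> (simp; fun_prop))
  · exact (PiLp.continuous_toLp 2 _).comp (continuous_pi fun i => by fin_cases i <;> (simp; fun_prop))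
  · exact (PiLp.continuous_toLp 2 _).comp (continuous_pi fun i => by fin_cases i <;> (simp; fun_prop))

theorem col_cont {N : ℕ} {F : V 3 → V N} (h : TSkew 2 N {c | c ≠ 0} F) :
    Continuous fun p => col F (fx p) (fy p) (fz p) := by
  have hc : ContinuousOn (fderiv ℝ F) {0}ᶜ :=
    h.smooth.continuousOn_fderiv_of_isOpen isOpen_compl_singleton (by simp)
  have hx : ∀ p, fx p ∈ ({0}ᶜ : Set (V 3)) := fun p h0 => by
    have h1 := (f_inner p).1
    rw [mem_singleton_iff.mp h0] at h1
    simp at h1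
  have hy : ∀ p, fy p ∈ ({0}ᶜ : Set (V 3)) := fun p h0 => by
    have h1 := (f_inner p).2.1
    rw [mem_singleton_iff.mp h0] at h1
    simp at h1
  have cx : Continuous fun p => fderiv ℝ F (fx p) := hc.comp_continuous f_cont.1 hx
  have cy : Continuous fun p => fderiv ℝ F (fy p) := hc.comp_continuous f_cont.2.1 hy
  have fX : Continuous fun p => F (fx p) := h.smooth.continuousOn.comp_continuous f_cont.1 hx
  have fY : Continuous fun p => F (fy p) := h.smooth.continuousOn.comp_continuous f_cont.2.1 hy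
  refine continuous_pi fun i => ?_
  fin_cases i
  · exact cx.clm_apply f_cont.2.1
  · exact cx.clm_apply f_cont.2.2
  · exact cy.clm_apply f_cont.1
  · exact cy.clm_apply f_cont.2.2
  · exact fX.sub fY

theorem col_y {N : ℕ} {F : V 3 → V N} (h : TSkew 2 N {c | c ≠ 0} F) {x y : V 3} (z : V 3)
    (hx : x ≠ 0) : col F (-x) y (-z) =
      fun i => (![-1, 1, -1, -1, 1] : Fin 5 → ℝ) i • col F x y z i := by
  have hF : F (-x) = F x := by
    have := h.hom (-1) (by norm_num) x hx
    rwa [neg_one_smul] at this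
  funext i
  fin_cases i
  · show fderiv ℝ F (-x) y = (-1 : ℝ) • fderiv ℝ F x y
    rw [fderiv_neg_pt h hx, neg_one_smul]
  · show fderiv ℝ F (-x) (-z) = (1 : ℝ) • fderiv ℝ F x z
    rw [fderiv_neg_pt h hx, map_neg, neg_neg, one_smul]
  · show fderiv ℝ F y (-x) = (-1 : ℝ) • fderiv ℝ F y x
    rw [map_neg, neg_one_smul]
  · show fderiv ℝ F y (-z) = (-1 : ℝ) • fderiv ℝ F y z
    rw [map_neg, neg_one_smul]
  · show F (-x) - F y = (1 : ℝ) • (F x - F y)
    rw [hF, one_smul]

theorem col_z {N : ℕ} {F : V 3 → V N} (h : TSkew 2 N {c | c ≠ 0} F) {x y : V 3} (z : V 3)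
    (hx : x ≠ 0) (hy : y ≠ 0) : col F (-x) (-y) z =
      fun i => (![1, -1, 1, -1, 1] : Fin 5 → ℝ) i • col F x y z i := by
  have hF : F (-x) = F x := by
    have := h.hom (-1) (by norm_num) x hx
    rwa [neg_one_smul] at this
  have hG : F (-y) = F y := by
    have := h.hom (-1) (by norm_num) y hy
    rwa [neg_one_smul] at this
  funext i
  fin_cases i
  · show fderiv ℝ F (-x) (-y) = (1 : ℝ) • fderiv ℝ F x y
    rw [fderiv_neg_pt h hx, map_neg, neg_neg, one_smul]
  · show fderiv ℝ F (-x) z = (-1 : ℝ) • fderiv ℝ F x z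
    rw [fderiv_neg_pt h hx, neg_one_smul]
  · show fderiv ℝ F (-y) (-x) = (1 : ℝ) • fderiv ℝ F y x
    rw [fderiv_neg_pt h hy, map_neg, neg_neg, one_smul]
  · show fderiv ℝ F (-y) z = (-1 : ℝ) • fderiv ℝ F y z
    rw [fderiv_neg_pt h hy, neg_one_smul]
  · show F (-x) - F (-y) = (1 : ℝ) • (F x - F y)
    rw [hF, hG, one_smul]

theorem no_proj_six {F : V 3 → V 6} (h : TSkew 2 6 {c | c ≠ 0} F) : False := by
  have hx : ∀ p, fx p ≠ 0 := fun p h0 => by
    have h1 := (f_inner p).1
    rw [h0] at h1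
    simp at h1
  have hy : ∀ p, fy p ≠ 0 := fun p h0 => by
    have h1 := (f_inner p).2.1
    rw [h0] at h1
    simp at h1
  have hli : ∀ p, LinearIndependent ℝ (col F (fx p) (fy p) (fz p)) := fun p => by
    obtain ⟨a1, a2, a3, a4, a5, a6⟩ := f_inner p
    exact col_indep h a1 a2 a3 a4 a5 a6
  have hs1 : ∀ i, (![-1, 1, -1, -1, 1] : Fin 5 → ℝ) i ^ 2 = 1 := by
    intro i
    fin_cases i <;> norm_num
  have hs2 : ∀ i, (![1, -1, 1, -1, 1] : Fin 5 → ℝ) i ^ 2 = 1 := by
    intro i
    fin_cases i <;> norm_num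
  refine obs_proj (U := fun p => InnerProductSpace.gramSchmidtNormed ℝ
    (col F (fx p) (fy p) (fz p))) (gsn_cont (col_cont h) hli)
    (fun p => InnerProductSpace.gramSchmidtNormed_orthonormal (hli p)) ?_ ?_ ?_ ?_
  · intro τ _
    have e1 : fx (τ, 0) = fx 0 := by
      ext i
      fin_cases i <;> simp [fx]
    have e2 : fy (τ, 0) = fy 0 := by
      ext i
      fin_cases i <;> simp [fy]
    have e3 : fz (τ, 0) = fz 0 := by
      ext i
      fin_cases i <;> simp [fz]
    simp only [e1, e2, e3]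
  · intro τ _
    have e1 : fx (τ, 2 * Real.pi) = fx 0 := by
      ext i
      fin_cases i <;> simp [fx]
    have e2 : fy (τ, 2 * Real.pi) = fy 0 := by
      ext i
      fin_cases i <;> simp [fy]
    have e3 : fz (τ, 2 * Real.pi) = fz 0 := by
      ext i
      fin_cases i <;> simp [fz]
    simp only [e1, e2, e3]
  · intro t _
    have e1 : fx (0, t + Real.pi) = -fx (0, t) := by
      ext i
      fin_cases i <;> simp [fx]
    have e2 : fy (0, t + Real.pi) = fy (0, t) := by
      ext i
      fin_cases i <;> simp [fy]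
    have e3 : fz (0, t + Real.pi) = -fz (0, t) := by
      ext i
      fin_cases i <;> simp [fz]
    simp only [e1, e2, e3]
    rw [col_y h _ (hx _), gsn_sign hs1]
  · intro t _
    have e0 : Real.pi / 2 * 1 = Real.pi / 2 := mul_one _
    have e1 : fx (1, t + Real.pi) = -fx (1, t) := by
      ext i
      fin_cases i <;> simp [fx]
    have e2 : fy (1, t + Real.pi) = -fy (1, t) := by
      ext i
      fin_cases i <;> simp [fy]
    have e3 : fz (1, t + Real.pi) = fz (1, t) := by
      ext i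
      fin_cases i <;> simp [fz]
    simp only [e1, e2, e3]
    rw [col_z h _ (hx _) (hy _), gsn_sign hs2]

end Pool.Agent.Lib.Skw
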