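import Pool.Agent.Lib.Skw.Cur
import Pool.Agent.Lib.Skw.Hy4

set_option autoImplicit false

/-!
# Totally skew maps of the hypersurfaces `|s|^2 = ρ z` of `ℝ^m × ℝ^k`, `k ≥ 2`, `m + k` even
(MP_3c016c_gt)

`P i`, `i < d`, are the coefficients of a polynomial, `Z i` their `z`-parts. The map sends the
polynomial to itself and to the coefficients of its square, where the cube of `Z i` is added at
position `d + i`.
-/

open scoped ContDiff
open Finset

namespace Pool.Agent.Lib.Skw

section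
variable {E : Type} [NormedAddCommGroup E] [NormedSpace ℝ E]

/-- the coefficient whose cube is added at position `D` -/
noncomputable def zl (Z : ℕ → E →L[ℝ] ℂ) (d D : ℕ) : E →L[ℝ] ℂ :=
  if d ≤ D then Z (D - d) else 0

/-- the terms of the sequence -/
noncomputable def qr (P Z : ℕ → E →L[ℝ] ℂ) (d D : ℕ) (p : E) : ℂ :=
  ∑ x ∈ antidiagonal D, P x.1 p * P x.2 p + (zl Z d D p) ^ 3

/-- the derivative -/
noncomputable def qrd (P Z : ℕ → E →L[ℝ] ℂ) (d D : ℕ) (p v : E) : ℂ :=
  ∑ x ∈ antidiagonal D, (P x.1 p * P x.2 v + P x.2 p * P x.1 v) +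
    3 * (zl Z d D p) ^ 2 * zl Z d D v

variable (P Z : ℕ → E →L[ℝ] ℂ) (d D : ℕ)

theorem qr_smooth : ContDiff ℝ ∞ (qr P Z d D) := by
  unfold qr
  exact (ContDiff.sum fun x _ => (P x.1).contDiff.mul (P x.2).contDiff).add
    ((zl Z d D).contDiff.pow 3)

theorem qr_fderiv (p : E) : HasFDerivAt (qr P Z d D)
    (∑ x ∈ antidiagonal D, (P x.1 p • P x.2 + P x.2 p • P x.1) +
      (3 * zl Z d D p ^ 2) • zl Z d D) p := by
  unfold qr
  refine (HasFDerivAt.fun_sum fun x _ => ?_).add ?_
  · exact (P x.1).hasFDerivAt.mul (P x.2).hasFDerivAt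
  · have := ((zl Z d D).hasFDerivAt (x := p)).pow 3
    simpa using this

theorem qr_id {p q v w : E} {l : ℝ} (h1 : v + w = l • (p - q))
    (h2 : qrd P Z d D p v + qrd P Z d D q w = (l : ℂ) * (qr P Z d D p - qr P Z d D q)) :
    2 * ∑ x ∈ antidiagonal D, P x.1 (p - q) * P x.2 (v - w) +
      (3 * zl Z d D (p + q) * zl Z d D (p - q) * zl Z d D (v - w) +
        l * (zl Z d D (p - q)) ^ 3) = 0 := by
  have hw : ∀ T : E →L[ℝ] ℂ, T w = (l : ℂ) * (T p - T q) - T v := by
    intro T
    have h := congrArg T h1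
    rw [map_add, map_smul, map_sub, Complex.real_smul] at h
    linear_combination h
  have hsw : ∑ x ∈ antidiagonal D, P x.1 (p - q) * P x.2 (v - w) =
      ∑ x ∈ antidiagonal D, P x.2 (p - q) * P x.1 (v - w) :=
    (Finset.Nat.sum_antidiagonal_swap (n := D)
      (f := fun x : ℕ × ℕ => P x.1 (p - q) * P x.2 (v - w))).symm
  have hk : ∑ x ∈ antidiagonal D, P x.1 (p - q) * P x.2 (v - w) +
      ∑ x ∈ antidiagonal D, P x.2 (p - q) * P x.1 (v - w) =
      2 * ∑ x ∈ antidiagonal D, (P x.1 p * P x.2 v + P x.2 p * P x.1 v) +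
      2 * ∑ x ∈ antidiagonal D, (P x.1 q * P x.2 w + P x.2 q * P x.1 w) -
      2 * (l : ℂ) * (∑ x ∈ antidiagonal D, P x.1 p * P x.2 p -
        ∑ x ∈ antidiagonal D, P x.1 q * P x.2 q) := by
    rw [← Finset.sum_sub_distrib, Finset.mul_sum, Finset.mul_sum, Finset.mul_sum,
      ← Finset.sum_add_distrib, ← Finset.sum_add_distrib, ← Finset.sum_sub_distrib]
    refine Finset.sum_congr rfl fun x _ => ?_
    rw [map_sub, map_sub, map_sub, map_sub, hw (P x.1), hw (P x.2)]
    ring
  unfold qrd qr at h2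
  rw [map_sub (zl Z d D) p q, map_sub (zl Z d D) v w, map_add (zl Z d D) p q]
  rw [hw (zl Z d D)] at h2 ⊢
  linear_combination hk + hsw + 2 * h2

theorem round_alg (hP : ∀ i, d ≤ i → P i = 0) (hPZ : ∀ i x, P i x = 0 → Z i x = 0)
    (hinj : ∀ v, (∀ i, P i v = 0) → v = 0) {p q v w : E} {l : ℝ} (hpq : p ≠ q)
    (h1 : v + w = l • (p - q))
    (h2 : ∀ D < 2 * d - 1, qrd P Z d D p v + qrd P Z d D q w =
      (l : ℂ) * (qr P Z d D p - qr P Z d D q)) :
    v = w ∧ ((∃ i, i + 1 < d ∧ Z i (p - q) ≠ 0) → l = 0) := by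
  classical
  have hE := fun D hD => qr_id P Z d D h1 (h2 D hD)
  have hlt : ∀ (i : ℕ) (x : E), P i x ≠ 0 → i < d := by
    intro i x h
    by_contra hi
    apply h
    rw [hP i (not_lt.1 hi)]
    rfl
  have hδ : ∃ i, P i (p - q) ≠ 0 := by
    by_contra hcon
    push_neg at hcon
    exact hpq (sub_eq_zero.1 (hinj _ hcon))
  set a := Nat.find hδ with ha
  have haa : P a (p - q) ≠ 0 := Nat.find_spec hδ
  have hamin : ∀ i < a, P i (p - q) = 0 := fun i hi => by
    have := Nat.find_min hδ hi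
    simpa using this
  have had := hlt a _ haa
  have hvw : v = w := by
    by_contra hne
    have hμ : ∃ i, P i (v - w) ≠ 0 := by
      by_contra hcon
      push_neg at hcon
      exact hne (sub_eq_zero.1 (hinj _ hcon))
    set b := Nat.find hμ with hb
    have hbb : P b (v - w) ≠ 0 := Nat.find_spec hμ
    have hbmin : ∀ i < b, P i (v - w) = 0 := fun i hi => by
      have := Nat.find_min hμ hi
      simpa using this
    have hbd := hlt b _ hbb
    have h3 := hE (a + b) (by omega)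
    have h4 : zl Z d (a + b) (p - q) = 0 := by
      unfold zl
      split_ifs with h
      · exact hPZ _ _ (hamin _ (by omega))
      · rfl
    have h5 : ∑ x ∈ antidiagonal (a + b), P x.1 (p - q) * P x.2 (v - w) =
        P a (p - q) * P b (v - w) := by
      refine Finset.sum_eq_single (a, b) (fun x hx hne => ?_) (fun h => ?_)
      · have hs := mem_antidiagonal.mp hx
        by_cases h3 : x.1 < a
        · rw [hamin _ h3, zero_mul]
        · have h4 : x.2 < b := by
            by_contra h5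
            exact hne (Prod.ext (by simp only; omega) (by simp only; omega))
          rw [hbmin _ h4, mul_zero]
      · exact absurd (by simp) h
    rw [h4, h5] at h3
    have h6 : P a (p - q) * P b (v - w) = 0 := by linear_combination h3 / 2
    exact mul_ne_zero haa hbb h6
  refine ⟨hvw, ?_⟩
  rintro ⟨i, hi, hi0⟩
  have h3 := hE (d + i) (by omega)
  have h4 : zl Z d (d + i) (p - q) = Z i (p - q) := by
    unfold zl
    rw [if_pos (by omega), Nat.add_sub_cancel_left]
  rw [h4, hvw, sub_self] at h3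
  simp only [map_zero, mul_zero, Finset.sum_const_zero, zero_add] at h3
  have h5 := (mul_eq_zero.1 h3).resolve_right (pow_ne_zero 3 hi0)
  exact_mod_cast h5

end

/-- the real coordinates of `ℝ^m × ℝ^k` -/
noncomputable def xc (m k t : ℕ) : EE m k →L[ℝ] ℝ :=
  if h : t < m then (EuclideanSpace.proj (𝕜 := ℝ) (⟨t, h⟩ : Fin m)).comp
      (ContinuousLinearMap.fst ℝ (Eu m) (Eu k))
  else if h' : t - m < k then (EuclideanSpace.proj (𝕜 := ℝ) (⟨t - m, h'⟩ : Fin k)).comp
      (ContinuousLinearMap.snd ℝ (Eu m) (Eu k))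
  else 0

/-- the coordinates of `z` -/
noncomputable def yc (m k t : ℕ) : EE m k →L[ℝ] ℝ := if t < m then xc m k t else 0

/-- two real functionals as a complex one -/
noncomputable def cx {E : Type} [NormedAddCommGroup E] [NormedSpace ℝ E] (x y : E →L[ℝ] ℝ) :
    E →L[ℝ] ℂ :=
  Complex.ofRealCLM.comp x + Complex.I • Complex.ofRealCLM.comp y

theorem cx_apply {E : Type} [NormedAddCommGroup E] [NormedSpace ℝ E] (x y : E →L[ℝ] ℝ) (v : E) :
    cx x y v = (x v : ℂ) + Complex.I * (y v : ℂ) := by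
  simp [cx]

theorem cx_zero {E : Type} [NormedAddCommGroup E] [NormedSpace ℝ E] (x y : E →L[ℝ] ℝ) (v : E) :
    cx x y v = 0 ↔ x v = 0 ∧ y v = 0 := by
  rw [cx_apply]
  constructor
  · intro h
    have h1 := congrArg Complex.re h
    have h2 := congrArg Complex.im h
    simp at h1 h2
    exact ⟨h1, h2⟩
  · rintro ⟨h1, h2⟩
    rw [h1, h2]
    simp

theorem xc_fst {m k : ℕ} (v : EE m k) (h : ∀ t < m, xc m k t v = 0) : v.1 = 0 := by
  ext i
  have h1 := h i.1 i.2
  unfold xc at h1
  rw [dif_pos i.2] at h1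
  exact h1

theorem xc_snd {m k : ℕ} (v : EE m k) (h : ∀ t, xc m k t v = 0) : v.2 = 0 := by
  ext i
  have h1 := h (m + i.1)
  unfold xc at h1
  have h2 : m + i.1 - m < k := by
    rw [Nat.add_sub_cancel_left]
    exact i.2
  rw [dif_neg (by omega), dif_pos h2] at h1
  have h3 : (⟨m + i.1 - m, h2⟩ : Fin k) = i := Fin.ext (by
    show m + i.1 - m = i.1
    omega)
  rw [h3] at h1
  exact h1

theorem exists_round {m k N : ℕ} (hmk : Even (m + k)) (hk : 2 ≤ k) (hN : 3 * (m + k) ≤ N + 2) :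
    ∃ F : EE m k → Eu N, ∀ ρ : Eu m → ℝ, TSRound ρ N F := by
  classical
  obtain ⟨d, hd⟩ := hmk
  set P : ℕ → (EE m k →L[ℝ] ℂ) := fun i => cx (xc m k (2 * i)) (xc m k (2 * i + 1)) with hPdef
  set Z : ℕ → (EE m k →L[ℝ] ℂ) := fun i => cx (yc m k (2 * i)) (yc m k (2 * i + 1)) with hZdef
  have hX : ∀ v : EE m k, ∀ i, P i v = 0 → xc m k (2 * i) v = 0 ∧ xc m k (2 * i + 1) v = 0 :=
    fun v i h => (cx_zero _ _ _).1 h
  have hP : ∀ i, d ≤ i → P i = 0 := by
    intro i hi
    have h1 : ∀ t, m + k ≤ t → xc m k t = 0 := by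
      intro t ht
      unfold xc
      rw [dif_neg (by omega), dif_neg (by omega)]
    show cx (xc m k (2 * i)) (xc m k (2 * i + 1)) = 0
    rw [h1 _ (by omega), h1 _ (by omega)]
    exact ContinuousLinearMap.ext fun v => (cx_zero _ _ _).2 ⟨rfl, rfl⟩
  have hPZ : ∀ i x, P i x = 0 → Z i x = 0 := by
    intro i x h
    obtain ⟨h1, h2⟩ := hX x i h
    refine (cx_zero _ _ _).2 ⟨?_, ?_⟩
    · unfold yc
      split_ifs
      · exact h1
      · rfl
    · unfold yc
      split_ifs
      · exact h2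
      · rfl
  have hinj : ∀ v : EE m k, (∀ i, P i v = 0) → v = 0 := by
    intro v h
    have h1 : ∀ t, xc m k t v = 0 := by
      intro t
      rcases Nat.even_or_odd' t with ⟨c, hc | hc⟩
      · rw [hc]
        exact (hX v c (h c)).1
      · rw [hc]
        exact (hX v c (h c)).2
    exact Prod.ext (xc_fst v fun t _ => h1 t) (xc_snd v h1)
  have hfst : ∀ v : EE m k, (¬ ∃ i, i + 1 < d ∧ Z i v ≠ 0) → v.1 = 0 := by
    intro v h
    refine xc_fst v fun t ht => ?_
    by_contra h1
    apply h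
    refine ⟨t / 2, by omega, fun h2 => ?_⟩
    obtain ⟨h3, h4⟩ := (cx_zero _ _ _).1 h2
    rcases Nat.even_or_odd' t with ⟨c, hc | hc⟩
    · have h5 : 2 * (t / 2) = t := by omega
      rw [h5] at h3
      unfold yc at h3
      rw [if_pos ht] at h3
      exact h1 h3
    · have h5 : 2 * (t / 2) + 1 = t := by omega
      rw [h5] at h4
      unfold yc at h4
      rw [if_pos ht] at h4
      exact h1 h4
  have h2 : Module.finrank ℝ (EE m k × (Fin (2 * d - 1) → ℂ)) =
      Module.finrank ℝ (Eu (m + k + 2 * (2 * d - 1))) := by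
    rw [finrank_euclideanSpace_fin, Module.finrank_prod, Module.finrank_prod,
      Module.finrank_pi_fintype, finrank_euclideanSpace_fin, finrank_euclideanSpace_fin]
    simp [mul_comm]
  obtain ⟨e'⟩ := FiniteDimensional.nonempty_continuousLinearEquiv_of_finrank_eq h2
  obtain ⟨L, hL⟩ := exists_inj (show m + k + 2 * (2 * d - 1) ≤ N by omega)
  set A : (EE m k × (Fin (2 * d - 1) → ℂ)) →L[ℝ] Eu N := L.comp (e' : _ →L[ℝ] _) with hA
  have hAi : Function.Injective A := hL.comp e'.injective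
  set Ψ : EE m k → EE m k × (Fin (2 * d - 1) → ℂ) := fun p => (p, fun D => qr P Z d D p) with hΨ
  have hs : ContDiff ℝ ∞ Ψ := contDiff_id.prodMk (contDiff_pi.mpr fun D => qr_smooth P Z d D)
  have hder : ∀ p v, fderiv ℝ Ψ p v = (v, fun D : Fin (2 * d - 1) => qrd P Z d D p v) := by
    intro p v
    have h3 : HasFDerivAt Ψ ((ContinuousLinearMap.id ℝ (EE m k)).prod
        (ContinuousLinearMap.pi fun D : Fin (2 * d - 1) =>
          (∑ x ∈ antidiagonal (D : ℕ), (P x.1 p • P x.2 + P x.2 p • P x.1) +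
            (3 * zl Z d D p ^ 2) • zl Z d D))) p :=
      (hasFDerivAt_id p).prodMk (hasFDerivAt_pi.mpr fun D => qr_fderiv P Z d D p)
    rw [h3.fderiv]
    refine Prod.ext rfl (funext fun D => ?_)
    simp [qrd, ContinuousLinearMap.sum_apply]
  have hdr : ∀ p v, dr (fun p => A (Ψ p)) p v = A (fderiv ℝ Ψ p v) := by
    intro p v
    have h3 : DifferentiableAt ℝ Ψ p := (hs.contDiffAt).differentiableAt (by simp)
    have h4 := (A.hasFDerivAt (x := Ψ p)).comp p h3.hasFDerivAt
    have h5 : fderiv ℝ (fun p => A (Ψ p)) p = A.comp (fderiv ℝ Ψ p) := h4.fderiv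
    show fderiv ℝ (fun p => A (Ψ p)) p v = A (fderiv ℝ Ψ p v)
    rw [h5]
    rfl
  refine ⟨fun p => A (Ψ p), fun ρ => ⟨A.contDiff.comp hs, fun p _ v _ h => ?_,
    fun p _ q _ hne v w hv hw l h => ?_⟩⟩
  · rw [hdr] at h
    have h3 := hAi (h.trans (map_zero A).symm)
    rw [hder] at h3
    exact congrArg Prod.fst h3
  · rw [hdr, hdr, ← map_add, ← map_sub, ← map_smul] at h
    have h3 := hAi h
    rw [hder, hder] at h3
    have e1 : v + w = l • (p - q) := congrArg Prod.fst h3
    have e2 : ∀ D < 2 * d - 1, qrd P Z d D p v + qrd P Z d D q w =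
        (l : ℂ) * (qr P Z d D p - qr P Z d D q) := by
      intro D hD
      have h4 := congrFun (congrArg Prod.snd h3) ⟨D, hD⟩
      simpa using h4
    obtain ⟨hvw, hl⟩ := round_alg P Z d hP hPZ hinj hne e1 e2
    subst hvw
    have hv2 : v = (l / 2) • (p - q) := by
      have h4 : (2 : ℝ) • v = l • (p - q) := by rw [two_smul, e1]
      rw [div_eq_inv_mul, mul_smul, ← h4, smul_smul]
      norm_num
    by_cases h5 : ∃ i, i + 1 < d ∧ Z i (p - q) ≠ 0
    · have hl0 := hl h5
      have hv0 : v = 0 := by rw [hv2, hl0]; simp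
      exact ⟨hv0, hv0, hl0⟩
    · have h6 : p.1 - q.1 = 0 := hfst (p - q) h5
      have v1 : v.1 = 0 := by
        rw [hv2]
        show (l / 2) • (p.1 - q.1) = 0
        rw [h6, smul_zero]
      have v2 : v.2 = (l / 2) • (p.2 - q.2) := by
        rw [hv2]
        rfl
      have hv' : 2 * inner ℝ p.2 v.2 = fderiv ℝ ρ p.1 v.1 := hv
      have hw' : 2 * inner ℝ q.2 v.2 = fderiv ℝ ρ q.1 v.1 := hw
      rw [v1, map_zero, v2, inner_smul_right] at hv'
      rw [v1, map_zero, v2, inner_smul_right] at hw'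
      have h8 : l * inner ℝ (p.2 - q.2) (p.2 - q.2) = 0 := by
        rw [inner_sub_left]
        linear_combination hv' - hw'
      have h9 : inner ℝ (p.2 - q.2) (p.2 - q.2) ≠ 0 := by
        rw [inner_self_ne_zero]
        intro h10
        exact hne (Prod.ext (sub_eq_zero.1 h6) (sub_eq_zero.1 h10))
      have hl0 : l = 0 := (mul_eq_zero.1 h8).resolve_right h9
      have hv0 : v = 0 := by rw [hv2, hl0]; simp
      exact ⟨hv0, hv0, hl0⟩

end Pool.Agent.Lib.Skw
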