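import Pool.Agent.Lib.Skw.Lft

set_option autoImplicit false
set_option linter.unusedSimpArgs false

/-!
# Sign changes

`Sgn G s E`: conjugation by the product `E` changes the signs of the members of `G` as `s` says; squares and commutators of these products.

-/

open Matrix Set

namespace Pool.Agent.Lib.Skw

theorem IsCl.sw {G : Fin 6 → M8} (h : IsCl G) (i j : Fin 6) (hij : i ≠ j) :
    G i * G j = -(G j * G i) := h.ac i j hij

theorem IsCl.sw' {G : Fin 6 → M8} (h : IsCl G) (i j : Fin 6) (hij : i ≠ j) (x : M8) :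
    G i * (G j * x) = -(G j * (G i * x)) := by
  rw [← mul_assoc, h.ac i j hij, neg_mul, mul_assoc]

theorem IsCl.sq' {G : Fin 6 → M8} (h : IsCl G) (i : Fin 6) (x : M8) :
    G i * (G i * x) = -x := by
  rw [← mul_assoc, h.sq i, neg_mul, one_mul]

/-- `E` implements the signs `σ`. -/
def Sgn (G : Fin 6 → M8) (σ : Fin 6 → ℝ) (E : M8) : Prop := ∀ j, σ j • (G j * E) = E * G j

theorem sgn_y {G : Fin 6 → M8} (h : IsCl G) :
    Sgn G ![-1, 1, -1, -1, 1, 1] (G 1 * (G 4 * G 5)) := by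
  intro j
  fin_cases j <;>
  simp [mul_assoc, h.sw 1 0 (by decide), h.sw' 1 0 (by decide), h.sw 2 0 (by decide), h.sw' 2 0 (by decide),
    h.sw 2 1 (by decide), h.sw' 2 1 (by decide), h.sw 3 0 (by decide), h.sw' 3 0 (by decide),
    h.sw 3 1 (by decide), h.sw' 3 1 (by decide), h.sw 3 2 (by decide), h.sw' 3 2 (by decide),
    h.sw 4 0 (by decide), h.sw' 4 0 (by decide), h.sw 4 1 (by decide), h.sw' 4 1 (by decide),
    h.sw 4 2 (by decide), h.sw' 4 2 (by decide), h.sw 4 3 (by decide), h.sw' 4 3 (by decide),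
    h.sw 5 0 (by decide), h.sw' 5 0 (by decide), h.sw 5 1 (by decide), h.sw' 5 1 (by decide),
    h.sw 5 2 (by decide), h.sw' 5 2 (by decide), h.sw 5 3 (by decide), h.sw' 5 3 (by decide),
    h.sw 5 4 (by decide), h.sw' 5 4 (by decide), h.sq 0, h.sq' 0, h.sq 1, h.sq' 1, h.sq 2, h.sq'
    2, h.sq 3, h.sq' 3, h.sq 4, h.sq' 4, h.sq 5, h.sq' 5]

theorem sgn_z {G : Fin 6 → M8} (h : IsCl G) :
    Sgn G ![1, -1, 1, -1, 1, 1] (G 1 * G 3) := by
  intro j
  fin_cases j <;>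
  simp [mul_assoc, h.sw 1 0 (by decide), h.sw' 1 0 (by decide), h.sw 2 0 (by decide), h.sw' 2 0 (by decide),
    h.sw 2 1 (by decide), h.sw' 2 1 (by decide), h.sw 3 0 (by decide), h.sw' 3 0 (by decide),
    h.sw 3 1 (by decide), h.sw' 3 1 (by decide), h.sw 3 2 (by decide), h.sw' 3 2 (by decide),
    h.sw 4 0 (by decide), h.sw' 4 0 (by decide), h.sw 4 1 (by decide), h.sw' 4 1 (by decide),
    h.sw 4 2 (by decide), h.sw' 4 2 (by decide), h.sw 4 3 (by decide), h.sw' 4 3 (by decide),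
    h.sw 5 0 (by decide), h.sw' 5 0 (by decide), h.sw 5 1 (by decide), h.sw' 5 1 (by decide),
    h.sw 5 2 (by decide), h.sw' 5 2 (by decide), h.sw 5 3 (by decide), h.sw' 5 3 (by decide),
    h.sw 5 4 (by decide), h.sw' 5 4 (by decide), h.sq 0, h.sq' 0, h.sq 1, h.sq' 1, h.sq 2, h.sq'
    2, h.sq 3, h.sq' 3, h.sq 4, h.sq' 4, h.sq 5, h.sq' 5]

theorem sgn_a {G : Fin 6 → M8} (h : IsCl G) :
    Sgn G ![-1, 1, 1, 1, 1, 1] (G 1 * (G 2 * (G 3 * (G 4 * G 5)))) := by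
  intro j
  fin_cases j <;>
  simp [mul_assoc, h.sw 1 0 (by decide), h.sw' 1 0 (by decide), h.sw 2 0 (by decide), h.sw' 2 0 (by decide),
    h.sw 2 1 (by decide), h.sw' 2 1 (by decide), h.sw 3 0 (by decide), h.sw' 3 0 (by decide),
    h.sw 3 1 (by decide), h.sw' 3 1 (by decide), h.sw 3 2 (by decide), h.sw' 3 2 (by decide),
    h.sw 4 0 (by decide), h.sw' 4 0 (by decide), h.sw 4 1 (by decide), h.sw' 4 1 (by decide),
    h.sw 4 2 (by decide), h.sw' 4 2 (by decide), h.sw 4 3 (by decide), h.sw' 4 3 (by decide),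
    h.sw 5 0 (by decide), h.sw' 5 0 (by decide), h.sw 5 1 (by decide), h.sw' 5 1 (by decide),
    h.sw 5 2 (by decide), h.sw' 5 2 (by decide), h.sw 5 3 (by decide), h.sw' 5 3 (by decide),
    h.sw 5 4 (by decide), h.sw' 5 4 (by decide), h.sq 0, h.sq' 0, h.sq 1, h.sq' 1, h.sq 2, h.sq'
    2, h.sq 3, h.sq' 3, h.sq 4, h.sq' 4, h.sq 5, h.sq' 5]

theorem sgn_b {G : Fin 6 → M8} (h : IsCl G) :
    Sgn G ![1, 1, -1, 1, 1, 1] (G 0 * (G 1 * (G 3 * (G 4 * G 5)))) := by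
  intro j
  fin_cases j <;>
  simp [mul_assoc, h.sw 1 0 (by decide), h.sw' 1 0 (by decide), h.sw 2 0 (by decide), h.sw' 2 0 (by decide),
    h.sw 2 1 (by decide), h.sw' 2 1 (by decide), h.sw 3 0 (by decide), h.sw' 3 0 (by decide),
    h.sw 3 1 (by decide), h.sw' 3 1 (by decide), h.sw 3 2 (by decide), h.sw' 3 2 (by decide),
    h.sw 4 0 (by decide), h.sw' 4 0 (by decide), h.sw 4 1 (by decide), h.sw' 4 1 (by decide),
    h.sw 4 2 (by decide), h.sw' 4 2 (by decide), h.sw 4 3 (by decide), h.sw' 4 3 (by decide),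
    h.sw 5 0 (by decide), h.sw' 5 0 (by decide), h.sw 5 1 (by decide), h.sw' 5 1 (by decide),
    h.sw 5 2 (by decide), h.sw' 5 2 (by decide), h.sw 5 3 (by decide), h.sw' 5 3 (by decide),
    h.sw 5 4 (by decide), h.sw' 5 4 (by decide), h.sq 0, h.sq' 0, h.sq 1, h.sq' 1, h.sq 2, h.sq'
    2, h.sq 3, h.sq' 3, h.sq 4, h.sq' 4, h.sq 5, h.sq' 5]

theorem sq_y {G : Fin 6 → M8} (h : IsCl G) : (G 1 * (G 4 * G 5)) * (G 1 * (G 4 * G 5)) = 1 := by
  simp [mul_assoc, h.sw 1 0 (by decide), h.sw' 1 0 (by decide), h.sw 2 0 (by decide), h.sw' 2 0 (by decide),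
    h.sw 2 1 (by decide), h.sw' 2 1 (by decide), h.sw 3 0 (by decide), h.sw' 3 0 (by decide),
    h.sw 3 1 (by decide), h.sw' 3 1 (by decide), h.sw 3 2 (by decide), h.sw' 3 2 (by decide),
    h.sw 4 0 (by decide), h.sw' 4 0 (by decide), h.sw 4 1 (by decide), h.sw' 4 1 (by decide),
    h.sw 4 2 (by decide), h.sw' 4 2 (by decide), h.sw 4 3 (by decide), h.sw' 4 3 (by decide),
    h.sw 5 0 (by decide), h.sw' 5 0 (by decide), h.sw 5 1 (by decide), h.sw' 5 1 (by decide),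
    h.sw 5 2 (by decide), h.sw' 5 2 (by decide), h.sw 5 3 (by decide), h.sw' 5 3 (by decide),
    h.sw 5 4 (by decide), h.sw' 5 4 (by decide), h.sq 0, h.sq' 0, h.sq 1, h.sq' 1, h.sq 2, h.sq'
    2, h.sq 3, h.sq' 3, h.sq 4, h.sq' 4, h.sq 5, h.sq' 5]

theorem sq_z {G : Fin 6 → M8} (h : IsCl G) : (G 1 * G 3) * (G 1 * G 3) = -1 := by
  simp [mul_assoc, h.sw 1 0 (by decide), h.sw' 1 0 (by decide), h.sw 2 0 (by decide), h.sw' 2 0 (by decide),
    h.sw 2 1 (by decide), h.sw' 2 1 (by decide), h.sw 3 0 (by decide), h.sw' 3 0 (by decide),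
    h.sw 3 1 (by decide), h.sw' 3 1 (by decide), h.sw 3 2 (by decide), h.sw' 3 2 (by decide),
    h.sw 4 0 (by decide), h.sw' 4 0 (by decide), h.sw 4 1 (by decide), h.sw' 4 1 (by decide),
    h.sw 4 2 (by decide), h.sw' 4 2 (by decide), h.sw 4 3 (by decide), h.sw' 4 3 (by decide),
    h.sw 5 0 (by decide), h.sw' 5 0 (by decide), h.sw 5 1 (by decide), h.sw' 5 1 (by decide),
    h.sw 5 2 (by decide), h.sw' 5 2 (by decide), h.sw 5 3 (by decide), h.sw' 5 3 (by decide),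
    h.sw 5 4 (by decide), h.sw' 5 4 (by decide), h.sq 0, h.sq' 0, h.sq 1, h.sq' 1, h.sq 2, h.sq'
    2, h.sq 3, h.sq' 3, h.sq 4, h.sq' 4, h.sq 5, h.sq' 5]

theorem anti_ab {G : Fin 6 → M8} (h : IsCl G) :
    (G 1 * (G 2 * (G 3 * (G 4 * G 5)))) * (G 0 * (G 1 * (G 3 * (G 4 * G 5)))) =
      -((G 0 * (G 1 * (G 3 * (G 4 * G 5)))) * (G 1 * (G 2 * (G 3 * (G 4 * G 5))))) := by
  simp [mul_assoc, h.sw 1 0 (by decide), h.sw' 1 0 (by decide), h.sw 2 0 (by decide), h.sw' 2 0 (by decide),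
    h.sw 2 1 (by decide), h.sw' 2 1 (by decide), h.sw 3 0 (by decide), h.sw' 3 0 (by decide),
    h.sw 3 1 (by decide), h.sw' 3 1 (by decide), h.sw 3 2 (by decide), h.sw' 3 2 (by decide),
    h.sw 4 0 (by decide), h.sw' 4 0 (by decide), h.sw 4 1 (by decide), h.sw' 4 1 (by decide),
    h.sw 4 2 (by decide), h.sw' 4 2 (by decide), h.sw 4 3 (by decide), h.sw' 4 3 (by decide),
    h.sw 5 0 (by decide), h.sw' 5 0 (by decide), h.sw 5 1 (by decide), h.sw' 5 1 (by decide),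
    h.sw 5 2 (by decide), h.sw' 5 2 (by decide), h.sw 5 3 (by decide), h.sw' 5 3 (by decide),
    h.sw 5 4 (by decide), h.sw' 5 4 (by decide), h.sq 0, h.sq' 0, h.sq 1, h.sq' 1, h.sq 2, h.sq'
    2, h.sq 3, h.sq' 3, h.sq 4, h.sq' 4, h.sq 5, h.sq' 5]

end Pool.Agent.Lib.Skw
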