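import Pool.Agent.Lib.Skw.Gen

set_option autoImplicit false

/-!
# The sphere `S^n` has a totally skew embedding into `ℝ^(3n+1)` (MP_3c016c_gt)

`F(x) = (x, P_x(1)^2, …, P_x(2n)^2)` for a unit vector `x`, where `P_x` is the polynomial of degree at
most `n` with `P_x(i) = x_i` for `i = 0, …, n`.
-/

open scoped ContDiff
open Polynomial

namespace Pool.Agent.Lib.Skw

variable {n : ℕ}

/-- the value at `k` of the polynomial of degree at most `n` with the value `x i` at `i ≤ n` -/
noncomputable def ev (n k : ℕ) : EuclideanSpace ℝ (Fin (n + 1)) →L[ℝ] ℝ :=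
  LinearMap.toContinuousLinearMap ((Polynomial.leval (k : ℝ)) ∘ₗ
    (Lagrange.interpolate Finset.univ (fun i : Fin (n + 1) => ((i : ℕ) : ℝ))) ∘ₗ
    (WithLp.linearEquiv 2 ℝ (Fin (n + 1) → ℝ)).toLinearMap)

theorem ev_apply (k : ℕ) (x : EuclideanSpace ℝ (Fin (n + 1))) : ev n k x =
    (Lagrange.interpolate Finset.univ (fun i : Fin (n + 1) => ((i : ℕ) : ℝ))
      (fun i => x i)).eval (k : ℝ) := rfl

theorem nodes_inj : Set.InjOn (fun i : Fin (n + 1) => ((i : ℕ) : ℝ))
    (Finset.univ : Finset (Fin (n + 1))) := by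
  intro i _ j _ h
  have h2 : ((i : ℕ) : ℝ) = ((j : ℕ) : ℝ) := h
  exact Fin.ext (Nat.cast_injective h2)

theorem ev_node (i : Fin (n + 1)) (x : EuclideanSpace ℝ (Fin (n + 1))) : ev n i x = x i := by
  rw [ev_apply]
  exact Lagrange.eval_interpolate_at_node (fun i => x i) nodes_inj (Finset.mem_univ i)

/-- general position of the linear forms -/
theorem ev_prod {d e : EuclideanSpace ℝ (Fin (n + 1))}
    (h : ∀ k ≤ 2 * n, ev n k d * ev n k e = 0) : d = 0 ∨ e = 0 := by
  set P := Lagrange.interpolate Finset.univ (fun i : Fin (n + 1) => ((i : ℕ) : ℝ)) (fun i => d i)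
    with hP
  set Q := Lagrange.interpolate Finset.univ (fun i : Fin (n + 1) => ((i : ℕ) : ℝ)) (fun i => e i)
    with hQ
  have hPd : P.natDegree ≤ n := by
    have h1 := Lagrange.degree_interpolate_lt (fun i => d i) (nodes_inj (n := n))
    rw [Finset.card_univ, Fintype.card_fin] at h1
    refine Polynomial.natDegree_le_iff_coeff_eq_zero.mpr fun N hN => ?_
    exact Polynomial.coeff_eq_zero_of_degree_lt (lt_of_lt_of_le h1 (by exact_mod_cast hN))
  have hQd : Q.natDegree ≤ n := by
    have h1 := Lagrange.degree_interpolate_lt (fun i => e i) (nodes_inj (n := n))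
    rw [Finset.card_univ, Fintype.card_fin] at h1
    refine Polynomial.natDegree_le_iff_coeff_eq_zero.mpr fun N hN => ?_
    exact Polynomial.coeff_eq_zero_of_degree_lt (lt_of_lt_of_le h1 (by exact_mod_cast hN))
  have h0 : P * Q = 0 := by
    refine Polynomial.eq_zero_of_natDegree_lt_card_of_eval_eq_zero (P * Q)
      (f := fun k : Fin (2 * n + 1) => ((k : ℕ) : ℝ)) ?_ ?_ ?_
    · intro i j hij
      exact Fin.ext (Nat.cast_injective hij)
    · intro k
      rw [Polynomial.eval_mul]
      exact h k (Nat.lt_succ_iff.mp k.2)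
    · rw [Fintype.card_fin]
      exact lt_of_le_of_lt Polynomial.natDegree_mul_le (by omega)
  rcases mul_eq_zero.mp h0 with h1 | h1
  · left
    ext i
    rw [← ev_node i d, ev_apply, ← hP, h1]
    simp
  · right
    ext i
    rw [← ev_node i e, ev_apply, ← hQ, h1]
    simp

/-- **Every sphere.** -/
theorem sphere_all (n : ℕ) : ∃ F, TSkew n (3 * n + 1) {c | 0 < c} F := by
  refine TSkew.pad (N := n + 1 + 2 * n) (by omega) ⟨_, skew_of_forms (s := 2 * n)
    (innerₗ (EuclideanSpace ℝ (Fin (n + 1))))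
    (fun i => LinearMap.BilinForm.linMulLin (ev n (i + 1)).toLinearMap (ev n (i + 1)).toLinearMap)
    (fun x y => real_inner_comm y x) (fun x hx => real_inner_self_pos.mpr hx)
    (fun i x y => mul_comm _ _) ?_⟩
  intro d e h0 h1
  refine ev_prod fun k hk => ?_
  have hk1 : ∀ k, 1 ≤ k → k ≤ 2 * n → ev n k d * ev n k e = 0 := by
    intro k h2 h3
    have := h1 ⟨k - 1, by omega⟩
    simp only [LinearMap.BilinForm.linMulLin_apply] at this
    rwa [Nat.sub_add_cancel h2] at this
  rcases Nat.eq_zero_or_pos k with rfl | hk0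
  · have c1 : inner ℝ d e = ∑ i : Fin (n + 1), d i * e i := by
      rw [PiLp.inner_apply]
      refine Finset.sum_congr rfl fun i _ => ?_
      simp [mul_comm]
    have c0 : inner ℝ d e = 0 := h0
    rw [c0, Fin.sum_univ_succ] at c1
    have c2 : ∀ i : Fin n, d i.succ * e i.succ = 0 := by
      intro i
      have := hk1 (i.succ : Fin (n + 1)) (by simp) (by
        have := i.2
        simp only [Fin.val_succ]
        omega)
      rwa [ev_node, ev_node] at this
    rw [Finset.sum_eq_zero fun i _ => c2 i, add_zero] at c1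
    have c3 := ev_node (0 : Fin (n + 1)) d
    have c4 := ev_node (0 : Fin (n + 1)) e
    simp only [Fin.val_zero] at c3 c4
    rw [c3, c4]
    exact c1.symm
  · exact hk1 k hk0 hk

end Pool.Agent.Lib.Skw
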