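import Pool.Agent.Lib.Skw.Sph
import Pool.Agent.Lib.Skw.Odd
import Pool.Agent.Lib.Skw.Prj

set_option autoImplicit false

/-!
# Totally skew maps of spheres and projective spaces: definitions for the statements (MP_3c016c_gt)
-/

open scoped ContDiff

namespace Pool.Agent.Lib.Skw

/-- The Euclidean space `ℝ^n`. -/
abbrev RR (n : ℕ) : Type := EuclideanSpace ℝ (Fin n)

/-- `D F x v` is the derivative of `F` at `x` in the direction `v`. -/
noncomputable def D {m N : ℕ} (F : RR m → RR N) (x v : RR m) : RR N := fderiv ℝ F x v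

/-- `F` is smooth on `ℝ^m ∖ {0}`. -/
def SmoothOff {m N : ℕ} (F : RR m → RR N) : Prop := ContDiffOn ℝ ∞ F {0}ᶜ

/-- The tangent spaces of `F` at `x` and at `y` (the affine spaces through `F x` and `F y` with
direction spaces the images of the derivatives) are skew: they are disjoint and their direction
spaces meet only in `0`. -/
def SkewAt {m N : ℕ} (F : RR m → RR N) (x y : RR m) : Prop :=
  ∀ (v w : RR m) (l : ℝ), D F x v + D F y w = l • (F x - F y) →
    D F x v = 0 ∧ D F y w = 0 ∧ l = 0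

/-- `F` is a totally skew embedding into `ℝ^N` of the quotient of `ℝ^(n+1) ∖ {0}` by the
multiplications with the numbers in `S`: for `S = {c | 0 < c}` of the sphere `S^n`, for
`S = {c | c ≠ 0}` of the projective space `RP^n`. -/
structure TotallySkew (n N : ℕ) (S : Set ℝ) (F : RR (n + 1) → RR N) : Prop where
  smooth : SmoothOff F
  hom : ∀ c ∈ S, ∀ x, x ≠ 0 → F (c • x) = F x
  imm : ∀ x, x ≠ 0 → ∀ v, D F x v = 0 → ∃ c : ℝ, v = c • x
  skew : ∀ x, x ≠ 0 → ∀ y, y ≠ 0 → (∀ c ∈ S, y ≠ c • x) → SkewAt F x y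

theorem totallySkew_iff {n N : ℕ} {S : Set ℝ} {F : RR (n + 1) → RR N} :
    TotallySkew n N S F ↔ TSkew n N S F :=
  ⟨fun h => ⟨h.smooth, h.hom, h.imm, h.skew⟩, fun h => ⟨h.smooth, h.hom, h.imm, h.skew⟩⟩

/-- The sphere `S^n` has a totally skew embedding into `ℝ^N`. -/
def SphereIn (n N : ℕ) : Prop := ∃ F : RR (n + 1) → RR N, TotallySkew n N {c | 0 < c} F

/-- The projective space `RP^n` has a totally skew embedding into `ℝ^N`. -/
def ProjIn (n N : ℕ) : Prop := ∃ F : RR (n + 1) → RR N, TotallySkew n N {c | c ≠ 0} F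

/-- A bilinear form on `ℝ^m`. -/
abbrev Form (m : ℕ) : Type := LinearMap.BilinForm ℝ (RR m)

/-- The bilinear form `b` is symmetric. -/
def SymForm {m : ℕ} (b : Form m) : Prop := ∀ x y, b x y = b y x

/-- The bilinear form `b` is symmetric and positive definite. -/
def PosForm {m : ℕ} (b : Form m) : Prop := SymForm b ∧ ∀ x, x ≠ 0 → 0 < b x x

/-- No two nonzero vectors are orthogonal for all of `b, B_1, …, B_s`. -/
def Nonsing {m s : ℕ} (b : Form m) (B : Fin s → Form m) : Prop :=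
  ∀ x y, b x y = 0 → (∀ i, B i x y = 0) → x = 0 ∨ y = 0

theorem sphereIn_of_forms {n s : ℕ} {b : Form (n + 1)} {B : Fin s → Form (n + 1)}
    (hb : PosForm b) (hB : ∀ i, SymForm (B i)) (h : Nonsing b B) : SphereIn n (n + 1 + s) :=
  ⟨_, totallySkew_iff.mpr (skew_of_forms b B hb.1 hb.2 hB h)⟩

theorem sphereIn_all (n : ℕ) : SphereIn n (3 * n + 1) := by
  obtain ⟨F, hF⟩ := sphere_all n
  exact ⟨F, totallySkew_iff.mpr hF⟩

theorem sphereIn_odd {n : ℕ} (hn : Odd n) (h3 : 3 ≤ n) : SphereIn n (3 * n) := by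
  obtain ⟨F, hF⟩ := sphere_odd hn h3
  exact ⟨F, totallySkew_iff.mpr hF⟩

theorem SphereIn.pad {n N M : ℕ} (hNM : N ≤ M) (h : SphereIn n N) : SphereIn n M := by
  obtain ⟨F, hF⟩ := h
  obtain ⟨G, hG⟩ := TSkew.pad hNM ⟨F, totallySkew_iff.mp hF⟩
  exact ⟨G, totallySkew_iff.mpr hG⟩

theorem ProjIn.pad {n N M : ℕ} (hNM : N ≤ M) (h : ProjIn n N) : ProjIn n M := by
  obtain ⟨F, hF⟩ := h
  obtain ⟨G, hG⟩ := TSkew.pad hNM ⟨F, totallySkew_iff.mp hF⟩
  exact ⟨G, totallySkew_iff.mpr hG⟩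

theorem projIn_two {N : ℕ} (h : ProjIn 2 N) : 7 ≤ N := by
  by_contra hN
  obtain ⟨F, hF⟩ := ProjIn.pad (M := 6) (by omega) h
  exact no_proj_six (totallySkew_iff.mp hF)

end Pool.Agent.Lib.Skw
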