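import Pool.Agent.Lib.Skw.Cur
import Pool.Agent.Lib.Skw.Hy3

set_option autoImplicit false

/-!
# The totally skew map of `ℝ^2 × ℝ^2` into `ℝ^10` (MP_3c016c_gt)
-/

open scoped ContDiff
open Complex

namespace Pool.Agent.Lib.Skw

/-- the plane as the complex numbers -/
noncomputable def jj : Eu 2 →L[ℝ] ℂ :=
  ofRealCLM.comp (EuclideanSpace.proj (𝕜 := ℝ) (0 : Fin 2)) +
    I • ofRealCLM.comp (EuclideanSpace.proj (𝕜 := ℝ) (1 : Fin 2))

theorem jj_apply (z : Eu 2) : jj z = (z 0 : ℂ) + I * (z 1 : ℂ) := by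
  simp [jj]

theorem jj_zero {z : Eu 2} (h : jj z = 0) : z = 0 := by
  rw [jj_apply] at h
  have h1 := congrArg Complex.re h
  have h2 := congrArg Complex.im h
  simp at h1 h2
  ext i
  fin_cases i
  · simpa using h1
  · simpa using h2

noncomputable def cA : E4 →L[ℝ] ℂ := jj.comp (ContinuousLinearMap.fst ℝ (Eu 2) (Eu 2))

noncomputable def cB : E4 →L[ℝ] ℂ := jj.comp (ContinuousLinearMap.snd ℝ (Eu 2) (Eu 2))

/-- the five complex functions -/
noncomputable def cG (p : E4) : Fin 5 → ℂ := ![cA p, cB p, cA p ^ 2, cA p * cB p, cB p ^ 2 + cA p ^ 3]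

/-- the map -/
noncomputable def F10 (p : E4) : Eu 10 := WithLp.toLp 2 (![(cG p 0).re, (cG p 0).im, (cG p 1).re,
  (cG p 1).im, (cG p 2).re, (cG p 2).im, (cG p 3).re, (cG p 3).im, (cG p 4).re, (cG p 4).im] :
    Fin 10 → ℝ)

theorem cG_smooth (k : Fin 5) : ContDiff ℝ ∞ fun p => cG p k := by
  have hA : ContDiff ℝ ∞ fun p : E4 => cA p := cA.contDiff
  have hB : ContDiff ℝ ∞ fun p : E4 => cB p := cB.contDiff
  fin_cases k
  · exact hA
  · exact hB
  · exact hA.pow 2
  · exact hA.mul hB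
  · exact (hB.pow 2).add (hA.pow 3)

theorem F10_smooth : ContDiff ℝ ∞ F10 := by
  rw [contDiff_euclidean]
  intro i
  have hr : ∀ k : Fin 5, ContDiff ℝ ∞ fun p => (cG p k).re := fun k =>
    reCLM.contDiff.comp (cG_smooth k)
  have hi : ∀ k : Fin 5, ContDiff ℝ ∞ fun p => (cG p k).im := fun k =>
    imCLM.contDiff.comp (cG_smooth k)
  fin_cases i
  · exact hr 0
  · exact hi 0
  · exact hr 1
  · exact hi 1
  · exact hr 2
  · exact hi 2
  · exact hr 3
  · exact hi 3
  · exact hr 4
  · exact hi 4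

/-- a pair of real coordinates as a complex number -/
noncomputable def cp (i j : Fin 10) : Eu 10 →L[ℝ] ℂ :=
  ofRealCLM.comp (EuclideanSpace.proj (𝕜 := ℝ) i) + I • ofRealCLM.comp (EuclideanSpace.proj (𝕜 := ℝ) j)

theorem cp_apply (i j : Fin 10) (y : Eu 10) : cp i j y = (y i : ℂ) + I * (y j : ℂ) := by
  simp [cp]

theorem re_im (w : ℂ) : (w.re : ℂ) + I * (w.im : ℂ) = w := by
  rw [mul_comm]
  exact re_add_im w

theorem cp0 (p : E4) : cp 0 1 (F10 p) = cA p := by
  rw [cp_apply]
  exact re_im _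

theorem cp1 (p : E4) : cp 2 3 (F10 p) = cB p := by
  rw [cp_apply]
  exact re_im _

theorem cp2 (p : E4) : cp 4 5 (F10 p) = cA p ^ 2 := by
  rw [cp_apply]
  exact re_im _

theorem cp3 (p : E4) : cp 6 7 (F10 p) = cA p * cB p := by
  rw [cp_apply]
  exact re_im _

theorem cp4 (p : E4) : cp 8 9 (F10 p) = cB p ^ 2 + cA p ^ 3 := by
  rw [cp_apply]
  exact re_im _

theorem comp_d4 (T : Eu 10 →L[ℝ] ℂ) (p v : E4) : T (d4 F10 p v) = fderiv ℝ (fun x => T (F10 x)) p v := by
  have h1 : HasFDerivAt F10 (fderiv ℝ F10 p) p :=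
    (F10_smooth.differentiable (by simp)).differentiableAt.hasFDerivAt
  have h2 := (T.hasFDerivAt.comp p h1).fderiv
  have h3 : (fun x => T (F10 x)) = T ∘ F10 := rfl
  rw [h3, h2]
  rfl

theorem d0 (p v : E4) : cp 0 1 (d4 F10 p v) = cA v := by
  rw [comp_d4]
  simp only [cp0]
  rw [cA.fderiv]

theorem d1 (p v : E4) : cp 2 3 (d4 F10 p v) = cB v := by
  rw [comp_d4]
  simp only [cp1]
  rw [cB.fderiv]

theorem d2 (p v : E4) : cp 4 5 (d4 F10 p v) = 2 * cA p * cA v := by
  rw [comp_d4]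
  simp only [cp2]
  have h : HasFDerivAt (fun x : E4 => cA x ^ 2) _ p := (cA.hasFDerivAt (x := p)).pow 2
  rw [h.fderiv]
  simp

theorem d3' (p v : E4) : cp 6 7 (d4 F10 p v) = cA p * cB v + cB p * cA v := by
  rw [comp_d4]
  simp only [cp3]
  have h : HasFDerivAt (fun x : E4 => cA x * cB x) _ p :=
    (cA.hasFDerivAt (x := p)).mul (cB.hasFDerivAt (x := p))
  rw [h.fderiv]
  simp

theorem d4' (p v : E4) : cp 8 9 (d4 F10 p v) = 2 * cB p * cB v + 3 * cA p ^ 2 * cA v := by
  rw [comp_d4]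
  simp only [cp4]
  have h : HasFDerivAt (fun x : E4 => cB x ^ 2 + cA x ^ 3) _ p :=
    ((cB.hasFDerivAt (x := p)).pow 2).add ((cA.hasFDerivAt (x := p)).pow 3)
  rw [h.fderiv]
  simp

theorem F10_skew {ρ : Eu 2 → ℝ} {p q : E4} (hpq : p ≠ q) : Skew4 ρ F10 p q := by
  intro v w hv hw l h
  have key : ∀ T : Eu 10 →L[ℝ] ℂ, T (d4 F10 p v) + T (d4 F10 q w) =
      (l : ℂ) * (T (F10 p) - T (F10 q)) := by
    intro T
    have := congrArg T h
    rw [map_add, map_smul, map_sub] at this
    rw [this]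
    simp
  have e0 := key (cp 0 1)
  have e1 := key (cp 2 3)
  have e2 := key (cp 4 5)
  have e3 := key (cp 6 7)
  have e4 := key (cp 8 9)
  rw [d0, d0, cp0, cp0] at e0
  rw [d1, d1, cp1, cp1] at e1
  rw [d2, d2, cp2, cp2] at e2
  rw [d3', d3', cp3, cp3] at e3
  rw [d4', d4', cp4, cp4] at e4
  have hzero : ∀ x : E4, cA x = 0 → cB x = 0 → x = 0 := fun x h1 h2 =>
    Prod.ext (jj_zero h1) (jj_zero h2)
  have fA : (cA p - cA q) * (2 * cA v - l * (cA p - cA q)) = 0 := by
    have : cA w = l * (cA p - cA q) - cA v := by linear_combination e0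
    rw [this] at e2
    linear_combination e2
  have hAw : cA w = l * (cA p - cA q) - cA v := by linear_combination e0
  have hBw : cB w = l * (cB p - cB q) - cB v := by linear_combination e1
  have fB : (cA p - cA q) * (2 * cB v - l * (cB p - cB q)) +
      (cB p - cB q) * (2 * cA v - l * (cA p - cA q)) = 0 := by
    rw [hAw, hBw] at e3
    linear_combination 2 * e3
  by_cases hd : cA p - cA q = 0
  · have hdB : cB p - cB q ≠ 0 := by
      intro h2
      apply hpq
      have := hzero (p - q) (by rw [map_sub, hd]) (by rw [map_sub, h2])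
      exact sub_eq_zero.1 this
    have hAv : cA v = 0 := by
      rw [hd] at fB
      have h3 : (cB p - cB q) * (2 * cA v) = 0 := by linear_combination fB
      have := (mul_eq_zero.1 h3).resolve_left hdB
      linear_combination this / 2
    have hAw0 : cA w = 0 := by rw [hAw, hd, hAv]; ring
    have hqp : cA q = cA p := by linear_combination -hd
    have fC : (cB p - cB q) * (2 * cB v - l * (cB p - cB q)) = 0 := by
      rw [hAv, hAw0, hBw, hqp] at e4
      linear_combination e4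
    have hBv : 2 * cB v = l * (cB p - cB q) := by
      have := (mul_eq_zero.1 fC).resolve_left hdB
      linear_combination this
    -- back to the plane
    have v1 : v.1 = 0 := jj_zero hAv
    have w1 : w.1 = 0 := jj_zero hAw0
    have v2 : v.2 = (l / 2) • (p.2 - q.2) := by
      rw [← sub_eq_zero]
      apply jj_zero
      rw [map_sub, map_smul, map_sub]
      have h5 : jj v.2 = cB v := rfl
      have h6 : jj p.2 = cB p := rfl
      have h7 : jj q.2 = cB q := rfl
      rw [h5, h6, h7, real_smul]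
      push_cast
      linear_combination hBv / 2
    have w2 : w.2 = (l / 2) • (p.2 - q.2) := by
      rw [← sub_eq_zero]
      apply jj_zero
      rw [map_sub, map_smul, map_sub]
      have h5 : jj w.2 = cB w := rfl
      have h6 : jj p.2 = cB p := rfl
      have h7 : jj q.2 = cB q := rfl
      rw [h5, h6, h7, real_smul, hBw]
      push_cast
      linear_combination -hBv / 2
    have hv' : 2 * inner ℝ p.2 v.2 = fderiv ℝ ρ p.1 v.1 := hv
    have hw' : 2 * inner ℝ q.2 w.2 = fderiv ℝ ρ q.1 w.1 := hw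
    rw [v1, map_zero, v2, inner_smul_right] at hv'
    rw [w1, map_zero, w2, inner_smul_right] at hw'
    have h8 : l * inner ℝ (p.2 - q.2) (p.2 - q.2) = 0 := by
      rw [inner_sub_left]
      linear_combination hv' - hw'
    have h9 : inner ℝ (p.2 - q.2) (p.2 - q.2) ≠ 0 := by
      rw [inner_self_ne_zero]
      intro h10
      apply hdB
      have h6 : jj p.2 = cB p := rfl
      have h7 : jj q.2 = cB q := rfl
      rw [← h6, ← h7, ← map_sub, h10, map_zero]
    have hl : l = 0 := (mul_eq_zero.1 h8).resolve_right h9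
    refine ⟨Prod.ext v1 ?_, Prod.ext w1 ?_, hl⟩
    · rw [v2, hl]; simp
    · rw [w2, hl]; simp
  · have gA : 2 * cA v - l * (cA p - cA q) = 0 := (mul_eq_zero.1 fA).resolve_left hd
    have gB : 2 * cB v - l * (cB p - cB q) = 0 := by
      rw [gA, mul_zero, add_zero] at fB
      exact (mul_eq_zero.1 fB).resolve_left hd
    have hAv : cA v = l * (cA p - cA q) / 2 := by linear_combination gA / 2
    have hBv : cB v = l * (cB p - cB q) / 2 := by linear_combination gB / 2
    have h5 : (l : ℂ) * (cA p - cA q) ^ 3 = 0 := by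
      rw [hAw, hBw, hAv, hBv] at e4
      linear_combination 2 * e4
    have hl : (l : ℂ) = 0 := (mul_eq_zero.1 h5).resolve_right (pow_ne_zero 3 hd)
    have hl' : l = 0 := by exact_mod_cast hl
    refine ⟨hzero v ?_ ?_, hzero w ?_ ?_, hl'⟩
    · rw [hAv, hl]; ring
    · rw [hBv, hl]; ring
    · rw [hAw, hAv, hl]; ring
    · rw [hBw, hBv, hl]; ring

theorem F10_ts (ρ : Eu 2 → ℝ) : TSSpun ρ 10 F10 where
  smooth := F10_smooth
  imm := by
    intro p _ v _ h
    have h0 := congrArg (cp 0 1) h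
    have h1 := congrArg (cp 2 3) h
    rw [d0, map_zero] at h0
    rw [d1, map_zero] at h1
    exact Prod.ext (jj_zero h0) (jj_zero h1)
  skew := fun _ _ _ _ h => F10_skew h

theorem SpunIn.pad {ρ : Eu 2 → ℝ} {N M : ℕ} (hNM : N ≤ M) (h : SpunIn ρ N) : SpunIn ρ M := by
  obtain ⟨f, hf⟩ := h
  obtain ⟨L, hL⟩ := exists_inj hNM
  have hfs : ContDiff ℝ ∞ f := hf.smooth
  have hd : ∀ p v, d4 (fun p => L (f p)) p v = L (d4 f p v) := by
    intro p v
    have h1 : DifferentiableAt ℝ f p := (hfs.contDiffAt).differentiableAt (by simp)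
    have h2 := (L.hasFDerivAt (x := f p)).comp p h1.hasFDerivAt
    have h3 : fderiv ℝ (fun p => L (f p)) p = L.comp (fderiv ℝ f p) := h2.fderiv
    show fderiv ℝ (fun p => L (f p)) p v = L (fderiv ℝ f p v)
    rw [h3]
    rfl
  refine ⟨fun p => L (f p), L.contDiff.comp hfs, fun p hp v hv hfv => hf.imm p hp v hv ?_,
    fun p hp q hq hne v w hv hw l he => hf.skew p hp q hq hne v w hv hw l ?_⟩
  · rw [hd] at hfv
    exact hL (hfv.trans (map_zero L).symm)
  · rw [hd, hd, ← map_add, ← map_sub, ← map_smul] at he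
    exact hL he

end Pool.Agent.Lib.Skw
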